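import Pool.Agent.WEL.Defs

/-!
# WEL A1
Spectral data.  Hint: `Matrix.IsHermitian.spectral_theorem` / `eigenvectorBasis` for the real symmetric matrix
`Matrix.of K`; take `f j = max 0 (min 1 ((μ j - a) / (1 - a)))`.
-/

set_option autoImplicit false

open MeasureTheory Set Filter Topology
open CLR (E3 Z3 lapB)

noncomputable section

namespace WEL

theorem A1 {B : Type} [Fintype B] [DecidableEq B] (K : B → B → ℝ) (hK : ∀ x y, K x y = K y x)
    (a : ℝ) (ha0 : 0 < a) (ha1 : a < 1) : ∃ U μ f, Spec K a U μ f := by
  have hM : (Matrix.of K).IsHermitian := by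
    ext x y
    rw [Matrix.conjTranspose_apply, Matrix.of_apply, Matrix.of_apply, star_trivial]
    exact hK y x
  have h1a : 0 < 1 - a := by linarith
  have hcols : ∀ j j', ∑ x, hM.eigenvectorBasis j x * hM.eigenvectorBasis j' x = if j = j' then 1 else 0 := by
    intro j j'
    have h := orthonormal_iff_ite.1 hM.eigenvectorBasis.orthonormal j j'
    rw [← h, PiLp.inner_apply]
    refine Finset.sum_congr rfl fun x _ => ?_
    simp [mul_comm]
  have hrows : ∀ x y, ∑ j, hM.eigenvectorBasis j x * hM.eigenvectorBasis j y = if x = y then 1 else 0 := by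
    intro x y
    have h1 : (Matrix.of fun x j => hM.eigenvectorBasis j x : Matrix B B ℝ).transpose *
        (Matrix.of fun x j => hM.eigenvectorBasis j x : Matrix B B ℝ) = 1 := by
      ext j j'
      rw [Matrix.mul_apply, Matrix.one_apply, ← hcols j j']
      rfl
    have h2 := mul_eq_one_comm.1 h1
    have h3 := congrFun (congrFun h2 x) y
    rw [Matrix.mul_apply, Matrix.one_apply] at h3
    rw [← h3]
    rfl
  have heig : ∀ x j, ∑ y, K x y * hM.eigenvectorBasis j y = hM.eigenvalues j * hM.eigenvectorBasis j x := by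
    intro x j
    have h := congrFun (hM.mulVec_eigenvectorBasis j) x
    simpa [Matrix.mulVec, dotProduct] using h
  refine ⟨fun x j => hM.eigenvectorBasis j x, hM.eigenvalues,
    fun j => max 0 (min 1 ((hM.eigenvalues j - a) / (1 - a))), hcols, hrows, ?_, ?_, ?_, ?_, ?_, ?_⟩
  · intro x y
    have h1 : K x y = ∑ z, K x z * (if z = y then 1 else 0) := by
      simp
    rw [h1]
    have h2 : ∀ z, K x z * (if z = y then (1 : ℝ) else 0) =
        ∑ j, K x z * (hM.eigenvectorBasis j z * hM.eigenvectorBasis j y) := by
      intro z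
      rw [← hrows z y, Finset.mul_sum]
    simp only [h2]
    rw [Finset.sum_comm]
    refine Finset.sum_congr rfl fun j _ => ?_
    rw [← heig x j, Finset.sum_mul]
    refine Finset.sum_congr rfl fun z _ => ?_
    ring
  · intro j
    exact le_max_left _ _
  · intro j
    exact max_le zero_le_one (min_le_left _ _)
  · intro j hj
    have h1 : (hM.eigenvalues j - a) / (1 - a) ≤ 0 := div_nonpos_of_nonpos_of_nonneg (by linarith) h1a.le
    exact max_eq_left ((min_le_right _ _).trans h1)
  · intro j h1 h2
    have h3 : 0 ≤ (hM.eigenvalues j - a) / (1 - a) := div_nonneg (by linarith) h1a.le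
    have h4 : (hM.eigenvalues j - a) / (1 - a) ≤ 1 := by
      rw [div_le_one h1a]
      linarith
    show max 0 (min 1 ((hM.eigenvalues j - a) / (1 - a))) = _
    rw [min_eq_right h4, max_eq_right h3]
  · intro j h1
    have h4 : 1 ≤ (hM.eigenvalues j - a) / (1 - a) := by
      rw [one_le_div h1a]
      linarith
    show max 0 (min 1 ((hM.eigenvalues j - a) / (1 - a))) = _
    rw [min_eq_left h4, max_eq_right zero_le_one]

end WEL
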