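import Pool.Agent.WEL.Defs

/-!
# WEL A2
Counting.  If the form of `K` exceeds the norm on an `n`-dimensional space then at least `n` of the
`μ j` are `> 1` (dimension argument: otherwise some nonzero combination is orthogonal to all `U · j` with `1 < μ j`);
for these `f j = 1`, and `f j (μ j - a)/(1-a) ≥ f j ^ 2` if `f j < 1`, `≥ 1` if `f j = 1` (note `f j = 1 ↔ 1 ≤ μ j`).
-/

set_option autoImplicit false

open MeasureTheory Set Filter Topology
open CLR (E3 Z3 lapB)

noncomputable section

namespace WEL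

theorem A2_parseval {B : Type} [Fintype B] [DecidableEq B] (U : B → B → ℝ)
    (hr : ∀ x y, ∑ j, U x j * U y j = if x = y then 1 else 0) (v : B → ℝ) :
    ∑ x, v x ^ 2 = ∑ j, (∑ x, v x * U x j) ^ 2 := by
  have h1 : ∀ j, (∑ x, v x * U x j) ^ 2 = ∑ x, ∑ y, v x * v y * (U x j * U y j) := by
    intro j
    rw [sq, Finset.sum_mul_sum]
    refine Finset.sum_congr rfl fun x _ => Finset.sum_congr rfl fun y _ => ?_
    ring
  simp only [h1]
  rw [Finset.sum_comm]
  refine Finset.sum_congr rfl fun x _ => ?_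
  rw [Finset.sum_comm]
  have h2 : ∀ y, ∑ j, v x * v y * (U x j * U y j) = v x * v y * (if x = y then 1 else 0) := by
    intro y
    rw [← Finset.mul_sum, hr]
  simp only [h2]
  simp [sq]

theorem A2_form {B : Type} [Fintype B] (K : B → B → ℝ) (U : B → B → ℝ) (μ : B → ℝ)
    (he : ∀ x y, K x y = ∑ j, μ j * U x j * U y j) (v : B → ℝ) :
    ∑ x, ∑ y, v x * K x y * v y = ∑ j, μ j * (∑ x, v x * U x j) ^ 2 := by
  have h1 : ∀ j, μ j * (∑ x, v x * U x j) ^ 2 = ∑ x, ∑ y, v x * (μ j * U x j * U y j) * v y := by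
    intro j
    rw [sq, Finset.sum_mul_sum, Finset.mul_sum]
    refine Finset.sum_congr rfl fun x _ => ?_
    rw [Finset.mul_sum]
    refine Finset.sum_congr rfl fun y _ => ?_
    ring
  simp only [h1]
  conv_rhs => rw [Finset.sum_comm]
  refine Finset.sum_congr rfl fun x _ => ?_
  conv_rhs => rw [Finset.sum_comm]
  refine Finset.sum_congr rfl fun y _ => ?_
  rw [he x y, Finset.mul_sum, Finset.sum_mul]

open Classical in
theorem A2 {B : Type} [Fintype B] [DecidableEq B] (K : B → B → ℝ) (a : ℝ) (ha0 : 0 < a)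
    (ha1 : a < 1) (U : B → B → ℝ) (μ f : B → ℝ) (hS : Spec K a U μ f) (n : ℕ)
    (ψ : Fin n → B → ℝ)
    (hψ : ∀ c : Fin n → ℝ, c ≠ 0 →
      ∑ x, (∑ i, c i * ψ i x) ^ 2 <
        ∑ x, ∑ y, (∑ i, c i * ψ i x) * K x y * (∑ i, c i * ψ i y)) :
    (n : ℝ) + ∑ j, (if f j < 1 then f j ^ 2 else 0) ≤
      (∑ j, f j * μ j - a * ∑ j, f j) / (1 - a) := by
  have h1a : 0 < 1 - a := by linarith
  -- the eigenvalues
  have hone : ∀ j, ¬ f j < 1 → 1 ≤ μ j := by
    intro j hj
    by_contra hlt
    push Not at hlt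
    rcases le_or_gt (μ j) a with h | h
    · rw [hS.flow j h] at hj
      exact hj one_pos
    · rw [hS.fmid j h.le hlt.le] at hj
      apply hj
      rw [div_lt_one h1a]
      linarith
  have hlow : ∀ j, f j < 1 → μ j < 1 := by
    intro j hj
    by_contra hge
    push Not at hge
    rw [hS.fhigh j hge] at hj
    exact lt_irrefl _ hj
  -- counting
  have hn : n ≤ Fintype.card {j // ¬ f j < 1} := by
    by_contra hcon
    rw [not_le] at hcon
    let T : (Fin n → ℝ) →ₗ[ℝ] ({j // ¬ f j < 1} → ℝ) :=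
      { toFun := fun c j => ∑ x, (∑ i, c i * ψ i x) * U x j.1
        map_add' := by
          intro c c'
          funext j
          simp only [Pi.add_apply, add_mul, Finset.sum_add_distrib]
        map_smul' := by
          intro r c
          funext j
          simp only [Pi.smul_apply, smul_eq_mul, RingHom.id_apply]
          rw [Finset.mul_sum]
          refine Finset.sum_congr rfl fun x _ => ?_
          rw [← mul_assoc, Finset.mul_sum]
          congr 1
          refine Finset.sum_congr rfl fun i _ => ?_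
          ring }
    have hker : LinearMap.ker T ≠ ⊥ := by
      apply LinearMap.ker_ne_bot_of_finrank_lt
      rw [Module.finrank_fintype_fun_eq_card, Module.finrank_fintype_fun_eq_card, Fintype.card_fin]
      exact hcon
    obtain ⟨c, hc, hc0⟩ := Submodule.exists_mem_ne_zero_of_ne_bot hker
    have hT : ∀ j, ¬ f j < 1 → ∑ x, (∑ i, c i * ψ i x) * U x j = 0 := by
      intro j hj
      have := congrFun (LinearMap.mem_ker.1 hc) ⟨j, hj⟩
      exact this
    have h1 := hψ c hc0
    rw [A2_parseval U hS.rows, A2_form K U μ hS.eig (fun x => ∑ i, c i * ψ i x)] at h1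
    refine absurd h1 (not_lt.2 (Finset.sum_le_sum fun j _ => ?_))
    by_cases hj : f j < 1
    · have h2 := (hlow j hj).le
      have h3 := sq_nonneg (∑ x, (∑ i, c i * ψ i x) * U x j)
      nlinarith
    · rw [hT j hj]
      simp
  -- the terms
  have hterm : ∀ j, (if f j < 1 then f j ^ 2 else 0) + (if ¬ f j < 1 then (1 : ℝ) else 0) ≤
      (f j * μ j - a * f j) / (1 - a) := by
    intro j
    by_cases hj : f j < 1
    · rw [if_pos hj, if_neg (not_not.2 hj), add_zero]
      rcases le_or_gt (μ j) a with h | h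
      · rw [hS.flow j h]
        simp
      · have h2 := hS.fmid j h.le (hlow j hj).le
        have h3 : (f j * μ j - a * f j) / (1 - a) = f j * ((μ j - a) / (1 - a)) := by ring
        rw [h3, ← h2, sq]
    · rw [if_neg hj, if_pos hj, zero_add]
      have h2 := hone j hj
      rw [hS.fhigh j h2, one_le_div h1a]
      linarith
  have hsum : (∑ j, f j * μ j - a * ∑ j, f j) / (1 - a) = ∑ j, (f j * μ j - a * f j) / (1 - a) := by
    rw [← Finset.sum_div, Finset.sum_sub_distrib, Finset.mul_sum]
  have hcard : ∑ j, (if ¬ f j < 1 then (1 : ℝ) else 0) = (Fintype.card {j // ¬ f j < 1} : ℝ) := by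
    rw [Finset.sum_boole, Fintype.card_subtype]
  have hn' : (n : ℝ) ≤ (Fintype.card {j // ¬ f j < 1} : ℝ) := by exact_mod_cast hn
  rw [hsum]
  calc (n : ℝ) + ∑ j, (if f j < 1 then f j ^ 2 else 0)
      ≤ ∑ j, (if f j < 1 then f j ^ 2 else 0) + ∑ j, (if ¬ f j < 1 then (1 : ℝ) else 0) := by
        rw [hcard]
        linarith
    _ = ∑ j, ((if f j < 1 then f j ^ 2 else 0) + (if ¬ f j < 1 then (1 : ℝ) else 0)) := by
        rw [Finset.sum_add_distrib]
    _ ≤ _ := Finset.sum_le_sum fun j _ => hterm j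

end WEL
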