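import Pool.Agent.WEL.Defs

/-!
# WEL A3
Commutator inequality for one phase.  With `R = (K - a)/(1-a) - A` (eigenvalues `ρ k = (μ k - a)/(1-a) - f k`),
`∑ A x y * R x y * (1 - cos(θ x - θ y)) = ∑_k ρ k (f k - ∑_j f j |G_jk|²)` with
`|G_jk|² = (∑_x U x j U x k cos θ x)² + (∑_x U x j U x k sin θ x)²`, `∑_j |G_jk|² = 1` (rows), and every term is `≥ 0`
(if `ρ k > 0` then `f k = 1`; if `ρ k < 0` then `f k = 0`).  The difference between `K/(1-a) - A` and `R` is a multiple of the
identity, which does not matter since `1 - cos 0 = 0`.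
-/

set_option autoImplicit false

open MeasureTheory Set Filter Topology
open CLR (E3 Z3 lapB)

noncomputable section

namespace WEL

theorem A3_parseval {B : Type} [Fintype B] [DecidableEq B] (U : B → B → ℝ)
    (hr : ∀ x y, ∑ j, U x j * U y j = if x = y then 1 else 0) (v : B → ℝ) :
    ∑ j, (∑ x, U x j * v x) ^ 2 = ∑ x, v x ^ 2 := by
  have h1 : ∀ j, (∑ x, U x j * v x) ^ 2 = ∑ x, ∑ y, v x * v y * (U x j * U y j) := by
    intro j
    rw [sq, Finset.sum_mul_sum]
    refine Finset.sum_congr rfl fun x _ => Finset.sum_congr rfl fun y _ => ?_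
    ring
  simp only [h1]
  rw [Finset.sum_comm]
  refine Finset.sum_congr rfl fun x _ => ?_
  rw [Finset.sum_comm]
  have h2 : ∀ y, ∑ j, v x * v y * (U x j * U y j) = v x * v y * (if x = y then 1 else 0) := by
    intro y
    rw [← Finset.mul_sum, hr]
  simp only [h2]
  simp [sq]

theorem A3_sq {B : Type} [Fintype B] (U : B → B → ℝ) (f ρ h : B → ℝ) :
    ∑ x, ∑ y, AF U f x y * AF U ρ x y * (h x * h y) =
      ∑ k, ∑ j, f j * ρ k * (∑ x, U x j * (U x k * h x)) ^ 2 := by
  have h1 : ∀ x y, AF U f x y * AF U ρ x y * (h x * h y) =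
      ∑ k, ∑ j, f j * ρ k * ((U x j * (U x k * h x)) * (U y j * (U y k * h y))) := by
    intro x y
    unfold AF
    rw [mul_comm (∑ j, f j * U x j * U y j), Finset.sum_mul_sum, Finset.sum_mul]
    refine Finset.sum_congr rfl fun k _ => ?_
    rw [Finset.sum_mul]
    refine Finset.sum_congr rfl fun j _ => ?_
    ring
  have h2 : ∀ k j, f j * ρ k * (∑ x, U x j * (U x k * h x)) ^ 2 =
      ∑ x, ∑ y, f j * ρ k * ((U x j * (U x k * h x)) * (U y j * (U y k * h y))) := by
    intro k j
    rw [sq, Finset.sum_mul_sum, Finset.mul_sum]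
    refine Finset.sum_congr rfl fun x _ => ?_
    rw [Finset.mul_sum]
  simp only [h1, h2]
  have h3 : ∀ x, ∑ y, ∑ k, ∑ j, f j * ρ k * ((U x j * (U x k * h x)) * (U y j * (U y k * h y))) =
      ∑ k, ∑ j, ∑ y, f j * ρ k * ((U x j * (U x k * h x)) * (U y j * (U y k * h y))) := by
    intro x
    rw [Finset.sum_comm]
    refine Finset.sum_congr rfl fun k _ => ?_
    rw [Finset.sum_comm]
  simp only [h3]
  rw [Finset.sum_comm]
  refine Finset.sum_congr rfl fun k _ => ?_
  rw [Finset.sum_comm]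

theorem A3 {B : Type} [Fintype B] [DecidableEq B] (K : B → B → ℝ) (a : ℝ) (ha0 : 0 < a)
    (ha1 : a < 1) (U : B → B → ℝ) (μ f : B → ℝ) (hS : Spec K a U μ f) (θ : B → ℝ) :
    0 ≤ ∑ x, ∑ y, AF U f x y * (K x y / (1 - a) - AF U f x y) * (1 - Real.cos (θ x - θ y)) := by
  have h1a : 0 < 1 - a := by linarith
  obtain ⟨ρ, hρ⟩ : ∃ ρ : B → ℝ, ρ = fun k => (μ k - a) / (1 - a) - f k := ⟨_, rfl⟩
  have hsign : ∀ k j, 0 ≤ ρ k * (f k - f j) := by
    intro k j
    rw [hρ]
    simp only
    rcases le_total (μ k) a with h | h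
    · rw [hS.flow k h]
      have h1 : (μ k - a) / (1 - a) ≤ 0 := div_nonpos_of_nonpos_of_nonneg (by linarith) h1a.le
      have h2 := hS.f0 j
      nlinarith
    · rcases le_total (μ k) 1 with h' | h'
      · rw [hS.fmid k h h']
        simp
      · rw [hS.fhigh k h']
        have h1 : 1 ≤ (μ k - a) / (1 - a) := by
          rw [one_le_div h1a]
          linarith
        exact mul_nonneg (by linarith) (by linarith [hS.f1 j])
  have hR : ∀ x y, AF U ρ x y = K x y / (1 - a) - AF U f x y - a / (1 - a) * (if x = y then 1 else 0) := by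
    intro x y
    rw [hS.eig x y, ← hS.rows x y]
    unfold AF
    rw [Finset.sum_div, Finset.mul_sum, ← Finset.sum_sub_distrib, ← Finset.sum_sub_distrib]
    refine Finset.sum_congr rfl fun k _ => ?_
    rw [hρ]
    simp only
    field_simp
    ring
  have hterm : ∀ x y, AF U f x y * (K x y / (1 - a) - AF U f x y) * (1 - Real.cos (θ x - θ y)) =
      AF U f x y * AF U ρ x y * ((1 : ℝ) * 1) - AF U f x y * AF U ρ x y * (Real.cos (θ x) * Real.cos (θ y)) -
        AF U f x y * AF U ρ x y * (Real.sin (θ x) * Real.sin (θ y)) := by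
    intro x y
    by_cases hxy : x = y
    · subst hxy
      rw [sub_self, Real.cos_zero, sub_self, mul_zero]
      have h := Real.sin_sq_add_cos_sq (θ x)
      linear_combination (AF U f x x * AF U ρ x x) * h
    · rw [hR x y, if_neg hxy, Real.cos_sub]
      ring
  simp only [hterm]
  rw [Finset.sum_congr rfl fun x _ => Finset.sum_sub_distrib .., Finset.sum_sub_distrib,
    Finset.sum_congr rfl fun x _ => Finset.sum_sub_distrib .., Finset.sum_sub_distrib,
    A3_sq U f ρ (fun _ => 1), A3_sq U f ρ (fun x => Real.cos (θ x)), A3_sq U f ρ (fun x => Real.sin (θ x))]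
  obtain ⟨g, hg⟩ : ∃ g : B → B → ℝ, g = fun j k => (∑ x, U x j * (U x k * Real.cos (θ x))) ^ 2 +
      (∑ x, U x j * (U x k * Real.sin (θ x))) ^ 2 := ⟨_, rfl⟩
  have hg0 : ∀ j k, 0 ≤ g j k := fun j k => by rw [hg]; positivity
  have hg1 : ∀ k, ∑ j, g j k = 1 := by
    intro k
    rw [hg]
    simp only
    rw [Finset.sum_add_distrib, A3_parseval U hS.rows, A3_parseval U hS.rows, ← Finset.sum_add_distrib]
    have h := hS.cols k k
    rw [if_pos rfl] at h
    rw [← h]
    refine Finset.sum_congr rfl fun x _ => ?_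
    have h2 := Real.sin_sq_add_cos_sq (θ x)
    linear_combination (U x k * U x k) * h2
  have h1 : ∀ k, ∑ j, f j * ρ k * (∑ x, U x j * (U x k * 1)) ^ 2 = ρ k * f k := by
    intro k
    rw [Finset.sum_eq_single k]
    · have h := hS.cols k k
      rw [if_pos rfl] at h
      simp only [mul_one]
      rw [h]
      ring
    · intro j _ hj
      have h := hS.cols j k
      rw [if_neg hj] at h
      simp only [mul_one]
      rw [h]
      ring
    · intro h
      exact absurd (Finset.mem_univ _) h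
  rw [← Finset.sum_sub_distrib, ← Finset.sum_sub_distrib]
  refine Finset.sum_nonneg fun k _ => ?_
  rw [h1 k]
  have h2 : ρ k * f k - ∑ j, f j * ρ k * (∑ x, U x j * (U x k * Real.cos (θ x))) ^ 2 -
      ∑ j, f j * ρ k * (∑ x, U x j * (U x k * Real.sin (θ x))) ^ 2 = ∑ j, ρ k * (f k - f j) * g j k := by
    have h3 : ρ k * f k = ∑ j, ρ k * f k * g j k := by
      rw [← Finset.mul_sum, hg1, mul_one]
    rw [h3, ← Finset.sum_sub_distrib, ← Finset.sum_sub_distrib]
    refine Finset.sum_congr rfl fun j _ => ?_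
    rw [hg]
    simp only
    ring
  rw [h2]
  exact Finset.sum_nonneg fun j _ => mul_nonneg (hsign k j) (hg0 j k)

end WEL
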