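import Pool.Agent.WEL.Defs

/-!
# WEL A4
Fourier orthogonality on the cube.  `ph h p x - ph h p y = h ∑ i, p i (x i - y i)`.  Transfer to `Fin 3 → ℝ` with
`EuclideanSpace.volume_preserving_measurableEquiv` (or its successor) and use product structure
(`MeasureTheory.integral_fin_nat_prod_eq_prod`-type lemmas for `cexp`), or expand and integrate one variable at a time.
(iv) is a change of nothing but the phase: expand `cos (ph (p+q) ..)`.
-/

set_option autoImplicit false

open MeasureTheory Set Filter Topology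
open CLR (E3 Z3 lapB)

noncomputable section

namespace WEL

/-- the cube in coordinates -/
def A4_box (h : ℝ) : Set (Fin 3 → ℝ) := pi univ fun _ => Icc (-(Real.pi / h)) (Real.pi / h)

theorem A4_cube_eq (h : ℝ) : cube h = (@WithLp.ofLp 2 (Fin 3 → ℝ)) ⁻¹' A4_box h := by
  ext X
  simp only [cube, A4_box, Set.mem_ofPred_eq, mem_preimage, Set.mem_pi, mem_univ, forall_const, mem_Icc, abs_le]

theorem A4_box_meas (h : ℝ) : MeasurableSet (A4_box h) :=
  MeasurableSet.univ_pi fun _ => measurableSet_Icc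

theorem A4_meas (h : ℝ) : MeasurableSet (cube h) := by
  rw [A4_cube_eq]
  exact (PiLp.volume_preserving_ofLp (Fin 3)).measurable (A4_box_meas h)

theorem A4_bdd (h : ℝ) (hh : 0 < h) : Bornology.IsBounded (cube h) := by
  rw [isBounded_iff_forall_norm_le]
  refine ⟨Real.sqrt (3 * (Real.pi / h) ^ 2), fun p hp => ?_⟩
  rw [EuclideanSpace.norm_eq]
  apply Real.sqrt_le_sqrt
  calc ∑ i, ‖p i‖ ^ 2 ≤ ∑ _i : Fin 3, (Real.pi / h) ^ 2 := by
        refine Finset.sum_le_sum fun i _ => ?_
        rw [Real.norm_eq_abs]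
        exact pow_le_pow_left₀ (abs_nonneg _) (hp i) 2
    _ = 3 * (Real.pi / h) ^ 2 := by simp

theorem A4_cont (h : ℝ) (x : Z3) : Continuous fun p => ph h p x := by
  unfold ph
  fun_prop

theorem A4_closed (h : ℝ) : IsClosed (cube h) := by
  have : cube h = ⋂ i : Fin 3, {p : E3 | |p i| ≤ Real.pi / h} := by
    ext p
    simp [cube]
  rw [this]
  refine isClosed_iInter fun i => ?_
  exact isClosed_le (by fun_prop) continuous_const

theorem A4_compact (h : ℝ) (hh : 0 < h) : IsCompact (cube h) :=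
  Metric.isCompact_of_isClosed_isBounded (A4_closed h) (A4_bdd h hh)

theorem A4_int {E : Type} [NormedAddCommGroup E] (h : ℝ) (hh : 0 < h) {g : E3 → E} (hg : Continuous g) :
    IntegrableOn g (cube h) :=
  hg.continuousOn.integrableOn_compact (A4_compact h hh)

theorem A4_one (h : ℝ) (hh : 0 < h) (k : ℤ) :
    ∫ t in Icc (-(Real.pi / h)) (Real.pi / h), Complex.exp (((h * (t * (k : ℝ)) : ℝ) : ℂ) * Complex.I) =
      if k = 0 then ((2 * Real.pi / h : ℝ) : ℂ) else 0 := by
  have hle : -(Real.pi / h) ≤ Real.pi / h := by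
    have : 0 < Real.pi / h := div_pos Real.pi_pos hh
    linarith
  rw [integral_Icc_eq_integral_Ioc, ← intervalIntegral.integral_of_le hle]
  by_cases hk : k = 0
  · rw [if_pos hk, hk]
    simp only [Int.cast_zero, mul_zero, Complex.ofReal_zero, zero_mul, Complex.exp_zero,
      intervalIntegral.integral_const]
    rw [Complex.real_smul, mul_one]
    congr 1
    ring
  · rw [if_neg hk]
    have hc : (h : ℂ) * (k : ℂ) * Complex.I ≠ 0 :=
      mul_ne_zero (mul_ne_zero (by exact_mod_cast hh.ne') (by exact_mod_cast hk)) Complex.I_ne_zero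
    have e : ∀ t : ℝ, Complex.exp (((h * (t * (k : ℝ)) : ℝ) : ℂ) * Complex.I) =
        Complex.exp ((h : ℂ) * (k : ℂ) * Complex.I * (t : ℂ)) := by
      intro t
      congr 1
      push_cast
      ring
    simp only [e]
    rw [integral_exp_mul_complex hc]
    have h2 : Complex.exp ((h : ℂ) * (k : ℂ) * Complex.I * ((Real.pi / h : ℝ) : ℂ)) =
        Complex.exp ((h : ℂ) * (k : ℂ) * Complex.I * ((-(Real.pi / h) : ℝ) : ℂ)) := by
      have hh' : (h : ℂ) ≠ 0 := by exact_mod_cast hh.ne'
      have h3 : (h : ℂ) * (k : ℂ) * Complex.I * ((Real.pi / h : ℝ) : ℂ) =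
          (h : ℂ) * (k : ℂ) * Complex.I * ((-(Real.pi / h) : ℝ) : ℂ) +
            (k : ℂ) * (2 * (Real.pi : ℂ) * Complex.I) := by
        push_cast
        field_simp
        ring
      rw [h3, Complex.exp_add, Complex.exp_int_mul_two_pi_mul_I, mul_one]
    rw [h2, sub_self, zero_div]

theorem A4_exp (h : ℝ) (hh : 0 < h) (x y : Z3) :
    ∫ p in cube h, Complex.exp (((ph h p x - ph h p y : ℝ) : ℂ) * Complex.I) =
      if x = y then (((2 * Real.pi / h) ^ 3 : ℝ) : ℂ) else 0 := by
  have h1 : ∫ p in cube h, Complex.exp (((ph h p x - ph h p y : ℝ) : ℂ) * Complex.I) =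
      ∫ q in A4_box h, ∏ i : Fin 3, Complex.exp (((h * (q i * ((x i - y i : ℤ) : ℝ)) : ℝ) : ℂ) * Complex.I) := by
    rw [A4_cube_eq]
    rw [← (PiLp.volume_preserving_ofLp (Fin 3)).setIntegral_preimage_emb
      (MeasurableEquiv.toLp 2 (Fin 3 → ℝ)).symm.measurableEmbedding
      (fun q : Fin 3 → ℝ => ∏ i : Fin 3,
        Complex.exp (((h * (q i * ((x i - y i : ℤ) : ℝ)) : ℝ) : ℂ) * Complex.I)) (A4_box h)]
    refine integral_congr_ae (Filter.Eventually.of_forall fun p => ?_)
    show Complex.exp (((ph h p x - ph h p y : ℝ) : ℂ) * Complex.I) =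
      ∏ i : Fin 3, Complex.exp (((h * (p i * ((x i - y i : ℤ) : ℝ)) : ℝ) : ℂ) * Complex.I)
    rw [← Complex.exp_sum]
    congr 1
    unfold ph
    rw [← Finset.sum_mul, ← Complex.ofReal_sum, ← Finset.mul_sum, ← mul_sub, ← Finset.sum_sub_distrib]
    congr 3
    refine Finset.sum_congr rfl fun i _ => ?_
    push_cast
    ring
  rw [h1]
  unfold A4_box
  rw [volume_pi, Measure.restrict_pi_pi]
  rw [MeasureTheory.integral_fintype_prod_eq_prod (𝕜 := ℂ)
    (fun i (t : ℝ) => Complex.exp (((h * (t * ((x i - y i : ℤ) : ℝ)) : ℝ) : ℂ) * Complex.I))]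
  simp only [A4_one h hh]
  by_cases hx : x = y
  · subst hx
    simp [div_pow]
  · rw [if_neg hx]
    have h2 : ∃ i, x i - y i ≠ 0 := by
      by_contra hno
      push Not at hno
      exact hx (funext fun i => sub_eq_zero.1 (hno i))
    obtain ⟨i, hi⟩ := h2
    exact Finset.prod_eq_zero (Finset.mem_univ i) (if_neg hi)

theorem A4_expint (h : ℝ) (hh : 0 < h) (x y : Z3) :
    IntegrableOn (fun p => Complex.exp (((ph h p x - ph h p y : ℝ) : ℂ) * Complex.I)) (cube h) := by
  refine A4_int h hh ?_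
  have h1 := A4_cont h x
  have h2 := A4_cont h y
  fun_prop

theorem A4_cos (h : ℝ) (hh : 0 < h) (x y : Z3) :
    ∫ p in cube h, Real.cos (ph h p x - ph h p y) = if x = y then (2 * Real.pi / h) ^ 3 else 0 := by
  have h1 := Complex.reCLM.integral_comp_comm (A4_expint h hh x y)
  have e : ∀ p : E3, Complex.reCLM (Complex.exp (((ph h p x - ph h p y : ℝ) : ℂ) * Complex.I)) =
      Real.cos (ph h p x - ph h p y) := fun p => Complex.exp_ofReal_mul_I_re _
  simp only [e] at h1
  rw [h1, A4_exp h hh]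
  split_ifs
  · exact Complex.ofReal_re ((2 * Real.pi / h) ^ 3)
  · exact Complex.zero_re

theorem A4_sin (h : ℝ) (hh : 0 < h) (x y : Z3) :
    ∫ p in cube h, Real.sin (ph h p x - ph h p y) = 0 := by
  have h1 := Complex.imCLM.integral_comp_comm (A4_expint h hh x y)
  have e : ∀ p : E3, Complex.imCLM (Complex.exp (((ph h p x - ph h p y : ℝ) : ℂ) * Complex.I)) =
      Real.sin (ph h p x - ph h p y) := fun p => Complex.exp_ofReal_mul_I_im _
  simp only [e] at h1
  rw [h1, A4_exp h hh]
  split_ifs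
  · exact Complex.ofReal_im ((2 * Real.pi / h) ^ 3)
  · exact Complex.zero_im

end WEL
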