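import Pool.Agent.WEL.Defs

/-!
# WEL A5
Dropping pairs.  For fixed `q`, `∫_{p∈D} g(p,p+q) ≥ ∫_{p∈D, p+q∈D} g(p,p+q)`; integrate in `q` against `k`, Fubini, and
substitute `p' = p + q`.
-/

set_option autoImplicit false

open MeasureTheory Set Filter Topology
open CLR (E3 Z3 lapB)

noncomputable section

namespace WEL

theorem A5 (k : E3 → ℝ) (hk : IsKer k) (D : Set E3) (hD : MeasurableSet D)
    (hDb : Bornology.IsBounded D) (g : E3 → E3 → ℝ) (hg : Continuous fun z : E3 × E3 => g z.1 z.2)
    (hg0 : ∀ p p', 0 ≤ g p p') (C : ℝ) (hgC : ∀ p p', g p p' ≤ C) :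
    ∫ p in D, ∫ p' in D, k (p' - p) * g p p' ≤ ∫ q, k q * ∫ p in D, g p (p + q) := by
  have hfin : IsFiniteMeasure (volume.restrict D) := ⟨by
    rw [Measure.restrict_apply_univ]
    exact hDb.measure_lt_top⟩
  have hcont : Continuous fun z : E3 × E3 => k z.2 * g z.1 (z.1 + z.2) := by
    have h1 : Continuous fun z : E3 × E3 => g z.1 (z.1 + z.2) :=
      hg.comp (continuous_fst.prodMk (continuous_fst.add continuous_snd))
    exact (hk.cont.comp continuous_snd).mul h1
  have hint : Integrable (fun z : E3 × E3 => k z.2 * g z.1 (z.1 + z.2)) ((volume.restrict D).prod volume) := by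
    have h1 : Integrable (fun z : E3 × E3 => C * k z.2) ((volume.restrict D).prod volume) :=
      (integrable_const (μ := volume.restrict D) C).mul_prod hk.int
    refine h1.mono' hcont.aestronglyMeasurable (Eventually.of_forall fun z => ?_)
    have h2 := hk.nonneg z.2
    have h3 := hg0 z.1 (z.1 + z.2)
    have h4 := hgC z.1 (z.1 + z.2)
    rw [Real.norm_eq_abs, abs_of_nonneg (mul_nonneg h2 h3), mul_comm C]
    exact mul_le_mul_of_nonneg_left h4 h2
  have hswap : ∫ q, k q * ∫ p in D, g p (p + q) = ∫ p in D, ∫ q, k q * g p (p + q) := by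
    have h1 : ∀ q, k q * ∫ p in D, g p (p + q) = ∫ p in D, k q * g p (p + q) := fun q => by
      rw [integral_const_mul]
    simp only [h1]
    exact (integral_integral_swap (f := fun p q => k q * g p (p + q)) hint).symm
  rw [hswap]
  refine integral_mono_of_nonneg (Eventually.of_forall fun p => ?_) hint.integral_prod_left
    (Eventually.of_forall fun p => ?_)
  · exact integral_nonneg fun p' => mul_nonneg (hk.nonneg _) (hg0 _ _)
  · show ∫ p' in D, k (p' - p) * g p p' ≤ ∫ q, k q * g p (p + q)
    have h1 : ∫ q, k q * g p (p + q) = ∫ p', k (p' - p) * g p p' := by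
      rw [← integral_sub_right_eq_self (fun q => k q * g p (p + q)) p]
      refine integral_congr_ae (Eventually.of_forall fun p' => ?_)
      simp only [add_sub_cancel]
    rw [h1]
    refine setIntegral_le_integral ?_ (Eventually.of_forall fun p' => mul_nonneg (hk.nonneg _) (hg0 _ _))
    have h2 : Integrable (fun p' => C * k (p' - p)) := (hk.int.comp_sub_right p).const_mul C
    have h3 : Continuous fun p' => k (p' - p) * g p p' := by
      have h4 : Continuous fun p' : E3 => g p p' := hg.comp (continuous_const.prodMk continuous_id)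
      exact (hk.cont.comp (continuous_id.sub continuous_const)).mul h4
    refine h2.mono' h3.aestronglyMeasurable (Eventually.of_forall fun p' => ?_)
    have h5 := hk.nonneg (p' - p)
    have h6 := hg0 p p'
    rw [Real.norm_eq_abs, abs_of_nonneg (mul_nonneg h5 h6), mul_comm C]
    exact mul_le_mul_of_nonneg_left (hgC p p') h5

end WEL
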