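import Pool.Agent.WEL.Defs

/-!
# WEL A6
Pointwise facts.  `r`, `m`, `β` are `∑ f w`, `∑ f² w`, `∑_{f<1} f² w`, `∑_j w_j = 1` by `rows` (Parseval) and
`cos² + sin² = 1`; `XF = exp(-ip·x)(A e_p)(x)`, so `∑ XF² = ‖A e_p‖² = ∑ f² w` by `cols`, `∑ eF XF = ⟨e_p, A e_p⟩`;
`β ≥ 2τ(r-m) - τ²(1-2r+m)` from `∑_{f<1} w (f - τ(1-f))² ≥ 0` and `1-2r+m = ∑ w (1-f)²`.
-/

set_option autoImplicit false

open MeasureTheory Set Filter Topology
open CLR (E3 Z3 lapB)

noncomputable section

namespace WEL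

theorem a6_parseval {B : Type} [Fintype B] [DecidableEq B] (U : B → B → ℝ)
    (hr : ∀ x y, ∑ j, U x j * U y j = if x = y then 1 else 0) (a : B → ℝ) :
    ∑ j, (∑ x, U x j * a x) ^ 2 = ∑ x, a x ^ 2 := by
  have h1 : ∀ j, (∑ x, U x j * a x) ^ 2 = ∑ x, ∑ y, (a x * a y) * (U x j * U y j) := by
    intro j
    rw [sq, Finset.sum_mul_sum]
    refine Finset.sum_congr rfl fun x _ => Finset.sum_congr rfl fun y _ => ?_
    ring
  simp only [h1]
  rw [Finset.sum_comm]
  refine Finset.sum_congr rfl fun x _ => ?_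
  rw [Finset.sum_comm]
  have h2 : ∀ y, ∑ j, (a x * a y) * (U x j * U y j) = if x = y then a x * a y else 0 := by
    intro y
    rw [← Finset.mul_sum, hr]
    split_ifs <;> ring
  simp only [h2]
  rw [Finset.sum_ite_eq]
  simp [sq]

theorem a6_AF {B : Type} [Fintype B] (U : B → B → ℝ) (f : B → ℝ) (g : B → ℝ) (x : B) :
    ∑ y, AF U f x y * g y = ∑ j, U x j * (f j * ∑ y, U y j * g y) := by
  unfold AF
  simp only [Finset.sum_mul, Finset.mul_sum]
  rw [Finset.sum_comm]
  refine Finset.sum_congr rfl fun j _ => Finset.sum_congr rfl fun y _ => ?_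
  ring

theorem a6_ph (h : ℝ) (x : Z3) : Continuous fun p => ph h p x := by
  unfold ph
  refine continuous_const.mul (continuous_finsetSum _ fun i _ => ?_)
  exact ((EuclideanSpace.proj i : E3 →L[ℝ] ℝ).continuous).mul continuous_const

theorem A6 (h : ℝ) (B : Finset Z3) (ν : B → ℝ) (hν0 : ∀ x, 0 ≤ ν x) (hV : 0 < ∑ x, ν x)
    (K : B → B → ℝ) (a : ℝ) (U : B → B → ℝ) (μ f : B → ℝ) (hS : Spec K a U μ f) :
    (∀ i, Continuous fun p => XF h B ν (AF U f) p i) ∧ Continuous (rF h B ν U f) ∧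
    Continuous (mF h B ν U f) ∧ Continuous (βF h B ν U f) ∧
    (∀ j, Continuous (wF h B ν U j)) ∧
    ∑ i, eF B ν i ^ 2 = 1 ∧
    (∀ p, rF h B ν U f p = ∑ i, eF B ν i * XF h B ν (AF U f) p i) ∧
    (∀ p, mF h B ν U f p = ∑ i, XF h B ν (AF U f) p i ^ 2) ∧
    (∀ p, 0 ≤ rF h B ν U f p) ∧ (∀ p, rF h B ν U f p ≤ 1) ∧
    (∀ p, mF h B ν U f p ≤ rF h B ν U f p) ∧
    (∀ p τ, 0 ≤ τ →
      2 * τ * (rF h B ν U f p - mF h B ν U f p)
        - τ ^ 2 * (1 - 2 * rF h B ν U f p + mF h B ν U f p) ≤ βF h B ν U f p) := by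
  classical
  obtain ⟨s, hsdef⟩ : ∃ s : B → ℝ, s = fun x => Real.sqrt (ν x / ∑ y, ν y) := ⟨_, rfl⟩
  have hs1 : ∑ x, s x ^ 2 = 1 := by
    rw [hsdef]
    have h1 : ∀ x, Real.sqrt (ν x / ∑ y, ν y) ^ 2 = ν x / ∑ y, ν y := fun x =>
      Real.sq_sqrt (div_nonneg (hν0 x) hV.le)
    simp only [h1]
    rw [← Finset.sum_div, div_self hV.ne']
  have hwdef : ∀ j p, wF h B ν U j p = (∑ x : B, U x j * (s x * Real.cos (ph h p x))) ^ 2
    + (∑ x : B, U x j * (s x * Real.sin (ph h p x))) ^ 2 := by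
    intro j p
    rw [hsdef]
    unfold wF
    simp only [mul_assoc]
  have hw0 : ∀ j p, 0 ≤ wF h B ν U j p := by
    intro j p
    rw [hwdef]
    positivity
  have hw1 : ∀ p, ∑ j, wF h B ν U j p = 1 := by
    intro p
    simp only [hwdef]
    rw [Finset.sum_add_distrib, a6_parseval U hS.rows, a6_parseval U hS.rows, ← Finset.sum_add_distrib, ← hs1]
    refine Finset.sum_congr rfl fun x _ => ?_
    have h1 := Real.cos_sq_add_sin_sq (ph h p x)
    calc (s x * Real.cos (ph h p x)) ^ 2 + (s x * Real.sin (ph h p x)) ^ 2 =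
        s x ^ 2 * (Real.cos (ph h p x) ^ 2 + Real.sin (ph h p x) ^ 2) := by ring
      _ = s x ^ 2 := by rw [h1, mul_one]
  have hXl : ∀ p x, XF h B ν (AF U f) p (Sum.inl x) =
      Real.cos (ph h p x) * (∑ y, AF U f x y * (s y * Real.cos (ph h p y))) +
        Real.sin (ph h p x) * (∑ y, AF U f x y * (s y * Real.sin (ph h p y))) := by
    intro p x
    rw [Finset.mul_sum, Finset.mul_sum, ← Finset.sum_add_distrib]
    show ∑ y : B, AF U f x y * Real.sqrt (ν y / ∑ y', ν y') * Real.cos (ph h p y - ph h p x) = _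
    refine Finset.sum_congr rfl fun y _ => ?_
    rw [hsdef, Real.cos_sub]
    ring
  have hXr : ∀ p x, XF h B ν (AF U f) p (Sum.inr x) =
      Real.cos (ph h p x) * (∑ y, AF U f x y * (s y * Real.sin (ph h p y))) -
        Real.sin (ph h p x) * (∑ y, AF U f x y * (s y * Real.cos (ph h p y))) := by
    intro p x
    rw [Finset.mul_sum, Finset.mul_sum, ← Finset.sum_sub_distrib]
    show ∑ y : B, AF U f x y * Real.sqrt (ν y / ∑ y', ν y') * Real.sin (ph h p y - ph h p x) = _
    refine Finset.sum_congr rfl fun y _ => ?_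
    rw [hsdef, Real.sin_sub]
    ring
  have hphc : ∀ x : B, Continuous fun p => ph h p x := fun x => a6_ph h x
  have hwc : ∀ j, Continuous (wF h B ν U j) := by
    intro j
    have h1 : wF h B ν U j = fun p => (∑ x : B, U x j * (s x * Real.cos (ph h p x))) ^ 2
      + (∑ x : B, U x j * (s x * Real.sin (ph h p x))) ^ 2 := funext fun p => hwdef j p
    rw [h1]
    refine Continuous.add (Continuous.pow ?_ 2) (Continuous.pow ?_ 2)
    · exact continuous_finsetSum _ fun x _ => continuous_const.mul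
        (continuous_const.mul (Real.continuous_cos.comp (hphc x)))
    · exact continuous_finsetSum _ fun x _ => continuous_const.mul
        (continuous_const.mul (Real.continuous_sin.comp (hphc x)))
  have hr : ∀ p, rF h B ν U f p = ∑ j, f j * wF h B ν U j p := fun _ => rfl
  have hm : ∀ p, mF h B ν U f p = ∑ j, f j ^ 2 * wF h B ν U j p := fun _ => rfl
  refine ⟨?_, ?_, ?_, ?_, hwc, ?_, ?_, ?_, ?_, ?_, ?_, ?_⟩
  · rintro (x | x)
    · show Continuous fun p => ∑ y : B, AF U f x y * Real.sqrt (ν y / ∑ y', ν y') *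
        Real.cos (ph h p y - ph h p x)
      exact continuous_finsetSum _ fun y _ => continuous_const.mul
        (Real.continuous_cos.comp ((hphc y).sub (hphc x)))
    · show Continuous fun p => ∑ y : B, AF U f x y * Real.sqrt (ν y / ∑ y', ν y') *
        Real.sin (ph h p y - ph h p x)
      exact continuous_finsetSum _ fun y _ => continuous_const.mul
        (Real.continuous_sin.comp ((hphc y).sub (hphc x)))
  · exact continuous_finsetSum _ fun j _ => continuous_const.mul (hwc j)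
  · exact continuous_finsetSum _ fun j _ => continuous_const.mul (hwc j)
  · exact continuous_finsetSum _ fun j _ => continuous_const.mul (hwc j)
  · rw [Fintype.sum_sum_type]
    show ∑ x : B, Real.sqrt (ν x / ∑ y, ν y) ^ 2 + ∑ x : B, (0 : ℝ) ^ 2 = 1
    rw [hsdef] at hs1
    simp only at hs1
    rw [hs1]
    simp
  · intro p
    rw [Fintype.sum_sum_type]
    have h1 : ∀ x : B, eF B ν (Sum.inr x) = 0 := fun _ => rfl
    have h2 : ∀ x : B, eF B ν (Sum.inl x) = s x := fun x => by rw [hsdef]; rfl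
    simp only [h1, h2, zero_mul, Finset.sum_const_zero, add_zero, hXl, a6_AF]
    rw [hr]
    simp only [hwdef]
    have h3 : ∀ j, f j * ((∑ x : B, U x j * (s x * Real.cos (ph h p x))) ^ 2 +
        (∑ x : B, U x j * (s x * Real.sin (ph h p x))) ^ 2) =
        ∑ x : B, ((U x j * (s x * Real.cos (ph h p x))) * (f j * ∑ y : B, U y j * (s y * Real.cos (ph h p y))) +
          (U x j * (s x * Real.sin (ph h p x))) * (f j * ∑ y : B, U y j * (s y * Real.sin (ph h p y)))) := by
      intro j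
      rw [Finset.sum_add_distrib, ← Finset.sum_mul, ← Finset.sum_mul]
      ring
    simp only [h3]
    rw [Finset.sum_comm]
    refine Finset.sum_congr rfl fun x _ => ?_
    rw [mul_add, ← mul_assoc, ← mul_assoc, Finset.mul_sum, Finset.mul_sum, ← Finset.sum_add_distrib]
    refine Finset.sum_congr rfl fun j _ => ?_
    ring
  · intro p
    rw [Fintype.sum_sum_type, hm, ← Finset.sum_add_distrib]
    have h1 : ∀ x : B, XF h B ν (AF U f) p (Sum.inl x) ^ 2 + XF h B ν (AF U f) p (Sum.inr x) ^ 2 =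
        (∑ j, U x j * (f j * ∑ y, U y j * (s y * Real.cos (ph h p y)))) ^ 2 +
        (∑ j, U x j * (f j * ∑ y, U y j * (s y * Real.sin (ph h p y)))) ^ 2 := by
      intro x
      rw [hXl, hXr, a6_AF, a6_AF]
      have h2 := Real.cos_sq_add_sin_sq (ph h p x)
      generalize (∑ j, U x j * (f j * ∑ y, U y j * (s y * Real.cos (ph h p y)))) = P
      generalize (∑ j, U x j * (f j * ∑ y, U y j * (s y * Real.sin (ph h p y)))) = Q
      linear_combination (P ^ 2 + Q ^ 2) * h2
    simp only [h1]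
    rw [Finset.sum_add_distrib, a6_parseval (fun j x => U x j) hS.cols, a6_parseval (fun j x => U x j) hS.cols,
      ← Finset.sum_add_distrib]
    refine Finset.sum_congr rfl fun j _ => ?_
    rw [hwdef]
    ring
  · intro p
    rw [hr]
    exact Finset.sum_nonneg fun j _ => mul_nonneg (hS.f0 j) (hw0 j p)
  · intro p
    rw [hr, ← hw1 p]
    exact Finset.sum_le_sum fun j _ => mul_le_of_le_one_left (hw0 j p) (hS.f1 j)
  · intro p
    rw [hr, hm]
    refine Finset.sum_le_sum fun j _ => mul_le_mul_of_nonneg_right ?_ (hw0 j p)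
    have h1 := hS.f0 j
    have h2 := hS.f1 j
    nlinarith
  · intro p τ hτ
    have h1 : 2 * τ * (rF h B ν U f p - mF h B ν U f p)
        - τ ^ 2 * (1 - 2 * rF h B ν U f p + mF h B ν U f p) =
        ∑ j, (2 * τ * (f j - f j ^ 2) - τ ^ 2 * (1 - 2 * f j + f j ^ 2)) * wF h B ν U j p := by
      have e1 : 2 * τ * (rF h B ν U f p - mF h B ν U f p)
          - τ ^ 2 * (1 - 2 * rF h B ν U f p + mF h B ν U f p) =
          2 * τ * (∑ j, f j * wF h B ν U j p - ∑ j, f j ^ 2 * wF h B ν U j p)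
          - τ ^ 2 * (∑ j, wF h B ν U j p - 2 * ∑ j, f j * wF h B ν U j p + ∑ j, f j ^ 2 * wF h B ν U j p) := by
        rw [hw1 p, hr, hm]
      rw [e1]
      simp only [Finset.mul_sum, ← Finset.sum_sub_distrib, ← Finset.sum_add_distrib]
      refine Finset.sum_congr rfl fun j _ => ?_
      ring
    rw [h1]
    refine Finset.sum_le_sum fun j _ => mul_le_mul_of_nonneg_right ?_ (hw0 j p)
    split_ifs with h2
    · nlinarith [sq_nonneg (f j - τ * (1 - f j))]
    · have h3 : f j = 1 := le_antisymm (hS.f1 j) (not_lt.1 h2)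
      rw [h3]
      norm_num

end WEL
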