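import Pool.Agent.CLR.B1
import Pool.Agent.WEL.A4

/-!
# WEL A7
Birman-Schwinger.  With `F g (p) = ∑ g x exp(i ph h p x)`: `∑∑ φ lapB φ + ε h² ∑ φ² = h² (h/2π)³ ∫_cube |Fφ|²/sym`,
(lapB is the compression to `B` of the lattice Laplacian, `CLR.b1_lapZ`, `CLR.lapB_quad`), `∑ ν φ² = (h/2π)³ ∫ F(νφ) conj(Fφ)`,
`∑∑ ψ K ψ = (h/2π)³ ∫ |F(νφ)|² sym` for `ψ = √ν φ`.  Integrating
`0 ≤ sym |F(νφ) - Fφ/sym|²` gives `∑∑ψKψ ≥ 2 ∑νφ² - h^{-2}(∑∑φ lapB φ + ε h² ∑φ²)`,
hence with the strict hypothesis `∑ψ² = ∑νφ² < ∑∑ψKψ`.  (Orthogonality: the statements of row A4; imported: A4_cos, A4_sin.)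
-/

set_option autoImplicit false

open MeasureTheory Set Filter Topology
open CLR (E3 Z3 lapB)

noncomputable section

namespace WEL

theorem A7_int (h : ℝ) (hh : 0 < h) (f : E3 → ℝ) (hf : Continuous f) :
    Integrable f (volume.restrict (cube h)) := by
  have hK : IsCompact (closure (cube h)) := (A4_bdd h hh).isCompact_closure
  exact (hf.continuousOn.integrableOn_compact hK).mono_set subset_closure

theorem A7_ph_add (h : ℝ) (p : E3) (x : Z3) (i : Fin 3) :
    ph h p (x + CLR.ez i) = ph h p x + h * p i := by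
  unfold ph
  rw [← mul_add]
  congr 1
  have h1 : ∀ j : Fin 3, p j * (((x + CLR.ez i) j : ℤ) : ℝ) =
      p j * (x j : ℝ) + (if j = i then p j else 0) := by
    intro j
    rw [Pi.add_apply, CLR.b1_ez_apply]
    push_cast
    split_ifs <;> ring
  rw [Finset.sum_congr rfl fun j _ => h1 j, Finset.sum_add_distrib, Finset.sum_ite_eq']
  simp

theorem A7_ph_sub (h : ℝ) (p : E3) (x : Z3) (i : Fin 3) :
    ph h p (x - CLR.ez i) = ph h p x - h * p i := by
  have h1 := A7_ph_add h p (x - CLR.ez i) i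
  rw [sub_add_cancel] at h1
  linarith

theorem A7_cont_cos (h : ℝ) (x y : Z3) :
    Continuous fun p : E3 => Real.cos (ph h p x - ph h p y) :=
  Real.continuous_cos.comp ((A4_cont h x).sub (A4_cont h y))

theorem A7_lap (h : ℝ) (hh : 0 < h) (x y : Z3) :
    ∫ p in cube h, (∑ i : Fin 3, (2 - 2 * Real.cos (h * p i))) *
        Real.cos (ph h p x - ph h p y) = (2 * Real.pi / h) ^ 3 * CLR.lapZ x y := by
  have h1 : ∀ p : E3, (∑ i : Fin 3, (2 - 2 * Real.cos (h * p i))) *
        Real.cos (ph h p x - ph h p y) =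
      6 * Real.cos (ph h p x - ph h p y) -
        ∑ i : Fin 3, (Real.cos (ph h p (x + CLR.ez i) - ph h p y) +
          Real.cos (ph h p (x - CLR.ez i) - ph h p y)) := by
    intro p
    have h2 : ∀ i : Fin 3, Real.cos (ph h p (x + CLR.ez i) - ph h p y) +
          Real.cos (ph h p (x - CLR.ez i) - ph h p y) =
        2 * Real.cos (h * p i) * Real.cos (ph h p x - ph h p y) := by
      intro i
      rw [A7_ph_add, A7_ph_sub,
        show ph h p x + h * p i - ph h p y = (ph h p x - ph h p y) + h * p i by ring,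
        show ph h p x - h * p i - ph h p y = (ph h p x - ph h p y) - h * p i by ring,
        Real.cos_add (ph h p x - ph h p y), Real.cos_sub (ph h p x - ph h p y) (h * p i)]
      ring
    rw [Finset.sum_congr rfl fun i _ => h2 i]
    simp only [Fin.sum_univ_three]
    ring
  have hc := A7_cont_cos h
  simp only [h1]
  rw [integral_sub, integral_const_mul, integral_finsetSum]
  · have h3 : ∀ i : Fin 3, ∫ p in cube h, (Real.cos (ph h p (x + CLR.ez i) - ph h p y) +
          Real.cos (ph h p (x - CLR.ez i) - ph h p y)) =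
        (2 * Real.pi / h) ^ 3 * ((if y = x + CLR.ez i then (1 : ℝ) else 0) +
          (if y = x - CLR.ez i then 1 else 0)) := by
      intro i
      rw [integral_add (A7_int h hh _ (hc _ _)) (A7_int h hh _ (hc _ _)), A4_cos h hh, A4_cos h hh]
      rw [mul_add, mul_ite, mul_ite, mul_one, mul_zero]
      congr 1
      · exact if_congr eq_comm rfl rfl
      · exact if_congr eq_comm rfl rfl
    rw [Finset.sum_congr rfl fun i _ => h3 i, ← Finset.mul_sum, A4_cos h hh, CLR.b1_lapZ, mul_sub]
    congr 1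
    by_cases hxy : x = y
    · rw [if_pos hxy, if_pos hxy.symm]
      ring
    · rw [if_neg hxy, if_neg (Ne.symm hxy)]
      ring
  · intro i _
    exact (A7_int h hh _ (hc _ _)).add (A7_int h hh _ (hc _ _))
  · exact (A7_int h hh _ (hc _ _)).const_mul _
  · exact A7_int h hh _ (continuous_finsetSum _ fun i _ => (hc _ _).add (hc _ _))

theorem A7_m_pos (h ε : ℝ) (hε : 0 < ε) (p : E3) :
    0 < (∑ i : Fin 3, (2 - 2 * Real.cos (h * p i))) / h ^ 2 + ε := by
  have h1 : 0 ≤ ∑ i : Fin 3, (2 - 2 * Real.cos (h * p i)) :=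
    Finset.sum_nonneg fun i _ => by linarith [Real.cos_le_one (h * p i)]
  have h2 : 0 ≤ (∑ i : Fin 3, (2 - 2 * Real.cos (h * p i))) / h ^ 2 :=
    div_nonneg h1 (sq_nonneg h)
  linarith

theorem A7_cont_m (h ε : ℝ) :
    Continuous fun p : E3 => (∑ i : Fin 3, (2 - 2 * Real.cos (h * p i))) / h ^ 2 + ε := by
  have h1 : ∀ i : Fin 3, Continuous fun p : E3 => p i := fun i => by fun_prop
  have h2 : Continuous fun p : E3 => ∑ i : Fin 3, (2 - 2 * Real.cos (h * p i)) :=
    continuous_finsetSum _ fun i _ =>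
      continuous_const.sub (continuous_const.mul (Real.continuous_cos.comp
        (continuous_const.mul (h1 i))))
  exact (h2.div_const _).add continuous_const

theorem A7_cont_sym (h ε : ℝ) (hε : 0 < ε) : Continuous (sym h ε) := by
  unfold sym
  exact continuous_const.div (A7_cont_m h ε) fun p => (A7_m_pos h ε hε p).ne'

theorem A7_bilin {B : Type} [Fintype B] (θ u v : B → ℝ) :
    ∑ x, ∑ y, u x * v y * Real.cos (θ x - θ y) =
      (∑ x, u x * Real.cos (θ x)) * (∑ x, v x * Real.cos (θ x)) +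
        (∑ x, u x * Real.sin (θ x)) * (∑ x, v x * Real.sin (θ x)) := by
  rw [Finset.sum_mul_sum, Finset.sum_mul_sum, ← Finset.sum_add_distrib]
  refine Finset.sum_congr rfl fun x _ => ?_
  rw [← Finset.sum_add_distrib]
  refine Finset.sum_congr rfl fun y _ => ?_
  rw [Real.cos_sub]
  ring

theorem A7_core (h ε : ℝ) (hh : 0 < h) (hε : 0 < ε) (B : Finset Z3) (ν : B → ℝ)
    (hν0 : ∀ x, 0 ≤ ν x) (w : B → ℝ)
    (hneg : ∑ x, ∑ y, w x * lapB B x y * w y + ε * h ^ 2 * ∑ x, w x ^ 2 <
        h ^ 2 * ∑ x, ν x * w x ^ 2) :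
      ∑ x : B, (Real.sqrt (ν x) * w x) ^ 2 <
        ∑ x : B, ∑ y : B, (Real.sqrt (ν x) * w x) * KF h (sym h ε) B ν x y *
          (Real.sqrt (ν y) * w y) := by
  have hpi : 0 < 2 * Real.pi / h := by positivity
  set L : ℝ := (2 * Real.pi / h) ^ 3 with hL
  have hLpos : 0 < L := by positivity
  have hinv : (h / (2 * Real.pi)) ^ 3 = L⁻¹ := by
    rw [hL, ← inv_pow, inv_div]
  set m : E3 → ℝ := fun p => (∑ i : Fin 3, (2 - 2 * Real.cos (h * p i))) / h ^ 2 + ε with hm
  have hmpos : ∀ p, 0 < m p := A7_m_pos h ε hε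
  have hmc : Continuous m := A7_cont_m h ε
  have hsc : Continuous (sym h ε) := A7_cont_sym h ε hε
  have hsm : ∀ p, sym h ε p = 1 / m p := fun p => rfl
  have hc := A7_cont_cos h
  -- pointwise inequality
  have hpt : ∀ p : E3, 0 ≤ ∑ x : B, ∑ y : B,
      ((ν x * w x) * (ν y * w y) * (sym h ε p * Real.cos (ph h p x - ph h p y)) -
        2 * ((ν x * w x) * w y) * Real.cos (ph h p x - ph h p y) +
        (w x * w y) * (m p * Real.cos (ph h p x - ph h p y))) := by
    intro p
    have h1 : ∑ x : B, ∑ y : B,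
      ((ν x * w x) * (ν y * w y) * (sym h ε p * Real.cos (ph h p x - ph h p y)) -
        2 * ((ν x * w x) * w y) * Real.cos (ph h p x - ph h p y) +
        (w x * w y) * (m p * Real.cos (ph h p x - ph h p y))) =
      sym h ε p * (∑ x : B, ∑ y : B, (ν x * w x) * (ν y * w y) *
          Real.cos (ph h p x - ph h p y)) -
        2 * (∑ x : B, ∑ y : B, (ν x * w x) * w y * Real.cos (ph h p x - ph h p y)) +
        m p * (∑ x : B, ∑ y : B, w x * w y * Real.cos (ph h p x - ph h p y)) := by
      simp only [Finset.mul_sum]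
      rw [← Finset.sum_sub_distrib, ← Finset.sum_add_distrib]
      refine Finset.sum_congr rfl fun x _ => ?_
      rw [← Finset.sum_sub_distrib, ← Finset.sum_add_distrib]
      refine Finset.sum_congr rfl fun y _ => ?_
      ring
    rw [h1, A7_bilin (fun x : B => ph h p x) (fun x => ν x * w x) (fun x => ν x * w x),
      A7_bilin (fun x : B => ph h p x) (fun x => ν x * w x) w,
      A7_bilin (fun x : B => ph h p x) w w, hsm]
    have hmp := hmpos p
    set C1 := ∑ x : B, ν x * w x * Real.cos (ph h p x)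
    set S1 := ∑ x : B, ν x * w x * Real.sin (ph h p x)
    set C2 := ∑ x : B, w x * Real.cos (ph h p x)
    set S2 := ∑ x : B, w x * Real.sin (ph h p x)
    have h2 : 1 / m p * (C1 * C1 + S1 * S1) - 2 * (C1 * C2 + S1 * S2) +
        m p * (C2 * C2 + S2 * S2) =
        1 / m p * ((C1 - m p * C2) ^ 2 + (S1 - m p * S2) ^ 2) := by
      field_simp
      ring
    rw [h2]
    positivity
  -- integrals
  have hI1 : ∀ x y : B, Integrable (fun p => (ν x * w x) * (ν y * w y) *
      (sym h ε p * Real.cos (ph h p x - ph h p y))) (volume.restrict (cube h)) := fun x y =>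
    (A7_int h hh _ (hsc.mul (hc x y))).const_mul _
  have hI2 : ∀ x y : B, Integrable (fun p => 2 * ((ν x * w x) * w y) *
      Real.cos (ph h p x - ph h p y)) (volume.restrict (cube h)) := fun x y =>
    (A7_int h hh _ (hc x y)).const_mul _
  have hI3 : ∀ x y : B, Integrable (fun p => (w x * w y) *
      (m p * Real.cos (ph h p x - ph h p y))) (volume.restrict (cube h)) := fun x y =>
    (A7_int h hh _ (hmc.mul (hc x y))).const_mul _
  have hint : 0 ≤ ∫ p in cube h, ∑ x : B, ∑ y : B,
      ((ν x * w x) * (ν y * w y) * (sym h ε p * Real.cos (ph h p x - ph h p y)) -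
        2 * ((ν x * w x) * w y) * Real.cos (ph h p x - ph h p y) +
        (w x * w y) * (m p * Real.cos (ph h p x - ph h p y))) :=
    integral_nonneg hpt
  have hI4 : ∀ x y : B, Integrable (fun p =>
      (ν x * w x) * (ν y * w y) * (sym h ε p * Real.cos (ph h p x - ph h p y)) -
        2 * ((ν x * w x) * w y) * Real.cos (ph h p x - ph h p y) +
        (w x * w y) * (m p * Real.cos (ph h p x - ph h p y))) (volume.restrict (cube h)) :=
    fun x y => ((hI1 x y).sub (hI2 x y)).add (hI3 x y)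
  rw [integral_finsetSum _ (fun x _ => integrable_finsetSum _ fun y _ => hI4 x y)] at hint
  have hm1 : ∀ x y : B, ∫ p in cube h, m p * Real.cos (ph h p x - ph h p y) =
      L * (lapB B x y / h ^ 2 + ε * (if x = y then 1 else 0)) := by
    intro x y
    have h1 : ∀ p : E3, m p * Real.cos (ph h p x - ph h p y) =
        (1 / h ^ 2) * ((∑ i : Fin 3, (2 - 2 * Real.cos (h * p i))) *
          Real.cos (ph h p x - ph h p y)) + ε * Real.cos (ph h p x - ph h p y) := by
      intro p
      rw [hm]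
      ring
    simp only [h1]
    have hsumc : Continuous fun p : E3 => (∑ i : Fin 3, (2 - 2 * Real.cos (h * p i))) *
          Real.cos (ph h p x - ph h p y) := by
      refine Continuous.mul ?_ (hc x y)
      refine continuous_finsetSum _ fun i _ => ?_
      have h5 : Continuous fun p : E3 => p i := by fun_prop
      exact continuous_const.sub (continuous_const.mul (Real.continuous_cos.comp
        (continuous_const.mul h5)))
    rw [integral_add ((A7_int h hh _ hsumc).const_mul _) ((A7_int h hh _ (hc x y)).const_mul _),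
      integral_const_mul, integral_const_mul, A7_lap h hh, A4_cos h hh]
    have h6 : ((if (x : Z3) = (y : Z3) then (2 * Real.pi / h) ^ 3 else 0 : ℝ)) =
        L * (if x = y then 1 else 0) := by
      by_cases hxy : x = y
      · rw [if_pos hxy, if_pos (congrArg _ hxy), mul_one]
      · rw [if_neg hxy, if_neg fun h7 => hxy (Subtype.ext h7), mul_zero]
    rw [h6]
    change 1 / h ^ 2 * (L * lapB B x y) + _ = _
    ring
  have hm2 : ∀ x y : B, ∫ p in cube h, Real.cos (ph h p x - ph h p y) =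
      L * (if x = y then 1 else 0) := by
    intro x y
    rw [A4_cos h hh]
    by_cases hxy : x = y
    · rw [if_pos hxy, if_pos (congrArg _ hxy), mul_one]
    · rw [if_neg hxy, if_neg fun h7 => hxy (Subtype.ext h7), mul_zero]
  have hm3 : ∀ x y : B, (Real.sqrt (ν x) * w x) * KF h (sym h ε) B ν x y *
          (Real.sqrt (ν y) * w y) =
      L⁻¹ * ((ν x * w x) * (ν y * w y) *
        ∫ p in cube h, sym h ε p * Real.cos (ph h p x - ph h p y)) := by
    intro x y
    unfold KF
    rw [hinv]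
    have h8 := Real.mul_self_sqrt (hν0 x)
    have h9 := Real.mul_self_sqrt (hν0 y)
    calc _ = L⁻¹ * (((Real.sqrt (ν x) * Real.sqrt (ν x)) * w x) *
          ((Real.sqrt (ν y) * Real.sqrt (ν y)) * w y) *
          ∫ p in cube h, sym h ε p * Real.cos (ph h p x - ph h p y)) := by ring
      _ = _ := by rw [h8, h9]
  have hterm : ∀ x y : B, ∫ p in cube h,
      ((ν x * w x) * (ν y * w y) * (sym h ε p * Real.cos (ph h p x - ph h p y)) -
        2 * ((ν x * w x) * w y) * Real.cos (ph h p x - ph h p y) +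
        (w x * w y) * (m p * Real.cos (ph h p x - ph h p y))) =
      L * ((Real.sqrt (ν x) * w x) * KF h (sym h ε) B ν x y * (Real.sqrt (ν y) * w y) -
        2 * (if x = y then ν x * w x * w y else 0) +
        (w x * lapB B x y * w y / h ^ 2 + ε * (if x = y then w x * w y else 0))) := by
    intro x y
    have hI5 : Integrable (fun p =>
      (ν x * w x) * (ν y * w y) * (sym h ε p * Real.cos (ph h p x - ph h p y)) -
        2 * ((ν x * w x) * w y) * Real.cos (ph h p x - ph h p y)) (volume.restrict (cube h)) :=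
      (hI1 x y).sub (hI2 x y)
    rw [integral_add hI5 (hI3 x y), integral_sub (hI1 x y) (hI2 x y),
      integral_const_mul, integral_const_mul, integral_const_mul, hm1, hm2, hm3]
    have hLne : L ≠ 0 := hLpos.ne'
    split_ifs
    · field_simp
    · field_simp
      ring
  have hsum : ∀ x : B, ∫ p in cube h, ∑ y : B,
      ((ν x * w x) * (ν y * w y) * (sym h ε p * Real.cos (ph h p x - ph h p y)) -
        2 * ((ν x * w x) * w y) * Real.cos (ph h p x - ph h p y) +
        (w x * w y) * (m p * Real.cos (ph h p x - ph h p y))) =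
      ∑ y : B, L * ((Real.sqrt (ν x) * w x) * KF h (sym h ε) B ν x y * (Real.sqrt (ν y) * w y) -
        2 * (if x = y then ν x * w x * w y else 0) +
        (w x * lapB B x y * w y / h ^ 2 + ε * (if x = y then w x * w y else 0))) := by
    intro x
    rw [integral_finsetSum _ (fun y _ => hI4 x y)]
    exact Finset.sum_congr rfl fun y _ => hterm x y
  rw [Finset.sum_congr rfl fun x _ => hsum x] at hint
  have hfin : ∑ x : B, ∑ y : B, L * ((Real.sqrt (ν x) * w x) * KF h (sym h ε) B ν x y *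
        (Real.sqrt (ν y) * w y) -
        2 * (if x = y then ν x * w x * w y else 0) +
        (w x * lapB B x y * w y / h ^ 2 + ε * (if x = y then w x * w y else 0))) =
      L * ((∑ x : B, ∑ y : B, (Real.sqrt (ν x) * w x) * KF h (sym h ε) B ν x y *
        (Real.sqrt (ν y) * w y)) - 2 * (∑ x : B, ν x * w x ^ 2) +
        ((∑ x : B, ∑ y : B, w x * lapB B x y * w y) / h ^ 2 + ε * ∑ x : B, w x ^ 2)) := by
    have e1 : ∑ x : B, ∑ y : B, (if x = y then ν x * w x * w y else 0) =
        ∑ x : B, ν x * w x ^ 2 := by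
      refine Finset.sum_congr rfl fun x _ => ?_
      rw [Finset.sum_ite_eq, if_pos (Finset.mem_univ x)]
      ring
    have e2 : ∑ x : B, ∑ y : B, (if x = y then w x * w y else 0) = ∑ x : B, w x ^ 2 := by
      refine Finset.sum_congr rfl fun x _ => ?_
      rw [Finset.sum_ite_eq, if_pos (Finset.mem_univ x)]
      ring
    rw [← e1, ← e2]
    simp only [← Finset.mul_sum, Finset.sum_add_distrib, Finset.sum_sub_distrib,
      ← Finset.sum_div]
  rw [hfin] at hint
  have hint2 : 0 ≤ (∑ x : B, ∑ y : B, (Real.sqrt (ν x) * w x) * KF h (sym h ε) B ν x y *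
        (Real.sqrt (ν y) * w y)) - 2 * (∑ x : B, ν x * w x ^ 2) +
        ((∑ x : B, ∑ y : B, w x * lapB B x y * w y) / h ^ 2 + ε * ∑ x : B, w x ^ 2) :=
    nonneg_of_mul_nonneg_right hint hLpos
  have hT : ∑ x : B, (Real.sqrt (ν x) * w x) ^ 2 = ∑ x : B, ν x * w x ^ 2 := by
    refine Finset.sum_congr rfl fun x _ => ?_
    rw [mul_pow, Real.sq_sqrt (hν0 x)]
  have hD : (∑ x : B, ∑ y : B, w x * lapB B x y * w y) / h ^ 2 + ε * ∑ x : B, w x ^ 2 <
      ∑ x : B, ν x * w x ^ 2 := by
    have hh2 : 0 < h ^ 2 := by positivity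
    have h10 : (∑ x : B, ∑ y : B, w x * lapB B x y * w y) / h ^ 2 + ε * ∑ x : B, w x ^ 2 =
        (∑ x : B, ∑ y : B, w x * lapB B x y * w y + ε * h ^ 2 * ∑ x, w x ^ 2) / h ^ 2 := by
      field_simp
    rw [h10, div_lt_iff₀ hh2, mul_comm (∑ x : B, ν x * w x ^ 2)]
    exact hneg
  rw [hT]
  linarith

theorem A7 (h ε : ℝ) (hh : 0 < h) (hε : 0 < ε) (B : Finset Z3) (ν : B → ℝ)
    (hν0 : ∀ x, 0 ≤ ν x) (n : ℕ) (φ : Fin n → B → ℝ)
    (hneg : ∀ c : Fin n → ℝ, c ≠ 0 →
      ∑ x, ∑ y, (∑ i, c i * φ i x) * lapB B x y * (∑ i, c i * φ i y)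
          + ε * h ^ 2 * ∑ x, (∑ i, c i * φ i x) ^ 2 <
        h ^ 2 * ∑ x, ν x * (∑ i, c i * φ i x) ^ 2) :
    ∀ c : Fin n → ℝ, c ≠ 0 →
      ∑ x : B, (∑ i, c i * (Real.sqrt (ν x) * φ i x)) ^ 2 <
        ∑ x : B, ∑ y : B, (∑ i, c i * (Real.sqrt (ν x) * φ i x)) * KF h (sym h ε) B ν x y *
          (∑ i, c i * (Real.sqrt (ν y) * φ i y)) := by
  intro c hc
  have h1 : ∀ x : B, ∑ i, c i * (Real.sqrt (ν x) * φ i x) =
      Real.sqrt (ν x) * ∑ i, c i * φ i x := by
    intro x
    rw [Finset.mul_sum]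
    refine Finset.sum_congr rfl fun i _ => ?_
    ring
  simp only [h1]
  exact A7_core h ε hh hε B ν hν0 (fun x => ∑ i, c i * φ i x) (hneg c hc)

end WEL
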