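import Pool.Agent.WEL.A4

/-!
# WEL A8
Integral identities (from A4_cos, A4_sin; expand squares, `cos a cos b + sin a sin b = cos (a - b)`).
-/

set_option autoImplicit false

open MeasureTheory Set Filter Topology
open CLR (E3 Z3 lapB)

noncomputable section

namespace WEL

theorem A8_int {E : Type} [NormedAddCommGroup E] (h : ℝ) {g : E3 → E} (hg : Continuous g) :
    IntegrableOn g (cube h) := by
  have hb : Bornology.IsBounded (cube h) := by
    rw [isBounded_iff_forall_norm_le]
    refine ⟨Real.sqrt (3 * (Real.pi / h) ^ 2), fun p hp => ?_⟩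
    rw [EuclideanSpace.norm_eq]
    apply Real.sqrt_le_sqrt
    calc ∑ i, ‖p i‖ ^ 2 ≤ ∑ _i : Fin 3, (Real.pi / h) ^ 2 := by
          refine Finset.sum_le_sum fun i _ => ?_
          rw [Real.norm_eq_abs]
          exact pow_le_pow_left₀ (abs_nonneg _) (hp i) 2
      _ = 3 * (Real.pi / h) ^ 2 := by simp
  have hc : IsClosed (cube h) := by
    have : cube h = ⋂ i : Fin 3, {p : E3 | |p i| ≤ Real.pi / h} := by
      ext p
      simp [cube]
    rw [this]
    refine isClosed_iInter fun i => ?_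
    exact isClosed_le (by fun_prop) continuous_const
  exact hg.continuousOn.integrableOn_compact (Metric.isCompact_of_isClosed_isBounded hc hb)

/-- sums of cosines and sines -/
theorem A8_sq {B : Type} [Fintype B] (c u v : B → ℝ) :
    (∑ x, c x * u x) ^ 2 + (∑ x, c x * v x) ^ 2 = ∑ x, ∑ y, c x * c y * (u x * u y + v x * v y) := by
  rw [sq, sq, Finset.sum_mul_sum, Finset.sum_mul_sum, ← Finset.sum_add_distrib]
  refine Finset.sum_congr rfl fun x _ => ?_
  rw [← Finset.sum_add_distrib]
  exact Finset.sum_congr rfl fun y _ => by ring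

theorem A8_cs {B : Type} [Fintype B] (c φ : B → ℝ) :
    (∑ x, c x * Real.cos (φ x)) ^ 2 + (∑ x, c x * Real.sin (φ x)) ^ 2 =
      ∑ x, ∑ y, c x * c y * Real.cos (φ x - φ y) := by
  rw [A8_sq]
  refine Finset.sum_congr rfl fun x _ => Finset.sum_congr rfl fun y _ => ?_
  rw [Real.cos_sub]

/-- integral of a double sum -/
theorem A8_sum (h : ℝ) {B : Type} [Fintype B] (c : B → B → ℝ) (F : B → B → E3 → ℝ)
    (hF : ∀ x y, Continuous (F x y)) :
    ∫ p in cube h, ∑ x, ∑ y, c x y * F x y p = ∑ x, ∑ y, c x y * ∫ p in cube h, F x y p := by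
  have h1 : ∀ x y, IntegrableOn (fun p => c x y * F x y p) (cube h) := fun x y =>
    A8_int h (continuous_const.mul (hF x y))
  rw [integral_finsetSum _ fun x _ => integrable_finsetSum _ fun y _ => h1 x y]
  refine Finset.sum_congr rfl fun x _ => ?_
  rw [integral_finsetSum _ fun y _ => h1 x y]
  refine Finset.sum_congr rfl fun y _ => ?_
  rw [integral_const_mul]

theorem A8_cosd (h : ℝ) (hh : 0 < h) (x y : Z3) (δ : ℝ) :
    ∫ p in cube h, Real.cos (ph h p x - ph h p y + δ) =
      if x = y then (2 * Real.pi / h) ^ 3 * Real.cos δ else 0 := by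
  have hx := A4_cont h x
  have hy := A4_cont h y
  have e : ∀ p, Real.cos (ph h p x - ph h p y + δ) =
      Real.cos (ph h p x - ph h p y) * Real.cos δ - Real.sin (ph h p x - ph h p y) * Real.sin δ :=
    fun p => Real.cos_add _ _
  simp only [e]
  rw [integral_sub, integral_mul_const, integral_mul_const, A4_cos h hh, A4_sin h hh]
  · split_ifs <;> ring
  · exact A8_int h (by fun_prop)
  · exact A8_int h (by fun_prop)

theorem A8_phadd (h : ℝ) (p q : E3) (x : Z3) : ph h (p + q) x = ph h p x + ph h q x := by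
  unfold ph
  rw [← mul_add, ← Finset.sum_add_distrib]
  congr 1
  refine Finset.sum_congr rfl fun i _ => ?_
  rw [PiLp.add_apply]
  ring

theorem A8_phsub (h : ℝ) (p q : E3) (x : Z3) : ph h (p - q) x = ph h p x - ph h q x := by
  unfold ph
  rw [← mul_sub, ← Finset.sum_sub_distrib]
  congr 1
  refine Finset.sum_congr rfl fun i _ => ?_
  rw [PiLp.sub_apply]
  ring

theorem A8_sqrt {a b V : ℝ} (ha : 0 ≤ a) (hb : 0 ≤ b) (hV : 0 < V) :
    V * (Real.sqrt (a / V) * Real.sqrt (b / V)) = Real.sqrt a * Real.sqrt b := by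
  rw [Real.sqrt_div ha, Real.sqrt_div hb]
  have h1 : Real.sqrt V * Real.sqrt V = V := Real.mul_self_sqrt hV.le
  have h2 : Real.sqrt V ≠ 0 := (Real.sqrt_pos.2 hV).ne'
  field_simp
  rw [sq, h1]
  ring

theorem A8_wF (h : ℝ) (B : Finset Z3) (ν : B → ℝ) (U : B → B → ℝ) (j : B) (p : E3) :
    wF h B ν U j p = ∑ x : B, ∑ y : B, (U x j * Real.sqrt (ν x / ∑ y, ν y)) *
      (U y j * Real.sqrt (ν y / ∑ y, ν y)) * Real.cos (ph h p x - ph h p y) := by
  unfold wF
  exact A8_cs (fun x : B => U x j * Real.sqrt (ν x / ∑ y, ν y)) (fun x : B => ph h p x)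

theorem A8_h3 {h : ℝ} (hh : 0 < h) : (h / (2 * Real.pi)) ^ 3 * (2 * Real.pi / h) ^ 3 = 1 := by
  rw [← mul_pow]
  have h1 : h / (2 * Real.pi) * (2 * Real.pi / h) = 1 := by
    have := Real.pi_pos
    field_simp
  rw [h1, one_pow]

theorem A8_w (h : ℝ) (hh : 0 < h) (B : Finset Z3) (ν : B → ℝ) (hν0 : ∀ x, 0 ≤ ν x)
    (hV : 0 < ∑ x, ν x) (U : B → B → ℝ) (j : B) :
    (h / (2 * Real.pi)) ^ 3 * (∑ x, ν x) * ∫ p in cube h, wF h B ν U j p =
      ∑ x, ν x * U x j ^ 2 := by
  obtain ⟨V, hVV⟩ : ∃ V, V = ∑ x, ν x := ⟨_, rfl⟩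
  simp only [A8_wF]
  rw [← hVV] at hV ⊢
  rw [A8_sum h (fun x y : B => (U x j * Real.sqrt (ν x / V)) * (U y j * Real.sqrt (ν y / V)))
    (fun x y p => Real.cos (ph h p x - ph h p y)) (fun x y => by
      have h1 := A4_cont h (x : Z3)
      have h2 := A4_cont h (y : Z3)
      fun_prop)]
  simp only [A4_cos h hh, Subtype.coe_inj, mul_ite, mul_zero, Finset.sum_ite_eq, Finset.mem_univ, if_true]
  rw [Finset.mul_sum]
  refine Finset.sum_congr rfl fun x _ => ?_
  have h1 := A8_sqrt (hν0 x) (hν0 x) hV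
  have h2 := A8_h3 hh
  rw [Real.mul_self_sqrt (hν0 x)] at h1
  calc _ = ((h / (2 * Real.pi)) ^ 3 * (2 * Real.pi / h) ^ 3) *
        (V * (Real.sqrt (ν x / V) * Real.sqrt (ν x / V))) * U x j ^ 2 := by ring
    _ = _ := by rw [h1, h2, one_mul]

theorem A8_sw (h : ℝ) (hh : 0 < h) (B : Finset Z3) (ν : B → ℝ) (hν0 : ∀ x, 0 ≤ ν x)
    (hV : 0 < ∑ x, ν x) (s : E3 → ℝ) (hs : Continuous s) (U : B → B → ℝ) (j : B) :
    (h / (2 * Real.pi)) ^ 3 * (∑ x, ν x) * ∫ p in cube h, s p * wF h B ν U j p =
      ∑ x, ∑ y, U x j * KF h s B ν x y * U y j := by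
  obtain ⟨V, hVV⟩ : ∃ V, V = ∑ x, ν x := ⟨_, rfl⟩
  simp only [A8_wF]
  rw [← hVV] at hV ⊢
  have e : ∀ p, s p * ∑ x : B, ∑ y : B, (U x j * Real.sqrt (ν x / V)) *
      (U y j * Real.sqrt (ν y / V)) * Real.cos (ph h p x - ph h p y) =
      ∑ x : B, ∑ y : B, (U x j * Real.sqrt (ν x / V)) *
      (U y j * Real.sqrt (ν y / V)) * (s p * Real.cos (ph h p x - ph h p y)) := by
    intro p
    rw [Finset.mul_sum]
    refine Finset.sum_congr rfl fun x _ => ?_
    rw [Finset.mul_sum]
    refine Finset.sum_congr rfl fun y _ => ?_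
    ring
  simp only [e]
  rw [A8_sum h (fun x y : B => (U x j * Real.sqrt (ν x / V)) * (U y j * Real.sqrt (ν y / V)))
    (fun x y p => s p * Real.cos (ph h p x - ph h p y)) (fun x y => by
      have h1 := A4_cont h (x : Z3)
      have h2 := A4_cont h (y : Z3)
      fun_prop), Finset.mul_sum]
  refine Finset.sum_congr rfl fun x _ => ?_
  rw [Finset.mul_sum]
  refine Finset.sum_congr rfl fun y _ => ?_
  unfold KF
  rw [← A8_sqrt (hν0 x) (hν0 y) hV]
  ring

theorem A8_shift (h : ℝ) (hh : 0 < h) (B : Finset Z3) (ν : B → ℝ) (hν0 : ∀ x, 0 ≤ ν x)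
    (hV : 0 < ∑ x, ν x) (s : E3 → ℝ) (hs : Continuous s) (U : B → B → ℝ) (f : B → ℝ) (q : E3) :
    (h / (2 * Real.pi)) ^ 3 * (∑ x, ν x) *
        ∫ p in cube h, s p * ((rF h B ν U f (p + q) + rF h B ν U f (p - q)) / 2) =
      ∑ x, ∑ y, AF U f x y * KF h s B ν x y * Real.cos (ph h q x - ph h q y) := by
  obtain ⟨V, hVV⟩ : ∃ V, V = ∑ x, ν x := ⟨_, rfl⟩
  have e : ∀ p, s p * ((rF h B ν U f (p + q) + rF h B ν U f (p - q)) / 2) =
      ∑ x : B, ∑ y : B, (AF U f x y * (Real.sqrt (ν x / V) * Real.sqrt (ν y / V)) *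
        Real.cos (ph h q x - ph h q y)) * (s p * Real.cos (ph h p x - ph h p y)) := by
    intro p
    have e1 : (rF h B ν U f (p + q) + rF h B ν U f (p - q)) / 2 =
        ∑ j, f j * ∑ x : B, ∑ y : B, (U x j * Real.sqrt (ν x / V)) *
          (U y j * Real.sqrt (ν y / V)) * (Real.cos (ph h p x - ph h p y) *
            Real.cos (ph h q x - ph h q y)) := by
      unfold rF
      rw [← Finset.sum_add_distrib, Finset.sum_div]
      refine Finset.sum_congr rfl fun j _ => ?_
      rw [A8_wF, A8_wF, ← hVV, ← mul_add, ← Finset.sum_add_distrib, mul_div_assoc, Finset.sum_div]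
      congr 1
      refine Finset.sum_congr rfl fun x _ => ?_
      rw [← Finset.sum_add_distrib, Finset.sum_div]
      refine Finset.sum_congr rfl fun y _ => ?_
      rw [A8_phadd, A8_phadd, A8_phsub, A8_phsub]
      have e2 : ph h p x + ph h q x - (ph h p y + ph h q y) =
          (ph h p x - ph h p y) + (ph h q x - ph h q y) := by ring
      have e3 : ph h p x - ph h q x - (ph h p y - ph h q y) =
          (ph h p x - ph h p y) - (ph h q x - ph h q y) := by ring
      rw [e2, e3, Real.cos_add (ph h p x - ph h p y) (ph h q x - ph h q y),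
        Real.cos_sub (ph h p x - ph h p y) (ph h q x - ph h q y)]
      ring
    rw [e1]
    simp only [AF, Finset.mul_sum, Finset.sum_mul]
    rw [Finset.sum_comm]
    refine Finset.sum_congr rfl fun x _ => ?_
    rw [Finset.sum_comm]
    refine Finset.sum_congr rfl fun y _ => ?_
    refine Finset.sum_congr rfl fun j _ => ?_
    ring
  simp only [e]
  rw [← hVV] at hV ⊢
  rw [A8_sum h (fun x y : B => AF U f x y * (Real.sqrt (ν x / V) * Real.sqrt (ν y / V)) *
        Real.cos (ph h q x - ph h q y))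
    (fun x y p => s p * Real.cos (ph h p x - ph h p y)) (fun x y => by
      have h1 := A4_cont h (x : Z3)
      have h2 := A4_cont h (y : Z3)
      fun_prop), Finset.mul_sum]
  refine Finset.sum_congr rfl fun x _ => ?_
  rw [Finset.mul_sum]
  refine Finset.sum_congr rfl fun y _ => ?_
  unfold KF
  rw [← A8_sqrt (hν0 x) (hν0 y) hV]
  ring

theorem A8_X (h : ℝ) (hh : 0 < h) (B : Finset Z3) (ν : B → ℝ) (hν0 : ∀ x, 0 ≤ ν x)
    (hV : 0 < ∑ x, ν x) (U : B → B → ℝ) (f : B → ℝ) (q : E3) :
    (h / (2 * Real.pi)) ^ 3 * (∑ x, ν x) *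
        ∫ p in cube h, ∑ i, (XF h B ν (AF U f) (p + q) i - XF h B ν (AF U f) p i) ^ 2 =
      ∑ x, ∑ y, AF U f x y ^ 2 * ν y * (2 - 2 * Real.cos (ph h q x - ph h q y)) := by
  obtain ⟨V, hVV⟩ : ∃ V, V = ∑ x, ν x := ⟨_, rfl⟩
  have e : ∀ p, ∑ i, (XF h B ν (AF U f) (p + q) i - XF h B ν (AF U f) p i) ^ 2 =
      ∑ x : B, ∑ y : B, ∑ z : B, (AF U f x y * Real.sqrt (ν y / V)) * (AF U f x z * Real.sqrt (ν z / V)) *
        (Real.cos (ph h p y - ph h p z + ((ph h q y - ph h q x) - (ph h q z - ph h q x))) -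
          Real.cos (ph h p y - ph h p z + (ph h q y - ph h q x)) -
          Real.cos (ph h p y - ph h p z + -(ph h q z - ph h q x)) +
          Real.cos (ph h p y - ph h p z + 0)) := by
    intro p
    rw [Fintype.sum_sum_type, ← Finset.sum_add_distrib]
    refine Finset.sum_congr rfl fun x _ => ?_
    simp only [XF, Sum.elim_inl, Sum.elim_inr]
    rw [← hVV, ← Finset.sum_sub_distrib, ← Finset.sum_sub_distrib]
    simp only [← mul_sub]
    rw [A8_sq (fun y : B => AF U f x y * Real.sqrt (ν y / V))]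
    refine Finset.sum_congr rfl fun y _ => Finset.sum_congr rfl fun z _ => ?_
    congr 1
    rw [A8_phadd, A8_phadd, A8_phadd]
    have c1 : ph h p y - ph h p z + ((ph h q y - ph h q x) - (ph h q z - ph h q x)) =
        (ph h p y + ph h q y - (ph h p x + ph h q x)) - (ph h p z + ph h q z - (ph h p x + ph h q x)) := by
      ring
    have c2 : ph h p y - ph h p z + (ph h q y - ph h q x) =
        (ph h p y + ph h q y - (ph h p x + ph h q x)) - (ph h p z - ph h p x) := by
      ring
    have c3 : ph h p y - ph h p z + -(ph h q z - ph h q x) =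
        (ph h p y - ph h p x) - (ph h p z + ph h q z - (ph h p x + ph h q x)) := by
      ring
    have c4 : ph h p y - ph h p z + 0 = (ph h p y - ph h p x) - (ph h p z - ph h p x) := by
      ring
    rw [c1, c2, c3, c4, Real.cos_sub (ph h p y + ph h q y - (ph h p x + ph h q x)) (ph h p z + ph h q z - (ph h p x + ph h q x)),
      Real.cos_sub (ph h p y + ph h q y - (ph h p x + ph h q x)) (ph h p z - ph h p x),
      Real.cos_sub (ph h p y - ph h p x) (ph h p z + ph h q z - (ph h p x + ph h q x)),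
      Real.cos_sub (ph h p y - ph h p x) (ph h p z - ph h p x)]
    ring
  simp only [e]
  rw [← hVV] at hV ⊢
  have hcont : ∀ (y z : B) (δ : ℝ), Continuous fun p => Real.cos (ph h p y - ph h p z + δ) := by
    intro y z δ
    have h1 := A4_cont h (y : Z3)
    have h2 := A4_cont h (z : Z3)
    fun_prop
  have hcI : ∀ (y z : B) (δ : ℝ), IntegrableOn (fun p => Real.cos (ph h p y - ph h p z + δ)) (cube h) :=
    fun y z δ => A8_int h (hcont y z δ)
  rw [integral_finsetSum _ fun x _ => A8_int h (by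
    refine continuous_finsetSum _ fun y _ => continuous_finsetSum _ fun z _ => ?_
    exact continuous_const.mul ((((hcont y z _).sub (hcont y z _)).sub (hcont y z _)).add (hcont y z _))),
    Finset.mul_sum]
  refine Finset.sum_congr rfl fun x _ => ?_
  rw [A8_sum h (fun y z : B => (AF U f x y * Real.sqrt (ν y / V)) * (AF U f x z * Real.sqrt (ν z / V)))
    (fun y z p => Real.cos (ph h p y - ph h p z + ((ph h q y - ph h q x) - (ph h q z - ph h q x))) -
          Real.cos (ph h p y - ph h p z + (ph h q y - ph h q x)) -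
          Real.cos (ph h p y - ph h p z + -(ph h q z - ph h q x)) +
          Real.cos (ph h p y - ph h p z + 0))
    (fun y z => (((hcont y z _).sub (hcont y z _)).sub (hcont y z _)).add (hcont y z _)), Finset.mul_sum]
  refine Finset.sum_congr rfl fun y _ => ?_
  have e5 : ∀ z : B, ∫ p in cube h, (Real.cos (ph h p y - ph h p z + ((ph h q y - ph h q x) - (ph h q z - ph h q x))) -
          Real.cos (ph h p y - ph h p z + (ph h q y - ph h q x)) -
          Real.cos (ph h p y - ph h p z + -(ph h q z - ph h q x)) +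
          Real.cos (ph h p y - ph h p z + 0)) =
      if y = z then (2 * Real.pi / h) ^ 3 * (2 - 2 * Real.cos (ph h q x - ph h q y)) else 0 := by
    intro z
    have i1 : IntegrableOn (fun p =>
        Real.cos (ph h p y - ph h p z + ((ph h q y - ph h q x) - (ph h q z - ph h q x))) -
          Real.cos (ph h p y - ph h p z + (ph h q y - ph h q x))) (cube h) :=
      (hcI y z _).sub (hcI y z _)
    have i2 : IntegrableOn (fun p =>
        Real.cos (ph h p y - ph h p z + ((ph h q y - ph h q x) - (ph h q z - ph h q x))) -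
          Real.cos (ph h p y - ph h p z + (ph h q y - ph h q x)) -
          Real.cos (ph h p y - ph h p z + -(ph h q z - ph h q x))) (cube h) :=
      i1.sub (hcI y z _)
    rw [integral_add i2 (hcI y z _), integral_sub i1 (hcI y z _), integral_sub (hcI y z _) (hcI y z _),
      A8_cosd h hh, A8_cosd h hh, A8_cosd h hh, A8_cosd h hh]
    by_cases hyz : y = z
    · subst hyz
      simp only [if_true]
      rw [sub_self, Real.cos_zero, Real.cos_neg]
      have : ph h q x - ph h q y = -(ph h q y - ph h q x) := by ring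
      rw [this, Real.cos_neg]
      ring
    · have hyz' : ¬ ((y : Z3) = (z : Z3)) := fun h => hyz (Subtype.ext h)
      simp only [if_neg hyz, if_neg hyz']
      ring
  simp only [e5, mul_ite, mul_zero, Finset.sum_ite_eq, Finset.mem_univ, if_true]
  have h1 := A8_sqrt (hν0 y) (hν0 y) hV
  have h2 := A8_h3 hh
  rw [Real.mul_self_sqrt (hν0 y)] at h1
  calc _ = ((h / (2 * Real.pi)) ^ 3 * (2 * Real.pi / h) ^ 3) *
        (V * (Real.sqrt (ν y / V) * Real.sqrt (ν y / V))) * AF U f x y ^ 2 *
          (2 - 2 * Real.cos (ph h q x - ph h q y)) := by ring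
    _ = _ := by rw [h1, h2, one_mul]; ring

end WEL
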