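import Pool.Agent.WEL.Defs

/-!
# WEL C4
Bounds for the symbol.  `2 - 2 cos θ ≤ θ²`; `2 - 2 cos θ ≥ (4/π²) θ²` for `|θ| ≤ π`; `2 - 2 cos θ ≥ θ² - θ⁴/12`
(`Real.cos_bound`-type or `Real.cos_le_one_sub_mul_cos_sq`.. or prove by derivatives); `∑ p_i⁴ ≤ ‖p‖⁴`.
-/

set_option autoImplicit false

open MeasureTheory Set Filter Topology
open CLR (E3 Z3 lapB)

noncomputable section

namespace WEL

theorem C4_S_nonneg (h : ℝ) (p : E3) :
    0 ≤ (∑ i : Fin 3, (2 - 2 * Real.cos (h * p i))) / h ^ 2 := by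
  apply div_nonneg _ (sq_nonneg h)
  apply Finset.sum_nonneg
  intro i _
  have := Real.cos_le_one (h * p i)
  linarith

theorem C4_norm_sq (p : E3) : ‖p‖ ^ 2 = ∑ i : Fin 3, (p i) ^ 2 := by
  rw [EuclideanSpace.norm_sq_eq]
  apply Finset.sum_congr rfl
  intro i _
  rw [Real.norm_eq_abs, sq_abs]

theorem sym_cont (h ε : ℝ) (hh : 0 < h) (hε : 0 < ε) : Continuous (sym h ε) := by
  unfold sym
  refine Continuous.div continuous_const ?_ ?_
  · fun_prop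
  · intro p
    have := C4_S_nonneg h p
    positivity

theorem sym_nonneg (h ε : ℝ) (hh : 0 < h) (hε : 0 < ε) (p : E3) : 0 ≤ sym h ε p := by
  unfold sym
  have := C4_S_nonneg h p
  positivity

theorem sym_le (h ε : ℝ) (hh : 0 < h) (hε : 0 < ε) (p : E3) : sym h ε p ≤ 1 / ε := by
  unfold sym
  have := C4_S_nonneg h p
  exact one_div_le_one_div_of_le hε (by linarith)

theorem sym_ge (h ε : ℝ) (hh : 0 < h) (hε : 0 < ε) (p : E3) : 1 / (‖p‖ ^ 2 + ε) ≤ sym h ε p := by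
  unfold sym
  have h0 := C4_S_nonneg h p
  refine one_div_le_one_div_of_le (by linarith) ?_
  have h1 : (∑ i : Fin 3, (2 - 2 * Real.cos (h * p i))) / h ^ 2 ≤ ‖p‖ ^ 2 := by
    rw [div_le_iff₀ (by positivity), C4_norm_sq, Finset.sum_mul]
    apply Finset.sum_le_sum
    intro i _
    have := Real.one_sub_sq_div_two_le_cos (x := h * p i)
    nlinarith
  linarith

theorem sym_far (h ε : ℝ) (hh : 0 < h) (hε : 0 < ε) (p : E3) (hp : p ∈ cube h) (hp0 : p ≠ 0) :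
    sym h ε p ≤ Real.pi ^ 2 / 4 / ‖p‖ ^ 2 := by
  have hn : 0 < ‖p‖ ^ 2 := by
    have := norm_pos_iff.mpr hp0
    positivity
  have hpi : 0 < Real.pi ^ 2 := by
    have := Real.pi_pos
    positivity
  have h1 : 4 / Real.pi ^ 2 * ‖p‖ ^ 2 ≤
      (∑ i : Fin 3, (2 - 2 * Real.cos (h * p i))) / h ^ 2 := by
    rw [le_div_iff₀ (by positivity), C4_norm_sq, Finset.mul_sum, Finset.sum_mul]
    apply Finset.sum_le_sum
    intro i _
    have hb : |h * p i| ≤ Real.pi := by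
      have := hp i
      rw [abs_mul, abs_of_pos hh]
      calc h * |p i| ≤ h * (Real.pi / h) := by gcongr
        _ = Real.pi := by field_simp
    have := Real.cos_le_one_sub_mul_cos_sq hb
    have e : 4 / Real.pi ^ 2 * p i ^ 2 * h ^ 2 = 2 * (2 / Real.pi ^ 2 * (h * p i) ^ 2) := by ring
    rw [e]
    linarith
  unfold sym
  have e2 : Real.pi ^ 2 / 4 / ‖p‖ ^ 2 = 1 / (4 / Real.pi ^ 2 * ‖p‖ ^ 2) := by
    field_simp
  rw [e2]
  exact one_div_le_one_div_of_le (by positivity) (by linarith)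

theorem sym_near (δ : ℝ) (hδ : 0 < δ) : ∃ h0 > 0, ∀ h ε, 0 < h → h < h0 → 0 < ε →
    ∀ p : E3, ‖p‖ ≤ 8 → p ≠ 0 → sym h ε p ≤ (1 + δ) / ‖p‖ ^ 2 := by
  refine ⟨min (1 / 8) (δ / (7 * (1 + δ))), by positivity, ?_⟩
  intro h ε hh hh0 hε p hp hp0
  have hn : 0 < ‖p‖ := norm_pos_iff.mpr hp0
  have h8 : h < 1 / 8 := lt_of_lt_of_le hh0 (min_le_left _ _)
  have hd : h < δ / (7 * (1 + δ)) := lt_of_lt_of_le hh0 (min_le_right _ _)
  have hd' : h * (7 * (1 + δ)) < δ := by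
    rwa [lt_div_iff₀ (by positivity)] at hd
  have hd2 : h ^ 2 * (7 * (1 + δ)) ≤ δ := by
    have : h ^ 2 ≤ h := by nlinarith
    have h2 : h ^ 2 * (7 * (1 + δ)) ≤ h * (7 * (1 + δ)) := by gcongr
    linarith
  have hn2 : ‖p‖ ^ 2 ≤ 64 := by nlinarith
  have hpi : ∀ i, p i ^ 2 ≤ ‖p‖ ^ 2 := by
    intro i
    rw [C4_norm_sq]
    exact Finset.single_le_sum (f := fun j => p j ^ 2) (fun j _ => sq_nonneg _) (Finset.mem_univ i)
  have h1 : ‖p‖ ^ 2 * (1 - 7 * h ^ 2) ≤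
      (∑ i : Fin 3, (2 - 2 * Real.cos (h * p i))) / h ^ 2 := by
    rw [le_div_iff₀ (by positivity), C4_norm_sq, Finset.sum_mul, Finset.sum_mul]
    apply Finset.sum_le_sum
    intro i _
    have hi : p i ^ 2 ≤ 64 := (hpi i).trans hn2
    have hb2 : (h * p i) ^ 2 ≤ 1 := by
      have : h ^ 2 ≤ (1 / 8) ^ 2 := by gcongr
      calc (h * p i) ^ 2 = h ^ 2 * p i ^ 2 := by ring
        _ ≤ (1 / 8) ^ 2 * 64 := by gcongr
        _ = 1 := by norm_num
    have hb : |h * p i| ≤ 1 := by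
      rw [← sq_le_one_iff_abs_le_one]
      exact hb2
    have hc := Real.cos_bound hb
    have hc2 := (abs_le.mp hc).2
    have e4 : |h * p i| ^ 4 = (h * p i) ^ 4 := by
      rw [show |h * p i| ^ 4 = (|h * p i| ^ 2) ^ 2 by ring, sq_abs]; ring
    rw [e4] at hc2
    have e5 : (h * p i) ^ 4 ≤ h ^ 4 * p i ^ 2 * 64 := by
      calc (h * p i) ^ 4 = h ^ 4 * p i ^ 2 * p i ^ 2 := by ring
        _ ≤ h ^ 4 * p i ^ 2 * 64 := by gcongr
    have e6 : 0 ≤ h ^ 4 * p i ^ 2 := by positivity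
    nlinarith
  have hpos : 0 < (1 + δ) * (1 - 7 * h ^ 2) := by nlinarith
  have h1d : 1 ≤ (1 + δ) * (1 - 7 * h ^ 2) := by nlinarith
  unfold sym
  have hS : 0 < (∑ i : Fin 3, (2 - 2 * Real.cos (h * p i))) / h ^ 2 + ε := by
    have := C4_S_nonneg h p
    linarith
  rw [div_le_div_iff₀ hS (by positivity), one_mul]
  have h2 : ‖p‖ ^ 2 * 1 ≤ ‖p‖ ^ 2 * ((1 + δ) * (1 - 7 * h ^ 2)) := by gcongr
  have h3 : (1 + δ) * (‖p‖ ^ 2 * (1 - 7 * h ^ 2)) ≤
      (1 + δ) * ((∑ i : Fin 3, (2 - 2 * Real.cos (h * p i))) / h ^ 2 + ε) := by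
    gcongr
    linarith
  linarith

end WEL
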