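import Pool.Agent.WEL.A1
import Pool.Agent.WEL.A2
import Pool.Agent.WEL.A3
import Pool.Agent.WEL.A4
import Pool.Agent.WEL.A5
import Pool.Agent.WEL.A6
import Pool.Agent.WEL.A7
import Pool.Agent.WEL.A8
import Pool.Agent.WEL.C4

/-!
# WEL A10
Assembly of block A (from A1-A8; imported stubs).  Spec for `K = KF h (sym h ε) B ν`; count
with A2 and A7; `(h/2π)³V∫ s r = ∑ f μ`, `(h/2π)³V∫ r = ∑ f ∑ ν U² ≤ ∑ f`, `(h/2π)³V∫ β ≤ ∑_{f<1} f²`; integrate A3 with
`θ x = ph h q x` against `k q`, use A8_shift (even kernel), A8_X and `ν ≤ 1`, and drop pairs with A5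
(`g p p' = sym h ε p * r p'`, bounded since `sym ≤ 1/ε`, and `g p p' = ∑ i, (X p' i - X p i)^2`).
-/

set_option autoImplicit false

open MeasureTheory Set Filter Topology
open CLR (E3 Z3 lapB)

noncomputable section

namespace WEL

/-- continuous functions are integrable on the cube -/
theorem A10_intOn (h : ℝ) (hh : 0 < h) (F : E3 → ℝ) (hF : Continuous F) :
    IntegrableOn F (cube h) := by
  obtain ⟨R, hR⟩ := (A4_bdd h hh).subset_closedBall 0
  exact (hF.continuousOn.integrableOn_compact (isCompact_closedBall (0 : E3) R)).mono_set hR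

theorem A10_trace {B : Type} [Fintype B] [DecidableEq B] (K : B → B → ℝ) (a : ℝ)
    (U : B → B → ℝ) (μ f : B → ℝ) (hS : Spec K a U μ f) (j : B) :
    ∑ x, ∑ y, U x j * K x y * U y j = μ j := by
  have h1 : ∀ x, ∑ y, U x j * K x y * U y j = U x j * ∑ l, μ l * U x l * (∑ y, U y l * U y j) := by
    intro x
    rw [Finset.mul_sum]
    have : ∀ y, U x j * K x y * U y j = ∑ l, U x j * (μ l * U x l * (U y l * U y j)) := by
      intro y
      rw [hS.eig x y, Finset.mul_sum, Finset.sum_mul]
      refine Finset.sum_congr rfl fun l _ => by ring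
    simp_rw [this]
    rw [Finset.sum_comm]
    refine Finset.sum_congr rfl fun l _ => ?_
    rw [Finset.mul_sum, Finset.mul_sum]
  simp_rw [h1, hS.cols]
  have h2 : ∀ x, U x j * ∑ l, μ l * U x l * (if l = j then (1 : ℝ) else 0) = μ j * (U x j * U x j) := by
    intro x
    rw [Finset.sum_eq_single j]
    · simp; ring
    · intro l _ hl; simp [hl]
    · intro hj; exact absurd (Finset.mem_univ j) hj
  simp_rw [h2]
  rw [← Finset.mul_sum, hS.cols]
  simp

/-- `∑ A K = ∑ f μ` -/
theorem A10_AK {B : Type} [Fintype B] [DecidableEq B] (K : B → B → ℝ) (a : ℝ)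
    (U : B → B → ℝ) (μ f : B → ℝ) (hS : Spec K a U μ f) :
    ∑ x, ∑ y, AF U f x y * K x y = ∑ j, f j * μ j := by
  have h1 : ∀ x y, AF U f x y * K x y = ∑ j, f j * (U x j * K x y * U y j) := by
    intro x y
    rw [AF, Finset.sum_mul]
    refine Finset.sum_congr rfl fun l _ => by ring
  simp_rw [h1]
  have h2 : ∑ x, ∑ y, ∑ j, f j * (U x j * K x y * U y j) =
      ∑ j, f j * ∑ x, ∑ y, U x j * K x y * U y j := by
    have h3 : ∀ x, ∑ y, ∑ j, f j * (U x j * K x y * U y j) =
        ∑ j, f j * ∑ y, U x j * K x y * U y j := by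
      intro x
      rw [Finset.sum_comm]
      refine Finset.sum_congr rfl fun j _ => by rw [Finset.mul_sum]
    simp_rw [h3]
    rw [Finset.sum_comm]
    refine Finset.sum_congr rfl fun j _ => by rw [Finset.mul_sum]
  rw [h2]
  refine Finset.sum_congr rfl fun j _ => ?_
  rw [A10_trace K a U μ f hS j]

theorem A10_lin (h : ℝ) (hh : 0 < h) (B : Finset Z3) (ν : B → ℝ) (hν0 : ∀ x, 0 ≤ ν x)
    (hV : 0 < ∑ x, ν x) (U : B → B → ℝ) (hw : ∀ j, Continuous (wF h B ν U j)) (g : B → ℝ) :
    (h / (2 * Real.pi)) ^ 3 * (∑ x, ν x) * ∫ p in cube h, ∑ j, g j * wF h B ν U j p =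
      ∑ j, g j * ∑ x, ν x * U x j ^ 2 := by
  have hi : ∀ j ∈ Finset.univ,
      Integrable (fun p => g j * wF h B ν U j p) (volume.restrict (cube h)) :=
    fun j _ => A10_intOn h hh _ (continuous_const.mul (hw j))
  rw [integral_finsetSum _ hi, Finset.mul_sum]
  refine Finset.sum_congr rfl fun j _ => ?_
  rw [integral_const_mul, ← A8_w h hh B ν hν0 hV U j]
  ring

theorem A10_slin (h : ℝ) (hh : 0 < h) (B : Finset Z3) (ν : B → ℝ) (hν0 : ∀ x, 0 ≤ ν x)
    (hV : 0 < ∑ x, ν x) (s : E3 → ℝ) (hs : Continuous s) (U : B → B → ℝ)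
    (hw : ∀ j, Continuous (wF h B ν U j)) (g : B → ℝ) :
    (h / (2 * Real.pi)) ^ 3 * (∑ x, ν x) * ∫ p in cube h, s p * ∑ j, g j * wF h B ν U j p =
      ∑ j, g j * ∑ x, ∑ y, U x j * KF h s B ν x y * U y j := by
  have h0 : ∀ p, s p * ∑ j, g j * wF h B ν U j p = ∑ j, g j * (s p * wF h B ν U j p) := by
    intro p
    rw [Finset.mul_sum]
    refine Finset.sum_congr rfl fun j _ => by ring
  simp_rw [h0]
  have hi : ∀ j ∈ Finset.univ,
      Integrable (fun p => g j * (s p * wF h B ν U j p)) (volume.restrict (cube h)) :=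
    fun j _ => A10_intOn h hh _ (continuous_const.mul (hs.mul (hw j)))
  rw [integral_finsetSum _ hi, Finset.mul_sum]
  refine Finset.sum_congr rfl fun j _ => ?_
  rw [integral_const_mul, ← A8_sw h hh B ν hν0 hV s hs U j]
  ring

/-- trigonometric sums against the kernel are integrable -/
theorem A10_intJ (h : ℝ) (k : E3 → ℝ) (hk : IsKer k) (B : Finset Z3) (M : B → B → ℝ) :
    Integrable fun q => k q * ∑ x : B, ∑ y : B, M x y * Real.cos (ph h q x - ph h q y) := by
  have hc : Continuous fun q : E3 => ∑ x : B, ∑ y : B, M x y * Real.cos (ph h q x - ph h q y) := by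
    refine continuous_finsetSum _ fun x _ => continuous_finsetSum _ fun y _ => ?_
    exact continuous_const.mul
      (Real.continuous_cos.comp ((A4_cont h (x : Z3)).sub (A4_cont h (y : Z3))))
  refine hk.int.mul_bdd (c := ∑ x : B, ∑ y : B, |M x y|) hc.aestronglyMeasurable ?_
  refine Eventually.of_forall fun q => ?_
  refine (norm_sum_le _ _).trans (Finset.sum_le_sum fun x _ => ?_)
  refine (norm_sum_le _ _).trans (Finset.sum_le_sum fun y _ => ?_)
  rw [norm_mul, Real.norm_eq_abs, Real.norm_eq_abs]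
  exact mul_le_of_le_one_right (abs_nonneg _) (Real.abs_cos_le_one _)

/-- the shifted integral against an even kernel -/
theorem A10_shift (h ε : ℝ) (hh : 0 < h) (hε : 0 < ε) (k : E3 → ℝ) (hk : IsKer k)
    (B : Finset Z3) (ν : B → ℝ) (hν0 : ∀ x, 0 ≤ ν x) (hV : 0 < ∑ x, ν x)
    (U : B → B → ℝ) (f : B → ℝ) (hr : Continuous (rF h B ν U f))
    (hr0 : ∀ p, 0 ≤ rF h B ν U f p) (hr1 : ∀ p, rF h B ν U f p ≤ 1) :
    (h / (2 * Real.pi)) ^ 3 * (∑ x, ν x) *
        ∫ q, k q * ∫ p in cube h, sym h ε p * rF h B ν U f (p + q) =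
      ∫ q, k q * ∑ x, ∑ y, AF U f x y * KF h (sym h ε) B ν x y *
        Real.cos (ph h q x - ph h q y) := by
  have hs := sym_cont h ε hh hε
  set G : E3 → ℝ := fun q => ∫ p in cube h, sym h ε p * rF h B ν U f (p + q) with hG
  have hcst : IntegrableOn (fun _ : E3 => 1 / ε) (cube h) :=
    A10_intOn h hh _ continuous_const
  have hb : ∀ q p : E3, ‖sym h ε p * rF h B ν U f (p + q)‖ ≤ 1 / ε := by
    intro q p
    rw [Real.norm_eq_abs, abs_of_nonneg (mul_nonneg (sym_nonneg h ε hh hε p) (hr0 _))]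
    calc sym h ε p * rF h B ν U f (p + q) ≤ sym h ε p * 1 :=
          mul_le_mul_of_nonneg_left (hr1 _) (sym_nonneg h ε hh hε p)
      _ ≤ 1 / ε := by rw [mul_one]; exact sym_le h ε hh hε p
  have hGc : Continuous G := by
    refine continuous_of_dominated (F := fun q p => sym h ε p * rF h B ν U f (p + q))
      (bound := fun _ => 1 / ε) ?_ ?_ hcst ?_
    · intro q
      exact (hs.mul (hr.comp (continuous_id.add continuous_const))).aestronglyMeasurable
    · intro q
      exact Eventually.of_forall fun p => hb q p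
    · exact Eventually.of_forall fun p =>
        continuous_const.mul (hr.comp (continuous_const.add continuous_id))
  have hGb : ∀ q, ‖G q‖ ≤ ∫ _ in cube h, 1 / ε := by
    intro q
    exact norm_integral_le_of_norm_le hcst (Eventually.of_forall fun p => hb q p)
  have hI1 : Integrable fun q => k q * G q :=
    hk.int.mul_bdd hGc.aestronglyMeasurable (Eventually.of_forall hGb)
  have hI2 : Integrable fun q => k q * G (-q) :=
    hk.int.mul_bdd (hGc.comp continuous_neg).aestronglyMeasurable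
      (Eventually.of_forall fun q => hGb (-q))
  have hev : ∫ q, k q * G (-q) = ∫ q, k q * G q := by
    rw [← integral_neg_eq_self (fun q => k q * G q)]
    refine integral_congr_ae (Eventually.of_forall fun q => ?_)
    simp only [hk.even]
  have hJ : ∀ q, (h / (2 * Real.pi)) ^ 3 * (∑ x, ν x) * ((G q + G (-q)) / 2) =
      ∑ x, ∑ y, AF U f x y * KF h (sym h ε) B ν x y * Real.cos (ph h q x - ph h q y) := by
    intro q
    rw [← A8_shift h hh B ν hν0 hV (sym h ε) hs U f q]
    congr 1
    have e1 : (G q + G (-q)) / 2 = (∫ p in cube h, (sym h ε p * rF h B ν U f (p + q)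
        + sym h ε p * rF h B ν U f (p + -q))) / 2 := by
      rw [integral_add]
      · exact A10_intOn h hh _ (hs.mul (hr.comp (continuous_id.add continuous_const)))
      · exact A10_intOn h hh _ (hs.mul (hr.comp (continuous_id.add continuous_const)))
    rw [e1, ← integral_div]
    refine integral_congr_ae (Eventually.of_forall fun p => ?_)
    simp only [sub_eq_add_neg]
    ring
  have hfin : ∫ q, k q * ∑ x, ∑ y, AF U f x y * KF h (sym h ε) B ν x y *
        Real.cos (ph h q x - ph h q y) =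
      ∫ q, (h / (2 * Real.pi)) ^ 3 * (∑ x, ν x) / 2 * (k q * G q + k q * G (-q)) := by
    refine integral_congr_ae (Eventually.of_forall fun q => ?_)
    simp only
    rw [← hJ q]
    ring
  rw [hfin, integral_const_mul, integral_add hI1 hI2, hev]
  ring

theorem partA (h ε a κ : ℝ) (hh : 0 < h) (hε : 0 < ε) (ha0 : 0 < a) (ha1 : a < 1) (hκ : 0 ≤ κ)
    (k : E3 → ℝ) (hk : IsKer k) (B : Finset Z3) (ν : B → ℝ) (hν0 : ∀ x, 0 ≤ ν x)
    (hν1 : ∀ x, ν x ≤ 1) (hV : 0 < ∑ x, ν x) (n : ℕ) (φ : Fin n → B → ℝ)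
    (hneg : ∀ c : Fin n → ℝ, c ≠ 0 →
      ∑ x, ∑ y, (∑ i, c i * φ i x) * lapB B x y * (∑ i, c i * φ i y)
          + ε * h ^ 2 * ∑ x, (∑ i, c i * φ i x) ^ 2 <
        h ^ 2 * ∑ x, ν x * (∑ i, c i * φ i x) ^ 2) :
    ∃ (e : B ⊕ B → ℝ) (X : E3 → B ⊕ B → ℝ) (r m β : E3 → ℝ),
      (∀ i, Continuous fun p => X p i) ∧ Continuous r ∧ Continuous m ∧ Continuous β ∧
      ∑ i, e i ^ 2 = 1 ∧ (∀ p, r p = ∑ i, e i * X p i) ∧ (∀ p, m p = ∑ i, X p i ^ 2) ∧
      (∀ p, 0 ≤ r p) ∧ (∀ p, r p ≤ 1) ∧ (∀ p, m p ≤ r p) ∧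
      (∀ p τ, 0 ≤ τ → 2 * τ * (r p - m p) - τ ^ 2 * (1 - 2 * r p + m p) ≤ β p) ∧
      (n : ℝ) ≤ (h / (2 * Real.pi)) ^ 3 * (∑ x, ν x) *
        ((∫ p in cube h, ((sym h ε p - a) / (1 - a) * r p - β p))
          + 2 * κ / (1 - a) * ((∫ p in cube h, sym h ε p * r p)
              - ∫ p in cube h, ∫ p' in cube h, sym h ε p * k (p' - p) * r p')
          - κ * (∫ p in cube h, ∫ p' in cube h, k (p' - p) * ∑ i, (X p' i - X p i) ^ 2)) := by
  classical
  have hs := sym_cont h ε hh hε
  have hKs : ∀ x y, KF h (sym h ε) B ν x y = KF h (sym h ε) B ν y x := by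
    intro x y
    unfold KF
    have : ∀ p : E3, Real.cos (ph h p x - ph h p y) = Real.cos (ph h p y - ph h p x) := by
      intro p
      rw [← Real.cos_neg]
      congr 1
      ring
    simp_rw [this]
    ring
  obtain ⟨U, μ, f, hS⟩ := A1 (KF h (sym h ε) B ν) hKs a ha0 ha1
  obtain ⟨hXc, hrc, hmc, hβc, hwc, he1, hre, hmX, hr0, hr1, hmr, hβτ⟩ :=
    A6 h B ν hν0 hV (KF h (sym h ε) B ν) a U μ f hS
  refine ⟨eF B ν, XF h B ν (AF U f), rF h B ν U f, mF h B ν U f, βF h B ν U f, hXc, hrc, hmc, hβc,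
    he1, hre, hmX, hr0, hr1, hmr, hβτ, ?_⟩
  set K := KF h (sym h ε) B ν with hKdef
  have h1a : 0 < 1 - a := by linarith
  set c : ℝ := (h / (2 * Real.pi)) ^ 3 * (∑ x, ν x) with hc
  have hcpos : 0 < c := by
    have : 0 < h / (2 * Real.pi) := by positivity
    positivity
  -- norms of the columns
  have hU1 : ∀ j, ∑ x, U x j ^ 2 = 1 := by
    intro j
    have := hS.cols j j
    simp only [if_true] at this
    rw [← this]
    exact Finset.sum_congr rfl fun x _ => by ring
  have hνU : ∀ j, ∑ x, ν x * U x j ^ 2 ≤ 1 := by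
    intro j
    rw [← hU1 j]
    exact Finset.sum_le_sum fun x _ => mul_le_of_le_one_left (sq_nonneg _) (hν1 x)
  -- traces
  have hT : c * ∫ p in cube h, sym h ε p * rF h B ν U f p = ∑ j, f j * μ j := by
    have := A10_slin h hh B ν hν0 hV (sym h ε) hs U hwc f
    rw [hc]
    rw [show (fun p => sym h ε p * rF h B ν U f p) =
      fun p => sym h ε p * ∑ j, f j * wF h B ν U j p from rfl, this]
    refine Finset.sum_congr rfl fun j _ => ?_
    rw [A10_trace K a U μ f hS j]
  have hTr : c * ∫ p in cube h, rF h B ν U f p ≤ ∑ j, f j := by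
    have := A10_lin h hh B ν hν0 hV U hwc f
    rw [hc]
    rw [show (fun p => rF h B ν U f p) = fun p => ∑ j, f j * wF h B ν U j p from rfl, this]
    exact Finset.sum_le_sum fun j _ => mul_le_of_le_one_right (hS.f0 j) (hνU j)
  have hTβ : c * ∫ p in cube h, βF h B ν U f p ≤ ∑ j, (if f j < 1 then f j ^ 2 else 0) := by
    have := A10_lin h hh B ν hν0 hV U hwc (fun j => if f j < 1 then f j ^ 2 else 0)
    rw [hc]
    rw [show (fun p => βF h B ν U f p) =
      fun p => ∑ j, (if f j < 1 then f j ^ 2 else 0) * wF h B ν U j p from ?_, this]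
    · refine Finset.sum_le_sum fun j _ => mul_le_of_le_one_right ?_ (hνU j)
      split_ifs
      · exact sq_nonneg _
      · exact le_rfl
    · funext p
      unfold βF
      refine Finset.sum_congr rfl fun j _ => ?_
      congr 1
  -- counting
  have hcount := A2 K a ha0 ha1 U μ f hS n (fun i x => Real.sqrt (ν x) * φ i x)
    (A7 h ε hh hε B ν hν0 n φ hneg)
  have hI1 : (n : ℝ) ≤ c * ∫ p in cube h,
      ((sym h ε p - a) / (1 - a) * rF h B ν U f p - βF h B ν U f p) := by
    have hsplit : ∫ p in cube h,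
        ((sym h ε p - a) / (1 - a) * rF h B ν U f p - βF h B ν U f p) =
        (1 / (1 - a)) * ((∫ p in cube h, sym h ε p * rF h B ν U f p)
          - a * ∫ p in cube h, rF h B ν U f p) - ∫ p in cube h, βF h B ν U f p := by
      have i1 : Integrable (fun p => sym h ε p * rF h B ν U f p) (volume.restrict (cube h)) :=
        A10_intOn h hh _ (hs.mul hrc)
      have i2 : Integrable (fun p => rF h B ν U f p) (volume.restrict (cube h)) :=
        A10_intOn h hh _ hrc
      have i3 : Integrable (fun p => βF h B ν U f p) (volume.restrict (cube h)) :=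
        A10_intOn h hh _ hβc
      have i4 : Integrable (fun p => a * rF h B ν U f p) (volume.restrict (cube h)) :=
        i2.const_mul a
      have i5 : Integrable (fun p => 1 / (1 - a) * (sym h ε p * rF h B ν U f p
          - a * rF h B ν U f p)) (volume.restrict (cube h)) := (i1.sub i4).const_mul _
      rw [← integral_const_mul a, ← integral_sub i1 i4, ← integral_const_mul (1 / (1 - a)),
        ← integral_sub i5 i3]
      refine integral_congr_ae (Eventually.of_forall fun p => ?_)
      simp only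
      field_simp
    rw [hsplit]
    have e : c * ((1 / (1 - a)) * ((∫ p in cube h, sym h ε p * rF h B ν U f p)
          - a * ∫ p in cube h, rF h B ν U f p) - ∫ p in cube h, βF h B ν U f p) =
        (c * (∫ p in cube h, sym h ε p * rF h B ν U f p)
          - a * (c * ∫ p in cube h, rF h B ν U f p)) / (1 - a)
          - c * ∫ p in cube h, βF h B ν U f p := by
      field_simp
    rw [e, hT]
    have e2 : (∑ j, f j * μ j - a * ∑ j, f j) / (1 - a) ≤
        (∑ j, f j * μ j - a * (c * ∫ p in cube h, rF h B ν U f p)) / (1 - a) := by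
      apply div_le_div_of_nonneg_right _ h1a.le
      have := mul_le_mul_of_nonneg_left hTr ha0.le
      linarith
    have hcount' : (n : ℝ) + ∑ j, (if f j < 1 then f j ^ 2 else 0) ≤
        (∑ j, f j * μ j - a * ∑ j, f j) / (1 - a) := by
      convert hcount using 4
    linarith
  -- the function J
  set J : E3 → ℝ := fun q => ∑ x, ∑ y, AF U f x y * K x y * Real.cos (ph h q x - ph h q y) with hJ
  have hAK : ∑ x, ∑ y, AF U f x y * K x y = ∑ j, f j * μ j := A10_AK K a U μ f hS
  have hkJ : Integrable fun q => k q * J q := A10_intJ h k hk B (fun x y => AF U f x y * K x y)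
  -- I3
  have hI3 : c * (∫ p in cube h, ∫ p' in cube h, sym h ε p * k (p' - p) * rF h B ν U f p') ≤
      ∫ q, k q * J q := by
    have h5 := A5 k hk (cube h) (A4_meas h) (A4_bdd h hh)
      (fun p p' => sym h ε p * rF h B ν U f p')
      ((hs.comp continuous_fst).mul (hrc.comp continuous_snd))
      (fun p p' => mul_nonneg (sym_nonneg h ε hh hε p) (hr0 p')) (1 / ε)
      (fun p p' => by
        calc sym h ε p * rF h B ν U f p' ≤ sym h ε p * 1 :=
              mul_le_mul_of_nonneg_left (hr1 _) (sym_nonneg h ε hh hε p)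
          _ ≤ 1 / ε := by rw [mul_one]; exact sym_le h ε hh hε p)
    have h6 : (∫ p in cube h, ∫ p' in cube h, sym h ε p * k (p' - p) * rF h B ν U f p') =
        ∫ p in cube h, ∫ p' in cube h, k (p' - p) * (sym h ε p * rF h B ν U f p') := by
      refine integral_congr_ae (Eventually.of_forall fun p => ?_)
      refine integral_congr_ae (Eventually.of_forall fun p' => ?_)
      simp only
      ring
    rw [h6]
    refine (mul_le_mul_of_nonneg_left h5 hcpos.le).trans (le_of_eq ?_)
    exact A10_shift h ε hh hε k hk B ν hν0 hV U f hrc hr0 hr1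
  -- I4
  set G2 : E3 → ℝ := fun q => ∫ p in cube h,
    ∑ i, (XF h B ν (AF U f) (p + q) i - XF h B ν (AF U f) p i) ^ 2 with hG2
  have hG2X : ∀ q, c * G2 q =
      2 * ∑ x, ∑ y, AF U f x y ^ 2 * ν y
        - 2 * ∑ x, ∑ y, AF U f x y ^ 2 * ν y * Real.cos (ph h q x - ph h q y) := by
    intro q
    have := A8_X h hh B ν hν0 hV U f q
    rw [hc, hG2]
    simp only
    rw [this]
    simp_rw [Finset.mul_sum, ← Finset.sum_sub_distrib]
    refine Finset.sum_congr rfl fun x _ => Finset.sum_congr rfl fun y _ => by ring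
  have hG2J : ∀ q, c * G2 q ≤ 2 / (1 - a) * (∑ j, f j * μ j - J q) := by
    intro q
    have h3 := A3 K a ha0 ha1 U μ f hS (fun x => ph h q x)
    have h4 : ∑ x, ∑ y, AF U f x y * (K x y / (1 - a) - AF U f x y)
          * (1 - Real.cos (ph h q x - ph h q y)) =
        (∑ j, f j * μ j - J q) / (1 - a)
          - ∑ x, ∑ y, AF U f x y ^ 2 * (1 - Real.cos (ph h q x - ph h q y)) := by
      rw [← hAK, hJ]
      simp only
      simp_rw [← Finset.sum_sub_distrib, Finset.sum_div, ← Finset.sum_sub_distrib]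
      refine Finset.sum_congr rfl fun x _ => Finset.sum_congr rfl fun y _ => ?_
      field_simp
    have h5 : c * G2 q ≤ 2 * ∑ x, ∑ y, AF U f x y ^ 2 * (1 - Real.cos (ph h q x - ph h q y)) := by
      have := A8_X h hh B ν hν0 hV U f q
      rw [hc, hG2]
      simp only
      rw [this, Finset.mul_sum]
      refine Finset.sum_le_sum fun x _ => ?_
      rw [Finset.mul_sum]
      refine Finset.sum_le_sum fun y _ => ?_
      have c1 : 0 ≤ 1 - Real.cos (ph h q x - ph h q y) := by
        linarith [Real.cos_le_one (ph h q x - ph h q y)]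
      have c2 : 0 ≤ AF U f x y ^ 2 * (1 - Real.cos (ph h q x - ph h q y)) :=
        mul_nonneg (sq_nonneg _) c1
      nlinarith [hν1 y, hν0 y, mul_le_mul_of_nonneg_right (hν1 y) c2]
    rw [h4] at h3
    have : 2 / (1 - a) * (∑ j, f j * μ j - J q) = 2 * ((∑ j, f j * μ j - J q) / (1 - a)) := by ring
    rw [this]
    linarith
  have hI4 : c * (∫ p in cube h, ∫ p' in cube h,
        k (p' - p) * ∑ i, (XF h B ν (AF U f) p' i - XF h B ν (AF U f) p i) ^ 2) ≤
      2 / (1 - a) * (∑ j, f j * μ j - ∫ q, k q * J q) := by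
    have hgc : Continuous fun z : E3 × E3 =>
        ∑ i, (XF h B ν (AF U f) z.2 i - XF h B ν (AF U f) z.1 i) ^ 2 := by
      refine continuous_finsetSum _ fun i _ => ?_
      exact (((hXc i).comp continuous_snd).sub ((hXc i).comp continuous_fst)).pow 2
    have h5 := A5 k hk (cube h) (A4_meas h) (A4_bdd h hh)
      (fun p p' => ∑ i, (XF h B ν (AF U f) p' i - XF h B ν (AF U f) p i) ^ 2) hgc
      (fun p p' => Finset.sum_nonneg fun i _ => sq_nonneg _) 4
      (fun p p' => by
        have e1 : ∑ i, (XF h B ν (AF U f) p' i - XF h B ν (AF U f) p i) ^ 2 ≤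
            ∑ i, (2 * XF h B ν (AF U f) p' i ^ 2 + 2 * XF h B ν (AF U f) p i ^ 2) := by
          refine Finset.sum_le_sum fun i _ => ?_
          nlinarith [sq_nonneg (XF h B ν (AF U f) p' i + XF h B ν (AF U f) p i)]
        rw [Finset.sum_add_distrib, ← Finset.mul_sum, ← Finset.mul_sum, ← hmX, ← hmX] at e1
        linarith [hmr p, hmr p', hr1 p, hr1 p'])
    refine (mul_le_mul_of_nonneg_left h5 hcpos.le).trans ?_
    have hint : Integrable fun q => k q * (c * G2 q) := by
      have e : (fun q => k q * (c * G2 q)) = fun q =>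
          (2 * ∑ x, ∑ y, AF U f x y ^ 2 * ν y) * k q
            - 2 * (k q * ∑ x, ∑ y, (AF U f x y ^ 2 * ν y) * Real.cos (ph h q x - ph h q y)) := by
        funext q
        rw [hG2X q]
        ring
      rw [e]
      exact (hk.int.const_mul _).sub
        ((A10_intJ h k hk B (fun x y => AF U f x y ^ 2 * ν y)).const_mul 2)
    have e1 : c * ∫ q, k q * G2 q = ∫ q, k q * (c * G2 q) := by
      rw [← integral_const_mul]
      refine integral_congr_ae (Eventually.of_forall fun q => ?_)
      simp only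
      ring
    change c * ∫ q, k q * G2 q ≤ _
    rw [e1]
    have hint2 : Integrable fun q => k q * (2 / (1 - a) * (∑ j, f j * μ j - J q)) := by
      have e : (fun q => k q * (2 / (1 - a) * (∑ j, f j * μ j - J q))) = fun q =>
          (2 / (1 - a) * ∑ j, f j * μ j) * k q - 2 / (1 - a) * (k q * J q) := by
        funext q
        ring
      rw [e]
      exact (hk.int.const_mul _).sub (hkJ.const_mul _)
    refine (integral_mono hint hint2 fun q =>
      mul_le_mul_of_nonneg_left (hG2J q) (hk.nonneg q)).trans (le_of_eq ?_)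
    have e : (fun q => k q * (2 / (1 - a) * (∑ j, f j * μ j - J q))) = fun q =>
        (2 / (1 - a) * ∑ j, f j * μ j) * k q - 2 / (1 - a) * (k q * J q) := by
      funext q
      ring
    rw [e, integral_sub (hk.int.const_mul _) (hkJ.const_mul _), integral_const_mul,
      integral_const_mul, hk.mass]
    ring
  -- assembly
  have hκ2 : 0 ≤ 2 * κ / (1 - a) := by positivity
  set I1 := ∫ p in cube h, ((sym h ε p - a) / (1 - a) * rF h B ν U f p - βF h B ν U f p)
  set I2 := ∫ p in cube h, sym h ε p * rF h B ν U f p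
  set I3 := ∫ p in cube h, ∫ p' in cube h, sym h ε p * k (p' - p) * rF h B ν U f p'
  set I4 := ∫ p in cube h, ∫ p' in cube h,
        k (p' - p) * ∑ i, (XF h B ν (AF U f) p' i - XF h B ν (AF U f) p i) ^ 2
  have f1 : 2 * κ / (1 - a) * (c * I3) ≤ 2 * κ / (1 - a) * ∫ q, k q * J q :=
    mul_le_mul_of_nonneg_left hI3 hκ2
  have f2 : κ * (c * I4) ≤ κ * (2 / (1 - a) * (∑ j, f j * μ j - ∫ q, k q * J q)) :=
    mul_le_mul_of_nonneg_left hI4 hκ
  have f3 : c * (I1 + 2 * κ / (1 - a) * (I2 - I3) - κ * I4) =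
      c * I1 + 2 * κ / (1 - a) * (c * I2) - 2 * κ / (1 - a) * (c * I3) - κ * (c * I4) := by ring
  rw [f3, hT]
  have f4 : κ * (2 / (1 - a) * (∑ j, f j * μ j - ∫ q, k q * J q)) =
      2 * κ / (1 - a) * ∑ j, f j * μ j - 2 * κ / (1 - a) * ∫ q, k q * J q := by ring
  rw [f4] at f2
  linarith

end WEL
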