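import Pool.Agent.WEL.Defs

/-!
# WEL B1
Pointwise bound.  The coefficient of `m` after inserting `hβ` is `2τ + τ² - 2κH ≥ 0`, so `m` can be replaced by `r`;
what remains is linear in `r ∈ [0,1]`.
-/

set_option autoImplicit false

open MeasureTheory Set Filter Topology
open CLR (E3 Z3 lapB)

noncomputable section

namespace WEL

theorem B1 (r m β H τ ρ R b κ : ℝ) (hκ : 0 ≤ κ) (h0 : 0 ≤ r) (h1 : r ≤ 1) (hm : m ≤ r)
    (hτ : 0 ≤ τ) (hβ : 2 * τ * (r - m) - τ ^ 2 * (1 - 2 * r + m) ≤ β)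
    (hH : 2 * κ * H ≤ 2 * τ + τ ^ 2) :
    b * r - β - 2 * κ * H * (m - 2 * ρ * r + ρ ^ 2) - 4 * κ * R * r + 2 * κ * ρ * R ≤
      max 0 (b - τ ^ 2 - 2 * κ * H + 4 * κ * H * ρ - 4 * κ * R) + τ ^ 2 - 2 * κ * H * ρ ^ 2
        + 2 * κ * ρ * R := by
  have h2 : b * r - β - 2 * κ * H * (m - 2 * ρ * r + ρ ^ 2) - 4 * κ * R * r + 2 * κ * ρ * R ≤
      r * (b - τ ^ 2 - 2 * κ * H + 4 * κ * H * ρ - 4 * κ * R) + τ ^ 2 - 2 * κ * H * ρ ^ 2 + 2 * κ * ρ * R := by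
    have h3 : 0 ≤ (r - m) * (2 * τ + τ ^ 2 - 2 * κ * H) := mul_nonneg (by linarith) (by linarith)
    nlinarith
  have h3 : r * (b - τ ^ 2 - 2 * κ * H + 4 * κ * H * ρ - 4 * κ * R) ≤
      max 0 (b - τ ^ 2 - 2 * κ * H + 4 * κ * H * ρ - 4 * κ * R) := by
    rcases le_total 0 (b - τ ^ 2 - 2 * κ * H + 4 * κ * H * ρ - 4 * κ * R) with h | h
    · rw [max_eq_right h]
      exact mul_le_of_le_one_left h h1
    · rw [max_eq_left h]
      exact mul_nonpos_of_nonneg_of_nonpos h0 h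
  linarith

/-- Hardy type inequality, pointwise in the pair -/
theorem B1_pair {ι : Type} [Fintype ι] (e X X' : ι → ℝ) (he : ∑ i, e i ^ 2 = 1)
    (r r' m m' ρ ρ' z z' : ℝ) (hz : 0 < z) (hz' : 0 < z')
    (hr : r = ∑ i, e i * X i) (hr' : r' = ∑ i, e i * X' i)
    (hm : m = ∑ i, X i ^ 2) (hm' : m' = ∑ i, X' i ^ 2) :
    (m - 2 * ρ * r + ρ ^ 2) * (1 - z' / z) + (m' - 2 * ρ' * r' + ρ' ^ 2) * (1 - z / z')
        + 2 * (ρ' - ρ) * (r' - r) - (ρ' - ρ) ^ 2 ≤ ∑ i, (X' i - X i) ^ 2 := by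
  have key : ∀ (X : ι → ℝ) (r m ρ : ℝ), r = ∑ i, e i * X i → m = ∑ i, X i ^ 2 →
      m - 2 * ρ * r + ρ ^ 2 = ∑ i, (X i - ρ * e i) ^ 2 := by
    intro X r m ρ hr hm
    have h1 : ∑ i, (X i - ρ * e i) ^ 2 = ∑ i, X i ^ 2 - 2 * ρ * ∑ i, e i * X i + ρ ^ 2 * ∑ i, e i ^ 2 := by
      rw [Finset.mul_sum, Finset.mul_sum, ← Finset.sum_sub_distrib, ← Finset.sum_add_distrib]
      exact Finset.sum_congr rfl fun i _ => by ring
    rw [h1, he, ← hr, ← hm, mul_one]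
  rw [key X r m ρ hr hm, key X' r' m' ρ' hr' hm', hr, hr']
  have h1 : (∑ i, (X i - ρ * e i) ^ 2) * (1 - z' / z) + (∑ i, (X' i - ρ' * e i) ^ 2) * (1 - z / z')
        + 2 * (ρ' - ρ) * ((∑ i, e i * X' i) - ∑ i, e i * X i) - (ρ' - ρ) ^ 2 =
      ∑ i, ((X i - ρ * e i) ^ 2 * (1 - z' / z) + (X' i - ρ' * e i) ^ 2 * (1 - z / z')
        + 2 * (ρ' - ρ) * (e i * X' i - e i * X i) - (ρ' - ρ) ^ 2 * e i ^ 2) := by
    rw [Finset.sum_sub_distrib, Finset.sum_add_distrib, Finset.sum_add_distrib, ← Finset.sum_mul, ← Finset.sum_mul,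
      ← Finset.mul_sum, ← Finset.mul_sum, Finset.sum_sub_distrib, he, mul_one]
  rw [h1]
  refine Finset.sum_le_sum fun i _ => ?_
  have h2 : 0 ≤ (z' * (X i - ρ * e i) - z * (X' i - ρ' * e i)) ^ 2 / (z * z') := by positivity
  have h3 : (z' * (X i - ρ * e i) - z * (X' i - ρ' * e i)) ^ 2 / (z * z') = (X' i - X i) ^ 2 -
      ((X i - ρ * e i) ^ 2 * (1 - z' / z) + (X' i - ρ' * e i) ^ 2 * (1 - z / z')
        + 2 * (ρ' - ρ) * (e i * X' i - e i * X i) - (ρ' - ρ) ^ 2 * e i ^ 2) := by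
    field_simp
    ring
  linarith

theorem B1_nonneg {ι : Type} [Fintype ι] (e X : ι → ℝ) (he : ∑ i, e i ^ 2 = 1)
    (r m ρ : ℝ) (hr : r = ∑ i, e i * X i) (hm : m = ∑ i, X i ^ 2) :
    0 ≤ m - 2 * ρ * r + ρ ^ 2 := by
  have h1 : ∑ i, (X i - ρ * e i) ^ 2 = ∑ i, X i ^ 2 - 2 * ρ * ∑ i, e i * X i + ρ ^ 2 * ∑ i, e i ^ 2 := by
    rw [Finset.mul_sum, Finset.mul_sum, ← Finset.sum_sub_distrib, ← Finset.sum_add_distrib]
    exact Finset.sum_congr rfl fun i _ => by ring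
  rw [he, ← hr, ← hm, mul_one] at h1
  rw [← h1]
  exact Finset.sum_nonneg fun i _ => sq_nonneg _

end WEL
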