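import Pool.Agent.WEL.B1

set_option autoImplicit false

open MeasureTheory Set Filter Topology
open CLR (E3 Z3 lapB)

noncomputable section

namespace WEL

theorem B2_bd {D : Set E3} (hDb : Bornology.IsBounded D) {f : E3 → ℝ} (hf : Continuous f) :
    ∃ M, 0 ≤ M ∧ ∀ p ∈ D, |f p| ≤ M := by
  obtain ⟨M, hM⟩ := hDb.isCompact_closure.exists_bound_of_continuousOn hf.continuousOn
  exact ⟨max M 0, le_max_right _ _, fun p hp => (hM p (subset_closure hp)).trans (le_max_left _ _)⟩

theorem B2_fin {D : Set E3} (hDb : Bornology.IsBounded D) : IsFiniteMeasure (volume.restrict D) :=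
  ⟨by rw [Measure.restrict_apply_univ]; exact hDb.measure_lt_top⟩

theorem B2_ae {D : Set E3} (hD : MeasurableSet D) {P : E3 × E3 → Prop}
    (h : ∀ p ∈ D, ∀ p' ∈ D, P (p, p')) : ∀ᵐ x ∂((volume.restrict D).prod (volume.restrict D)), P x := by
  rw [Measure.prod_restrict]
  exact (ae_restrict_iff' (hD.prod hD)).2 (Eventually.of_forall fun x hx => h x.1 hx.1 x.2 hx.2)

theorem B2_int {D : Set E3} (hD : MeasurableSet D) (hDb : Bornology.IsBounded D) {Φ : E3 × E3 → ℝ}
    (hΦ : Measurable Φ) {M : ℝ} (h : ∀ p ∈ D, ∀ p' ∈ D, |Φ (p, p')| ≤ M) :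
    Integrable Φ ((volume.restrict D).prod (volume.restrict D)) := by
  have := B2_fin hDb
  refine Integrable.of_bound hΦ.aestronglyMeasurable M ?_
  exact B2_ae hD (P := fun x => ‖Φ x‖ ≤ M) fun p hp p' hp' => h p hp p' hp'

theorem B2_split {α : Type} [MeasurableSpace α] {μ : Measure α} {f1 f1' f2 f2' f3 f3' : α → ℝ} (h1 : Integrable f1 μ)
    (h1' : Integrable f1' μ) (h2 : Integrable f2 μ) (h2' : Integrable f2' μ) (h3 : Integrable f3 μ)
    (h3' : Integrable f3' μ) :
    ∫ x, (f1 x + f1' x + 2 * (f2 x + f2' x) - (f3 x + f3' x)) ∂μ =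
      (∫ x, f1 x ∂μ) + (∫ x, f1' x ∂μ) + 2 * ((∫ x, f2 x ∂μ) + ∫ x, f2' x ∂μ) - ((∫ x, f3 x ∂μ) + ∫ x, f3' x ∂μ) := by
  have e1 : Integrable (fun x => f1 x + f1' x) μ := h1.add h1'
  have e2 : Integrable (fun x => f2 x + f2' x) μ := h2.add h2'
  have e3 : Integrable (fun x => f3 x + f3' x) μ := h3.add h3'
  have e4 : Integrable (fun x => 2 * (f2 x + f2' x)) μ := e2.const_mul 2
  have e5 : Integrable (fun x => f1 x + f1' x + 2 * (f2 x + f2' x)) μ := e1.add e4
  rw [integral_sub e5 e3, integral_add e1 e4, integral_const_mul, integral_add h1 h1', integral_add h2 h2',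
    integral_add h3 h3']

/-- the symmetrisation -/
theorem B2_sym {D : Set E3} (hDb : Bornology.IsBounded D) {k : E3 → ℝ} (hke : ∀ q, k (-q) = k q) (g : E3 → E3 → ℝ) :
    ∫ x, k (x.2 - x.1) * g x.2 x.1 ∂((volume.restrict D).prod (volume.restrict D)) =
      ∫ x, k (x.2 - x.1) * g x.1 x.2 ∂((volume.restrict D).prod (volume.restrict D)) := by
  have := B2_fin hDb
  rw [← integral_prod_swap]
  refine integral_congr_ae (Eventually.of_forall fun x => ?_)
  simp only [Prod.fst_swap, Prod.snd_swap]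
  rw [← hke (x.2 - x.1), neg_sub]

theorem B2 {ι : Type} [Fintype ι] (D : Set E3) (hD : MeasurableSet D)
    (hDb : Bornology.IsBounded D) (k : E3 → ℝ) (hk : IsKer k)
    (e : ι → ℝ) (X : E3 → ι → ℝ) (r m : E3 → ℝ)
    (hX : ∀ i, Continuous fun p => X p i) (hr : Continuous r) (hm : Continuous m)
    (he : ∑ i, e i ^ 2 = 1) (hrX : ∀ p, r p = ∑ i, e i * X p i)
    (hmX : ∀ p, m p = ∑ i, X p i ^ 2)
    (z r0 : E3 → ℝ) (hz : Measurable z) (hr0m : Measurable r0) (C : ℝ)
    (hC : ∀ p ∈ D, 1 / 2 ≤ z p ∧ z p ≤ C ∧ |r0 p| ≤ C) :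
    2 * (∫ p in D, (m p - 2 * r0 p * r p + r0 p ^ 2) *
          ∫ p' in D, k (p' - p) * (1 - z p' / z p))
        + 4 * (∫ p in D, r p * RD D k r0 p) - 2 * (∫ p in D, r0 p * RD D k r0 p)
      ≤ ∫ p in D, ∫ p' in D, k (p' - p) * ∑ i, (X p' i - X p i) ^ 2 := by
  have hfin := B2_fin hDb
  obtain ⟨Ck, hCk⟩ := hk.bdd
  obtain ⟨Mr, hMr0, hMr⟩ := B2_bd hDb hr
  obtain ⟨Mm, hMm0, hMm⟩ := B2_bd hDb hm
  rcases D.eq_empty_or_nonempty with rfl | ⟨p0, hp0⟩
  · simp
  have hC0 : 0 ≤ C := by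
    obtain ⟨h1, h2, h3⟩ := hC p0 hp0
    linarith
  have hCk0 : 0 ≤ Ck := (hk.nonneg 0).trans (hCk 0)
  set a : E3 → ℝ := fun p => m p - 2 * r0 p * r p + r0 p ^ 2 with ha
  have ham : Measurable a := (hm.measurable.sub ((hr0m.const_mul 2).mul hr.measurable)).add (hr0m.pow_const 2)
  obtain ⟨Ma, hMa⟩ : ∃ Ma, Ma = Mm + 2 * C * Mr + C ^ 2 := ⟨_, rfl⟩
  have hMa0 : 0 ≤ Ma := by rw [hMa]; positivity
  have hab : ∀ p ∈ D, |a p| ≤ Ma := by
    intro p hp
    have h1 := hMm p hp
    have h2 := hMr p hp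
    obtain ⟨_, _, h3⟩ := hC p hp
    have h4 : |2 * r0 p * r p| ≤ 2 * C * Mr := by
      rw [abs_mul, abs_mul, abs_of_pos (by norm_num : (0 : ℝ) < 2)]
      exact mul_le_mul (by linarith) h2 (abs_nonneg _) (by positivity)
    have h5 : |r0 p ^ 2| ≤ C ^ 2 := by
      rw [abs_pow]
      exact pow_le_pow_left₀ (abs_nonneg _) h3 2
    have h6 := abs_add_le (m p - 2 * r0 p * r p) (r0 p ^ 2)
    have h7 := abs_sub (m p) (2 * r0 p * r p)
    rw [hMa]
    simp only [ha]
    linarith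
  have hkm : Measurable fun x : E3 × E3 => k (x.2 - x.1) :=
    hk.cont.measurable.comp (measurable_snd.sub measurable_fst)
  have hkb : ∀ p p' : E3, |k (p' - p)| ≤ Ck := fun p p' => by
    rw [abs_of_nonneg (hk.nonneg _)]
    exact hCk _
  -- integrability
  have hz' : ∀ p ∈ D, ∀ p' ∈ D, |1 - z p' / z p| ≤ 1 + 2 * C := by
    intro p hp p' hp'
    obtain ⟨h1, h2, _⟩ := hC p hp
    obtain ⟨h3, h4, _⟩ := hC p' hp'
    have h5 : 0 ≤ z p' / z p := by positivity
    have h6 : z p' / z p ≤ 2 * C := by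
      rw [div_le_iff₀ (by linarith)]
      nlinarith
    rw [abs_le]
    constructor <;> linarith
  have hI1 : Integrable (fun x : E3 × E3 => k (x.2 - x.1) * (a x.1 * (1 - z x.2 / z x.1)))
      ((volume.restrict D).prod (volume.restrict D)) := by
    refine B2_int hD hDb (M := Ck * (Ma * (1 + 2 * C))) ?_ ?_
    · exact hkm.mul ((ham.comp measurable_fst).mul (measurable_const.sub ((hz.comp measurable_snd).div (hz.comp measurable_fst))))
    · intro p hp p' hp'
      rw [abs_mul, abs_mul]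
      exact mul_le_mul (hkb _ _) (mul_le_mul (hab p hp) (hz' p hp p' hp') (abs_nonneg _) hMa0) (by positivity) hCk0
  have hI1' : Integrable (fun x : E3 × E3 => k (x.2 - x.1) * (a x.2 * (1 - z x.1 / z x.2)))
      ((volume.restrict D).prod (volume.restrict D)) := by
    refine B2_int hD hDb (M := Ck * (Ma * (1 + 2 * C))) ?_ ?_
    · exact hkm.mul ((ham.comp measurable_snd).mul (measurable_const.sub ((hz.comp measurable_fst).div (hz.comp measurable_snd))))
    · intro p hp p' hp'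
      rw [abs_mul, abs_mul]
      exact mul_le_mul (hkb _ _) (mul_le_mul (hab p' hp') (hz' p' hp' p hp) (abs_nonneg _) hMa0) (by positivity) hCk0
  have hd : ∀ p ∈ D, ∀ p' ∈ D, |r0 p - r0 p'| ≤ 2 * C := by
    intro p hp p' hp'
    have h1 := (hC p hp).2.2
    have h2 := (hC p' hp').2.2
    have h3 := abs_sub (r0 p) (r0 p')
    linarith
  have hdm : Measurable fun x : E3 × E3 => r0 x.1 - r0 x.2 := (hr0m.comp measurable_fst).sub (hr0m.comp measurable_snd)
  have hdm' : Measurable fun x : E3 × E3 => r0 x.2 - r0 x.1 := (hr0m.comp measurable_snd).sub (hr0m.comp measurable_fst)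
  have hI2g : ∀ (g : E3 → ℝ), Measurable g → ∀ M : ℝ, 0 ≤ M → (∀ p ∈ D, |g p| ≤ M) →
      Integrable (fun x : E3 × E3 => k (x.2 - x.1) * (g x.1 * (r0 x.1 - r0 x.2)))
        ((volume.restrict D).prod (volume.restrict D)) ∧
      Integrable (fun x : E3 × E3 => k (x.2 - x.1) * (g x.2 * (r0 x.2 - r0 x.1)))
        ((volume.restrict D).prod (volume.restrict D)) := by
    intro g hg M hM0 hM
    constructor
    · refine B2_int hD hDb (M := Ck * (M * (2 * C))) (hkm.mul ((hg.comp measurable_fst).mul hdm)) ?_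
      intro p hp p' hp'
      rw [abs_mul, abs_mul]
      exact mul_le_mul (hkb _ _) (mul_le_mul (hM p hp) (hd p hp p' hp') (abs_nonneg _) hM0) (by positivity) hCk0
    · refine B2_int hD hDb (M := Ck * (M * (2 * C))) (hkm.mul ((hg.comp measurable_snd).mul hdm')) ?_
      intro p hp p' hp'
      rw [abs_mul, abs_mul]
      exact mul_le_mul (hkb _ _) (mul_le_mul (hM p' hp') (hd p' hp' p hp) (abs_nonneg _) hM0) (by positivity) hCk0
  obtain ⟨hI2, hI2'⟩ := hI2g r hr.measurable Mr hMr0 hMr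
  obtain ⟨hI3, hI3'⟩ := hI2g r0 hr0m C hC0 (fun p hp => (hC p hp).2.2)
  -- the square
  have hXb : ∀ i, ∃ M, 0 ≤ M ∧ ∀ p ∈ D, |X p i| ≤ M := fun i => B2_bd hDb (hX i)
  choose MX hMX0 hMX using hXb
  have hG : Integrable (fun x : E3 × E3 => k (x.2 - x.1) * ∑ i, (X x.2 i - X x.1 i) ^ 2)
      ((volume.restrict D).prod (volume.restrict D)) := by
    refine B2_int hD hDb (M := Ck * ∑ i, (2 * MX i) ^ 2) ?_ ?_
    · refine hkm.mul (Finset.measurable_sum _ fun i _ => ?_)
      exact (((hX i).measurable.comp measurable_snd).sub ((hX i).measurable.comp measurable_fst)).pow_const 2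
    · intro p hp p' hp'
      rw [abs_mul]
      refine mul_le_mul (hkb _ _) ?_ (abs_nonneg _) hCk0
      refine (Finset.abs_sum_le_sum_abs _ _).trans (Finset.sum_le_sum fun i _ => ?_)
      rw [abs_pow]
      refine pow_le_pow_left₀ (abs_nonneg _) ?_ 2
      have h1 := abs_sub (X p' i) (X p i)
      have h2 := hMX i p hp
      have h3 := hMX i p' hp'
      simp only
      linarith
  -- the inequality on the product
  have hmono : ∫ x, (k (x.2 - x.1) * (a x.1 * (1 - z x.2 / z x.1)) + k (x.2 - x.1) * (a x.2 * (1 - z x.1 / z x.2))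
        + 2 * (k (x.2 - x.1) * (r x.1 * (r0 x.1 - r0 x.2)) + k (x.2 - x.1) * (r x.2 * (r0 x.2 - r0 x.1)))
        - (k (x.2 - x.1) * (r0 x.1 * (r0 x.1 - r0 x.2)) + k (x.2 - x.1) * (r0 x.2 * (r0 x.2 - r0 x.1))))
        ∂((volume.restrict D).prod (volume.restrict D)) ≤
      ∫ x, k (x.2 - x.1) * ∑ i, (X x.2 i - X x.1 i) ^ 2 ∂((volume.restrict D).prod (volume.restrict D)) := by
    refine integral_mono_ae (((hI1.add hI1').add ((hI2.add hI2').const_mul 2)).sub (hI3.add hI3')) hG ?_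
    refine B2_ae hD (P := fun x => _ ≤ _) fun p hp p' hp' => ?_
    have h1 : 0 < z p := by linarith [(hC p hp).1]
    have h2 : 0 < z p' := by linarith [(hC p' hp').1]
    have h3 := B1_pair e (X p) (X p') he (r p) (r p') (m p) (m p') (r0 p) (r0 p') (z p) (z p') h1 h2 (hrX p) (hrX p')
      (hmX p) (hmX p')
    have h4 := mul_le_mul_of_nonneg_left h3 (hk.nonneg (p' - p))
    refine le_trans (le_of_eq ?_) h4
    simp only [ha]
    ring
  rw [B2_split hI1 hI1' hI2 hI2' hI3 hI3',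
    B2_sym hDb hk.even (fun p p' => a p * (1 - z p' / z p)),
    B2_sym hDb hk.even (fun p p' => r p * (r0 p - r0 p')),
    B2_sym hDb hk.even (fun p p' => r0 p * (r0 p - r0 p')),
    integral_prod _ hI1, integral_prod _ hI2, integral_prod _ hI3, integral_prod _ hG] at hmono
  have hpull : ∀ (g : E3 → ℝ) (h : E3 → E3 → ℝ), ∫ p in D, ∫ p' in D, k (p' - p) * (g p * h p p') =
      ∫ p in D, g p * ∫ p' in D, k (p' - p) * h p p' := by
    intro g h
    refine integral_congr_ae (Eventually.of_forall fun p => ?_)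
    simp only
    rw [← integral_const_mul]
    refine integral_congr_ae (Eventually.of_forall fun p' => ?_)
    simp only
    ring
  simp only at hmono
  rw [hpull a (fun p p' => 1 - z p' / z p), hpull r (fun p p' => r0 p - r0 p'), hpull r0 (fun p p' => r0 p - r0 p')] at hmono
  unfold RD
  linarith

end WEL
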