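import Pool.Agent.WEL.B1
import Pool.Agent.WEL.B2

/-!
# WEL B3
Assembly of block B from B1 and B2 (imported stubs): replace the inner integral in B2 by
its lower bound `Hb p` (`B1_nonneg`), rewrite the `s`-term by Fubini
`∫_p ∫_p' s p k(p'-p) r p' = ∫_p r p ∫_p' s p' k(p'-p)` (`k` even), and apply `B1` pointwise with `b = bD ..`, `R = RD ..`.
-/

set_option autoImplicit false

open MeasureTheory Set Filter Topology
open CLR (E3 Z3 lapB)

noncomputable section

namespace WEL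

/-- measurable and bounded on `D` -/
def B3_BM (D : Set E3) (f : E3 → ℝ) : Prop := Measurable f ∧ ∃ M, 0 ≤ M ∧ ∀ p ∈ D, |f p| ≤ M

theorem B3_BM.mk {D : Set E3} {f : E3 → ℝ} (hf : Measurable f) {M : ℝ} (h : ∀ p ∈ D, |f p| ≤ M) : B3_BM D f :=
  ⟨hf, max M 0, le_max_right _ _, fun p hp => (h p hp).trans (le_max_left _ _)⟩

theorem B3_BM.cont {D : Set E3} (hDb : Bornology.IsBounded D) {f : E3 → ℝ} (hf : Continuous f) : B3_BM D f := by
  obtain ⟨M, hM⟩ := hDb.isCompact_closure.exists_bound_of_continuousOn hf.continuousOn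
  exact B3_BM.mk hf.measurable (M := M) fun p hp => hM p (subset_closure hp)

theorem B3_BM.const {D : Set E3} (c : ℝ) : B3_BM D (fun _ => c) := B3_BM.mk measurable_const (M := |c|) fun _ _ => le_rfl

theorem B3_BM.add {D : Set E3} {f g : E3 → ℝ} (hf : B3_BM D f) (hg : B3_BM D g) : B3_BM D (fun p => f p + g p) := by
  obtain ⟨h1, M, _, hM⟩ := hf
  obtain ⟨h2, N, _, hN⟩ := hg
  exact B3_BM.mk (h1.add h2) (M := M + N) fun p hp => (abs_add_le _ _).trans (add_le_add (hM p hp) (hN p hp))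

theorem B3_BM.sub {D : Set E3} {f g : E3 → ℝ} (hf : B3_BM D f) (hg : B3_BM D g) : B3_BM D (fun p => f p - g p) := by
  obtain ⟨h1, M, _, hM⟩ := hf
  obtain ⟨h2, N, _, hN⟩ := hg
  exact B3_BM.mk (h1.sub h2) (M := M + N) fun p hp => (abs_sub _ _).trans (add_le_add (hM p hp) (hN p hp))

theorem B3_BM.mul {D : Set E3} {f g : E3 → ℝ} (hf : B3_BM D f) (hg : B3_BM D g) : B3_BM D (fun p => f p * g p) := by
  obtain ⟨h1, M, hM0, hM⟩ := hf
  obtain ⟨h2, N, _, hN⟩ := hg
  refine B3_BM.mk (h1.mul h2) (M := M * N) fun p hp => ?_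
  rw [abs_mul]
  exact mul_le_mul (hM p hp) (hN p hp) (abs_nonneg _) hM0

theorem B3_BM.sq {D : Set E3} {f : E3 → ℝ} (hf : B3_BM D f) : B3_BM D (fun p => f p ^ 2) := by
  have h := hf.mul hf
  have e : (fun p => f p ^ 2) = fun p => f p * f p := funext fun p => pow_two (f p)
  rw [e]
  exact h

theorem B3_BM.max0 {D : Set E3} {f : E3 → ℝ} (hf : B3_BM D f) : B3_BM D (fun p => max 0 (f p)) := by
  obtain ⟨h1, M, hM0, hM⟩ := hf
  refine B3_BM.mk (measurable_const.max h1) (M := M) fun p hp => ?_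
  rw [abs_of_nonneg (le_max_left _ _)]
  exact max_le hM0 ((le_abs_self _).trans (hM p hp))

theorem B3_BM.int {D : Set E3} (hD : MeasurableSet D) (hDb : Bornology.IsBounded D) {f : E3 → ℝ} (hf : B3_BM D f) :
    Integrable f (volume.restrict D) := by
  obtain ⟨h1, M, _, hM⟩ := hf
  have : IsFiniteMeasure (volume.restrict D) := ⟨by rw [Measure.restrict_apply_univ]; exact hDb.measure_lt_top⟩
  exact Integrable.of_bound h1.aestronglyMeasurable M ((ae_restrict_iff' hD).2 (Eventually.of_forall hM))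

theorem B3_inner {D : Set E3} (hDb : Bornology.IsBounded D) {g : E3 → E3 → ℝ}
    (hg : Measurable (Function.uncurry g)) {M : ℝ} (h : ∀ p ∈ D, ∀ p' ∈ D, |g p p'| ≤ M) :
    B3_BM D (fun p => ∫ p' in D, g p p') := by
  have : IsFiniteMeasure (volume.restrict D) := ⟨by rw [Measure.restrict_apply_univ]; exact hDb.measure_lt_top⟩
  refine B3_BM.mk ?_ (M := M * volume.real D) fun p hp => ?_
  · exact (hg.stronglyMeasurable.integral_prod_right (ν := volume.restrict D)).measurable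
  · exact norm_setIntegral_le_of_norm_le_const (f := fun p' => g p p') hDb.measure_lt_top fun p' hp' => h p hp p' hp'

theorem B3_int2 {D : Set E3} (hD : MeasurableSet D) (hDb : Bornology.IsBounded D) {Φ : E3 × E3 → ℝ}
    (hΦ : Measurable Φ) {M : ℝ} (h : ∀ p ∈ D, ∀ p' ∈ D, |Φ (p, p')| ≤ M) :
    Integrable Φ ((volume.restrict D).prod (volume.restrict D)) := by
  have : IsFiniteMeasure (volume.restrict D) := ⟨by rw [Measure.restrict_apply_univ]; exact hDb.measure_lt_top⟩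
  refine Integrable.of_bound hΦ.aestronglyMeasurable M ?_
  rw [Measure.prod_restrict]
  exact (ae_restrict_iff' (hD.prod hD)).2 (Eventually.of_forall fun x hx => h x.1 hx.1 x.2 hx.2)

theorem B3_split {μ : Measure E3} {f1 f2 f3 f4 f5 f6 : E3 → ℝ} (c1 c2 c3 c4 : ℝ) (h1 : Integrable f1 μ)
    (h2 : Integrable f2 μ) (h3 : Integrable f3 μ) (h4 : Integrable f4 μ) (h5 : Integrable f5 μ)
    (h6 : Integrable f6 μ) :
    ∫ x, (f1 x + c1 * (f2 x - f3 x) - c2 * f4 x - c3 * f5 x + c4 * f6 x) ∂μ =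
      (∫ x, f1 x ∂μ) + c1 * ((∫ x, f2 x ∂μ) - ∫ x, f3 x ∂μ) - c2 * (∫ x, f4 x ∂μ) - c3 * (∫ x, f5 x ∂μ)
        + c4 * (∫ x, f6 x ∂μ) := by
  have e1 : Integrable (fun x => f2 x - f3 x) μ := h2.sub h3
  have e2 : Integrable (fun x => c1 * (f2 x - f3 x)) μ := e1.const_mul c1
  have e3 : Integrable (fun x => f1 x + c1 * (f2 x - f3 x)) μ := h1.add e2
  have e4 : Integrable (fun x => c2 * f4 x) μ := h4.const_mul c2
  have e5 : Integrable (fun x => f1 x + c1 * (f2 x - f3 x) - c2 * f4 x) μ := e3.sub e4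
  have e6 : Integrable (fun x => c3 * f5 x) μ := h5.const_mul c3
  have e7 : Integrable (fun x => f1 x + c1 * (f2 x - f3 x) - c2 * f4 x - c3 * f5 x) μ := e5.sub e6
  have e8 : Integrable (fun x => c4 * f6 x) μ := h6.const_mul c4
  rw [integral_add e7 e8, integral_sub e5 e6, integral_sub e3 e4, integral_add h1 e2, integral_const_mul,
    integral_const_mul, integral_const_mul, integral_const_mul, integral_sub h2 h3]

theorem partB {ι : Type} [Fintype ι] (D : Set E3) (hD : MeasurableSet D)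
    (hDb : Bornology.IsBounded D) (a κ : ℝ) (ha0 : 0 < a) (ha1 : a < 1) (hκ : 0 ≤ κ)
    (k : E3 → ℝ) (hk : IsKer k) (s : E3 → ℝ) (hs : Continuous s) (hs0 : ∀ p, 0 ≤ s p)
    (e : ι → ℝ) (X : E3 → ι → ℝ) (r m β : E3 → ℝ)
    (hX : ∀ i, Continuous fun p => X p i) (hr : Continuous r) (hm : Continuous m)
    (hβ : Continuous β) (he : ∑ i, e i ^ 2 = 1) (hrX : ∀ p, r p = ∑ i, e i * X p i)
    (hmX : ∀ p, m p = ∑ i, X p i ^ 2) (hr0 : ∀ p, 0 ≤ r p) (hr1 : ∀ p, r p ≤ 1)
    (hmr : ∀ p, m p ≤ r p)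
    (hβτ : ∀ p τ, 0 ≤ τ → 2 * τ * (r p - m p) - τ ^ 2 * (1 - 2 * r p + m p) ≤ β p)
    (z r0 Hb τ : E3 → ℝ) (hz : Measurable z) (hr0m : Measurable r0) (hHm : Measurable Hb)
    (hτm : Measurable τ) (C : ℝ)
    (hC : ∀ p ∈ D, 1 / 2 ≤ z p ∧ z p ≤ C ∧ |r0 p| ≤ C ∧ |Hb p| ≤ C ∧ 0 ≤ τ p ∧ τ p ≤ C)
    (hH : ∀ p ∈ D, Hb p ≤ ∫ p' in D, k (p' - p) * (1 - z p' / z p))
    (hτH : ∀ p ∈ D, 2 * κ * Hb p ≤ 2 * τ p + τ p ^ 2) :
    (∫ p in D, ((s p - a) / (1 - a) * r p - β p))
        + 2 * κ / (1 - a) * ((∫ p in D, s p * r p)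
            - ∫ p in D, ∫ p' in D, s p * k (p' - p) * r p')
        - κ * (∫ p in D, ∫ p' in D, k (p' - p) * ∑ i, (X p' i - X p i) ^ 2)
      ≤ ∫ p in D, FD D a κ k s r0 Hb τ p := by
  have hfin : IsFiniteMeasure (volume.restrict D) := ⟨by rw [Measure.restrict_apply_univ]; exact hDb.measure_lt_top⟩
  rcases D.eq_empty_or_nonempty with rfl | ⟨p0, hp0⟩
  · simp
  obtain ⟨Ck, hCk⟩ := hk.bdd
  have hCk0 : 0 ≤ Ck := (hk.nonneg 0).trans (hCk 0)
  have hC0 : 0 ≤ C := (abs_nonneg _).trans (hC p0 hp0).2.2.1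
  have hkm : Measurable fun x : E3 × E3 => k (x.2 - x.1) :=
    hk.cont.measurable.comp (measurable_snd.sub measurable_fst)
  have hkb : ∀ p p' : E3, |k (p' - p)| ≤ Ck := fun p p' => by
    rw [abs_of_nonneg (hk.nonneg _)]
    exact hCk _
  -- bounded measurable functions
  have br : B3_BM D r := B3_BM.cont hDb hr
  have bm : B3_BM D m := B3_BM.cont hDb hm
  have bβ : B3_BM D β := B3_BM.cont hDb hβ
  have bs : B3_BM D s := B3_BM.cont hDb hs
  have br0 : B3_BM D r0 := B3_BM.mk hr0m (M := C) fun p hp => (hC p hp).2.2.1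
  have bH : B3_BM D Hb := B3_BM.mk hHm (M := C) fun p hp => (hC p hp).2.2.2.1
  have bτ : B3_BM D τ := B3_BM.mk hτm (M := C) fun p hp => by
    rw [abs_of_nonneg (hC p hp).2.2.2.2.1]
    exact (hC p hp).2.2.2.2.2
  have bR : B3_BM D (RD D k r0) := by
    refine B3_inner hDb (g := fun p p' => k (p' - p) * (r0 p - r0 p')) ?_ (M := Ck * (2 * C)) ?_
    · exact hkm.mul ((hr0m.comp measurable_fst).sub (hr0m.comp measurable_snd))
    · intro p hp p' hp'
      rw [abs_mul]
      refine mul_le_mul (hkb _ _) ?_ (abs_nonneg _) hCk0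
      have h1 := (hC p hp).2.2.1
      have h2 := (hC p' hp').2.2.1
      have h3 := abs_sub (r0 p) (r0 p')
      linarith
  obtain ⟨Ms, hMs0, hMs⟩ := bs.2
  have bS : B3_BM D (fun p => ∫ p' in D, s p' * k (p' - p)) := by
    refine B3_inner hDb (g := fun p p' => s p' * k (p' - p)) ?_ (M := Ms * Ck) ?_
    · exact (hs.measurable.comp measurable_snd).mul hkm
    · intro p hp p' hp'
      rw [abs_mul]
      exact mul_le_mul (hMs p' hp') (hkb _ _) (abs_nonneg _) hMs0
  have bh : B3_BM D (fun p => ∫ p' in D, k (p' - p) * (1 - z p' / z p)) := by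
    refine B3_inner hDb (g := fun p p' => k (p' - p) * (1 - z p' / z p)) ?_ (M := Ck * (1 + 2 * C)) ?_
    · exact hkm.mul (measurable_const.sub ((hz.comp measurable_snd).div (hz.comp measurable_fst)))
    · intro p hp p' hp'
      rw [abs_mul]
      refine mul_le_mul (hkb _ _) ?_ (abs_nonneg _) hCk0
      have h1 := (hC p hp).1
      have h3 := (hC p' hp').1
      have h4 := (hC p' hp').2.1
      have h5 : 0 ≤ z p' / z p := by positivity
      have h6 : z p' / z p ≤ 2 * C := by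
        rw [div_le_iff₀ (by linarith)]
        nlinarith
      rw [abs_le]
      constructor <;> linarith
  have bA : B3_BM D (fun p => m p - 2 * r0 p * r p + r0 p ^ 2) :=
    (bm.sub (((B3_BM.const 2).mul br0).mul br)).add br0.sq
  have hA0 : ∀ p, 0 ≤ m p - 2 * r0 p * r p + r0 p ^ 2 := fun p =>
    B1_nonneg e (X p) he (r p) (m p) (r0 p) (hrX p) (hmX p)
  -- the double integral
  have hB2 := B2 D hD hDb k hk e X r m hX hr hm he hrX hmX z r0 hz hr0m C
    (fun p hp => ⟨(hC p hp).1, (hC p hp).2.1, (hC p hp).2.2.1⟩)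
  have hAH : ∫ p in D, (m p - 2 * r0 p * r p + r0 p ^ 2) * Hb p ≤
      ∫ p in D, (m p - 2 * r0 p * r p + r0 p ^ 2) * ∫ p' in D, k (p' - p) * (1 - z p' / z p) := by
    refine integral_mono_ae ((bA.mul bH).int hD hDb) ((bA.mul bh).int hD hDb) ?_
    exact (ae_restrict_iff' hD).2 (Eventually.of_forall fun p hp => mul_le_mul_of_nonneg_left (hH p hp) (hA0 p))
  -- the symmetric term
  obtain ⟨Mr, hMr0, hMr⟩ := br.2
  have hswap : ∫ p in D, ∫ p' in D, s p * k (p' - p) * r p' = ∫ p in D, r p * ∫ p' in D, s p' * k (p' - p) := by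
    have h1 : Integrable (Function.uncurry fun p p' => s p * k (p' - p) * r p')
        ((volume.restrict D).prod (volume.restrict D)) := by
      refine B3_int2 hD hDb (M := Ms * Ck * Mr) ?_ ?_
      · exact ((hs.measurable.comp measurable_fst).mul hkm).mul (hr.measurable.comp measurable_snd)
      · intro p hp p' hp'
        simp only [Function.uncurry_apply_pair]
        rw [abs_mul, abs_mul]
        exact mul_le_mul (mul_le_mul (hMs p hp) (hkb _ _) (abs_nonneg _) hMs0) (hMr p' hp') (abs_nonneg _) (by positivity)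
    rw [integral_integral_swap h1]
    refine integral_congr_ae (Eventually.of_forall fun p => ?_)
    simp only
    rw [← integral_const_mul]
    refine integral_congr_ae (Eventually.of_forall fun p' => ?_)
    simp only
    rw [← hk.even (p' - p), neg_sub]
    ring
  -- the integrated pointwise bound
  have bF : B3_BM D (fun p => FD D a κ k s r0 Hb τ p) := by
    unfold FD bD
    have b1 : B3_BM D (fun p => (s p - a) / (1 - a) + 2 * κ / (1 - a) * (s p - ∫ p' in D, s p' * k (p' - p))) := by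
      have h1 : B3_BM D (fun p => (s p - a) * (1 - a)⁻¹) := (bs.sub (B3_BM.const a)).mul (B3_BM.const (1 - a)⁻¹)
      have h2 := (B3_BM.const (D := D) (2 * κ / (1 - a))).mul (bs.sub bS)
      simp only [div_eq_mul_inv] at h2 ⊢
      exact h1.add h2
    have b2 := (((b1.sub bτ.sq).sub ((B3_BM.const (D := D) (2 * κ)).mul bH)).add
      (((B3_BM.const (D := D) (4 * κ)).mul bH).mul br0)).sub ((B3_BM.const (D := D) (4 * κ)).mul bR)
    exact ((b2.max0.add bτ.sq).sub (((B3_BM.const (D := D) (2 * κ)).mul bH).mul br0.sq)).add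
      (((B3_BM.const (D := D) (2 * κ)).mul br0).mul bR)
  have b1 : B3_BM D (fun p => (s p - a) / (1 - a) * r p - β p) := by
    have h1 : B3_BM D (fun p => (s p - a) * (1 - a)⁻¹) := (bs.sub (B3_BM.const a)).mul (B3_BM.const (1 - a)⁻¹)
    simp only [div_eq_mul_inv]
    exact (h1.mul br).sub bβ
  have b2 : B3_BM D (fun p => s p * r p) := bs.mul br
  have b3 : B3_BM D (fun p => r p * ∫ p' in D, s p' * k (p' - p)) := br.mul bS
  have b4 : B3_BM D (fun p => (m p - 2 * r0 p * r p + r0 p ^ 2) * Hb p) := bA.mul bH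
  have b5 : B3_BM D (fun p => r p * RD D k r0 p) := br.mul bR
  have b6 : B3_BM D (fun p => r0 p * RD D k r0 p) := br0.mul bR
  have hsplit := B3_split (2 * κ / (1 - a)) (2 * κ) (4 * κ) (2 * κ) (b1.int hD hDb) (b2.int hD hDb) (b3.int hD hDb)
    (b4.int hD hDb) (b5.int hD hDb) (b6.int hD hDb)
  have bG : B3_BM D (fun p => (s p - a) / (1 - a) * r p - β p + 2 * κ / (1 - a) * (s p * r p - r p * ∫ p' in D, s p' * k (p' - p))
      - 2 * κ * ((m p - 2 * r0 p * r p + r0 p ^ 2) * Hb p) - 4 * κ * (r p * RD D k r0 p) + 2 * κ * (r0 p * RD D k r0 p)) :=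
    (((b1.add ((B3_BM.const (D := D) (2 * κ / (1 - a))).mul (b2.sub b3))).sub ((B3_BM.const (D := D) (2 * κ)).mul b4)).sub
      ((B3_BM.const (D := D) (4 * κ)).mul b5)).add ((B3_BM.const (D := D) (2 * κ)).mul b6)
  have hmono : ∫ p in D, ((s p - a) / (1 - a) * r p - β p + 2 * κ / (1 - a) * (s p * r p - r p * ∫ p' in D, s p' * k (p' - p))
      - 2 * κ * ((m p - 2 * r0 p * r p + r0 p ^ 2) * Hb p) - 4 * κ * (r p * RD D k r0 p) + 2 * κ * (r0 p * RD D k r0 p)) ≤
      ∫ p in D, FD D a κ k s r0 Hb τ p := by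
    refine integral_mono_ae (bG.int hD hDb) (bF.int hD hDb) ?_
    refine (ae_restrict_iff' hD).2 (Eventually.of_forall fun p hp => ?_)
    have h1 := B1 (r p) (m p) (β p) (Hb p) (τ p) (r0 p) (RD D k r0 p) (bD D a κ k s p) κ hκ (hr0 p) (hr1 p) (hmr p)
      (hC p hp).2.2.2.2.1 (hβτ p (τ p) (hC p hp).2.2.2.2.1) (hτH p hp)
    have h2 : FD D a κ k s r0 Hb τ p = max 0 (bD D a κ k s p - τ p ^ 2 - 2 * κ * Hb p + 4 * κ * Hb p * r0 p - 4 * κ * RD D k r0 p)
        + τ p ^ 2 - 2 * κ * Hb p * r0 p ^ 2 + 2 * κ * r0 p * RD D k r0 p := rfl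
    simp only
    rw [h2]
    refine le_trans (le_of_eq ?_) h1
    unfold bD
    ring
  rw [hsplit] at hmono
  rw [hswap]
  have h3 := mul_le_mul_of_nonneg_left hB2 hκ
  have h4 := mul_le_mul_of_nonneg_left hAH (by linarith : 0 ≤ 2 * κ)
  linarith

end WEL
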