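import Pool.Agent.WEL.Defs

/-!
# WEL C1
Gaussian facts.  `integral_cexp_neg_mul_sq_norm_add` or the real version (file
Mathlib/Analysis/SpecialFunctions/Gaussian/FourierTransform.lean), dimension 3.
-/

set_option autoImplicit false

open MeasureTheory Set Filter Topology
open CLR (E3 Z3 lapB)

noncomputable section

namespace WEL

theorem c1_gauss {b : ℝ} (hb : 0 < b) : ∫ q : E3, Real.exp (-(b * ‖q‖ ^ 2)) = (Real.pi / b) ^ (3 / 2 : ℝ) := by
  have h := GaussianFourier.integral_rexp_neg_mul_sq_norm (V := E3) hb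
  have hf : Module.finrank ℝ E3 = 3 := by simp [E3]
  rw [hf] at h
  rw [← Nat.cast_ofNat (R := ℝ) (n := 3)]
  rw [← h]
  refine integral_congr_ae (Eventually.of_forall fun q => ?_)
  show Real.exp (-(b * ‖q‖ ^ 2)) = Real.exp (-b * ‖q‖ ^ 2)
  rw [neg_mul]

theorem c1_int {b : ℝ} (hb : 0 < b) : Integrable fun q : E3 => Real.exp (-(b * ‖q‖ ^ 2)) := by
  by_contra hn
  have h := c1_gauss hb
  rw [integral_undef hn] at h
  have : (0 : ℝ) < (Real.pi / b) ^ (3 / 2 : ℝ) := Real.rpow_pos_of_pos (div_pos Real.pi_pos hb) _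
  linarith

theorem c1_c0 : 0 < (8 / Real.pi) ^ (3 / 2 : ℝ) := Real.rpow_pos_of_pos (div_pos (by norm_num) Real.pi_pos) _

theorem kern_isKer : IsKer kern where
  cont := by
    unfold kern
    fun_prop
  nonneg q := by
    unfold kern
    exact mul_nonneg c1_c0.le (Real.exp_pos _).le
  even q := by
    unfold kern
    rw [norm_neg]
  int := by
    unfold kern
    exact (c1_int (by norm_num : (0 : ℝ) < 8)).const_mul _
  mass := by
    unfold kern
    rw [integral_const_mul, c1_gauss (by norm_num : (0 : ℝ) < 8), ← Real.mul_rpow (by positivity) (by positivity),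
      div_mul_div_comm, mul_comm, div_self (by positivity), Real.one_rpow]
  bdd := by
    refine ⟨(8 / Real.pi) ^ (3 / 2 : ℝ), fun q => ?_⟩
    unfold kern
    refine mul_le_of_le_one_right c1_c0.le (Real.exp_le_one_iff.2 ?_)
    nlinarith [sq_nonneg ‖q‖]

theorem c1_sq (y : ℝ) (hy : 0 ≤ y) (p q : E3) :
    8 * ‖q - p‖ ^ 2 + y * ‖q‖ ^ 2 = (8 + y) * ‖q - (8 / (8 + y)) • p‖ ^ 2 + y / (1 + y / 8) * ‖p‖ ^ 2 := by
  have h8 : (8 + y) ≠ 0 := by positivity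
  have h9 : (1 + y / 8) ≠ 0 := by positivity
  rw [norm_sub_sq_real, norm_sub_sq_real, inner_smul_right, norm_smul, mul_pow, Real.norm_eq_abs, sq_abs]
  have e : y / (1 + y / 8) = 8 * y / (8 + y) := by
    rw [div_eq_div_iff h9 h8]
    ring
  rw [e]
  field_simp
  ring

theorem conv_gauss (y : ℝ) (hy : 0 ≤ y) (p : E3) :
    ∫ q, kern (q - p) * Real.exp (-(y * ‖q‖ ^ 2)) =
      (1 + y / 8) ^ (-(3 / 2 : ℝ)) * Real.exp (-(y / (1 + y / 8) * ‖p‖ ^ 2)) := by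
  have h8 : 0 < 8 + y := by positivity
  have e : ∀ q : E3, kern (q - p) * Real.exp (-(y * ‖q‖ ^ 2)) =
      ((8 / Real.pi) ^ (3 / 2 : ℝ) * Real.exp (-(y / (1 + y / 8) * ‖p‖ ^ 2))) *
        Real.exp (-((8 + y) * ‖q - (8 / (8 + y)) • p‖ ^ 2)) := by
    intro q
    unfold kern
    rw [mul_assoc, mul_assoc, ← Real.exp_add, ← Real.exp_add]
    congr 2
    have := c1_sq y hy p q
    linarith
  simp_rw [e]
  rw [integral_const_mul, integral_sub_right_eq_self (fun q : E3 => Real.exp (-((8 + y) * ‖q‖ ^ 2))), c1_gauss h8]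
  have e2 : (8 / Real.pi) ^ (3 / 2 : ℝ) * (Real.pi / (8 + y)) ^ (3 / 2 : ℝ) = (1 + y / 8) ^ (-(3 / 2 : ℝ)) := by
    rw [← Real.mul_rpow (by positivity) (by positivity), Real.rpow_neg (by positivity), ← Real.inv_rpow (by positivity)]
    congr 1
    have := Real.pi_ne_zero
    field_simp
  rw [← e2]
  ring

theorem conv_gauss_int (y : ℝ) (hy : 0 ≤ y) (p : E3) :
    Integrable fun q => kern (q - p) * Real.exp (-(y * ‖q‖ ^ 2)) := by
  have h1 : Integrable fun q => kern (q - p) := kern_isKer.int.comp_sub_right p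
  have h2 := h1.bdd_mul (c := 1) (f := fun q : E3 => Real.exp (-(y * ‖q‖ ^ 2)))
    (by fun_prop : Continuous fun q : E3 => Real.exp (-(y * ‖q‖ ^ 2))).aestronglyMeasurable
    (Eventually.of_forall fun q => by
      rw [Real.norm_eq_abs, abs_of_pos (Real.exp_pos _)]
      refine Real.exp_le_one_iff.2 ?_
      have := mul_nonneg hy (sq_nonneg ‖q‖)
      linarith)
  refine h2.congr (Eventually.of_forall fun q => ?_)
  exact mul_comm _ _

theorem c1_t (j : Fin 8) : (1 : ℝ) ≤ ((tq j : ℚ) : ℝ) := by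
  have h : (1 : ℚ) ≤ tq j := by
    fin_cases j <;> (unfold tq; norm_num [Matrix.cons_val])
  exact_mod_cast h

theorem c1_term (t : ℝ) (ht : 1 ≤ t) (p : E3) :
    ∫ q, kern (q - p) * Real.exp (-(8 * (t ^ 2 - 1) * ‖q‖ ^ 2)) =
      1 / t ^ 3 * Real.exp (-(8 * (1 - 1 / t ^ 2) * ‖p‖ ^ 2)) := by
  have h0 : 0 < t := by linarith
  have hy : 0 ≤ 8 * (t ^ 2 - 1) := by nlinarith
  rw [conv_gauss _ hy]
  have e1 : 1 + 8 * (t ^ 2 - 1) / 8 = t ^ 2 := by ring
  have e2 : (t ^ 2) ^ (-(3 / 2 : ℝ)) = 1 / t ^ 3 := by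
    rw [← Real.rpow_natCast t 2, ← Real.rpow_mul h0.le, ← Real.rpow_natCast t 3, one_div, ← Real.rpow_neg h0.le]
    congr 1
    push_cast
    ring
  have e3 : 8 * (t ^ 2 - 1) / t ^ 2 = 8 * (1 - 1 / t ^ 2) := by
    field_simp
  rw [e1, e2, e3]

theorem c1_bq (j : Fin 8) : ((bq j : ℚ) : ℝ) = 8 * (((tq j : ℚ) : ℝ) ^ 2 - 1) := by
  unfold bq
  push_cast
  ring

theorem c1_bq' (j : Fin 8) : ((bq' j : ℚ) : ℝ) = 8 * (1 - 1 / ((tq j : ℚ) : ℝ) ^ 2) := by
  unfold bq'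
  push_cast
  ring

theorem c1_sum (c : Fin 8 → ℚ) (p : E3) :
    Integrable (fun q : E3 => kern (q - p) * ∑ j, ((c j : ℚ) : ℝ) * Real.exp (-(((bq j : ℚ) : ℝ) * ‖q‖ ^ 2))) ∧
    ∫ q : E3, kern (q - p) * ∑ j, ((c j : ℚ) : ℝ) * Real.exp (-(((bq j : ℚ) : ℝ) * ‖q‖ ^ 2)) =
      ∑ j, ((c j / tq j ^ 3 : ℚ) : ℝ) * Real.exp (-(((bq' j : ℚ) : ℝ) * ‖p‖ ^ 2)) := by
  have hI : ∀ j : Fin 8, Integrable fun q : E3 =>
      ((c j : ℚ) : ℝ) * (kern (q - p) * Real.exp (-(((bq j : ℚ) : ℝ) * ‖q‖ ^ 2))) := by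
    intro j
    refine (conv_gauss_int _ ?_ p).const_mul _
    rw [c1_bq]
    nlinarith [c1_t j]
  have e : (fun q : E3 => kern (q - p) * ∑ j, ((c j : ℚ) : ℝ) * Real.exp (-(((bq j : ℚ) : ℝ) * ‖q‖ ^ 2))) =
      fun q : E3 => ∑ j, ((c j : ℚ) : ℝ) * (kern (q - p) * Real.exp (-(((bq j : ℚ) : ℝ) * ‖q‖ ^ 2))) := by
    funext q
    rw [Finset.mul_sum]
    exact Finset.sum_congr rfl fun j _ => by ring
  rw [e]
  refine ⟨integrable_finsetSum _ fun j _ => hI j, ?_⟩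
  rw [integral_finsetSum _ fun j _ => hI j]
  refine Finset.sum_congr rfl fun j _ => ?_
  rw [integral_const_mul, c1_bq, c1_term _ (c1_t j), c1_bq']
  push_cast
  ring

theorem conv_rho (p : E3) : ∫ q, kern (q - p) * rhoF (‖q‖ ^ 2) = krhoF (‖p‖ ^ 2) :=
  (c1_sum cq p).2

theorem conv_z (p : E3) : ∫ q, kern (q - p) * zF (‖q‖ ^ 2) = kzF (‖p‖ ^ 2) := by
  have h1 : Integrable fun q => kern (q - p) := kern_isKer.int.comp_sub_right p
  obtain ⟨h2, h3⟩ := c1_sum dq p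
  have e : (fun q : E3 => kern (q - p) * zF (‖q‖ ^ 2)) = fun q : E3 => kern (q - p) +
      kern (q - p) * ∑ j, ((dq j : ℚ) : ℝ) * Real.exp (-(((bq j : ℚ) : ℝ) * ‖q‖ ^ 2)) := by
    funext q
    unfold zF
    ring
  rw [e, integral_add h1 h2, h3, integral_sub_right_eq_self kern, kern_isKer.mass]
  rfl

end WEL
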