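import Pool.Agent.WEL.C1

/-!
# WEL C2
The average of `1/|q|²`.  `1/|q|² = ∫_0^∞ exp(-y|q|²) dy`, Tonelli, `conv_gauss`
and the substitution `y = 8(1/v² - 1)`, `v ∈ (0,1)`.
-/

set_option autoImplicit false

open MeasureTheory Set Filter Topology
open CLR (E3 Z3 lapB)

noncomputable section

namespace WEL

/-- the substitution -/
def C2_f (v : ℝ) : ℝ := 8 * (1 / v ^ 2 - 1)

/-- its derivative -/
def C2_f' (v : ℝ) : ℝ := -(16 / v ^ 3)

theorem C2_deriv (v : ℝ) (hv : v ∈ Ioo (0 : ℝ) 1) :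
    HasDerivWithinAt C2_f (C2_f' v) (Ioo 0 1) v := by
  have hv0 : v ≠ 0 := ne_of_gt hv.1
  have h1 : HasDerivAt (fun v : ℝ => v ^ 2) (2 * v) v := by
    simpa using hasDerivAt_pow 2 v
  have h2 : HasDerivAt (fun v : ℝ => (v ^ 2)⁻¹) (-(2 * v) / (v ^ 2) ^ 2) v :=
    h1.inv (pow_ne_zero 2 hv0)
  have h3 := (h2.sub_const 1).const_mul 8
  have h4 : HasDerivAt C2_f (C2_f' v) v := by
    have e : C2_f = fun v => 8 * ((v ^ 2)⁻¹ - 1) := by
      funext v
      simp [C2_f]
    rw [e]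
    refine h3.congr_deriv ?_
    unfold C2_f'
    field_simp
    ring
  exact h4.hasDerivWithinAt

theorem C2_inj : InjOn C2_f (Ioo 0 1) := by
  intro a ha b hb h
  unfold C2_f at h
  have h1 : 1 / a ^ 2 = 1 / b ^ 2 := by linarith
  have h2 : a ^ 2 = b ^ 2 := by
    rw [one_div, one_div] at h1
    exact inv_injective h1
  exact (pow_left_inj₀ ha.1.le hb.1.le two_ne_zero).1 h2

theorem C2_image : C2_f '' Ioo 0 1 = Ioi 0 := by
  ext y
  constructor
  · rintro ⟨v, hv, rfl⟩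
    have h0 := hv.1
    have h1 : 1 < 1 / v ^ 2 := by
      rw [lt_div_iff₀ (by positivity)]
      nlinarith [hv.1, hv.2]
    show (0 : ℝ) < C2_f v
    unfold C2_f
    linarith
  · intro hy
    have hy : 0 < y := hy
    refine ⟨1 / √(1 + y / 8), ⟨by positivity, ?_⟩, ?_⟩
    · rw [div_lt_one (by positivity)]
      rw [Real.lt_sqrt (by norm_num)]
      linarith
    · unfold C2_f
      have e : (1 / √(1 + y / 8)) ^ 2 = 1 / (1 + y / 8) := by
        rw [div_pow, one_pow, Real.sq_sqrt (by positivity)]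
      rw [e]
      field_simp
      ring

/-- the integrand after `conv_gauss` -/
def C2_G (x y : ℝ) : ℝ :=
  (1 + y / 8) ^ (-(3 / 2 : ℝ)) * Real.exp (-(y / (1 + y / 8) * x))

theorem C2_pull (x v : ℝ) (hv : v ∈ Ioo (0 : ℝ) 1) :
    |C2_f' v| • C2_G x (C2_f v) = 16 * Real.exp (-(8 * (1 - v ^ 2) * x)) := by
  have h0 := hv.1
  have e1 : 1 + C2_f v / 8 = (v ^ 2)⁻¹ := by
    unfold C2_f
    field_simp
    ring
  have e2 : (1 + C2_f v / 8) ^ (-(3 / 2 : ℝ)) = v ^ 3 := by
    rw [e1, Real.inv_rpow (by positivity), Real.rpow_neg (by positivity), inv_inv,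
      ← Real.rpow_natCast v 2, ← Real.rpow_mul h0.le]
    norm_num
  have e3 : C2_f v / (1 + C2_f v / 8) = 8 * (1 - v ^ 2) := by
    rw [e1]
    unfold C2_f
    field_simp
  unfold C2_G
  rw [e2, e3, smul_eq_mul]
  unfold C2_f'
  rw [abs_neg, abs_of_pos (by positivity)]
  field_simp

theorem C2_int_G (x : ℝ) : IntegrableOn (C2_G x) (Ioi 0) := by
  rw [← C2_image, integrableOn_image_iff_integrableOn_abs_deriv_smul measurableSet_Ioo
    C2_deriv C2_inj]
  refine IntegrableOn.congr_fun ?_ (fun v hv => (C2_pull x v hv).symm) measurableSet_Ioo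
  have hc : Continuous fun v : ℝ => 16 * Real.exp (-(8 * (1 - v ^ 2) * x)) := by fun_prop
  exact (hc.continuousOn.integrableOn_Icc (a := 0) (b := 1)).mono_set Ioo_subset_Icc_self

theorem C2_integral_G (x : ℝ) : ∫ y in Ioi 0, C2_G x y = kiF x := by
  rw [← C2_image, integral_image_eq_integral_abs_deriv_smul measurableSet_Ioo
    C2_deriv C2_inj, setIntegral_congr_fun measurableSet_Ioo (C2_pull x)]
  unfold kiF
  rw [intervalIntegral.integral_of_le zero_le_one, integral_Ioc_eq_integral_Ioo,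
    integral_const_mul]

theorem C2_nonneg (p q : E3) (y : ℝ) : 0 ≤ kern (q - p) * Real.exp (-(y * ‖q‖ ^ 2)) :=
  mul_nonneg (kern_isKer.nonneg _) (Real.exp_nonneg _)

theorem C2_prod (p : E3) : Integrable
    (fun z : E3 × ℝ => kern (z.1 - p) * Real.exp (-(z.2 * ‖z.1‖ ^ 2)))
    ((volume : Measure E3).prod (volume.restrict (Ioi (0 : ℝ)))) := by
  have hk := kern_isKer.cont
  have hc : Continuous (fun z : E3 × ℝ => kern (z.1 - p) * Real.exp (-(z.2 * ‖z.1‖ ^ 2))) := by
    fun_prop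
  rw [integrable_prod_iff' hc.aestronglyMeasurable]
  constructor
  · filter_upwards [ae_restrict_mem measurableSet_Ioi] with y hy
    exact conv_gauss_int y (le_of_lt hy) p
  · have h := C2_int_G (‖p‖ ^ 2)
    refine Integrable.congr h ?_
    filter_upwards [ae_restrict_mem measurableSet_Ioi] with y hy
    have e : ∀ q : E3, ‖kern (q - p) * Real.exp (-(y * ‖q‖ ^ 2))‖
        = kern (q - p) * Real.exp (-(y * ‖q‖ ^ 2)) := fun q =>
      Real.norm_of_nonneg (C2_nonneg p q y)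
    simp_rw [e]
    exact (conv_gauss y (le_of_lt hy) p).symm

theorem C2_inner (p q : E3) :
    ∫ y in Ioi (0 : ℝ), kern (q - p) * Real.exp (-(y * ‖q‖ ^ 2))
      = kern (q - p) * (1 / ‖q‖ ^ 2) := by
  rw [integral_const_mul]
  congr 1
  by_cases hq : q = 0
  · subst hq
    simp [Measure.real, Real.volume_Ioi]
  · have hpos : 0 < ‖q‖ ^ 2 := by
      have := norm_pos_iff.2 hq
      positivity
    have h := integral_exp_mul_Ioi (a := -‖q‖ ^ 2) (by linarith) 0
    have e : ∀ y : ℝ, -(y * ‖q‖ ^ 2) = -‖q‖ ^ 2 * y := fun y => by ring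
    simp_rw [e]
    rw [h]
    simp

theorem conv_inv_int (p : E3) : Integrable fun q => kern (q - p) * (1 / ‖q‖ ^ 2) := by
  have h := (C2_prod p).integral_prod_left
  exact h.congr (ae_of_all _ fun q => C2_inner p q)

theorem conv_inv (p : E3) : ∫ q, kern (q - p) * (1 / ‖q‖ ^ 2) = kiF (‖p‖ ^ 2) := by
  calc ∫ q, kern (q - p) * (1 / ‖q‖ ^ 2)
      = ∫ q, ∫ y in Ioi (0 : ℝ), kern (q - p) * Real.exp (-(y * ‖q‖ ^ 2)) := by
        congr 1
        funext q
        exact (C2_inner p q).symm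
    _ = ∫ y in Ioi (0 : ℝ), ∫ q, kern (q - p) * Real.exp (-(y * ‖q‖ ^ 2)) :=
        integral_integral_swap (C2_prod p)
    _ = ∫ y in Ioi (0 : ℝ), C2_G (‖p‖ ^ 2) y :=
        setIntegral_congr_fun measurableSet_Ioi fun y hy =>
          conv_gauss y (le_of_lt hy) p
    _ = kiF (‖p‖ ^ 2) := C2_integral_G _

end WEL
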