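import Pool.Agent.WEL.C1

/-!
# WEL C3
Tails of the kernel and the mass error.  (a) `cube h` contains the ball of radius `π/h`, so for `‖p‖ ≤ 8` the integral over the
complement is at most `∫_{‖q‖ ≥ π/h - 8} kern`, which tends to 0.  (b) `kern ≤ (8/π)^{3/2}` and
`∫ ε/(‖q‖²(‖q‖²+ε)) dq = 4π ∫_0^∞ ε/(t²+ε) dt = 2π² √ε` (`MeasureTheory.integral_fun_norm_addHaar`), or any cruder bound going to 0
with ε, uniformly in p (for instance split at ‖q‖ = √√ε).
-/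

set_option autoImplicit false

open MeasureTheory Set Filter Topology
open CLR (E3 Z3 lapB)

noncomputable section

namespace WEL

theorem c3_coord (q : E3) (i : Fin 3) : |q i| ≤ ‖q‖ := by
  have h := EuclideanSpace.norm_sq_eq q
  have h1 : ‖q i‖ ^ 2 ≤ ‖q‖ ^ 2 := by
    rw [h]
    exact Finset.single_le_sum (f := fun i => ‖q i‖ ^ 2) (fun _ _ => sq_nonneg _) (Finset.mem_univ i)
  have h2 := abs_le_of_sq_le_sq h1 (norm_nonneg _)
  rw [Real.norm_eq_abs, abs_abs] at h2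
  exact h2

/-- The tails of the kernel tend to zero. -/
theorem c3_tail (δ : ℝ) (hδ : 0 < δ) : ∃ n : ℕ, ∫ q in {q : E3 | (n : ℝ) ≤ ‖q‖}, kern q ≤ δ := by
  have hm : ∀ n : ℕ, MeasurableSet {q : E3 | (n : ℝ) ≤ ‖q‖} := fun n =>
    measurableSet_le measurable_const measurable_norm
  have ha : Antitone fun n : ℕ => {q : E3 | (n : ℝ) ≤ ‖q‖} := by
    intro a b hab q hq
    have h1 : (a : ℝ) ≤ b := by exact_mod_cast hab
    exact h1.trans hq
  have h := tendsto_setIntegral_of_antitone (μ := volume) (f := kern) hm ha ⟨0, kern_isKer.int.integrableOn⟩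
  have h0 : ⋂ n : ℕ, {q : E3 | (n : ℝ) ≤ ‖q‖} = ∅ := by
    refine eq_empty_of_forall_notMem fun q hq => ?_
    obtain ⟨n, hn⟩ := exists_nat_gt ‖q‖
    have h1 := mem_iInter.1 hq n
    exact absurd h1 (not_le.2 hn)
  rw [h0, setIntegral_empty] at h
  obtain ⟨n, hn⟩ := (h.eventually (gt_mem_nhds hδ)).exists
  exact ⟨n, hn.le⟩

theorem tail_small (δ : ℝ) (hδ : 0 < δ) : ∃ h0 > 0, ∀ h, 0 < h → h < h0 →
    ∀ p : E3, ‖p‖ ≤ 8 → ∫ p' in (cube h)ᶜ, kern (p' - p) ≤ δ := by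
  obtain ⟨n, hn⟩ := c3_tail δ hδ
  have hn8 : (0 : ℝ) < n + 8 := by positivity
  refine ⟨Real.pi / (n + 8), div_pos Real.pi_pos hn8, fun h hh hlt p hp => ?_⟩
  have hpi : (n : ℝ) + 8 < Real.pi / h := by
    rw [lt_div_iff₀ hh]
    rw [lt_div_iff₀ hn8] at hlt
    linarith
  have hmT : MeasurableSet {q : E3 | (n : ℝ) ≤ ‖q‖} := measurableSet_le measurable_const measurable_norm
  have hmT' : MeasurableSet {p' : E3 | (n : ℝ) ≤ ‖p' - p‖} :=
    measurableSet_le measurable_const (measurable_norm.comp (measurable_id.sub_const p))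
  have hint : Integrable fun p' => kern (p' - p) := kern_isKer.int.comp_sub_right p
  have h1 : ∫ p' in (cube h)ᶜ, kern (p' - p) ≤ ∫ p' in {p' : E3 | (n : ℝ) ≤ ‖p' - p‖}, kern (p' - p) := by
    refine setIntegral_mono_set hint.integrableOn (Eventually.of_forall fun p' => kern_isKer.nonneg _) ?_
    refine LE.le.eventuallyLE (s := (cube h)ᶜ) ?_
    intro p' hp'
    have h2 : ∃ i, Real.pi / h < |p' i| := by
      by_contra hcon
      push Not at hcon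
      exact hp' hcon
    obtain ⟨i, hi⟩ := h2
    have h3 := c3_coord p' i
    have h4 : ‖p'‖ ≤ ‖p' - p‖ + ‖p‖ := by
      have h5 := norm_add_le (p' - p) p
      rwa [sub_add_cancel] at h5
    show (n : ℝ) ≤ ‖p' - p‖
    linarith
  have h2 : ∫ p' in {p' : E3 | (n : ℝ) ≤ ‖p' - p‖}, kern (p' - p) = ∫ q in {q : E3 | (n : ℝ) ≤ ‖q‖}, kern q := by
    rw [← integral_indicator hmT', ← integral_indicator hmT,
      ← integral_sub_right_eq_self (fun q => ({q : E3 | (n : ℝ) ≤ ‖q‖}.indicator (fun q => kern q)) q) p]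
    rfl
  rw [h2] at h1
  exact h1.trans hn

theorem c3_fin : Module.finrank ℝ E3 = 3 := by simp

/-- `g_ε`. -/
def c3g (ε : ℝ) (q : E3) : ℝ := 1 / ‖q‖ ^ 2 - 1 / (‖q‖ ^ 2 + ε)

theorem c3_int1 : Integrable (c3g 1) := by
  have h := (integrable_fun_norm_addHaar (volume : Measure E3) (f := fun t : ℝ => 1 / t ^ 2 - 1 / (t ^ 2 + 1))).2 ?_
  · exact h
  · rw [c3_fin]
    have h1 : IntegrableOn (fun t : ℝ => (1 + t ^ 2)⁻¹) (Ioi 0) := integrable_inv_one_add_sq.integrableOn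
    refine h1.congr_fun ?_ measurableSet_Ioi
    intro t ht
    have h2 : (0 : ℝ) < t := ht
    show (1 + t ^ 2)⁻¹ = t ^ (3 - 1) • (1 / t ^ 2 - 1 / (t ^ 2 + 1))
    rw [smul_eq_mul]
    field_simp
    ring

theorem c3_scale {ε : ℝ} (hε : 0 < ε) (q : E3) : c3g ε (Real.sqrt ε • q) = ε⁻¹ * c3g 1 q := by
  unfold c3g
  have h1 : ‖Real.sqrt ε • q‖ ^ 2 = ε * ‖q‖ ^ 2 := by
    rw [norm_smul, mul_pow, Real.norm_eq_abs, sq_abs, Real.sq_sqrt hε.le]
  have h2 : ε * ‖q‖ ^ 2 + ε = ε * (‖q‖ ^ 2 + 1) := by ring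
  rw [h1, h2, one_div, one_div, one_div, one_div, mul_inv, mul_inv]
  ring

theorem c3_int {ε : ℝ} (hε : 0 < ε) : Integrable (c3g ε) := by
  rw [← integrable_comp_smul_iff volume (c3g ε) (Real.sqrt_pos.2 hε).ne']
  simp only [c3_scale hε]
  exact c3_int1.const_mul _

theorem c3_val {ε : ℝ} (hε : 0 < ε) : ∫ q, c3g ε q = Real.sqrt ε * ∫ q, c3g 1 q := by
  have h := Measure.integral_comp_smul (volume : Measure E3) (c3g ε) (Real.sqrt ε)
  simp only [c3_scale hε] at h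
  rw [integral_const_mul, c3_fin, smul_eq_mul] at h
  have h1 : 0 < Real.sqrt ε := Real.sqrt_pos.2 hε
  rw [abs_of_pos (by positivity)] at h
  have h2 : Real.sqrt ε ^ 2 = ε := Real.sq_sqrt hε.le
  have h3 : ∫ q, c3g ε q = Real.sqrt ε ^ 3 * (ε⁻¹ * ∫ q, c3g 1 q) := by
    rw [h]
    field_simp
  rw [h3]
  have h4 : Real.sqrt ε ^ 3 = Real.sqrt ε * ε := by
    rw [pow_succ, h2, mul_comm]
  rw [h4]
  field_simp

theorem c3_ae {ε : ℝ} (hε : 0 < ε) : ∀ᵐ q : E3, 0 ≤ c3g ε q := by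
  have h : ∀ᵐ q : E3, q ≠ 0 := by
    have h1 : (volume : Measure E3) {0} = 0 := measure_singleton 0
    exact compl_mem_ae_iff.2 h1
  filter_upwards [h] with q hq
  have h1 : 0 < ‖q‖ ^ 2 := by positivity
  unfold c3g
  rw [sub_nonneg]
  exact one_div_le_one_div_of_le h1 (by linarith)

theorem mass_small (δ : ℝ) (hδ : 0 < δ) : ∃ ε0 > 0, ∀ ε, 0 < ε → ε < ε0 →
    ∀ p : E3, ∫ q, kern (q - p) * (1 / ‖q‖ ^ 2 - 1 / (‖q‖ ^ 2 + ε)) ≤ δ := by
  obtain ⟨C, hC⟩ := kern_isKer.bdd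
  have hC0 : 0 ≤ C := (kern_isKer.nonneg 0).trans (hC 0)
  obtain ⟨G, hG⟩ : ∃ G : ℝ, G = ∫ q : E3, c3g 1 q := ⟨_, rfl⟩
  have hG0 : 0 ≤ G := by
    rw [hG]
    exact integral_nonneg_of_ae (c3_ae one_pos)
  have hpos : 0 < C * G + 1 := by positivity
  refine ⟨(δ / (C * G + 1)) ^ 2, by positivity, fun ε hε hlt p => ?_⟩
  have h1 : Real.sqrt ε < δ / (C * G + 1) := by
    rw [Real.sqrt_lt' (by positivity)]
    exact hlt
  have h2 : ∫ q, kern (q - p) * (1 / ‖q‖ ^ 2 - 1 / (‖q‖ ^ 2 + ε)) ≤ ∫ q, C * c3g ε q := by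
    refine integral_mono_of_nonneg ?_ ((c3_int hε).const_mul C) ?_
    · filter_upwards [c3_ae hε] with q hq
      exact mul_nonneg (kern_isKer.nonneg _) hq
    · filter_upwards [c3_ae hε] with q hq
      exact mul_le_mul_of_nonneg_right (hC _) hq
  rw [integral_const_mul, c3_val hε, ← hG] at h2
  refine h2.trans ?_
  rw [lt_div_iff₀ hpos] at h1
  have h3 : 0 ≤ Real.sqrt ε := Real.sqrt_nonneg _
  nlinarith

end WEL
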