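import Pool.Agent.WEL.C1
import Pool.Agent.WEL.C2
import Pool.Agent.WEL.C3
import Pool.Agent.WEL.C4

/-!
# WEL C5
Lower bound for the averaged symbol.  `∫_cube sym k ≥ ∫_cube k/(‖p'‖²+ε) = ∫ k/‖p'‖² - (mass error) - ∫_{cubeᶜ} k/(‖p'‖²+ε)`,
and on the complement of the cube `‖p'‖ ≥ π/h ≥ 1`.  Uses conv_inv, conv_inv_int (C2), tail_small, mass_small (C3),
sym_ge, sym_cont, sym_le (C4): imported stubs.
-/

set_option autoImplicit false

open MeasureTheory Set Filter Topology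
open CLR (E3 Z3 lapB)

noncomputable section

namespace WEL

theorem c5_meas (h : ℝ) : MeasurableSet (cube h) := by
  have e : cube h = ⋂ i : Fin 3, {p : E3 | |p i| ≤ Real.pi / h} := by
    ext p
    simp only [cube, mem_ofPred_eq, mem_iInter]
  rw [e]
  refine MeasurableSet.iInter fun i => ?_
  have hc : Continuous fun p : E3 => |p i| := by fun_prop
  exact (isClosed_le hc continuous_const).measurableSet

theorem c5_out {h : ℝ} (hh : 0 < h) (h1 : h < 1) {p : E3} (hp : p ∉ cube h) : 1 ≤ ‖p‖ ^ 2 := by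
  simp only [cube, mem_ofPred_eq, not_forall, not_le] at hp
  obtain ⟨i, hi⟩ := hp
  have h2 : |p i| ≤ ‖p‖ := by
    have := PiLp.norm_apply_le p i
    rwa [Real.norm_eq_abs] at this
  have h3 : 1 ≤ Real.pi / h := by
    rw [le_div_iff₀ hh]
    linarith [Real.pi_gt_three]
  nlinarith

theorem c5_k (p : E3) : Integrable fun q => kern (q - p) := kern_isKer.int.comp_sub_right p

theorem c5_k0 (q : E3) : 0 ≤ kern q := kern_isKer.nonneg q

theorem c5_mul {f : E3 → ℝ} (hf : Continuous f) {C : ℝ} (hC : ∀ q, |f q| ≤ C) (p : E3) :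
    Integrable fun q => f q * kern (q - p) :=
  (c5_k p).bdd_mul (c := C) hf.aestronglyMeasurable (Eventually.of_forall fun q => by
    rw [Real.norm_eq_abs]
    exact hC q)

theorem c5_eps {ε : ℝ} (hε : 0 < ε) (p : E3) : Integrable fun q : E3 => 1 / (‖q‖ ^ 2 + ε) * kern (q - p) := by
  have h1 : ∀ q : E3, 0 < ‖q‖ ^ 2 + ε := fun q => by positivity
  refine c5_mul (C := 1 / ε) ?_ (fun q => ?_) p
  · exact continuous_const.div (by fun_prop) fun q => (h1 q).ne'
  · rw [abs_of_nonneg (one_div_nonneg.2 (h1 q).le)]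
    exact one_div_le_one_div_of_le hε (by nlinarith [sq_nonneg ‖q‖])

theorem avg_lower (δ : ℝ) (hδ : 0 < δ) : ∃ h0 > 0, ∀ h ε, 0 < h → h < h0 → 0 < ε → ε < h0 →
    ∀ p : E3, ‖p‖ ≤ 8 →
      kiF (‖p‖ ^ 2) - δ ≤ ∫ p' in cube h, sym h ε p' * kern (p' - p) := by
  obtain ⟨h1, hh1, H1⟩ := tail_small (δ / 2) (by positivity)
  obtain ⟨e1, he1, H2⟩ := mass_small (δ / 2) (by positivity)
  refine ⟨min 1 (min h1 e1), by positivity, fun h ε hh hh0 hε hε0 p hp => ?_⟩
  have hlt1 : h < 1 := hh0.trans_le (min_le_left _ _)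
  have hlt2 : h < h1 := hh0.trans_le ((min_le_right _ _).trans (min_le_left _ _))
  have hlt3 : ε < e1 := hε0.trans_le ((min_le_right _ _).trans (min_le_right _ _))
  have T := H1 h hh hlt2 p hp
  have M := H2 ε hε hlt3 p
  have I0 := conv_inv_int p
  have Ie := c5_eps hε p
  have Is : Integrable fun q : E3 => sym h ε q * kern (q - p) :=
    c5_mul (sym_cont h ε hh hε) (C := 1 / ε) (fun q => by
      rw [abs_of_nonneg (sym_nonneg h ε hh hε q)]
      exact sym_le h ε hh hε q) p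
  -- step 1: the symbol is at least `1 / (‖q‖² + ε)`
  have S1 : ∫ q in cube h, 1 / (‖q‖ ^ 2 + ε) * kern (q - p) ≤ ∫ q in cube h, sym h ε q * kern (q - p) :=
    setIntegral_mono Ie.integrableOn Is.integrableOn fun q =>
      mul_le_mul_of_nonneg_right (sym_ge h ε hh hε q) (c5_k0 _)
  -- step 2: the complement of the cube
  have S2 : ∫ q in (cube h)ᶜ, 1 / (‖q‖ ^ 2 + ε) * kern (q - p) ≤ ∫ q in (cube h)ᶜ, kern (q - p) := by
    refine setIntegral_mono_on Ie.integrableOn (c5_k p).integrableOn (c5_meas h).compl fun q hq => ?_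
    have h2 := c5_out hh hlt1 hq
    have h3 : 1 / (‖q‖ ^ 2 + ε) ≤ 1 := by
      rw [div_le_one (by positivity)]
      linarith
    nlinarith [c5_k0 (q - p)]
  have S3 := integral_add_compl (c5_meas h) Ie
  -- step 3: the mass error
  have S4 : ∫ q : E3, kern (q - p) * (1 / ‖q‖ ^ 2 - 1 / (‖q‖ ^ 2 + ε)) =
      (∫ q : E3, kern (q - p) * (1 / ‖q‖ ^ 2)) - ∫ q : E3, 1 / (‖q‖ ^ 2 + ε) * kern (q - p) := by
    rw [← integral_sub I0 Ie]
    refine integral_congr_ae (Eventually.of_forall fun q => ?_)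
    show kern (q - p) * (1 / ‖q‖ ^ 2 - 1 / (‖q‖ ^ 2 + ε)) = _
    ring
  rw [S4, conv_inv] at M
  linarith

end WEL
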