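import Pool.Agent.WEL.C1

/-!
# WEL C6
Numerical facts on the explicit functions (all exponentials at `x ≥ 64` are tiny: the smallest exponents are
`161/800` and `1288/6561`, `exp(-12) < 10^(-5)` etc.).  Bound the sums termwise with `Fin.sum_univ_eight`.
`conv_rho`, `conv_z`, `conv_gauss`, `conv_gauss_int`, `kern_isKer`: row C1, imported stubs.
For rho_cut: `|∫_{‖q‖≤8} k(q-p) ρ(‖q‖²)| ≤ ∑ |c_j| ∫ k(q-p) exp(-b_j ‖q‖²) = ∑ |c_j| t_j^(-3) exp(-b'_j ‖p‖²)`.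
-/

set_option autoImplicit false

open MeasureTheory Set Filter Topology
open CLR (E3 Z3 lapB)

noncomputable section

namespace WEL

theorem C6_e12 : Real.exp (-12) ≤ 1 / 162000 := by
  have h1 : (162000 : ℝ) ≤ Real.exp 12 := by
    have h2 : Real.exp 12 = Real.exp 1 ^ 12 := by
      rw [← Real.exp_nat_mul]
      norm_num
    rw [h2]
    have h3 := Real.exp_one_gt_d9
    calc (162000 : ℝ) ≤ (2.7182818283 : ℝ) ^ 12 := by norm_num
      _ ≤ Real.exp 1 ^ 12 := pow_le_pow_left₀ (by norm_num) h3.le 12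
  rw [Real.exp_neg, ← one_div]
  exact one_div_le_one_div_of_le (by norm_num) h1

theorem C6_e24 : Real.exp (-24) ≤ (1 / 162000) ^ 2 := by
  have h1 : Real.exp (-24) = Real.exp (-12) ^ 2 := by
    rw [← Real.exp_nat_mul]
    norm_num
  rw [h1]
  exact pow_le_pow_left₀ (Real.exp_pos _).le C6_e12 2

theorem C6_e1288 : Real.exp (-(322 / 25)) ≤ 1 / 304000 := by
  have h1 : Real.exp (-(322 / 25)) = Real.exp (-12) * Real.exp (-(22 / 25)) := by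
    rw [← Real.exp_add]
    norm_num
  have h2 : Real.exp (-(22 / 25)) ≤ 25 / 47 := by
    have h3 : (47 / 25 : ℝ) ≤ Real.exp (22 / 25) := by
      have := Real.add_one_le_exp (22 / 25 : ℝ)
      linarith
    rw [Real.exp_neg]
    refine (inv_anti₀ (by norm_num) h3).trans ?_
    norm_num
  rw [h1]
  calc Real.exp (-12) * Real.exp (-(22 / 25)) ≤ 1 / 162000 * (25 / 47) :=
        mul_le_mul C6_e12 h2 (Real.exp_pos _).le (by norm_num)
    _ ≤ 1 / 304000 := by norm_num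

theorem C6_sum (c E : Fin 8 → ℝ) {E1 E2 : ℝ} (hE : ∀ j, 0 ≤ E j) (h0 : E 0 ≤ E1) (h1 : ∀ j : Fin 7, E j.succ ≤ E2) :
    |∑ j, c j * E j| ≤ |c 0| * E1 + (∑ j : Fin 7, |c j.succ|) * E2 := by
  refine (Finset.abs_sum_le_sum_abs _ _).trans ?_
  rw [Fin.sum_univ_succ, Finset.sum_mul]
  refine add_le_add ?_ (Finset.sum_le_sum fun j _ => ?_)
  · rw [abs_mul, abs_of_nonneg (hE 0)]
    exact mul_le_mul_of_nonneg_left h0 (abs_nonneg _)
  · rw [abs_mul, abs_of_nonneg (hE _)]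
    exact mul_le_mul_of_nonneg_left (h1 j) (abs_nonneg _)

theorem C6_b0 : ((bq 0 : ℚ) : ℝ) = 161 / 800 := by
  have h : bq 0 = 161 / 800 := by
    unfold bq tq
    simp only [Matrix.cons_val_zero]
    norm_num
  rw [h]
  norm_num

theorem C6_b1 (j : Fin 7) : (81 / 200 : ℚ) ≤ bq j.succ := by
  fin_cases j <;> simp [bq, tq] <;> norm_num

theorem C6_bnn (j : Fin 8) : (0 : ℝ) ≤ ((bq j : ℚ) : ℝ) := by
  have h : (0 : ℚ) ≤ bq j := by
    fin_cases j <;> simp [bq, tq] <;> norm_num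
  exact_mod_cast h

theorem C6_c : |((cq 0 : ℚ) : ℝ)| = 49 / 200 ∧ ∑ j : Fin 7, |((cq j.succ : ℚ) : ℝ)| = 20857 / 1000 := by
  constructor
  · have h : cq 0 = -245 / 1000 := rfl
    rw [h]
    norm_num [abs_of_neg]
  · have h : ∑ j : Fin 7, |cq j.succ| = 20857 / 1000 := by
      decide +kernel
    have h2 := congrArg (fun q : ℚ => (q : ℝ)) h
    push_cast at h2
    exact h2

theorem C6_d : |((dq 0 : ℚ) : ℝ)| = 189 ∧ ∑ j : Fin 7, |((dq j.succ : ℚ) : ℝ)| = 6149 := by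
  constructor
  · have h : dq 0 = 189 := rfl
    rw [h]
    norm_num
  · have h : ∑ j : Fin 7, |dq j.succ| = 6149 := by
      decide +kernel
    have h2 := congrArg (fun q : ℚ => (q : ℝ)) h
    push_cast at h2
    exact h2

theorem C6_tail (c : Fin 8 → ℝ) {x : ℝ} (hx : 64 ≤ x) :
    |∑ j, c j * Real.exp (-(((bq j : ℚ) : ℝ) * x))| ≤ |c 0| * (1 / 304000) + (∑ j : Fin 7, |c j.succ|) * (1 / 162000) ^ 2 := by
  refine C6_sum c _ (fun j => (Real.exp_pos _).le) ?_ fun j => ?_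
  · refine (Real.exp_le_exp.2 ?_).trans C6_e1288
    rw [C6_b0]
    linarith
  · refine (Real.exp_le_exp.2 ?_).trans C6_e24
    have h1 : (81 / 200 : ℝ) ≤ ((bq j.succ : ℚ) : ℝ) := by
      have := C6_b1 j
      have h2 : (((81 / 200 : ℚ)) : ℝ) ≤ ((bq j.succ : ℚ) : ℝ) := by exact_mod_cast this
      norm_num at h2 ⊢
      exact h2
    nlinarith

theorem C6_bdd (c : Fin 8 → ℝ) {x : ℝ} (hx : 0 ≤ x) :
    |∑ j, c j * Real.exp (-(((bq j : ℚ) : ℝ) * x))| ≤ |c 0| * 1 + (∑ j : Fin 7, |c j.succ|) * 1 := by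
  have h : ∀ j, Real.exp (-(((bq j : ℚ) : ℝ) * x)) ≤ 1 := by
    intro j
    rw [Real.exp_le_one_iff]
    have := mul_nonneg (C6_bnn j) hx
    linarith
  exact C6_sum c _ (fun j => (Real.exp_pos _).le) (h 0) fun j => h _

/-- the exponents after averaging -/
theorem C6_b' : 12 ≤ bq 0 / (1 + bq 0 / 8) * 64 ∧ ∀ j : Fin 7, 24 ≤ bq j.succ / (1 + bq j.succ / 8) * 64 := by
  constructor
  · decide +kernel
  · decide +kernel

theorem C6_avg (c : Fin 8 → ℝ) (p : E3) (hp : 8 ≤ ‖p‖) :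
    Integrable (fun q => kern (q - p) * ∑ j, |c j| * Real.exp (-(((bq j : ℚ) : ℝ) * ‖q‖ ^ 2))) ∧
    ∫ q, kern (q - p) * ∑ j, |c j| * Real.exp (-(((bq j : ℚ) : ℝ) * ‖q‖ ^ 2)) ≤
      |c 0| * (1 / 162000) + (∑ j : Fin 7, |c j.succ|) * (1 / 162000) ^ 2 := by
  have hI : ∀ j ∈ (Finset.univ : Finset (Fin 8)), Integrable (fun q => |c j| * (kern (q - p) * Real.exp (-(((bq j : ℚ) : ℝ) * ‖q‖ ^ 2)))) :=
    fun j _ => (conv_gauss_int _ (C6_bnn j) p).const_mul _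
  have he : (fun q => kern (q - p) * ∑ j, |c j| * Real.exp (-(((bq j : ℚ) : ℝ) * ‖q‖ ^ 2))) =
      fun q => ∑ j, |c j| * (kern (q - p) * Real.exp (-(((bq j : ℚ) : ℝ) * ‖q‖ ^ 2))) := by
    funext q
    rw [Finset.mul_sum]
    exact Finset.sum_congr rfl fun j _ => by ring
  rw [he]
  refine ⟨integrable_finsetSum _ hI, ?_⟩
  rw [integral_finsetSum _ hI]
  have h1 : ∀ j, ∫ q, |c j| * (kern (q - p) * Real.exp (-(((bq j : ℚ) : ℝ) * ‖q‖ ^ 2))) ≤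
      |c j| * Real.exp (-(((bq j : ℚ) : ℝ) / (1 + ((bq j : ℚ) : ℝ) / 8) * ‖p‖ ^ 2)) := by
    intro j
    rw [integral_const_mul, conv_gauss _ (C6_bnn j) p]
    refine mul_le_mul_of_nonneg_left ?_ (abs_nonneg _)
    refine mul_le_of_le_one_left (Real.exp_pos _).le ?_
    exact Real.rpow_le_one_of_one_le_of_nonpos (by linarith [C6_bnn j]) (by norm_num)
  have hp2 : (64 : ℝ) ≤ ‖p‖ ^ 2 := by nlinarith
  have h2 : ∀ (j : Fin 8) (y : ℚ), y ≤ bq j / (1 + bq j / 8) * 64 →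
      Real.exp (-(((bq j : ℚ) : ℝ) / (1 + ((bq j : ℚ) : ℝ) / 8) * ‖p‖ ^ 2)) ≤ Real.exp (-(y : ℝ)) := by
    intro j y hy
    refine Real.exp_le_exp.2 (neg_le_neg ?_)
    have h3 : (y : ℝ) ≤ ((bq j : ℚ) : ℝ) / (1 + ((bq j : ℚ) : ℝ) / 8) * 64 := by exact_mod_cast hy
    refine h3.trans (mul_le_mul_of_nonneg_left hp2 ?_)
    have := C6_bnn j
    positivity
  refine (Finset.sum_le_sum fun j _ => h1 j).trans ?_
  refine (le_abs_self _).trans ?_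
  have h4 := C6_sum (fun j => |c j|) (fun j => Real.exp (-(((bq j : ℚ) : ℝ) / (1 + ((bq j : ℚ) : ℝ) / 8) * ‖p‖ ^ 2)))
    (E1 := 1 / 162000) (E2 := (1 / 162000) ^ 2) (fun j => (Real.exp_pos _).le)
    ((h2 0 12 C6_b'.1).trans (by have := C6_e12; norm_num at this ⊢; exact this))
    (fun j => (h2 j.succ 24 (C6_b'.2 j)).trans (by have := C6_e24; norm_num at this ⊢; exact this))
  simp only [abs_abs] at h4
  exact h4

theorem zF_far (x : ℝ) (hx : 64 ≤ x) : 999 / 1000 ≤ zF x ∧ zF x ≤ 1001 / 1000 := by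
  obtain ⟨h1, h2⟩ := C6_d
  have h3 := C6_tail (fun j => ((dq j : ℚ) : ℝ)) hx
  rw [h1, h2] at h3
  have h4 := abs_le.1 h3
  unfold zF
  constructor
  · have := h4.1
    norm_num at this ⊢
    linarith
  · have := h4.2
    norm_num at this ⊢
    linarith

theorem zF_bdd (x : ℝ) (hx : 0 ≤ x) : |zF x| ≤ 10000 := by
  obtain ⟨h1, h2⟩ := C6_d
  have h3 := C6_bdd (fun j => ((dq j : ℚ) : ℝ)) hx
  rw [h1, h2] at h3
  unfold zF
  refine (abs_add_le _ _).trans ?_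
  rw [abs_one]
  linarith

theorem rhoF_bdd (x : ℝ) (hx : 0 ≤ x) : |rhoF x| ≤ 30 := by
  obtain ⟨h1, h2⟩ := C6_c
  have h3 := C6_bdd (fun j => ((cq j : ℚ) : ℝ)) hx
  rw [h1, h2] at h3
  unfold rhoF
  linarith

theorem rhoF_tail (x : ℝ) (hx : 64 ≤ x) : |rhoF x| ≤ 1 / 10 ^ 6 := by
  obtain ⟨h1, h2⟩ := C6_c
  have h3 := C6_tail (fun j => ((cq j : ℚ) : ℝ)) hx
  rw [h1, h2] at h3
  unfold rhoF
  refine h3.trans ?_
  norm_num

/-- average of `|z - 1|` far out -/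
theorem z_avg_far (p : E3) (hp : 8 ≤ ‖p‖) : ∫ q, kern (q - p) * |zF (‖q‖ ^ 2) - 1| ≤ 1 / 500 := by
  obtain ⟨h1, h2⟩ := C6_d
  obtain ⟨h3, h4⟩ := C6_avg (fun j => ((dq j : ℚ) : ℝ)) p hp
  rw [h1, h2] at h4
  have hb : ∀ q : E3, |zF (‖q‖ ^ 2) - 1| ≤ ∑ j, |((dq j : ℚ) : ℝ)| * Real.exp (-(((bq j : ℚ) : ℝ) * ‖q‖ ^ 2)) := by
    intro q
    have : zF (‖q‖ ^ 2) - 1 = ∑ j, ((dq j : ℚ) : ℝ) * Real.exp (-(((bq j : ℚ) : ℝ) * ‖q‖ ^ 2)) := by
      unfold zF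
      ring
    rw [this]
    refine (Finset.abs_sum_le_sum_abs _ _).trans (le_of_eq (Finset.sum_congr rfl fun j _ => ?_))
    rw [abs_mul, abs_of_pos (Real.exp_pos _)]
  have hk := kern_isKer.nonneg
  have h5 : ∫ q, kern (q - p) * |zF (‖q‖ ^ 2) - 1| ≤
      ∫ q, kern (q - p) * ∑ j, |((dq j : ℚ) : ℝ)| * Real.exp (-(((bq j : ℚ) : ℝ) * ‖q‖ ^ 2)) := by
    refine integral_mono_of_nonneg (Eventually.of_forall fun q => mul_nonneg (hk _) (abs_nonneg _)) h3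
      (Eventually.of_forall fun q => mul_le_mul_of_nonneg_left (hb q) (hk _))
  refine h5.trans (h4.trans ?_)
  norm_num

theorem rho_cut_far (p : E3) (hp : 8 ≤ ‖p‖) :
    |∫ q in {q : E3 | ‖q‖ ≤ 8}, kern (q - p) * rhoF (‖q‖ ^ 2)| ≤ 1 / 1000 := by
  obtain ⟨h1, h2⟩ := C6_c
  obtain ⟨h3, h4⟩ := C6_avg (fun j => ((cq j : ℚ) : ℝ)) p hp
  rw [h1, h2] at h4
  have hb : ∀ q : E3, |rhoF (‖q‖ ^ 2)| ≤ ∑ j, |((cq j : ℚ) : ℝ)| * Real.exp (-(((bq j : ℚ) : ℝ) * ‖q‖ ^ 2)) := by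
    intro q
    unfold rhoF
    refine (Finset.abs_sum_le_sum_abs _ _).trans (le_of_eq (Finset.sum_congr rfl fun j _ => ?_))
    rw [abs_mul, abs_of_pos (Real.exp_pos _)]
  have hk := kern_isKer.nonneg
  have h5 : ‖∫ q in {q : E3 | ‖q‖ ≤ 8}, kern (q - p) * rhoF (‖q‖ ^ 2)‖ ≤
      ∫ q in {q : E3 | ‖q‖ ≤ 8}, kern (q - p) * ∑ j, |((cq j : ℚ) : ℝ)| * Real.exp (-(((bq j : ℚ) : ℝ) * ‖q‖ ^ 2)) := by
    refine norm_integral_le_of_norm_le h3.integrableOn (Eventually.of_forall fun q => ?_)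
    rw [norm_mul, Real.norm_of_nonneg (hk _), Real.norm_eq_abs]
    exact mul_le_mul_of_nonneg_left (hb q) (hk _)
  have h6 : ∫ q in {q : E3 | ‖q‖ ≤ 8}, kern (q - p) * ∑ j, |((cq j : ℚ) : ℝ)| * Real.exp (-(((bq j : ℚ) : ℝ) * ‖q‖ ^ 2)) ≤
      ∫ q, kern (q - p) * ∑ j, |((cq j : ℚ) : ℝ)| * Real.exp (-(((bq j : ℚ) : ℝ) * ‖q‖ ^ 2)) :=
    setIntegral_le_integral h3 (Eventually.of_forall fun q => mul_nonneg (hk _)
      (Finset.sum_nonneg fun j _ => mul_nonneg (abs_nonneg _) (Real.exp_pos _).le))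
  rw [Real.norm_eq_abs] at h5
  refine h5.trans (h6.trans (h4.trans ?_))
  norm_num

end WEL
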