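import Pool.Agent.WEL.C1
import Pool.Agent.WEL.C3
import Pool.Agent.WEL.C6
import Pool.Agent.WEL.A4

/-!
# WEL C7
The Hardy weight.  Inside: `∫_D k (1 - z'/z) = ∫_D k - (∫_D k z')/z ≥ (1 - tail) - kzF/z` since `z' ≥ 0`.
Outside: `≥ -(∫ k |z'-1| + |z-1|)/z`, with `z_avg_far`, `zF_far`.  Hypothesis `hz` (positivity on [0,8]) comes from the numerical
part.  (rows C1, C3, C6: copy statements with sorry until delivered.)
-/

set_option autoImplicit false

open MeasureTheory Set Filter Topology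
open CLR (E3 Z3 lapB)

noncomputable section

namespace WEL

theorem C7_kint (p : E3) : Integrable fun q => kern (q - p) :=
  kern_isKer.int.comp_sub_right p

theorem C7_mass (p : E3) : ∫ q, kern (q - p) = 1 := by
  rw [integral_sub_right_eq_self]
  exact kern_isKer.mass

theorem C7_zcont : Continuous fun q : E3 => zF (‖q‖ ^ 2) := by
  unfold zF
  fun_prop

theorem C7_zint (p : E3) : Integrable fun q => kern (q - p) * zF (‖q‖ ^ 2) :=
  (C7_kint p).mul_bdd (c := 10000) C7_zcont.aestronglyMeasurable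
    (Eventually.of_forall fun q => by
      rw [Real.norm_eq_abs]
      exact zF_bdd _ (sq_nonneg _))

theorem C7_zint1 (p : E3) : Integrable fun q => kern (q - p) * |zF (‖q‖ ^ 2) - 1| :=
  (C7_kint p).mul_bdd (c := 10001)
    ((C7_zcont.sub continuous_const).abs).aestronglyMeasurable
    (Eventually.of_forall fun q => by
      rw [Real.norm_eq_abs, abs_abs]
      have h1 := abs_sub (zF (‖q‖ ^ 2)) 1
      have h2 := zF_bdd (‖q‖ ^ 2) (sq_nonneg _)
      rw [abs_one] at h1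
      linarith)

theorem hardy_in (hz : ∀ t : ℝ, 0 ≤ t → t ≤ 8 → 1 / 2 ≤ zF (t ^ 2)) :
    ∃ h0 > 0, ∀ h, 0 < h → h < h0 → ∀ p : E3, ‖p‖ ≤ 8 → ∀ H : ℝ,
      kzF (‖p‖ ^ 2) ≤ (1 - H - 1 / 10 ^ 6) * zF (‖p‖ ^ 2) →
      H ≤ ∫ p' in cube h, kern (p' - p) * (1 - zF (‖p'‖ ^ 2) / zF (‖p‖ ^ 2)) := by
  obtain ⟨h0, hh0, htail⟩ := tail_small (1 / 10 ^ 6) (by norm_num)
  refine ⟨h0, hh0, fun h hh hhh p hp H hH => ?_⟩
  have hz0 : ∀ q : E3, 0 ≤ zF (‖q‖ ^ 2) := by
    intro q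
    rcases le_total ‖q‖ 8 with h8 | h8
    · have := hz ‖q‖ (norm_nonneg _) h8
      linarith
    · have := (zF_far (‖q‖ ^ 2) (by nlinarith)).1
      linarith
  have hzp : 1 / 2 ≤ zF (‖p‖ ^ 2) := hz _ (norm_nonneg _) hp
  have hzp0 : 0 < zF (‖p‖ ^ 2) := by linarith
  have hexp : ∫ p' in cube h, kern (p' - p) * (1 - zF (‖p'‖ ^ 2) / zF (‖p‖ ^ 2)) =
      (∫ p' in cube h, kern (p' - p)) -
        (∫ p' in cube h, kern (p' - p) * zF (‖p'‖ ^ 2)) / zF (‖p‖ ^ 2) := by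
    rw [← integral_div, ← integral_sub]
    · congr 1
      funext q
      ring
    · exact (C7_kint p).integrableOn
    · exact ((C7_zint p).div_const _).integrableOn
  have h1 := integral_add_compl (A4_meas h) (C7_kint p)
  rw [C7_mass] at h1
  have h2 := htail h hh hhh p hp
  have h3 : ∫ p' in cube h, kern (p' - p) * zF (‖p'‖ ^ 2) ≤ kzF (‖p‖ ^ 2) := by
    rw [← conv_z p]
    refine setIntegral_le_integral (C7_zint p) (Eventually.of_forall fun q => ?_)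
    exact mul_nonneg (kern_isKer.nonneg _) (hz0 q)
  have h4 : (∫ p' in cube h, kern (p' - p) * zF (‖p'‖ ^ 2)) / zF (‖p‖ ^ 2) ≤
      1 - H - 1 / 10 ^ 6 := by
    rw [div_le_iff₀ hzp0]
    exact h3.trans hH
  rw [hexp]
  linarith

theorem hardy_out (D : Set E3) (hD : MeasurableSet D) (p : E3) (hp : 8 ≤ ‖p‖) :
    -(1 / 100 : ℝ) ≤ ∫ p' in D, kern (p' - p) * (1 - zF (‖p'‖ ^ 2) / zF (‖p‖ ^ 2)) := by
  obtain ⟨hz1, hz2⟩ := zF_far (‖p‖ ^ 2) (by nlinarith)
  have hzp0 : 0 < zF (‖p‖ ^ 2) := by linarith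
  have hpt : ∀ q : E3, -((1 / 999 : ℝ) * kern (q - p) +
      (1000 / 999) * (kern (q - p) * |zF (‖q‖ ^ 2) - 1|)) ≤
      kern (q - p) * (1 - zF (‖q‖ ^ 2) / zF (‖p‖ ^ 2)) := by
    intro q
    have hk := kern_isKer.nonneg (q - p)
    have h1 : -(1 / 999 + (1000 / 999) * |zF (‖q‖ ^ 2) - 1|) ≤
        1 - zF (‖q‖ ^ 2) / zF (‖p‖ ^ 2) := by
      have h2 : zF (‖q‖ ^ 2) ≤ 1 + |zF (‖q‖ ^ 2) - 1| := by
        have := le_abs_self (zF (‖q‖ ^ 2) - 1)
        linarith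
      have h3 : zF (‖q‖ ^ 2) / zF (‖p‖ ^ 2) ≤ (1 + |zF (‖q‖ ^ 2) - 1|) * (1000 / 999) := by
        rw [div_le_iff₀ hzp0]
        have h4 : 0 ≤ |zF (‖q‖ ^ 2) - 1| := abs_nonneg _
        nlinarith
      linarith
    calc _ = kern (q - p) * -(1 / 999 + (1000 / 999) * |zF (‖q‖ ^ 2) - 1|) := by ring
      _ ≤ _ := mul_le_mul_of_nonneg_left h1 hk
  have hint : Integrable (fun q => (1 / 999 : ℝ) * kern (q - p) +
      (1000 / 999) * (kern (q - p) * |zF (‖q‖ ^ 2) - 1|)) :=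
    ((C7_kint p).const_mul _).add ((C7_zint1 p).const_mul _)
  have hint2 : Integrable (fun q => kern (q - p) * (1 - zF (‖q‖ ^ 2) / zF (‖p‖ ^ 2))) := by
    have h5 := (C7_kint p).sub ((C7_zint p).div_const (zF (‖p‖ ^ 2)))
    refine h5.congr (Eventually.of_forall fun q => ?_)
    simp only [Pi.sub_apply]
    ring
  have h6 : ∫ q in D, ((1 / 999 : ℝ) * kern (q - p) +
      (1000 / 999) * (kern (q - p) * |zF (‖q‖ ^ 2) - 1|)) ≤
      ∫ q, ((1 / 999 : ℝ) * kern (q - p) +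
      (1000 / 999) * (kern (q - p) * |zF (‖q‖ ^ 2) - 1|)) := by
    refine setIntegral_le_integral hint (Eventually.of_forall fun q => ?_)
    have hk := kern_isKer.nonneg (q - p)
    simp only [Pi.zero_apply]
    positivity
  have h7 : ∫ q, ((1 / 999 : ℝ) * kern (q - p) +
      (1000 / 999) * (kern (q - p) * |zF (‖q‖ ^ 2) - 1|)) ≤
      1 / 999 + 1000 / 999 * (1 / 500) := by
    rw [integral_add ((C7_kint p).const_mul _) ((C7_zint1 p).const_mul _), integral_const_mul,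
      integral_const_mul, C7_mass]
    have := z_avg_far p hp
    linarith
  have h8 : ∫ q in D, -((1 / 999 : ℝ) * kern (q - p) +
      (1000 / 999) * (kern (q - p) * |zF (‖q‖ ^ 2) - 1|)) ≤
      ∫ q in D, kern (q - p) * (1 - zF (‖q‖ ^ 2) / zF (‖p‖ ^ 2)) :=
    setIntegral_mono hint.neg.integrableOn hint2.integrableOn hpt
  rw [integral_neg] at h8
  linarith

end WEL
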