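import Pool.Agent.WEL.C1
import Pool.Agent.WEL.C3
import Pool.Agent.WEL.C6
import Pool.Agent.WEL.A4

/-!
# WEL C8
Bounds for `RD`, `r0 p = if ‖p‖ ≤ 8 then rhoF (‖p‖²) else 0`.  Inside (`‖p‖ ≤ 8`, `h` small so that the ball of radius 8 is in
the cube): `RD = ρ (1 - tail) - (kρ - ∫_{‖p'‖>8} k ρ')`.  Outside: `RD = -∫_{‖p'‖≤8} k ρ'` (if the ball is in the cube).
(rows C1, C3, C6 are imported.)
-/

set_option autoImplicit false

open MeasureTheory Set Filter Topology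
open CLR (E3 Z3 lapB)

noncomputable section

namespace WEL

theorem C8_ker (p : E3) : Integrable fun q => kern (q - p) := kern_isKer.int.comp_sub_right p

theorem C8_mass (p : E3) : ∫ q, kern (q - p) = 1 := by
  rw [integral_sub_right_eq_self (fun q => kern q) p]
  exact kern_isKer.mass

theorem C8_cont : Continuous fun q : E3 => rhoF (‖q‖ ^ 2) := by
  unfold rhoF
  fun_prop

theorem C8_int (p : E3) : Integrable fun q => kern (q - p) * rhoF (‖q‖ ^ 2) :=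
  (C8_ker p).mul_bdd (c := 30) C8_cont.aestronglyMeasurable
    (Eventually.of_forall fun q => by rw [Real.norm_eq_abs]; exact rhoF_bdd _ (by positivity))

theorem C8_sub {h : ℝ} (hh : 0 < h) (h8 : h ≤ Real.pi / 8) {q : E3} (hq : ‖q‖ ≤ 8) : q ∈ cube h := by
  intro i
  have h1 : |q i| ≤ ‖q‖ := by
    have := PiLp.norm_apply_le q i
    rwa [Real.norm_eq_abs] at this
  have h2 : (8 : ℝ) ≤ Real.pi / h := by
    rw [le_div_iff₀ hh]
    linarith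
  linarith

theorem C8_ball : MeasurableSet {q : E3 | ‖q‖ ≤ 8} := (isClosed_le continuous_norm continuous_const).measurableSet

/-- the cut off part -/
theorem C8_cut {h : ℝ} (hh : 0 < h) (h8 : h ≤ Real.pi / 8) (p : E3) :
    ∫ q in cube h, kern (q - p) * (if ‖q‖ ≤ 8 then rhoF (‖q‖ ^ 2) else 0) =
      ∫ q in {q : E3 | ‖q‖ ≤ 8}, kern (q - p) * rhoF (‖q‖ ^ 2) := by
  have e1 : (fun q : E3 => kern (q - p) * (if ‖q‖ ≤ 8 then rhoF (‖q‖ ^ 2) else 0)) =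
      ({q : E3 | ‖q‖ ≤ 8}).indicator fun q => kern (q - p) * rhoF (‖q‖ ^ 2) := by
    funext q
    by_cases hq : ‖q‖ ≤ 8
    · rw [Set.indicator_of_mem (show q ∈ {q : E3 | ‖q‖ ≤ 8} from hq), if_pos hq]
    · rw [Set.indicator_of_notMem (show q ∉ {q : E3 | ‖q‖ ≤ 8} from hq), if_neg hq, mul_zero]
  rw [e1, setIntegral_indicator C8_ball]
  have e2 : cube h ∩ {q : E3 | ‖q‖ ≤ 8} = {q : E3 | ‖q‖ ≤ 8} :=
    Set.inter_eq_right.2 fun q hq => C8_sub hh h8 hq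
  rw [e2]

theorem C8_cutint {h : ℝ} (p : E3) :
    Integrable (fun q => kern (q - p) * (if ‖q‖ ≤ 8 then rhoF (‖q‖ ^ 2) else 0)) (volume.restrict (cube h)) := by
  have e1 : (fun q : E3 => kern (q - p) * (if ‖q‖ ≤ 8 then rhoF (‖q‖ ^ 2) else 0)) =
      ({q : E3 | ‖q‖ ≤ 8}).indicator fun q => kern (q - p) * rhoF (‖q‖ ^ 2) := by
    funext q
    by_cases hq : ‖q‖ ≤ 8
    · rw [Set.indicator_of_mem (show q ∈ {q : E3 | ‖q‖ ≤ 8} from hq), if_pos hq]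
    · rw [Set.indicator_of_notMem (show q ∉ {q : E3 | ‖q‖ ≤ 8} from hq), if_neg hq, mul_zero]
  rw [e1]
  exact ((C8_int p).indicator C8_ball).integrableOn

/-- the part outside of the ball -/
theorem C8_outer (p : E3) : |∫ q in {q : E3 | ‖q‖ ≤ 8}ᶜ, kern (q - p) * rhoF (‖q‖ ^ 2)| ≤ 1 / 10 ^ 6 := by
  have h1 : ‖∫ q in {q : E3 | ‖q‖ ≤ 8}ᶜ, kern (q - p) * rhoF (‖q‖ ^ 2)‖ ≤
      ∫ q in {q : E3 | ‖q‖ ≤ 8}ᶜ, kern (q - p) * (1 / 10 ^ 6) := by
    refine norm_integral_le_of_norm_le (((C8_ker p).mul_const _).integrableOn) ?_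
    refine (ae_restrict_iff' C8_ball.compl).2 (Eventually.of_forall fun q hq => ?_)
    have hq' : 8 < ‖q‖ := not_le.1 hq
    rw [norm_mul, Real.norm_of_nonneg (kern_isKer.nonneg _), Real.norm_eq_abs]
    exact mul_le_mul_of_nonneg_left (rhoF_tail _ (by nlinarith)) (kern_isKer.nonneg _)
  rw [Real.norm_eq_abs] at h1
  refine h1.trans ?_
  rw [integral_mul_const]
  have h2 : ∫ q in {q : E3 | ‖q‖ ≤ 8}ᶜ, kern (q - p) ≤ 1 := by
    rw [← C8_mass p]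
    exact setIntegral_le_integral (C8_ker p) (Eventually.of_forall fun q => kern_isKer.nonneg _)
  calc (∫ q in {q : E3 | ‖q‖ ≤ 8}ᶜ, kern (q - p)) * (1 / 10 ^ 6) ≤ 1 * (1 / 10 ^ 6) :=
        mul_le_mul_of_nonneg_right h2 (by positivity)
    _ = 1 / 10 ^ 6 := one_mul _

theorem RD_in (δ : ℝ) (hδ : 0 < δ) : ∃ h0 > 0, ∀ h, 0 < h → h < h0 → ∀ p : E3, ‖p‖ ≤ 8 →
    |RD (cube h) kern (fun q => if ‖q‖ ≤ 8 then rhoF (‖q‖ ^ 2) else 0) p
      - (rhoF (‖p‖ ^ 2) - krhoF (‖p‖ ^ 2))| ≤ 1 / 10 ^ 6 + δ := by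
  obtain ⟨h1, hh1, ht⟩ := tail_small (δ / 30) (by positivity)
  refine ⟨min h1 (Real.pi / 8), lt_min hh1 (by positivity), ?_⟩
  intro h hh hlt p hp
  have hl1 : h < h1 := hlt.trans_le (min_le_left _ _)
  have hl2 : h ≤ Real.pi / 8 := hlt.le.trans (min_le_right _ _)
  have hT := ht h hh hl1 p hp
  have hT0 : 0 ≤ ∫ q in (cube h)ᶜ, kern (q - p) :=
    setIntegral_nonneg (A4_meas h).compl fun q _ => kern_isKer.nonneg _
  have hsplit1 := integral_add_compl (A4_meas h) (C8_ker p)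
  rw [C8_mass] at hsplit1
  have hsplit2 := integral_add_compl C8_ball (C8_int p)
  rw [conv_rho] at hsplit2
  have hR : RD (cube h) kern (fun q => if ‖q‖ ≤ 8 then rhoF (‖q‖ ^ 2) else 0) p =
      rhoF (‖p‖ ^ 2) * (∫ q in cube h, kern (q - p)) - ∫ q in {q : E3 | ‖q‖ ≤ 8}, kern (q - p) * rhoF (‖q‖ ^ 2) := by
    rw [← C8_cut hh hl2 p, ← integral_const_mul,
      ← integral_sub ((C8_ker p).const_mul _).integrableOn (C8_cutint p)]
    unfold RD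
    refine integral_congr_ae (Eventually.of_forall fun q => ?_)
    simp only [if_pos hp]
    ring
  rw [hR]
  have hρ := rhoF_bdd (‖p‖ ^ 2) (by positivity)
  have hE := C8_outer p
  have e : rhoF (‖p‖ ^ 2) * (∫ q in cube h, kern (q - p)) - (∫ q in {q : E3 | ‖q‖ ≤ 8}, kern (q - p) * rhoF (‖q‖ ^ 2)) -
      (rhoF (‖p‖ ^ 2) - krhoF (‖p‖ ^ 2)) = (∫ q in {q : E3 | ‖q‖ ≤ 8}ᶜ, kern (q - p) * rhoF (‖q‖ ^ 2)) -
      rhoF (‖p‖ ^ 2) * ∫ q in (cube h)ᶜ, kern (q - p) := by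
    linear_combination (rhoF (‖p‖ ^ 2)) * hsplit1 - hsplit2
  rw [e]
  refine (abs_sub _ _).trans (add_le_add hE ?_)
  rw [abs_mul, abs_of_nonneg hT0]
  calc |rhoF (‖p‖ ^ 2)| * (∫ q in (cube h)ᶜ, kern (q - p)) ≤ 30 * (δ / 30) := mul_le_mul hρ hT hT0 (by norm_num)
    _ = δ := by ring

theorem RD_out : ∃ h0 > 0, ∀ h, 0 < h → h < h0 → ∀ p : E3, 8 < ‖p‖ →
    |RD (cube h) kern (fun q => if ‖q‖ ≤ 8 then rhoF (‖q‖ ^ 2) else 0) p| ≤ 1 / 1000 := by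
  refine ⟨Real.pi / 8, by positivity, ?_⟩
  intro h hh hlt p hp
  have hR : RD (cube h) kern (fun q => if ‖q‖ ≤ 8 then rhoF (‖q‖ ^ 2) else 0) p =
      - ∫ q in {q : E3 | ‖q‖ ≤ 8}, kern (q - p) * rhoF (‖q‖ ^ 2) := by
    rw [← C8_cut hh hlt.le p, ← integral_neg]
    unfold RD
    refine integral_congr_ae (Eventually.of_forall fun q => ?_)
    simp only [if_neg (not_le.2 hp)]
    ring
  rw [hR, abs_neg]
  exact rho_cut_far p hp.le

end WEL
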