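import Pool.Agent.WEL.A4
import Pool.Agent.WEL.C1
import Pool.Agent.WEL.C4
import Pool.Agent.WEL.C5
import Pool.Agent.WEL.C6
import Pool.Agent.WEL.C7
import Pool.Agent.WEL.C8

/-!
# WEL C9
Assembly of block C from the numerical statement `numD` (row N, helper94) and C1-C8 (imported stubs).  Take `z p = zF (‖p‖²)`, `r0 p = if ‖p‖ ≤ 8 then rhoF (‖p‖²) else 0`, `HbE p = if ‖p‖ ≤ 8 then Hb ‖p‖ else -1/100`,
`τE p = if ‖p‖ ≤ 8 then τ ‖p‖ else 0`.  Inside (p ≠ 0): `FD ≤ Fn (Hb,τ,‖p‖²) + 10^(-5) + δ' (1 + 1/‖p‖²)` (max is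
1-Lipschitz; errors of `RD`: `32/5 * (10^(-6)+δ')` and `16/5 * |ρ| * (10^(-6)+δ')` with `|ρ| ≤ 11/10`).
Outside `8 < ‖p‖`, `p ∈ cube h`: `FD ≤ 0`, because
`(π²/4/64 - 47/200)/(153/200) + 16/5/(153/200) * π²/4/64 + 16/5/100 + 32/5/1000 < 0` and `r0 = τ = 0`.
Integral: `∫_{‖p‖≤8} G(‖p‖)/‖p‖² dp = 4π ∫_0^8 G` (`MeasureTheory.integral_fun_norm_addHaar`), `4π * 1.5312 < 19.2419`,
`10^(-5) * vol(B_8) < 0.0215`.
-/

set_option autoImplicit false

open MeasureTheory Set Filter Topology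
open CLR (E3 Z3 lapB)

noncomputable section

namespace WEL

theorem C9_alg_in (s I K xi R ρ kρ H T d : ℝ) (hd : 0 ≤ d) (hxi : 0 ≤ xi) (hs : s ≤ (1 + d) * xi)
    (hI : K - d ≤ I) (hR : |R - (ρ - kρ)| ≤ 1 / 10 ^ 6 + d) (hρ : |ρ| ≤ 11 / 10) :
    max 0 ((s - 47 / 200) / (1 - 47 / 200) + 2 * (8 / 5) / (1 - 47 / 200) * (s - I) - T ^ 2
        - 2 * (8 / 5) * H + 4 * (8 / 5) * H * ρ - 4 * (8 / 5) * R)
      + T ^ 2 - 2 * (8 / 5) * H * ρ ^ 2 + 2 * (8 / 5) * ρ * R ≤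
    max 0 ((xi - 47 / 200) / (153 / 200) + 16 / 5 / (153 / 200) * (xi - K) - T ^ 2
      - 16 / 5 * H + 32 / 5 * H * ρ - 32 / 5 * (ρ - kρ))
    + T ^ 2 - 16 / 5 * H * ρ ^ 2 + 16 / 5 * ρ * (ρ - kρ) + (1 / 10 ^ 5 + 16 * d + 16 * d * xi) := by
  have hdx : 0 ≤ d * xi := mul_nonneg hd hxi
  have h1 : |ρ * (R - (ρ - kρ))| ≤ 11 / 10 * (1 / 10 ^ 6 + d) := by
    rw [abs_mul]
    exact mul_le_mul hρ hR (abs_nonneg _) (by norm_num)
  have h2 := (abs_le.1 h1).2
  have h3 := (abs_le.1 hR).1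
  obtain ⟨B, hB⟩ : ∃ B : ℝ, B = (xi - 47 / 200) / (153 / 200) + 16 / 5 / (153 / 200) * (xi - K) - T ^ 2
      - 16 / 5 * H + 32 / 5 * H * ρ - 32 / 5 * (ρ - kρ) := ⟨_, rfl⟩
  rw [← hB]
  obtain ⟨A, hA⟩ : ∃ A : ℝ, A = (s - 47 / 200) / (1 - 47 / 200) + 2 * (8 / 5) / (1 - 47 / 200) * (s - I) - T ^ 2
        - 2 * (8 / 5) * H + 4 * (8 / 5) * H * ρ - 4 * (8 / 5) * R := ⟨_, rfl⟩
  rw [← hA]
  have h4 : A ≤ B + (200 / 153 * (d * xi) + 640 / 153 * (d * xi + d) + 32 / 5 * (1 / 10 ^ 6 + d)) := by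
    rw [hA, hB]
    norm_num
    nlinarith
  have h5 : max 0 A ≤ max 0 B + (200 / 153 * (d * xi) + 640 / 153 * (d * xi + d) + 32 / 5 * (1 / 10 ^ 6 + d)) := by
    apply max_le
    · have := le_max_left 0 B
      positivity
    · have := le_max_right 0 B
      linarith
  have h6 : ρ * R ≤ ρ * (ρ - kρ) + 11 / 10 * (1 / 10 ^ 6 + d) := by linarith
  nlinarith

theorem C9_alg_out (s I R : ℝ) (hs : s ≤ Real.pi ^ 2 / 4 / 64) (hI : 0 ≤ I) (hR : |R| ≤ 1 / 1000) :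
    max 0 ((s - 47 / 200) / (1 - 47 / 200) + 2 * (8 / 5) / (1 - 47 / 200) * (s - I) - (0 : ℝ) ^ 2
        - 2 * (8 / 5) * (-1 / 100) + 4 * (8 / 5) * (-1 / 100) * 0 - 4 * (8 / 5) * R)
      + (0 : ℝ) ^ 2 - 2 * (8 / 5) * (-1 / 100) * (0 : ℝ) ^ 2 + 2 * (8 / 5) * 0 * R ≤ 0 := by
  have hpi : Real.pi ^ 2 ≤ 10 := by
    have h1 := Real.pi_lt_d2
    have h2 := Real.pi_pos
    nlinarith
  have h3 := (abs_le.1 hR).1
  have h4 : (s - 47 / 200) / (1 - 47 / 200) + 2 * (8 / 5) / (1 - 47 / 200) * (s - I) - (0 : ℝ) ^ 2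
        - 2 * (8 / 5) * (-1 / 100) + 4 * (8 / 5) * (-1 / 100) * 0 - 4 * (8 / 5) * R ≤ 0 := by
    norm_num
    nlinarith
  rw [max_eq_left h4]
  norm_num

/-- the radial majorant -/
def C9_g (G : ℝ → ℝ) (c1 c2 : ℝ) (t : ℝ) : ℝ := if t ≤ 8 then G t / t ^ 2 + c1 + c2 / t ^ 2 else 0

theorem C9_radial (G : ℝ → ℝ) (hG : Measurable G) (C : ℝ) (hC : ∀ t, |G t| ≤ C) (c1 c2 : ℝ) :
    Integrable (fun p : E3 => C9_g G c1 c2 ‖p‖) ∧
      ∫ p : E3, C9_g G c1 c2 ‖p‖ = 4 * Real.pi * ((∫ t in (0 : ℝ)..8, G t) + c1 * (512 / 3) + c2 * 8) := by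
  have hGi : IntervalIntegrable G volume 0 8 := by
    rw [intervalIntegrable_iff_integrableOn_Ioc_of_le (by norm_num)]
    refine Integrable.of_bound (C := C) hG.aestronglyMeasurable (Filter.Eventually.of_forall fun t => ?_)
    rw [Real.norm_eq_abs]
    exact hC t
  have hcont : Continuous fun t : ℝ => c1 * t ^ 2 + c2 := by fun_prop
  have hFi : IntervalIntegrable (fun t => G t + (c1 * t ^ 2 + c2)) volume 0 8 :=
    hGi.add (hcont.intervalIntegrable 0 8)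
  have hval : ∫ t in (0 : ℝ)..8, (G t + (c1 * t ^ 2 + c2)) = (∫ t in (0 : ℝ)..8, G t) + c1 * (512 / 3) + c2 * 8 := by
    rw [intervalIntegral.integral_add hGi (hcont.intervalIntegrable 0 8)]
    have h1 : ∫ t in (0 : ℝ)..8, (c1 * t ^ 2 + c2) = c1 * (512 / 3) + c2 * 8 := by
      rw [intervalIntegral.integral_add ((by fun_prop : Continuous fun t : ℝ => c1 * t ^ 2).intervalIntegrable 0 8)
        (continuous_const.intervalIntegrable 0 8), intervalIntegral.integral_const_mul, integral_pow,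
        intervalIntegral.integral_const]
      norm_num
      ring
    rw [h1]
    ring
  have hdim : Module.finrank ℝ E3 = 3 := by simp
  have hcongr : ∀ y ∈ Ioi (0 : ℝ), y ^ (Module.finrank ℝ E3 - 1) • C9_g G c1 c2 y =
      (Iic (8 : ℝ)).indicator (fun t => G t + (c1 * t ^ 2 + c2)) y := by
    intro y hy
    have hy' : y ≠ 0 := ne_of_gt hy
    rw [hdim]
    unfold C9_g
    by_cases h8 : y ≤ 8
    · rw [if_pos h8, indicator_of_mem (by exact h8)]
      simp only [smul_eq_mul]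
      norm_num
      field_simp
      ring
    · rw [if_neg h8, indicator_of_notMem (by exact h8), smul_zero]
  have hset : Ioi (0 : ℝ) ∩ Iic 8 = Ioc 0 8 := by
    ext x
    simp [mem_Ioc]
  refine ⟨?_, ?_⟩
  · rw [MeasureTheory.integrable_fun_norm_addHaar (μ := (volume : Measure E3)) (f := C9_g G c1 c2),
      integrableOn_congr_fun hcongr measurableSet_Ioi, IntegrableOn,
      integrable_indicator_iff measurableSet_Iic, IntegrableOn, Measure.restrict_restrict measurableSet_Iic,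
      inter_comm, hset]
    rw [intervalIntegrable_iff_integrableOn_Ioc_of_le (by norm_num)] at hFi
    exact hFi
  · rw [MeasureTheory.integral_fun_norm_addHaar (μ := (volume : Measure E3)) (C9_g G c1 c2),
      setIntegral_congr_fun measurableSet_Ioi hcongr, integral_indicator measurableSet_Iic,
      Measure.restrict_restrict measurableSet_Iic, inter_comm, hset,
      ← intervalIntegral.integral_of_le (by norm_num : (0 : ℝ) ≤ 8), hval, hdim]
    have hb : (volume : Measure E3).real (Metric.ball 0 1) = Real.pi * 4 / 3 := by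
      unfold Measure.real
      rw [EuclideanSpace.volume_ball_fin_three]
      rw [ENNReal.ofReal_one, one_pow, one_mul, ENNReal.toReal_ofReal]
      positivity
    rw [hb]
    simp only [nsmul_eq_mul, smul_eq_mul]
    push_cast
    ring

theorem partC
    (hnum : ∃ (Hb τ G : ℝ → ℝ) (C : ℝ), Measurable Hb ∧ Measurable τ ∧ Measurable G ∧
      (∀ t, |Hb t| ≤ C ∧ |τ t| ≤ C ∧ |G t| ≤ C) ∧
      (∀ t, 0 ≤ t → t ≤ 8 → 1 / 2 ≤ zF (t ^ 2) ∧ |rhoF (t ^ 2)| ≤ 11 / 10 ∧ 0 ≤ τ t ∧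
        16 / 5 * Hb t ≤ 2 * τ t + τ t ^ 2 ∧
        kzF (t ^ 2) ≤ (1 - Hb t - 1 / 10 ^ 6) * zF (t ^ 2)) ∧
      (∀ t, 0 < t → t ≤ 8 → t ^ 2 * Fn (Hb t) (τ t) (t ^ 2) ≤ G t) ∧
      ∫ t in (0 : ℝ)..8, G t ≤ 15312 / 10000) :
    ∀ δ > 0, ∃ h0 > 0, ∀ h ε, 0 < h → h < h0 → 0 < ε → ε < h0 →
      ∃ (z r0 Hb τ : E3 → ℝ) (C : ℝ), Measurable z ∧ Measurable r0 ∧ Measurable Hb ∧
        Measurable τ ∧
        (∀ p ∈ cube h, 1 / 2 ≤ z p ∧ z p ≤ C ∧ |r0 p| ≤ C ∧ |Hb p| ≤ C ∧ 0 ≤ τ p ∧ τ p ≤ C) ∧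
        (∀ p ∈ cube h, Hb p ≤ ∫ p' in cube h, kern (p' - p) * (1 - z p' / z p)) ∧
        (∀ p ∈ cube h, 2 * (8 / 5) * Hb p ≤ 2 * τ p + τ p ^ 2) ∧
        ∫ p in cube h, FD (cube h) (47 / 200) (8 / 5) kern (sym h ε) r0 Hb τ p ≤ 19.27 + δ := by
  intro δ hδ
  obtain ⟨Hb, τ, G, C, hHbm, hτm, hGm, hbd, hin, hFn, hint⟩ := hnum
  obtain ⟨d, hd⟩ : ∃ d : ℝ, d = δ / 40000 := ⟨_, rfl⟩
  have hd0 : 0 < d := by rw [hd]; positivity
  have hz : ∀ t : ℝ, 0 ≤ t → t ≤ 8 → 1 / 2 ≤ zF (t ^ 2) := fun t h0 h8 => (hin t h0 h8).1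
  obtain ⟨h1, hh1, near⟩ := sym_near d hd0
  obtain ⟨h2, hh2, avg⟩ := avg_lower d hd0
  obtain ⟨h3, hh3, rin⟩ := RD_in d hd0
  obtain ⟨h4, hh4, rout⟩ := RD_out
  obtain ⟨h5, hh5, hardy⟩ := hardy_in hz
  have hC0 : 0 ≤ C := (abs_nonneg _).trans (hbd 0).1
  refine ⟨min (min (min h1 h2) (min h3 h4)) (min h5 (1 / 10)), by positivity, ?_⟩
  intro h ε hh hlt hε hεlt
  have l1 : h < h1 := hlt.trans_le ((min_le_left _ _).trans ((min_le_left _ _).trans (min_le_left _ _)))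
  have l2 : h < h2 := hlt.trans_le ((min_le_left _ _).trans ((min_le_left _ _).trans (min_le_right _ _)))
  have l3 : h < h3 := hlt.trans_le ((min_le_left _ _).trans ((min_le_right _ _).trans (min_le_left _ _)))
  have l4 : h < h4 := hlt.trans_le ((min_le_left _ _).trans ((min_le_right _ _).trans (min_le_right _ _)))
  have l5 : h < h5 := hlt.trans_le ((min_le_right _ _).trans (min_le_left _ _))
  have l6 : h < 1 / 10 := hlt.trans_le ((min_le_right _ _).trans (min_le_right _ _))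
  have e2 : ε < h2 := hεlt.trans_le ((min_le_left _ _).trans ((min_le_left _ _).trans (min_le_right _ _)))
  have hcube : ∀ p : E3, ‖p‖ ≤ 8 → p ∈ cube h := by
    intro p hp i
    have h7 : |p i| ≤ ‖p‖ := by
      have := EuclideanSpace.norm_eq p
      rw [← Real.norm_eq_abs]
      exact PiLp.norm_apply_le p i
    have h8 : (8 : ℝ) ≤ Real.pi / h := by
      rw [le_div_iff₀ hh]
      have := Real.pi_gt_three
      nlinarith
    exact h7.trans (hp.trans h8)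
  obtain ⟨r0, hr0⟩ : ∃ r0 : E3 → ℝ, r0 = fun q => if ‖q‖ ≤ 8 then rhoF (‖q‖ ^ 2) else 0 := ⟨_, rfl⟩
  obtain ⟨HE, hHE⟩ : ∃ HE : E3 → ℝ, HE = fun q => if ‖q‖ ≤ 8 then Hb ‖q‖ else -1 / 100 := ⟨_, rfl⟩
  obtain ⟨TE, hTE⟩ : ∃ TE : E3 → ℝ, TE = fun q => if ‖q‖ ≤ 8 then τ ‖q‖ else 0 := ⟨_, rfl⟩
  have hball : MeasurableSet {q : E3 | ‖q‖ ≤ 8} := measurableSet_le measurable_norm measurable_const
  have hzc : Continuous zF := by unfold zF; fun_prop
  have hrc : Continuous rhoF := by unfold rhoF; fun_prop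
  have hrin : ∀ p : E3, ‖p‖ ≤ 8 → r0 p = rhoF (‖p‖ ^ 2) := fun p hp => by rw [hr0]; exact if_pos hp
  have hrout : ∀ p : E3, ¬ ‖p‖ ≤ 8 → r0 p = 0 := fun p hp => by rw [hr0]; exact if_neg hp
  have hHin : ∀ p : E3, ‖p‖ ≤ 8 → HE p = Hb ‖p‖ := fun p hp => by rw [hHE]; exact if_pos hp
  have hHout : ∀ p : E3, ¬ ‖p‖ ≤ 8 → HE p = -1 / 100 := fun p hp => by rw [hHE]; exact if_neg hp
  have hTin : ∀ p : E3, ‖p‖ ≤ 8 → TE p = τ ‖p‖ := fun p hp => by rw [hTE]; exact if_pos hp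
  have hTout : ∀ p : E3, ¬ ‖p‖ ≤ 8 → TE p = 0 := fun p hp => by rw [hTE]; exact if_neg hp
  refine ⟨fun p => zF (‖p‖ ^ 2), r0, HE, TE, 10000 + C, ?_, ?_, ?_, ?_, ?_, ?_, ?_, ?_⟩
  · exact (hzc.comp (continuous_norm.pow 2)).measurable
  · rw [hr0]
    exact Measurable.ite hball (hrc.comp (continuous_norm.pow 2)).measurable measurable_const
  · rw [hHE]
    exact Measurable.ite hball (hHbm.comp measurable_norm) measurable_const
  · rw [hTE]
    exact Measurable.ite hball (hτm.comp measurable_norm) measurable_const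
  · intro p _
    have hx0 : (0 : ℝ) ≤ ‖p‖ ^ 2 := sq_nonneg _
    have hz1 := zF_bdd (‖p‖ ^ 2) hx0
    have hz2 := (abs_le.1 hz1).2
    by_cases hp : ‖p‖ ≤ 8
    · rw [hrin p hp, hHin p hp, hTin p hp]
      obtain ⟨a1, a2, a3, -, -⟩ := hin ‖p‖ (norm_nonneg _) hp
      have b1 := hbd ‖p‖
      refine ⟨a1, by show zF (‖p‖ ^ 2) ≤ _; linarith, by linarith, by linarith [b1.1], a3, ?_⟩
      linarith [(abs_le.1 b1.2.1).2]
    · rw [hrout p hp, hHout p hp, hTout p hp]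
      have h64 : (64 : ℝ) ≤ ‖p‖ ^ 2 := by
        push Not at hp
        nlinarith
      have a1 := zF_far (‖p‖ ^ 2) h64
      refine ⟨by show 1 / 2 ≤ zF (‖p‖ ^ 2); linarith [a1.1], by show zF (‖p‖ ^ 2) ≤ _; linarith, ?_, ?_, le_refl _, by linarith⟩
      · rw [abs_zero]; linarith
      · rw [abs_le]; constructor <;> linarith
  · intro p _
    by_cases hp : ‖p‖ ≤ 8
    · rw [hHin p hp]
      exact hardy h hh l5 p hp (Hb ‖p‖) (hin ‖p‖ (norm_nonneg _) hp).2.2.2.2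
    · rw [hHout p hp]
      push Not at hp
      have := hardy_out (cube h) (A4_meas h) p hp.le
      refine le_trans ?_ this
      norm_num
  · intro p _
    by_cases hp : ‖p‖ ≤ 8
    · rw [hHin p hp, hTin p hp]
      have := (hin ‖p‖ (norm_nonneg _) hp).2.2.2.1
      norm_num
      linarith
    · rw [hHout p hp, hTout p hp]
      norm_num
  · obtain ⟨c1, hc1⟩ : ∃ c1 : ℝ, c1 = 1 / 10 ^ 5 + 16 * d := ⟨_, rfl⟩
    obtain ⟨c2, hc2⟩ : ∃ c2 : ℝ, c2 = 16 * d := ⟨_, rfl⟩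
    have hR := C9_radial G hGm C (fun t => (hbd t).2.2) c1 c2
    have hpt : ∀ p ∈ cube h, p ≠ 0 →
        FD (cube h) (47 / 200) (8 / 5) kern (sym h ε) r0 HE TE p ≤ C9_g G c1 c2 ‖p‖ := by
      intro p hp hp0
      have hn : 0 < ‖p‖ := norm_pos_iff.2 hp0
      by_cases hp8 : ‖p‖ ≤ 8
      · have a1 := near h ε hh l1 hε p hp8 hp0
        have a2 := avg h ε hh l2 hε e2 p hp8
        have a3 := rin h hh l3 p hp8
        rw [← hr0] at a3
        obtain ⟨-, a4, -, -, -⟩ := hin ‖p‖ (norm_nonneg _) hp8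
        have a5 := hFn ‖p‖ hn hp8
        have hxi : (0 : ℝ) ≤ 1 / ‖p‖ ^ 2 := by positivity
        have a6 := C9_alg_in (sym h ε p) (∫ p' in cube h, sym h ε p' * kern (p' - p)) (kiF (‖p‖ ^ 2))
          (1 / ‖p‖ ^ 2) (RD (cube h) kern r0 p) (rhoF (‖p‖ ^ 2)) (krhoF (‖p‖ ^ 2)) (Hb ‖p‖) (τ ‖p‖) d hd0.le hxi
          (by rw [mul_one_div]; exact a1) a2 a3 a4
        unfold FD bD
        rw [hrin p hp8, hHin p hp8, hTin p hp8]
        refine a6.trans ?_
        unfold C9_g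
        rw [if_pos hp8]
        have a7 : Fn (Hb ‖p‖) (τ ‖p‖) (‖p‖ ^ 2) ≤ G ‖p‖ / ‖p‖ ^ 2 := by
          rw [le_div_iff₀ (by positivity)]
          rw [mul_comm]
          exact a5
        unfold Fn at a7
        rw [hc1, hc2]
        have a8 : 16 * d * (1 / ‖p‖ ^ 2) = 16 * d / ‖p‖ ^ 2 := by ring
        rw [a8]
        linarith
      · have a3 := rout h hh l4 p (not_le.1 hp8)
        rw [← hr0] at a3
        have a1 := sym_far h ε hh hε p hp hp0
        have hI : 0 ≤ ∫ p' in cube h, sym h ε p' * kern (p' - p) :=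
          integral_nonneg fun p' => mul_nonneg (sym_nonneg h ε hh hε p') (kern_isKer.nonneg _)
        have a2 : sym h ε p ≤ Real.pi ^ 2 / 4 / 64 := by
          refine a1.trans ?_
          apply div_le_div_of_nonneg_left (by positivity) (by norm_num)
          push Not at hp8
          nlinarith
        have a6 := C9_alg_out (sym h ε p) (∫ p' in cube h, sym h ε p' * kern (p' - p)) (RD (cube h) kern r0 p)
          a2 hI a3
        unfold FD bD
        rw [hrout p hp8, hHout p hp8, hTout p hp8]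
        unfold C9_g
        rw [if_neg hp8]
        exact a6
    have hval : ∫ p in cube h, C9_g G c1 c2 ‖p‖ ≤ 19.27 + δ := by
      rw [setIntegral_eq_integral_of_forall_compl_eq_zero, hR.2]
      · have hpi := Real.pi_lt_d4
        have hpi0 := Real.pi_pos
        have h9 : (∫ t in (0 : ℝ)..8, G t) + c1 * (512 / 3) + c2 * 8 ≤ 15312 / 10000 + 1 / 10 ^ 5 * (512 / 3) +
            d * (16 * (512 / 3) + 128) := by
          rw [hc1, hc2]
          nlinarith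
        have h10 : 4 * Real.pi * ((∫ t in (0 : ℝ)..8, G t) + c1 * (512 / 3) + c2 * 8) ≤
            4 * Real.pi * (15312 / 10000 + 1 / 10 ^ 5 * (512 / 3) + d * (16 * (512 / 3) + 128)) :=
          mul_le_mul_of_nonneg_left h9 (by positivity)
        refine h10.trans ?_
        have h11 : 4 * Real.pi ≤ 12.5668 := by linarith
        have h12 : 0 ≤ 15312 / 10000 + 1 / 10 ^ 5 * (512 / 3) + d * (16 * (512 / 3) + 128) := by positivity
        have h13 := mul_le_mul_of_nonneg_right h11 h12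
        refine h13.trans ?_
        rw [hd]
        norm_num
        nlinarith
      · intro p hp
        unfold C9_g
        rw [if_neg]
        intro hp8
        exact hp (hcube p hp8)
    by_cases hFi : IntegrableOn (fun p => FD (cube h) (47 / 200) (8 / 5) kern (sym h ε) r0 HE TE p) (cube h)
    · refine le_trans ?_ hval
      refine integral_mono_ae hFi hR.1.integrableOn ?_
      have h0 : ∀ᵐ p : E3 ∂(volume.restrict (cube h)), p ≠ 0 := by
        refine ae_restrict_of_ae ?_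
        rw [ae_iff]
        simp
      filter_upwards [h0, ae_restrict_mem (A4_meas h)] with p hp0 hp
      exact hpt p hp hp0
    · have h14 : ∫ p in cube h, FD (cube h) (47 / 200) (8 / 5) kern (sym h ε) r0 HE TE p = 0 :=
        integral_undef hFi
      rw [h14]
      positivity

end WEL
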