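import Pool.Agent.CLR.Defs

/-!
# WEL project (MP_8d28ad_mp): bounded potentials and potential wells

Common definitions.  `a` is the spectral cut, `κ` the multiplier, `k` the averaging kernel
in momentum space, `B` a finite set of lattice points, `ν : B → [0,1]` the scaled potential.
-/

set_option autoImplicit false

open MeasureTheory Set Filter Topology
open CLR (E3 Z3)

noncomputable section

namespace WEL

/-- momentum cell of the lattice `h Z^3` -/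
def cube (h : ℝ) : Set E3 := {p | ∀ i, |p i| ≤ Real.pi / h}

/-- symbol of the resolvent of the lattice Laplacian (lattice spacing `h`, mass `ε`) -/
def sym (h ε : ℝ) (p : E3) : ℝ :=
  1 / ((∑ i : Fin 3, (2 - 2 * Real.cos (h * p i))) / h ^ 2 + ε)

/-- averaging kernels -/
structure IsKer (k : E3 → ℝ) : Prop where
  cont : Continuous k
  nonneg : ∀ q, 0 ≤ k q
  even : ∀ q, k (-q) = k q
  int : Integrable k
  mass : ∫ q, k q = 1
  bdd : ∃ C, ∀ q, k q ≤ C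

/-! ## lattice side -/

/-- the phase `h p·x` -/
def ph (h : ℝ) (p : E3) (x : Z3) : ℝ := h * ∑ i : Fin 3, p i * (x i : ℝ)

/-- Birman-Schwinger matrix with symbol `s` -/
def KF (h : ℝ) (s : E3 → ℝ) (B : Finset Z3) (ν : B → ℝ) (x y : B) : ℝ :=
  Real.sqrt (ν x) * Real.sqrt (ν y) *
    ((h / (2 * Real.pi)) ^ 3 * ∫ p in cube h, s p * Real.cos (ph h p x - ph h p y))

/-- the matrix `f(K)` -/
def AF {B : Type} [Fintype B] (U : B → B → ℝ) (f : B → ℝ) (x y : B) : ℝ :=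
  ∑ j, f j * U x j * U y j

/-- `|⟨φ_j, e_p⟩|²`, `φ_j = U · j` -/
def wF (h : ℝ) (B : Finset Z3) (ν : B → ℝ) (U : B → B → ℝ) (j : B) (p : E3) : ℝ :=
  (∑ x : B, U x j * Real.sqrt (ν x / ∑ y, ν y) * Real.cos (ph h p x)) ^ 2
    + (∑ x : B, U x j * Real.sqrt (ν x / ∑ y, ν y) * Real.sin (ph h p x)) ^ 2

/-- the unit vector `e_0` -/
def eF (B : Finset Z3) (ν : B → ℝ) : B ⊕ B → ℝ :=
  Sum.elim (fun x => Real.sqrt (ν x / ∑ y, ν y)) (fun _ => 0)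

/-- the vector `exp(-ip·x) (A e_p)(x)` (real and imaginary parts) -/
def XF (h : ℝ) (B : Finset Z3) (ν : B → ℝ) (A : B → B → ℝ) (p : E3) : B ⊕ B → ℝ :=
  Sum.elim
    (fun x => ∑ y : B, A x y * Real.sqrt (ν y / ∑ y', ν y') * Real.cos (ph h p y - ph h p x))
    (fun x => ∑ y : B, A x y * Real.sqrt (ν y / ∑ y', ν y') * Real.sin (ph h p y - ph h p x))

/-- `⟨e_p, A e_p⟩` -/
def rF (h : ℝ) (B : Finset Z3) (ν : B → ℝ) (U : B → B → ℝ) (f : B → ℝ) (p : E3) : ℝ :=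
  ∑ j, f j * wF h B ν U j p

/-- `⟨e_p, A² e_p⟩` -/
def mF (h : ℝ) (B : Finset Z3) (ν : B → ℝ) (U : B → B → ℝ) (f : B → ℝ) (p : E3) : ℝ :=
  ∑ j, f j ^ 2 * wF h B ν U j p

open Classical in
/-- contribution of the eigenvalues below one -/
def βF (h : ℝ) (B : Finset Z3) (ν : B → ℝ) (U : B → B → ℝ) (f : B → ℝ) (p : E3) : ℝ :=
  ∑ j, (if f j < 1 then f j ^ 2 else 0) * wF h B ν U j p

/-- spectral data of a symmetric matrix together with the truncated linear function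
`f(μ) = min(1, (μ-a)_+/(1-a))` -/
structure Spec {B : Type} [Fintype B] [DecidableEq B] (K : B → B → ℝ) (a : ℝ)
    (U : B → B → ℝ) (μ f : B → ℝ) : Prop where
  cols : ∀ j j', ∑ x, U x j * U x j' = if j = j' then 1 else 0
  rows : ∀ x y, ∑ j, U x j * U y j = if x = y then 1 else 0
  eig : ∀ x y, K x y = ∑ j, μ j * U x j * U y j
  f0 : ∀ j, 0 ≤ f j
  f1 : ∀ j, f j ≤ 1
  flow : ∀ j, μ j ≤ a → f j = 0
  fmid : ∀ j, a ≤ μ j → μ j ≤ 1 → f j = (μ j - a) / (1 - a)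
  fhigh : ∀ j, 1 ≤ μ j → f j = 1

/-! ## momentum side -/

/-- the Gaussian kernel `(8/π)^{3/2} exp(-8|q|²)` -/
def kern (q : E3) : ℝ := (8 / Real.pi) ^ (3 / 2 : ℝ) * Real.exp (-(8 * ‖q‖ ^ 2))

/-- coefficient of `r` coming from the trace and the sum rule -/
def bD (D : Set E3) (a κ : ℝ) (k s : E3 → ℝ) (p : E3) : ℝ :=
  (s p - a) / (1 - a) + 2 * κ / (1 - a) * (s p - ∫ p' in D, s p' * k (p' - p))

/-- `∫_D k(p'-p)(r0(p) - r0(p')) dp'` -/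
def RD (D : Set E3) (k r0 : E3 → ℝ) (p : E3) : ℝ := ∫ p' in D, k (p' - p) * (r0 p - r0 p')

/-- the pointwise upper bound -/
def FD (D : Set E3) (a κ : ℝ) (k s r0 Hb τ : E3 → ℝ) (p : E3) : ℝ :=
  max 0 (bD D a κ k s p - τ p ^ 2 - 2 * κ * Hb p + 4 * κ * Hb p * r0 p - 4 * κ * RD D k r0 p)
    + τ p ^ 2 - 2 * κ * Hb p * r0 p ^ 2 + 2 * κ * r0 p * RD D k r0 p

/-! ## the explicit dual functions (functions of `x = |p|²`) -/

/-- parameters `t_j` -/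
def tq : Fin 8 → ℚ := ![81 / 80, 41 / 40, 24 / 23, 43 / 40, 9 / 8, 6 / 5, 4 / 3, 3 / 2]

/-- coefficients of `ρ` -/
def cq : Fin 8 → ℚ :=
  ![-245 / 1000, -729 / 1000, 3530 / 1000, 726 / 1000, -5966 / 1000, 5350 / 1000,
    -3079 / 1000, 1477 / 1000]

/-- coefficients of `z` -/
def dq : Fin 8 → ℚ := ![189, 823, -15, -2564, 2022, 135, -517, -73]

/-- exponents `8(t²-1)` -/
def bq (j : Fin 8) : ℚ := 8 * (tq j ^ 2 - 1)

/-- exponents after averaging, `8(1-1/t²)` -/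
def bq' (j : Fin 8) : ℚ := 8 * (1 - 1 / tq j ^ 2)

/-- `ρ` -/
def rhoF (x : ℝ) : ℝ := ∑ j, ((cq j : ℚ) : ℝ) * Real.exp (-(((bq j : ℚ) : ℝ) * x))

/-- the average of `ρ` -/
def krhoF (x : ℝ) : ℝ :=
  ∑ j, ((cq j / tq j ^ 3 : ℚ) : ℝ) * Real.exp (-(((bq' j : ℚ) : ℝ) * x))

/-- `z` -/
def zF (x : ℝ) : ℝ := 1 + ∑ j, ((dq j : ℚ) : ℝ) * Real.exp (-(((bq j : ℚ) : ℝ) * x))

/-- the average of `z` -/
def kzF (x : ℝ) : ℝ :=
  1 + ∑ j, ((dq j / tq j ^ 3 : ℚ) : ℝ) * Real.exp (-(((bq' j : ℚ) : ℝ) * x))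

/-- the average of `1/|p|²` -/
def kiF (x : ℝ) : ℝ := 16 * ∫ v in (0 : ℝ)..1, Real.exp (-(8 * (1 - v ^ 2) * x))

/-- limit of the pointwise bound `FD` (`a = 47/200`, `κ = 8/5`) -/
def Fn (H τ x : ℝ) : ℝ :=
  max 0 ((1 / x - 47 / 200) / (153 / 200) + 16 / 5 / (153 / 200) * (1 / x - kiF x) - τ ^ 2
      - 16 / 5 * H + 32 / 5 * H * rhoF x - 32 / 5 * (rhoF x - krhoF x))
    + τ ^ 2 - 16 / 5 * H * rhoF x ^ 2 + 16 / 5 * rhoF x * (rhoF x - krhoF x)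

end WEL
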