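import Pool.Agent.CLR.D4
import Pool.Agent.WEL.Defs

/-!
# WEL F1
Discretisation for bounded potentials.  Adapt `CLR.discretize` (Pool/Agent/CLR/D4.lean, D1-D3, in the cache): there
`v x = h⁻¹ ∫_{cell} W` (so `v ≤ h² lam`, `h ∑ v ≤ ∫ W`), `W^{3/2}` integrable since `W ≤ lam`; put `h' = h √lam`, `ν = v/h'²`:
then `0 ≤ ν ≤ 1`, `h'³ ∑ ν = √lam h ∑ v ≤ √lam ∫ W`.
-/

set_option autoImplicit false

open MeasureTheory Set Filter Topology
open CLR (E3 Z3 lapB)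

noncomputable section

namespace WEL

theorem F1_int (W : E3 → ℝ) (lam : ℝ) (hW : Measurable W)
    (hW0 : ∀ x, 0 ≤ W x) (hW1 : ∀ x, W x ≤ lam) (hWi : Integrable W) :
    Integrable (fun x => W x ^ (3 / 2 : ℝ)) := by
  refine (hWi.const_mul (lam ^ (1 / 2 : ℝ))).mono' (hW.pow_const _).aestronglyMeasurable
    (Eventually.of_forall fun x => ?_)
  rw [Real.norm_of_nonneg (Real.rpow_nonneg (hW0 x) _)]
  have e : W x ^ (3 / 2 : ℝ) = W x ^ (1 / 2 : ℝ) * W x := by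
    rcases (hW0 x).eq_or_lt with h | h
    · rw [← h, Real.zero_rpow (by norm_num), mul_zero]
    · rw [← Real.rpow_add_one h.ne']
      norm_num
  rw [e]
  exact mul_le_mul_of_nonneg_right (Real.rpow_le_rpow (hW0 x) (hW1 x) (by norm_num)) (hW0 x)

theorem F1_cell_sum (W : E3 → ℝ) (hW0 : ∀ x, 0 ≤ W x)
    (hWi : Integrable W) (h : ℝ) (hh : 0 < h) (B : Finset Z3) :
    ∑ x ∈ B, ∫ X in CLR.cell h x, W X ≤ ∫ X : E3, W X := by
  rw [← integral_biUnion_finset B (fun i _ => CLR.cell_meas h i)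
    (fun i _ j _ hij => CLR.cell_disj h hh hij) (fun i _ => hWi.integrableOn)]
  exact setIntegral_le_integral hWi (Eventually.of_forall fun X => hW0 X)

theorem F1_cell_le (W : E3 → ℝ) (lam : ℝ) (hW1 : ∀ x, W x ≤ lam)
    (hWi : Integrable W) (h : ℝ) (hh : 0 < h) (x : Z3) :
    ∫ X in CLR.cell h x, W X ≤ lam * h ^ 3 := by
  have h1 : ∫ X in CLR.cell h x, W X ≤ ∫ _ in CLR.cell h x, lam := by
    refine setIntegral_mono hWi.integrableOn ?_ hW1
    exact integrableOn_const (CLR.cell_vol_ne_top h x)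
  rw [setIntegral_const, smul_eq_mul, Measure.real, CLR.cell_vol h hh x] at h1
  linarith [mul_comm lam (h ^ 3)]

theorem discretize_bdd (W : E3 → ℝ) (lam : ℝ) (hlam : 0 < lam) (hW : Measurable W)
    (hW0 : ∀ x, 0 ≤ W x) (hW1 : ∀ x, W x ≤ lam) (hWi : Integrable W) (n : ℕ)
    (u : Fin n → E3 → ℝ)
    (hu : ∀ i, ContDiff ℝ (⊤ : ℕ∞) (u i) ∧ HasCompactSupport (u i))
    (hneg : ∀ c : Fin n → ℝ, c ≠ 0 →
      ∫ x, (‖fderiv ℝ (fun y => ∑ i, c i * u i y) x‖ ^ 2 - W x * (∑ i, c i * u i x) ^ 2) < 0)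
    (h0 : ℝ) (hh0 : 0 < h0) :
    ∃ (h : ℝ) (B : Finset Z3) (ν : B → ℝ) (φ : Fin n → B → ℝ), 0 < h ∧ h < h0 ∧
      (∀ x, 0 ≤ ν x ∧ ν x ≤ 1) ∧ h ^ 3 * ∑ x, ν x ≤ Real.sqrt lam * ∫ x, W x ∧
      ∀ c : Fin n → ℝ, c ≠ 0 →
        ∑ x, ∑ y, (∑ i, c i * φ i x) * lapB B x y * (∑ i, c i * φ i y) <
          h ^ 2 * ∑ x, ν x * (∑ i, c i * φ i x) ^ 2 := by
  have hWi2 : Integrable (fun x => W x ^ (3 / 2 : ℝ)) := F1_int W lam hW hW0 hW1 hWi
  -- the limit forms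
  have hadd : ∀ i j, ContDiff ℝ (⊤ : ℕ∞) (fun y => u i y + u j y) ∧
      HasCompactSupport (fun y => u i y + u j y) := by
    intro i j
    exact ⟨(hu i).1.add (hu j).1, (hu i).2.add (hu j).2⟩
  set M : ℝ → Fin n → Fin n → ℝ := fun h i j =>
    (CLR.d4_q W h (fun y => u i y + u j y) - CLR.d4_q W h (u i) - CLR.d4_q W h (u j)) / 2 with hM
  set Q : (E3 → ℝ) → ℝ := fun φ => ∫ x, (‖fderiv ℝ φ x‖ ^ 2 - W x * φ x ^ 2) with hQ
  set M0 : Fin n → Fin n → ℝ := fun i j => (Q (fun y => u i y + u j y) - Q (u i) - Q (u j)) / 2 with hM0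
  have hlim : ∀ i j, Tendsto (fun h => M h i j) (𝓝[>] 0) (𝓝 (M0 i j)) := by
    intro i j
    exact (((CLR.d4_lim W hW hW0 hWi2 _ (hadd i j).1 (hadd i j).2).sub
      (CLR.d4_lim W hW hW0 hWi2 _ (hu i).1 (hu i).2)).sub (CLR.d4_lim W hW hW0 hWi2 _ (hu j).1 (hu j).2)).div_const 2
  -- finite sets of lattice points
  have hfin : ∀ h : ℝ, 0 < h → ∃ B : Finset Z3, ∀ i, ∀ x, x ∉ B → u i (CLR.pt h x) = 0 := by
    intro h hh
    have h1 : (⋃ i, {x : Z3 | u i (CLR.pt h x) ≠ 0}).Finite :=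
      Set.finite_iUnion fun i => CLR.d4_finite h hh (u i) (hu i).2
    refine ⟨h1.toFinset, fun i x hx => ?_⟩
    by_contra hne
    apply hx
    rw [Set.Finite.mem_toFinset]
    exact Set.mem_iUnion.2 ⟨i, hne⟩
  have hquad : ∀ h : ℝ, 0 < h → ∀ c : Fin n → ℝ,
      CLR.d4_q W h (fun y => ∑ i, c i * u i y) = ∑ i, ∑ j, c i * M h i j * c j := by
    intro h hh c
    obtain ⟨B, hB⟩ := hfin h hh
    exact CLR.d4_q_quad W h u B hB c
  have hneg0 : ∀ c : Fin n → ℝ, c ≠ 0 → ∑ i, ∑ j, c i * M0 i j * c j < 0 := by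
    intro c hc
    have h1 : Tendsto (fun h => CLR.d4_q W h (fun y => ∑ i, c i * u i y)) (𝓝[>] 0)
        (𝓝 (∫ x, (‖fderiv ℝ (fun y => ∑ i, c i * u i y) x‖ ^ 2 - W x * (∑ i, c i * u i x) ^ 2))) :=
      CLR.d4_lim W hW hW0 hWi2 _ (CLR.d4_sum_smooth u hu c).1 (CLR.d4_sum_smooth u hu c).2
    have h2 : Tendsto (fun h => ∑ i, ∑ j, c i * M h i j * c j) (𝓝[>] 0)
        (𝓝 (∑ i, ∑ j, c i * M0 i j * c j)) :=
      tendsto_finsetSum _ fun i _ => tendsto_finsetSum _ fun j _ =>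
        ((hlim i j).const_mul (c i)).mul_const (c j)
    have h3 : (fun h => CLR.d4_q W h (fun y => ∑ i, c i * u i y)) =ᶠ[𝓝[>] 0]
        fun h => ∑ i, ∑ j, c i * M h i j * c j := by
      filter_upwards [self_mem_nhdsWithin] with h hh
      exact hquad h hh c
    have h4 := tendsto_nhds_unique (h1.congr' h3) h2
    rw [← h4]
    exact hneg c hc
  have hs : 0 < Real.sqrt lam := Real.sqrt_pos.2 hlam
  have hsq : Real.sqrt lam ^ 2 = lam := Real.sq_sqrt hlam.le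
  have hev := (CLR.evneg M M0 (𝓝[>] 0) hlim hneg0).and
    ((Ioo_mem_nhdsGT (show (0 : ℝ) < h0 / Real.sqrt lam by positivity)))
  obtain ⟨h, hneg', hh⟩ := (hev : ∀ᶠ h in 𝓝[>] (0 : ℝ), _ ∧ h ∈ Ioo 0 (h0 / Real.sqrt lam)).exists
  have hlt : h < h0 / Real.sqrt lam := hh.2
  have hh : 0 < h := hh.1
  obtain ⟨B, hB⟩ := hfin h hh
  have hint0 : ∀ x : Z3, 0 ≤ ∫ X in CLR.cell h x, W X := fun x => integral_nonneg fun X => hW0 X
  refine ⟨h * Real.sqrt lam, B, fun x => (1 / (h ^ 3 * lam)) * ∫ X in CLR.cell h x, W X,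
    fun i x => u i (CLR.pt h x), by positivity, ?_, ?_, ?_, ?_⟩
  · rwa [lt_div_iff₀ hs] at hlt
  · intro x
    refine ⟨mul_nonneg (by positivity) (hint0 x), ?_⟩
    have h1 := F1_cell_le W lam hW1 hWi h hh x
    rw [one_div, inv_mul_le_iff₀ (by positivity)]
    linarith
  · have h1 : ∑ x : B, (1 / (h ^ 3 * lam)) * ∫ X in CLR.cell h x, W X =
        (1 / (h ^ 3 * lam)) * ∑ x ∈ B, ∫ X in CLR.cell h x, W X := by
      rw [← Finset.mul_sum, ← Finset.sum_coe_sort B (fun x => ∫ X in CLR.cell h x, W X)]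
    rw [h1]
    have h2 := F1_cell_sum W hW0 hWi h hh B
    have h3 : (h * Real.sqrt lam) ^ 3 * (1 / (h ^ 3 * lam) * ∑ x ∈ B, ∫ X in CLR.cell h x, W X) =
        Real.sqrt lam * ∑ x ∈ B, ∫ X in CLR.cell h x, W X := by
      have e : (h * Real.sqrt lam) ^ 3 = h ^ 3 * lam * Real.sqrt lam := by
        rw [mul_pow, pow_succ (Real.sqrt lam) 2, hsq]
        ring
      rw [e]
      field_simp
    rw [h3]
    exact mul_le_mul_of_nonneg_left h2 hs.le
  · intro c hc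
    have h1 := hneg' c hc
    rw [← hquad h hh c, CLR.d4_q_eq W h _ B
      (fun x hx => Finset.sum_eq_zero fun i _ => by rw [hB i x hx, mul_zero])] at h1
    have h2 : (h * Real.sqrt lam) ^ 2 * ∑ x : B, ((1 / (h ^ 3 * lam)) * ∫ X in CLR.cell h x, W X) *
          (∑ i, c i * u i (CLR.pt h x)) ^ 2 =
        (1 / h) * ∑ x : B, (∫ X in CLR.cell h x, W X) * (∑ i, c i * u i (CLR.pt h x)) ^ 2 := by
      rw [Finset.mul_sum, Finset.mul_sum]
      refine Finset.sum_congr rfl fun x _ => ?_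
      rw [mul_pow, hsq]
      field_simp
    have h3 : ∀ A C : ℝ, h * A - C < 0 → A < (1 / h) * C := by
      intro A C hAC
      have h4 : A = (1 / h) * (h * A) := by field_simp
      rw [h4]
      exact mul_lt_mul_of_pos_left (by linarith) (by positivity)
    rw [h2]
    exact h3 _ _ h1

end WEL
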