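import Pool.Agent.CLR.B1
import Pool.Agent.WEL.Defs

/-!
# WEL F2
Final assembly (partA, partB, partC conclusion, discretize_bdd as hypotheses or copied statements).  For given `(h, B, ν, φ)` and
small `ε` apply partA with `h' = h √(1+ε)`, mass `ε/(1+ε)`, `ν' = (ν+ε)/(1+ε)` (then `h'² ν' = h²(ν+ε)` and
`(ε/(1+ε)) h'² = ε h²`), and let `ε → 0`; `(19.27 + 0.001)/(2π)³ < 0.0777` (`Real.pi_gt_d6`).
The case `lam = 0` or `∑ν = 0`: `n = 0` because the form of `lapB` is nonnegative (`CLR.lapB_posDef`).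
-/

set_option autoImplicit false

open MeasureTheory Set Filter Topology
open CLR (E3 Z3 lapB)

noncomputable section

namespace WEL

theorem finite_wells
    (hA : ∀ (h ε : ℝ), 0 < h → 0 < ε → ∀ (B : Finset Z3) (ν : B → ℝ), (∀ x, 0 ≤ ν x) →
      (∀ x, ν x ≤ 1) → 0 < ∑ x, ν x → ∀ (n : ℕ) (φ : Fin n → B → ℝ),
      (∀ c : Fin n → ℝ, c ≠ 0 →
        ∑ x, ∑ y, (∑ i, c i * φ i x) * lapB B x y * (∑ i, c i * φ i y)
            + ε * h ^ 2 * ∑ x, (∑ i, c i * φ i x) ^ 2 <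
          h ^ 2 * ∑ x, ν x * (∑ i, c i * φ i x) ^ 2) →
      ∀ L : ℝ, (∀ (e : B ⊕ B → ℝ) (X : E3 → B ⊕ B → ℝ) (r m β : E3 → ℝ),
        (∀ i, Continuous fun p => X p i) → Continuous r → Continuous m → Continuous β →
        ∑ i, e i ^ 2 = 1 → (∀ p, r p = ∑ i, e i * X p i) → (∀ p, m p = ∑ i, X p i ^ 2) →
        (∀ p, 0 ≤ r p) → (∀ p, r p ≤ 1) → (∀ p, m p ≤ r p) →
        (∀ p τ, 0 ≤ τ → 2 * τ * (r p - m p) - τ ^ 2 * (1 - 2 * r p + m p) ≤ β p) →
        ((∫ p in cube h, ((sym h ε p - 47 / 200) / (1 - 47 / 200) * r p - β p))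
          + 2 * (8 / 5) / (1 - 47 / 200) * ((∫ p in cube h, sym h ε p * r p)
              - ∫ p in cube h, ∫ p' in cube h, sym h ε p * kern (p' - p) * r p')
          - (8 / 5) * (∫ p in cube h, ∫ p' in cube h, kern (p' - p) * ∑ i, (X p' i - X p i) ^ 2))
          ≤ L) →
      (n : ℝ) ≤ (h / (2 * Real.pi)) ^ 3 * (∑ x, ν x) * L)
    (hBC : ∃ h0 > 0, ∀ h ε, 0 < h → h < h0 → 0 < ε → ε < h0 →
      ∀ (B : Finset Z3) (e : B ⊕ B → ℝ) (X : E3 → B ⊕ B → ℝ) (r m β : E3 → ℝ),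
        (∀ i, Continuous fun p => X p i) → Continuous r → Continuous m → Continuous β →
        ∑ i, e i ^ 2 = 1 → (∀ p, r p = ∑ i, e i * X p i) → (∀ p, m p = ∑ i, X p i ^ 2) →
        (∀ p, 0 ≤ r p) → (∀ p, r p ≤ 1) → (∀ p, m p ≤ r p) →
        (∀ p τ, 0 ≤ τ → 2 * τ * (r p - m p) - τ ^ 2 * (1 - 2 * r p + m p) ≤ β p) →
        ((∫ p in cube h, ((sym h ε p - 47 / 200) / (1 - 47 / 200) * r p - β p))
          + 2 * (8 / 5) / (1 - 47 / 200) * ((∫ p in cube h, sym h ε p * r p)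
              - ∫ p in cube h, ∫ p' in cube h, sym h ε p * kern (p' - p) * r p')
          - (8 / 5) * (∫ p in cube h, ∫ p' in cube h, kern (p' - p) * ∑ i, (X p' i - X p i) ^ 2))
          ≤ 19.271) :
    ∃ h0 > 0, ∀ h, 0 < h → h < h0 → ∀ (B : Finset Z3) (ν : B → ℝ), (∀ x, 0 ≤ ν x) →
      (∀ x, ν x ≤ 1) → ∀ (n : ℕ) (φ : Fin n → B → ℝ),
      (∀ c : Fin n → ℝ, c ≠ 0 →
        ∑ x, ∑ y, (∑ i, c i * φ i x) * lapB B x y * (∑ i, c i * φ i y) <
          h ^ 2 * ∑ x, ν x * (∑ i, c i * φ i x) ^ 2) →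
      (n : ℝ) ≤ 0.0777 * (h ^ 3 * ∑ x, ν x) := by
  obtain ⟨h0, hh0, hBC⟩ := hBC
  refine ⟨h0, hh0, fun h hh hlt B ν hν0 hν1 n φ hneg => ?_⟩
  have hS0 : 0 ≤ ∑ x, ν x := Finset.sum_nonneg fun x _ => hν0 x
  rcases isEmpty_or_nonempty B with hB | hB
  · -- empty lattice set
    have hn : n = 0 := by
      by_contra hn
      have hn' : 0 < n := Nat.pos_of_ne_zero hn
      have hc : (fun _ : Fin n => (1 : ℝ)) ≠ 0 := by
        intro hc
        have := congrFun hc ⟨0, hn'⟩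
        simp at this
      have := hneg _ hc
      simp at this
    rw [hn]
    have : (0 : ℝ) ≤ 0.0777 * (h ^ 3 * ∑ x, ν x) := by positivity
    simpa using this
  · -- perturbation
    have key : ∀ ε : ℝ, 0 < ε → h * Real.sqrt (1 + ε) < h0 → ε / (1 + ε) < h0 →
        (n : ℝ) ≤ (h * Real.sqrt (1 + ε) / (2 * Real.pi)) ^ 3 * (∑ x, (ν x + ε) / (1 + ε))
          * 19.271 := by
      intro ε hε h1 h2
      have hε1 : 0 < 1 + ε := by linarith
      have hsq : Real.sqrt (1 + ε) ^ 2 = 1 + ε := Real.sq_sqrt hε1.le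
      have hh' : 0 < h * Real.sqrt (1 + ε) := mul_pos hh (Real.sqrt_pos.mpr hε1)
      have hε' : 0 < ε / (1 + ε) := div_pos hε hε1
      have hνp : ∀ x, 0 < (ν x + ε) / (1 + ε) := fun x => div_pos (by linarith [hν0 x]) hε1
      refine hA (h * Real.sqrt (1 + ε)) (ε / (1 + ε)) hh' hε' B (fun x => (ν x + ε) / (1 + ε))
        (fun x => (hνp x).le) (fun x => ?_) ?_ n φ ?_ 19.271 ?_
      · rw [div_le_one hε1]
        linarith [hν1 x]
      · exact Finset.sum_pos (fun x _ => hνp x) Finset.univ_nonempty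
      · intro c hc
        have h3 := hneg c hc
        have e1 : ε / (1 + ε) * (h * Real.sqrt (1 + ε)) ^ 2 = ε * h ^ 2 := by
          rw [mul_pow, hsq]
          field_simp
        have e2 : (h * Real.sqrt (1 + ε)) ^ 2 *
            ∑ x, (ν x + ε) / (1 + ε) * (∑ i, c i * φ i x) ^ 2 =
            h ^ 2 * ∑ x, ν x * (∑ i, c i * φ i x) ^ 2
              + ε * h ^ 2 * ∑ x, (∑ i, c i * φ i x) ^ 2 := by
          rw [mul_pow, hsq, Finset.mul_sum, Finset.mul_sum, Finset.mul_sum,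
            ← Finset.sum_add_distrib]
          refine Finset.sum_congr rfl fun x _ => ?_
          field_simp
        rw [e1, e2]
        linarith
      · exact hBC (h * Real.sqrt (1 + ε)) (ε / (1 + ε)) hh' h1 hε' h2 B
    have hcont : ContinuousAt (fun ε : ℝ => (h * Real.sqrt (1 + ε) / (2 * Real.pi)) ^ 3
        * (∑ x, (ν x + ε) / (1 + ε)) * 19.271) 0 := by
      refine ContinuousAt.mul (ContinuousAt.mul ?_ ?_) continuousAt_const
      · have : Continuous fun ε : ℝ => (h * Real.sqrt (1 + ε) / (2 * Real.pi)) ^ 3 := by fun_prop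
        exact this.continuousAt
      · refine tendsto_finsetSum _ fun x _ => ?_
        have h1 : (1 : ℝ) + 0 ≠ 0 := by norm_num
        have : ContinuousAt (fun ε : ℝ => (ν x + ε) / (1 + ε)) 0 :=
          (continuousAt_const.add continuousAt_id).div (continuousAt_const.add continuousAt_id) h1
        exact this
    have hlim := hcont.tendsto.mono_left (nhdsWithin_le_nhds (s := Ioi 0))
    have hle : (n : ℝ) ≤ (h * Real.sqrt (1 + 0) / (2 * Real.pi)) ^ 3
        * (∑ x, (ν x + 0) / (1 + 0)) * 19.271 := by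
      refine ge_of_tendsto hlim ?_
      have c1 : ContinuousAt (fun ε : ℝ => h * Real.sqrt (1 + ε)) 0 := by
        have : Continuous fun ε : ℝ => h * Real.sqrt (1 + ε) := by fun_prop
        exact this.continuousAt
      have c2 : ContinuousAt (fun ε : ℝ => ε / (1 + ε)) 0 :=
        continuousAt_id.div (continuousAt_const.add continuousAt_id) (by norm_num)
      have e1 : ∀ᶠ ε : ℝ in 𝓝[>] 0, h * Real.sqrt (1 + ε) < h0 := by
        refine (c1.tendsto.mono_left nhdsWithin_le_nhds).eventually_lt_const ?_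
        simpa using hlt
      have e2 : ∀ᶠ ε : ℝ in 𝓝[>] 0, ε / (1 + ε) < h0 := by
        refine (c2.tendsto.mono_left nhdsWithin_le_nhds).eventually_lt_const ?_
        simpa using hh0
      filter_upwards [e1, e2, self_mem_nhdsWithin] with ε a1 a2 a3
      exact key ε a3 a1 a2
    simp only [add_zero, Real.sqrt_one, mul_one, div_one] at hle
    refine hle.trans ?_
    have hπ : (3.141592 : ℝ) < Real.pi := Real.pi_gt_d6
    have h5 : (h / (2 * Real.pi)) ^ 3 * 19.271 ≤ 0.0777 * h ^ 3 := by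
      rw [div_pow, div_mul_eq_mul_div, div_le_iff₀ (by positivity)]
      have h6 : (19.271 : ℝ) ≤ 0.0777 * (2 * Real.pi) ^ 3 := by
        have h7 : (3.141592 : ℝ) ^ 3 ≤ Real.pi ^ 3 := by gcongr
        have h8 : 0.0777 * (2 * Real.pi) ^ 3 = 0.0777 * 8 * Real.pi ^ 3 := by ring
        rw [h8]
        refine le_trans ?_ (mul_le_mul_of_nonneg_left h7 (by norm_num))
        norm_num
      calc h ^ 3 * 19.271 ≤ h ^ 3 * (0.0777 * (2 * Real.pi) ^ 3) :=
            mul_le_mul_of_nonneg_left h6 (by positivity)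
        _ = 0.0777 * h ^ 3 * (2 * Real.pi) ^ 3 := by ring
    calc (h / (2 * Real.pi)) ^ 3 * (∑ x, ν x) * 19.271
        = ((h / (2 * Real.pi)) ^ 3 * 19.271) * ∑ x, ν x := by ring
      _ ≤ (0.0777 * h ^ 3) * ∑ x, ν x := mul_le_mul_of_nonneg_right h5 hS0
      _ = 0.0777 * (h ^ 3 * ∑ x, ν x) := by ring

end WEL
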