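import Pool.Agent.WEL.NDefs

/-!
# WEL N3e
The initial state (`T = 0`, `D = 1`).  General lemma from `Real.exp_bound` with `n = 5`:
for `0 ≤ y ≤ 1` rational, `|exp(-y) - (1 - y + y^2/2 - y^3/6 + y^4/24)| ≤ y^5/100`; so `n/2^80 ≤ exp(-y)` follows from the rational
inequality `n/2^80 ≤ 1 - y + y^2/2 - y^3/6 + y^4/24 - y^5/100` (norm_num or decide on rationals), similarly upper; here
`y = b/4096^2` or `2b/4096^2` (b = `bq j`, `bq' j`), for `Js`: `y = 2/4096^2`, `4/4096^2`.  The literals are exactly the floors /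
ceilings of these values; `lo = hi = 2^80`.
-/

set_option autoImplicit false

open MeasureTheory Set Filter Topology

noncomputable section

namespace WEL

/-- the initial state -/
def st0 : St :=
  ⟨⟨⟨1208925819614629174706176, 1208925819614629174706176, 1208925805113038461549621, 1208925805113038461549622, 1208925790611447922345951, 1208925790611447922345952⟩,
    ⟨1208925819614629174706176, 1208925819614629174706176, 1208925790431303941586364, 1208925790431303941586365, 1208925761247979412948546, 1208925761247979412948547⟩,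
    ⟨1208925819614629174706176, 1208925819614629174706176, 1208925768397890451940840, 1208925768397890451940841, 1208925717181153898997906, 1208925717181153898997907⟩,
    ⟨1208925819614629174706176, 1208925819614629174706176, 1208925729902927926139154, 1208925729902927926139155, 1208925640191233334878322, 1208925640191233334878323⟩,
    ⟨1208925819614629174706176, 1208925819614629174706176, 1208925666492251541339750, 1208925666492251541339751, 1208925513369893302432564, 1208925513369893302432565⟩,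
    ⟨1208925819614629174706176, 1208925819614629174706176, 1208925565971924769379372, 1208925565971924769379373, 1208925312329273580404188, 1208925312329273580404189⟩,
    ⟨1208925819614629174706176, 1208925819614629174706176, 1208925371256349414116149, 1208925371256349414116150, 1208924922898235937630381, 1208924922898235937630382⟩,
    ⟨1208925819614629174706176, 1208925819614629174706176, 1208925099038903543748949, 1208925099038903543748950, 1208924378463607409265322, 1208924378463607409265323⟩⟩,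
  ⟨⟨1208925819614629174706176, 1208925819614629174706176, 1208925805468892156284970, 1208925805468892156284971, 1208925791323155303384156, 1208925791323155303384157⟩,
    ⟨1208925819614629174706176, 1208925819614629174706176, 1208925791837520072892725, 1208925791837520072892726, 1208925764060411609305191, 1208925764060411609305192⟩,
    ⟨1208925819614629174706176, 1208925819614629174706176, 1208925772577033981697530, 1208925772577033981697531, 1208925725539440618855240, 1208925725539440618855241⟩,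
    ⟨1208925819614629174706176, 1208925819614629174706176, 1208925741984167998435282, 1208925741984167998435283, 1208925664353711807158840, 1208925664353711807158841⟩,
    ⟨1208925819614629174706176, 1208925819614629174706176, 1208925698629045239032053, 1208925698629045239032054, 1208925577643473411223677, 1208925577643473411223678⟩,
    ⟨1208925819614629174706176, 1208925819614629174706176, 1208925643473856580537087, 1208925643473856580537088, 1208925467333109650119460, 1208925467333109650119461⟩,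
    ⟨1208925819614629174706176, 1208925819614629174706176, 1208925567413076348631258, 1208925567413076348631259, 1208925315211576135894741, 1208925315211576135894742⟩,
    ⟨1208925819614629174706176, 1208925819614629174706176, 1208925499358698092230576, 1208925499358698092230577, 1208925179102851848592670, 1208925179102851848592671⟩⟩,
  ⟨0, 1208925675499449688784554, 1208925531384287382730069⟩, 0⟩

theorem N3e_exp {y : ℝ} (h0 : 0 ≤ y) (h1 : y ≤ 1) :
    |Real.exp (-y) - (1 - y + y ^ 2 / 2 - y ^ 3 / 6 + y ^ 4 / 24)| ≤ y ^ 5 / 100 := by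
  have h := Real.exp_bound (x := -y) (by rw [abs_neg, abs_of_nonneg h0]; exact h1) (n := 5) (by norm_num)
  have e : ∑ m ∈ Finset.range 5, (-y) ^ m / (m.factorial : ℝ) = 1 - y + y ^ 2 / 2 - y ^ 3 / 6 + y ^ 4 / 24 := by
    simp only [Finset.sum_range_succ, Finset.sum_range_zero, Nat.factorial]
    norm_num
    ring
  rw [e, abs_neg, abs_of_nonneg h0] at h
  refine h.trans (le_of_eq ?_)
  norm_num [Nat.factorial]
  ring

abbrev N3e_lo (n : ℕ) (y : ℚ) : Prop :=
  0 ≤ y ∧ y ≤ 1 ∧ (n : ℚ) / 2 ^ 80 ≤ 1 - y + y ^ 2 / 2 - y ^ 3 / 6 + y ^ 4 / 24 - y ^ 5 / 100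

abbrev N3e_hi (n : ℕ) (y : ℚ) : Prop :=
  0 ≤ y ∧ y ≤ 1 ∧ 1 - y + y ^ 2 / 2 - y ^ 3 / 6 + y ^ 4 / 24 + y ^ 5 / 100 ≤ (n : ℚ) / 2 ^ 80

theorem N3e_lo_ok {n : ℕ} {y : ℚ} (h : N3e_lo n y) : (n : ℝ) / 2 ^ 80 ≤ Real.exp (-(y : ℝ)) := by
  obtain ⟨h0, h1, h2⟩ := h
  have k0 : (0 : ℝ) ≤ (y : ℝ) := by exact_mod_cast h0
  have k1 : (y : ℝ) ≤ 1 := by exact_mod_cast h1
  have k2 : (n : ℝ) / 2 ^ 80 ≤ 1 - (y : ℝ) + (y : ℝ) ^ 2 / 2 - (y : ℝ) ^ 3 / 6 + (y : ℝ) ^ 4 / 24 - (y : ℝ) ^ 5 / 100 := by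
    have := (Rat.cast_le (K := ℝ)).2 h2
    push_cast at this
    exact this
  have k3 := (abs_le.1 (N3e_exp k0 k1)).1
  linarith

theorem N3e_hi_ok {n : ℕ} {y : ℚ} (h : N3e_hi n y) : Real.exp (-(y : ℝ)) ≤ (n : ℝ) / 2 ^ 80 := by
  obtain ⟨h0, h1, h2⟩ := h
  have k0 : (0 : ℝ) ≤ (y : ℝ) := by exact_mod_cast h0
  have k1 : (y : ℝ) ≤ 1 := by exact_mod_cast h1
  have k2 : 1 - (y : ℝ) + (y : ℝ) ^ 2 / 2 - (y : ℝ) ^ 3 / 6 + (y : ℝ) ^ 4 / 24 + (y : ℝ) ^ 5 / 100 ≤ (n : ℝ) / 2 ^ 80 := by
    have := (Rat.cast_le (K := ℝ)).2 h2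
    push_cast at this
    exact this
  have k3 := (abs_le.1 (N3e_exp k0 k1)).2
  linarith

theorem N3e_tr {e : ℚ} {ql qh cl ch : ℕ} (h : N3e_lo ql (e * (1 / 4096) ^ 2) ∧ N3e_hi qh (e * (1 / 4096) ^ 2) ∧
    N3e_lo cl (e * (2 * (1 / 4096) ^ 2)) ∧ N3e_hi ch (e * (2 * (1 / 4096) ^ 2))) :
    TrOK ((e : ℚ) : ℝ) 1 0 ⟨1208925819614629174706176, 1208925819614629174706176, ql, qh, cl, ch⟩ := by
  obtain ⟨h1, h2, h3, h4⟩ := h
  have k1 := N3e_lo_ok h1
  have k2 := N3e_hi_ok h2
  have k3 := N3e_lo_ok h3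
  have k4 := N3e_hi_ok h4
  push_cast at k1 k2 k3 k4
  refine ⟨?_, ?_, ?_, ?_, ?_, ?_⟩
  · norm_num
  · norm_num
  · have e1 : (e : ℝ) * (((((0 : ℕ) : ℝ) + ((1 : ℕ) : ℝ)) / 4096) ^ 2 - (((0 : ℕ) : ℝ) / 4096) ^ 2) = (e : ℝ) * (1 / 4096) ^ 2 := by
      push_cast; ring
    rw [e1]
    exact k1
  · have e1 : (e : ℝ) * (((((0 : ℕ) : ℝ) + ((1 : ℕ) : ℝ)) / 4096) ^ 2 - (((0 : ℕ) : ℝ) / 4096) ^ 2) = (e : ℝ) * (1 / 4096) ^ 2 := by
      push_cast; ring
    rw [e1]
    exact k2
  · have e1 : (e : ℝ) * (2 * (((1 : ℕ) : ℝ) / 4096) ^ 2) = (e : ℝ) * (2 * (1 / 4096) ^ 2) := by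
      push_cast; ring
    rw [e1]
    exact k3
  · have e1 : (e : ℝ) * (2 * (((1 : ℕ) : ℝ) / 4096) ^ 2) = (e : ℝ) * (2 * (1 / 4096) ^ 2) := by
      push_cast; ring
    rw [e1]
    exact k4

theorem N3e_js {qa cc : ℕ} (h : N3e_lo qa (8 * (1 / 2 / 4096) ^ 2) ∧ N3e_lo cc (4 * (1 / 4096) ^ 2)) :
    JsOK 1 0 ⟨0, qa, cc⟩ := by
  obtain ⟨h1, h2⟩ := h
  have k1 := N3e_lo_ok h1
  have k2 := N3e_lo_ok h2
  push_cast at k1 k2
  refine ⟨?_, ?_, ?_⟩
  · norm_num
  · have e1 : 8 * (((((0 : ℕ) : ℝ) + ((1 : ℕ) : ℝ) / 2) / 4096) ^ 2 - (((0 : ℕ) : ℝ) / 4096) ^ 2) = 8 * (1 / 2 / 4096) ^ 2 := by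
      push_cast; ring
    rw [e1]
    exact k1
  · have e1 : 4 * (((1 : ℕ) : ℝ) / 4096) ^ 2 = 4 * (1 / 4096) ^ 2 := by
      push_cast; ring
    rw [e1]
    exact k2

theorem st0_ok : StOK 1 st0 := by
  refine ⟨⟨?_, ?_, ?_, ?_, ?_, ?_, ?_, ?_⟩, ⟨?_, ?_, ?_, ?_, ?_, ?_, ?_, ?_⟩, ?_⟩
  · exact N3e_tr (by decide +kernel)
  · exact N3e_tr (by decide +kernel)
  · exact N3e_tr (by decide +kernel)
  · exact N3e_tr (by decide +kernel)
  · exact N3e_tr (by decide +kernel)
  · exact N3e_tr (by decide +kernel)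
  · exact N3e_tr (by decide +kernel)
  · exact N3e_tr (by decide +kernel)
  · exact N3e_tr (by decide +kernel)
  · exact N3e_tr (by decide +kernel)
  · exact N3e_tr (by decide +kernel)
  · exact N3e_tr (by decide +kernel)
  · exact N3e_tr (by decide +kernel)
  · exact N3e_tr (by decide +kernel)
  · exact N3e_tr (by decide +kernel)
  · exact N3e_tr (by decide +kernel)
  · exact N3e_js (by decide +kernel)

end WEL
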