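import Pool.Agent.WEL.N4
import Pool.Agent.WEL.N3e

/-!
# WEL N4a: kernel runs of the certificate
-/

set_option autoImplicit false

namespace WEL

theorem ch1 : run 1 512 st0 (node st0) 0 =
    some (st1, 2684564647248157733038001630858327556114388) := by decide +kernel

theorem ch2 : run 1 512 st1 (node st1) 0 =
    some (st2, 1821825422182823316680576188380111221607857) := by decide +kernel

theorem ch3 : run 1 512 st2 (node st2) 0 =
    some (st3, 782878226477029895613351336313834432081597) := by decide +kernel

end WEL
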