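import Pool.Agent.WEL.N4
import Pool.Agent.WEL.N3e

/-!
# WEL N4b: kernel runs of the certificate
-/

set_option autoImplicit false

namespace WEL

theorem ch4 : run 1 512 st3 (node st3) 0 =
    some (st4, 162294933811830362197979060376534079516282) := by decide +kernel

theorem ch5 : run 2 512 (st4.dbl) (node (st4.dbl)) 0 =
    some (st5, 115218072258330684810852026951106453291662) := by decide +kernel

theorem ch6 : run 2 512 st5 (node st5) 0 =
    some (st6, 381206525324854081697779606513486799343202) := by decide +kernel

end WEL
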