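import Pool.Agent.WEL.N4
import Pool.Agent.WEL.N3e

/-!
# WEL N4c: kernel runs of the certificate
-/

set_option autoImplicit false

namespace WEL

theorem ch7 : run 2 512 st6 (node st6) 0 =
    some (st7, 249069355946169387433593344085310434848700) := by decide +kernel

theorem ch8 : run 2 512 st7 (node st7) 0 =
    some (st8, 58803218258249119568449984049729331501332) := by decide +kernel

theorem ch9 : run 8 512 (st8.dbl.dbl) (node (st8.dbl.dbl)) 0 =
    some (st9, 94279784391552311239380946893678831989416) := by decide +kernel

end WEL
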