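import Pool.Agent.WEL.N4
import Pool.Agent.WEL.N3e

/-!
# WEL N4d: kernel runs of the certificate
-/

set_option autoImplicit false

namespace WEL

theorem ch10 : run 8 512 st9 (node st9) 0 =
    some (st10, 25557549889406999323586246891387515320456) := by decide +kernel

theorem ch11 : run 16 384 (st10.dbl) (node (st10.dbl)) 0 =
    some (st11, 454113102803493245060251837342705579664) := by decide +kernel

theorem ch12 : run 64 192 (st11.dbl.dbl) (node (st11.dbl.dbl)) 0 =
    some (st12, -13489130607142631080884811974373259776) := by decide +kernel

end WEL
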