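import Pool.Agent.WEL.N3d
import Pool.Agent.WEL.N4a
import Pool.Agent.WEL.N4b
import Pool.Agent.WEL.N4c
import Pool.Agent.WEL.N4d

/-!
# WEL N5: the numerical hypothesis of `partC`
-/

set_option autoImplicit false

open MeasureTheory Set Filter Topology

noncomputable section

namespace WEL

theorem good_zero_eight : Good 0 8 (15312 / 10000) := by
  have q0 : StOK 1 st0 := st0_ok
  obtain ⟨q1, -, g1⟩ := run_ok (D := 1) (by norm_num) 512 (by norm_num) st0 st1 0 _ q0 ch1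
  obtain ⟨q2, -, g2⟩ := run_ok (D := 1) (by norm_num) 512 (by norm_num) st1 st2 0 _ q1 ch2
  obtain ⟨q3, -, g3⟩ := run_ok (D := 1) (by norm_num) 512 (by norm_num) st2 st3 0 _ q2 ch3
  obtain ⟨q4, -, g4⟩ := run_ok (D := 1) (by norm_num) 512 (by norm_num) st3 st4 0 _ q3 ch4
  have d5_1 := st_dbl_ok q4
  obtain ⟨q5, -, g5⟩ := run_ok (D := 2) (by norm_num) 512 (by norm_num) (st4.dbl) st5 0 _ d5_1 ch5
  obtain ⟨q6, -, g6⟩ := run_ok (D := 2) (by norm_num) 512 (by norm_num) st5 st6 0 _ q5 ch6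
  obtain ⟨q7, -, g7⟩ := run_ok (D := 2) (by norm_num) 512 (by norm_num) st6 st7 0 _ q6 ch7
  obtain ⟨q8, -, g8⟩ := run_ok (D := 2) (by norm_num) 512 (by norm_num) st7 st8 0 _ q7 ch8
  have d9_2 := st_dbl_ok q8
  have d9_4 := st_dbl_ok d9_2
  obtain ⟨q9, -, g9⟩ := run_ok (D := 8) (by norm_num) 512 (by norm_num) (st8.dbl.dbl) st9 0 _ d9_4 ch9
  obtain ⟨q10, -, g10⟩ := run_ok (D := 8) (by norm_num) 512 (by norm_num) st9 st10 0 _ q9 ch10
  have d11_8 := st_dbl_ok q10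
  obtain ⟨q11, -, g11⟩ := run_ok (D := 16) (by norm_num) 384 (by norm_num) (st10.dbl) st11 0 _ d11_8 ch11
  have d12_16 := st_dbl_ok q11
  have d12_32 := st_dbl_ok d12_16
  obtain ⟨q12, -, g12⟩ := run_ok (D := 64) (by norm_num) 192 (by norm_num) (st11.dbl.dbl) st12 0 _ d12_32 ch12
  have T1 : (st0.T : ℕ) = 0 := by rfl
  have U1 : (st1.T : ℕ) = 512 := by rfl
  rw [T1, U1] at g1
  have T2 : (st1.T : ℕ) = 512 := by rfl
  have U2 : (st2.T : ℕ) = 1024 := by rfl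
  rw [T2, U2] at g2
  have T3 : (st2.T : ℕ) = 1024 := by rfl
  have U3 : (st3.T : ℕ) = 1536 := by rfl
  rw [T3, U3] at g3
  have T4 : (st3.T : ℕ) = 1536 := by rfl
  have U4 : (st4.T : ℕ) = 2048 := by rfl
  rw [T4, U4] at g4
  have T5 : (st4.dbl.T : ℕ) = 2048 := by rfl
  have U5 : (st5.T : ℕ) = 3072 := by rfl
  rw [T5, U5] at g5
  have T6 : (st5.T : ℕ) = 3072 := by rfl
  have U6 : (st6.T : ℕ) = 4096 := by rfl
  rw [T6, U6] at g6
  have T7 : (st6.T : ℕ) = 4096 := by rfl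
  have U7 : (st7.T : ℕ) = 5120 := by rfl
  rw [T7, U7] at g7
  have T8 : (st7.T : ℕ) = 5120 := by rfl
  have U8 : (st8.T : ℕ) = 6144 := by rfl
  rw [T8, U8] at g8
  have T9 : (st8.dbl.dbl.T : ℕ) = 6144 := by rfl
  have U9 : (st9.T : ℕ) = 10240 := by rfl
  rw [T9, U9] at g9
  have T10 : (st9.T : ℕ) = 10240 := by rfl
  have U10 : (st10.T : ℕ) = 14336 := by rfl
  rw [T10, U10] at g10
  have T11 : (st10.dbl.T : ℕ) = 14336 := by rfl
  have U11 : (st11.T : ℕ) = 20480 := by rfl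
  rw [T11, U11] at g11
  have T12 : (st11.dbl.dbl.T : ℕ) = 20480 := by rfl
  have U12 : (st12.T : ℕ) = 32768 := by rfl
  rw [T12, U12] at g12
  have a2 := good_append (by norm_num) (by norm_num) g1 g2
  have a3 := good_append (by norm_num) (by norm_num) a2 g3
  have a4 := good_append (by norm_num) (by norm_num) a3 g4
  have a5 := good_append (by norm_num) (by norm_num) a4 g5
  have a6 := good_append (by norm_num) (by norm_num) a5 g6
  have a7 := good_append (by norm_num) (by norm_num) a6 g7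
  have a8 := good_append (by norm_num) (by norm_num) a7 g8
  have a9 := good_append (by norm_num) (by norm_num) a8 g9
  have a10 := good_append (by norm_num) (by norm_num) a9 g10
  have a11 := good_append (by norm_num) (by norm_num) a10 g11
  have a12 := good_append (by norm_num) (by norm_num) a11 g12
  have e0 : ((0 : ℕ) : ℝ) / 4096 = 0 := by norm_num
  have e8 : ((32768 : ℕ) : ℝ) / 4096 = 8 := by norm_num
  rw [e0, e8] at a12
  exact good_mono a12 (by norm_num)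

theorem hnum : ∃ (Hb τ G : ℝ → ℝ) (C : ℝ), Measurable Hb ∧ Measurable τ ∧ Measurable G ∧
      (∀ t, |Hb t| ≤ C ∧ |τ t| ≤ C ∧ |G t| ≤ C) ∧
      (∀ t, 0 ≤ t → t ≤ 8 → 1 / 2 ≤ zF (t ^ 2) ∧ |rhoF (t ^ 2)| ≤ 11 / 10 ∧ 0 ≤ τ t ∧
        16 / 5 * Hb t ≤ 2 * τ t + τ t ^ 2 ∧
        kzF (t ^ 2) ≤ (1 - Hb t - 1 / 10 ^ 6) * zF (t ^ 2)) ∧
      (∀ t, 0 < t → t ≤ 8 → t ^ 2 * Fn (Hb t) (τ t) (t ^ 2) ≤ G t) ∧
      ∫ t in (0 : ℝ)..8, G t ≤ 15312 / 10000 := good_num good_zero_eight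

end WEL
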