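import Pool.Agent.WEL.A10
import Pool.Agent.WEL.B3
import Pool.Agent.WEL.C9
import Pool.Agent.WEL.F1
import Pool.Agent.WEL.F2
import Pool.Agent.WEL.N5

/-!
# WEL Main: bounded potentials and potential wells
-/

set_option autoImplicit false

open MeasureTheory Set Filter Topology
open CLR (E3 Z3 lapB)

noncomputable section

namespace WEL

theorem lattice_bound : ∃ h0 > 0, ∀ h, 0 < h → h < h0 → ∀ (B : Finset Z3) (ν : B → ℝ),
    (∀ x, 0 ≤ ν x) → (∀ x, ν x ≤ 1) → ∀ (n : ℕ) (φ : Fin n → B → ℝ),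
      (∀ c : Fin n → ℝ, c ≠ 0 →
        ∑ x, ∑ y, (∑ i, c i * φ i x) * lapB B x y * (∑ i, c i * φ i y) <
          h ^ 2 * ∑ x, ν x * (∑ i, c i * φ i x) ^ 2) →
      (n : ℝ) ≤ 0.0777 * (h ^ 3 * ∑ x, ν x) := by
  apply finite_wells
  · intro h ε hh hε B ν hν0 hν1 hV n φ hneg L hL
    obtain ⟨e, X, r, m, β, hX, hr, hm, hβ, he, hrX, hmX, hr0, hr1, hmr, hβτ, hn⟩ :=
      partA h ε (47 / 200) (8 / 5) hh hε (by norm_num) (by norm_num) (by norm_num) kern kern_isKer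
        B ν hν0 hν1 hV n φ hneg
    refine hn.trans ?_
    apply mul_le_mul_of_nonneg_left (hL e X r m β hX hr hm hβ he hrX hmX hr0 hr1 hmr hβτ)
    have := Real.pi_pos
    positivity
  · obtain ⟨h0, hh0, H⟩ := partC hnum 0.001 (by norm_num)
    refine ⟨h0, hh0, ?_⟩
    intro h ε hh hlt hε hεlt B e X r m β hX hr hm hβ he hrX hmX hr0 hr1 hmr hβτ
    obtain ⟨z, r0, Hb, τ, C, hz, hr0m, hHm, hτm, hC, hH, hτH, hint⟩ := H h ε hh hlt hε hεlt
    have hb := partB (cube h) (A4_meas h) (A4_bdd h hh) (47 / 200) (8 / 5) (by norm_num)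
      (by norm_num) (by norm_num) kern kern_isKer (sym h ε) (sym_cont h ε hh hε)
      (sym_nonneg h ε hh hε) e X r m β hX hr hm hβ he hrX hmX hr0 hr1 hmr hβτ z r0 Hb τ hz hr0m
      hHm hτm C hC hH hτH
    refine hb.trans (hint.trans ?_)
    norm_num

theorem wells (W : E3 → ℝ) (lam : ℝ) (hW : Measurable W) (hW01 : ∀ x, 0 ≤ W x ∧ W x ≤ lam)
    (hWi : Integrable W) (n : ℕ) (u : Fin n → E3 → ℝ)
    (hu : ∀ i, ContDiff ℝ (⊤ : ℕ∞) (u i) ∧ HasCompactSupport (u i))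
    (hneg : ∀ c : Fin n → ℝ, c ≠ 0 →
      ∫ x, (‖fderiv ℝ (fun y => ∑ i, c i * u i y) x‖ ^ 2 - W x * (∑ i, c i * u i x) ^ 2) < 0) :
    (n : ℝ) ≤ 0.0777 * Real.sqrt lam * ∫ x, W x := by
  have key : ∀ l : ℝ, 0 < l → (∀ x, W x ≤ l) → (n : ℝ) ≤ 0.0777 * Real.sqrt l * ∫ x, W x := by
    intro l hl hWl
    obtain ⟨h0, hh0, H⟩ := lattice_bound
    obtain ⟨h, B, ν, φ, hh, hlt, hν, hle, hneg'⟩ :=
      discretize_bdd W l hl hW (fun x => (hW01 x).1) hWl hWi n u hu hneg h0 hh0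
    have := H h hh hlt B ν (fun x => (hν x).1) (fun x => (hν x).2) n φ hneg'
    calc (n : ℝ) ≤ 0.0777 * (h ^ 3 * ∑ x, ν x) := this
      _ ≤ 0.0777 * (Real.sqrt l * ∫ x, W x) := by
          apply mul_le_mul_of_nonneg_left hle (by norm_num)
      _ = 0.0777 * Real.sqrt l * ∫ x, W x := by ring
  have hlam : 0 ≤ lam := (hW01 0).1.trans (hW01 0).2
  rcases hlam.lt_or_eq with h | h
  · exact key lam h fun x => (hW01 x).2
  · have hW0 : ∀ x, W x = 0 := fun x => le_antisymm ((hW01 x).2.trans h.symm.le) (hW01 x).1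
    have := key 1 one_pos fun x => by rw [hW0 x]; norm_num
    have e : ∫ x, W x = 0 := by simp [hW0]
    rw [e] at this ⊢
    simpa using this

/-- the constant is below the conjectured sharp constant -/
theorem const_lt : (0.0777 : ℝ) < (3 * Real.pi) ^ (-(3 / 2) : ℝ) * Real.Gamma 3 / Real.Gamma (3 / 2) := by
  have hpi := Real.pi_pos
  have h3 : Real.Gamma 3 = 2 := by
    have h := Real.Gamma_nat_eq_factorial 2
    have e : ((2 : ℕ) : ℝ) + 1 = 3 := by norm_num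
    rw [e] at h
    rw [h]
    norm_num [Nat.factorial]
  have h32 : Real.Gamma (3 / 2) = Real.sqrt Real.pi / 2 := by
    have h := Real.Gamma_add_one (s := 1 / 2) (by norm_num)
    rw [Real.Gamma_one_half_eq] at h
    rw [show (3 / 2 : ℝ) = 1 / 2 + 1 by norm_num, h]
    ring
  rw [h3, h32]
  have e1 : (3 * Real.pi) ^ (-(3 / 2) : ℝ) = (3 * Real.pi * Real.sqrt (3 * Real.pi))⁻¹ := by
    rw [Real.rpow_neg (by positivity), show (3 / 2 : ℝ) = 1 + 1 / 2 by norm_num,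
      Real.rpow_add (by positivity), Real.rpow_one, ← Real.sqrt_eq_rpow]
  rw [e1]
  have e2 : Real.sqrt (3 * Real.pi) = Real.sqrt 3 * Real.sqrt Real.pi := Real.sqrt_mul (by norm_num) _
  have hs : Real.sqrt Real.pi * Real.sqrt Real.pi = Real.pi := Real.mul_self_sqrt hpi.le
  have hsp : 0 < Real.sqrt Real.pi := Real.sqrt_pos.2 hpi
  have hs3 : 0 < Real.sqrt 3 := Real.sqrt_pos.2 (by norm_num)
  have e3 : (3 * Real.pi * Real.sqrt (3 * Real.pi))⁻¹ * 2 / (Real.sqrt Real.pi / 2) =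
      4 / (3 * Real.sqrt 3 * Real.pi ^ 2) := by
    rw [e2]
    field_simp
    nlinarith
  rw [e3, lt_div_iff₀ (by positivity)]
  have hb3 : Real.sqrt 3 < 1.73206 := by
    rw [Real.sqrt_lt' (by norm_num)]
    norm_num
  have hbp : Real.pi < 3.1416 := Real.pi_lt_d4
  have hp2 : Real.pi ^ 2 < 3.1416 ^ 2 := by nlinarith
  have : Real.sqrt 3 * Real.pi ^ 2 < 1.73206 * 3.1416 ^ 2 := by
    apply mul_lt_mul'' hb3 hp2 hs3.le (by positivity)
  norm_num at this ⊢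
  nlinarith

end WEL
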