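import Pool.Agent.WEL.Defs

/-!
# WEL N0: real lemmas for the numerical part
-/

set_option autoImplicit false

open MeasureTheory Set Filter Topology

noncomputable section

namespace WEL

/-- semiconvexity on `[x0,x1]` -/
def Cv (x0 x1 M : ℝ) (φ : ℝ → ℝ) : Prop :=
  ConvexOn ℝ (Icc x0 x1) (fun x => φ x + M / 2 * x ^ 2)

theorem Cv.add {x0 x1 M N : ℝ} {φ ψ : ℝ → ℝ} (h : Cv x0 x1 M φ) (h' : Cv x0 x1 N ψ) :
    Cv x0 x1 (M + N) (fun x => φ x + ψ x) := by
  have := ConvexOn.add h h'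
  refine this.congr ?_
  intro x _
  simp only [Pi.add_apply]
  ring

theorem Cv.smul {x0 x1 M c : ℝ} {φ : ℝ → ℝ} (h : Cv x0 x1 M φ) (hc : 0 ≤ c) :
    Cv x0 x1 (c * M) (fun x => c * φ x) := by
  have := ConvexOn.smul hc h
  refine this.congr ?_
  intro x _
  simp only [smul_eq_mul]
  ring

theorem cv_sq (x0 x1 M : ℝ) (hM : 0 ≤ M) : ConvexOn ℝ (Icc x0 x1) (fun x => M / 2 * x ^ 2) := by
  have h1 : ConvexOn ℝ (Icc x0 x1) (fun x : ℝ => x ^ 2) :=
    (even_two.convexOn_pow).subset (subset_univ _) (convex_Icc _ _)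
  have := ConvexOn.smul (c := M / 2) (by positivity) h1
  exact this

theorem Cv.mono {x0 x1 M N : ℝ} {φ : ℝ → ℝ} (h : Cv x0 x1 M φ) (hMN : M ≤ N) :
    Cv x0 x1 N φ := by
  have := ConvexOn.add h (cv_sq x0 x1 (N - M) (by linarith))
  refine this.congr ?_
  intro x _
  simp only [Pi.add_apply]
  ring

theorem Cv.const (x0 x1 c : ℝ) : Cv x0 x1 0 (fun _ => c) := by
  unfold Cv
  have := convexOn_const (𝕜 := ℝ) c (convex_Icc x0 x1)
  refine this.congr ?_
  intro x _
  simp

/-- the interpolation bound -/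
theorem Cv.le {x0 x1 M : ℝ} {φ : ℝ → ℝ} (h : Cv x0 x1 M φ) (hM : 0 ≤ M) (h01 : x0 < x1)
    {x : ℝ} (hx0 : x0 ≤ x) (hx1 : x ≤ x1) :
    φ x ≤ max (φ x0) (φ x1) + M * (x1 - x0) ^ 2 / 8 := by
  set a := (x1 - x) / (x1 - x0) with ha
  set b := (x - x0) / (x1 - x0) with hb
  have hd : 0 < x1 - x0 := by linarith
  have ha0 : 0 ≤ a := div_nonneg (by linarith) hd.le
  have hb0 : 0 ≤ b := div_nonneg (by linarith) hd.le
  have hab : a + b = 1 := by
    rw [ha, hb, ← add_div]
    rw [div_eq_one_iff_eq hd.ne']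
    ring
  have hx : a * x0 + b * x1 = x := by
    rw [ha, hb]
    field_simp
    ring
  have key := h.2 (left_mem_Icc.2 h01.le) (right_mem_Icc.2 h01.le) ha0 hb0 hab
  simp only [smul_eq_mul] at key
  rw [hx] at key
  have hax : a * x0 ^ 2 + b * x1 ^ 2 - x ^ 2 = (x - x0) * (x1 - x) := by
    have hb' : b = 1 - a := by linarith
    have : x = a * x0 + (1 - a) * x1 := by rw [← hx, hb']
    rw [hb', this]
    ring
  have hmax : a * φ x0 + b * φ x1 ≤ max (φ x0) (φ x1) := by
    have h1 : a * φ x0 ≤ a * max (φ x0) (φ x1) := mul_le_mul_of_nonneg_left (le_max_left _ _) ha0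
    have h2 : b * φ x1 ≤ b * max (φ x0) (φ x1) := mul_le_mul_of_nonneg_left (le_max_right _ _) hb0
    calc a * φ x0 + b * φ x1 ≤ (a + b) * max (φ x0) (φ x1) := by linarith
      _ = _ := by rw [hab, one_mul]
  have hq : (x - x0) * (x1 - x) ≤ (x1 - x0) ^ 2 / 4 := by
    nlinarith [sq_nonneg ((x - x0) - (x1 - x))]
  have : φ x ≤ a * φ x0 + b * φ x1 + M / 2 * (a * x0 ^ 2 + b * x1 ^ 2 - x ^ 2) := by
    linarith
  rw [hax] at this
  have h3 : M / 2 * ((x - x0) * (x1 - x)) ≤ M / 2 * ((x1 - x0) ^ 2 / 4) :=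
    mul_le_mul_of_nonneg_left hq (by positivity)
  linarith

theorem cv_exp (x0 x1 b : ℝ) : Cv x0 x1 0 (fun x => Real.exp (-(b * x))) := by
  unfold Cv
  have h1 : ConvexOn ℝ univ (fun x : ℝ => Real.exp x) := convexOn_exp
  have h2 := h1.comp_linearMap (LinearMap.mulLeft ℝ (-b))
  have h3 : ConvexOn ℝ (Icc x0 x1) (fun x : ℝ => Real.exp (-(b * x))) := by
    refine (h2.subset (subset_univ _) (convex_Icc _ _)).congr ?_
    intro x _
    simp
  refine h3.congr ?_
  intro x _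
  simp

theorem cv_neg_exp (x0 x1 b : ℝ) (hb : 0 ≤ b) :
    Cv x0 x1 (b ^ 2 * Real.exp (-(b * x0))) (fun x => -Real.exp (-(b * x))) := by
  unfold Cv
  set M := b ^ 2 * Real.exp (-(b * x0)) with hM
  have hd1 : ∀ x : ℝ, HasDerivAt (fun x => -Real.exp (-(b * x)) + M / 2 * x ^ 2)
      (b * Real.exp (-(b * x)) + M * x) x := by
    intro x
    have h1 : HasDerivAt (fun x : ℝ => -(b * x)) (-b) x := by
      have e : (fun x : ℝ => -(b * x)) = fun x => x * (-b) := by
        funext x; ring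
      rw [e]
      exact hasDerivAt_mul_const (-b)
    have h2 := h1.exp.neg
    have h3 := (hasDerivAt_pow 2 x).const_mul (M / 2)
    refine (h2.add h3).congr_deriv ?_
    simp
    ring
  have hd2 : ∀ x : ℝ, HasDerivAt (fun x => b * Real.exp (-(b * x)) + M * x)
      (-(b ^ 2 * Real.exp (-(b * x))) + M) x := by
    intro x
    have h1 : HasDerivAt (fun x : ℝ => -(b * x)) (-b) x := by
      have e : (fun x : ℝ => -(b * x)) = fun x => x * (-b) := by
        funext x; ring
      rw [e]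
      exact hasDerivAt_mul_const (-b)
    have h2 := (h1.exp).const_mul b
    have h3 := (hasDerivAt_id x).const_mul M
    refine (h2.add h3).congr_deriv ?_
    simp
    ring
  refine convexOn_of_hasDerivWithinAt2_nonneg (f' := fun x => b * Real.exp (-(b * x)) + M * x)
    (f'' := fun x => -(b ^ 2 * Real.exp (-(b * x))) + M) (convex_Icc _ _) ?_ ?_ ?_ ?_
  · exact (continuous_iff_continuousAt.2 fun x => (hd1 x).continuousAt).continuousOn
  · intro x _
    exact (hd1 x).hasDerivWithinAt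
  · intro x _
    exact (hd2 x).hasDerivWithinAt
  · intro x hx
    rw [interior_Icc] at hx
    have : Real.exp (-(b * x)) ≤ Real.exp (-(b * x0)) := by
      apply Real.exp_le_exp.2
      have := mul_le_mul_of_nonneg_left hx.1.le hb
      linarith
    have h2 := mul_le_mul_of_nonneg_left this (sq_nonneg b)
    rw [← hM] at h2
    linarith

theorem cv_inv (x0 x1 c : ℝ) (h0 : 0 < x0) (hc : 0 ≤ c) : Cv x0 x1 0 (fun x => c / x) := by
  unfold Cv
  have h1 : ConvexOn ℝ (Ioi (0 : ℝ)) (fun x : ℝ => x ^ (-1 : ℤ)) := convexOn_zpow (-1)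
  have h2 : ConvexOn ℝ (Icc x0 x1) (fun x : ℝ => x ^ (-1 : ℤ)) :=
    h1.subset (fun x hx => lt_of_lt_of_le h0 hx.1) (convex_Icc _ _)
  have h3 := ConvexOn.smul hc h2
  refine h3.congr ?_
  intro x _
  simp [div_eq_mul_inv]

/-! ## the averaged inverse square -/

theorem ki_bound (x0 : ℝ) (h0 : 0 ≤ x0) (v : ℝ) (hv : v ∈ Icc (0 : ℝ) 1) :
    (8 * (1 - v ^ 2)) ^ 2 * Real.exp (-(8 * (1 - v ^ 2) * x0)) ≤ 64 * (1 - v ^ 2) ^ 2 := by
  have h1 : 0 ≤ 1 - v ^ 2 := by nlinarith [hv.1, hv.2]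
  have h2 : Real.exp (-(8 * (1 - v ^ 2) * x0)) ≤ 1 := by
    apply Real.exp_le_one_iff.2
    have : 0 ≤ 8 * (1 - v ^ 2) * x0 := by positivity
    linarith
  calc (8 * (1 - v ^ 2)) ^ 2 * Real.exp (-(8 * (1 - v ^ 2) * x0))
      ≤ (8 * (1 - v ^ 2)) ^ 2 * 1 := mul_le_mul_of_nonneg_left h2 (sq_nonneg _)
    _ = _ := by ring

theorem sq_exp_le (y : ℝ) (hy : 0 ≤ y) : y ^ 2 * Real.exp (-y) ≤ 9 / 16 := by
  -- (y/2) exp(-y/2) ≤ exp(-1) ≤ 3/8
  have h1 : y / 2 ≤ Real.exp (y / 2 - 1) := by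
    have := Real.add_one_le_exp (y / 2 - 1)
    linarith
  have he : Real.exp (-1) ≤ 3 / 8 := by
    have h := Real.exp_one_gt_d9
    rw [Real.exp_neg, inv_le_comm₀ (Real.exp_pos _) (by norm_num)]
    norm_num
    linarith
  have h2 : y / 2 * Real.exp (-(y / 2)) ≤ 3 / 8 := by
    calc y / 2 * Real.exp (-(y / 2)) ≤ Real.exp (y / 2 - 1) * Real.exp (-(y / 2)) :=
          mul_le_mul_of_nonneg_right h1 (Real.exp_pos _).le
      _ = Real.exp (-1) := by rw [← Real.exp_add]; congr 1; ring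
      _ ≤ 3 / 8 := he
  have h3 : 0 ≤ y / 2 * Real.exp (-(y / 2)) := by positivity
  have h4 : (y / 2 * Real.exp (-(y / 2))) ^ 2 ≤ (3 / 8) ^ 2 := by
    apply pow_le_pow_left₀ h3 h2
  have h5 : (y / 2 * Real.exp (-(y / 2))) ^ 2 = y ^ 2 / 4 * Real.exp (-y) := by
    rw [mul_pow, ← Real.exp_nat_mul]
    congr 1
    · ring
    · congr 1
      push_cast
      ring
  rw [h5] at h4
  linarith

/-- `-kiF` is semiconvex -/
theorem cv_neg_ki (x0 x1 M : ℝ) (h0 : 0 ≤ x0)
    (hM : 547 ≤ M ∨ (0 < x0 ∧ 9 / x0 ^ 2 ≤ M)) : Cv x0 x1 M (fun x => -kiF x) := by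
  have hM' : 16 * ∫ v in (0 : ℝ)..1, (8 * (1 - v ^ 2)) ^ 2 * Real.exp (-(8 * (1 - v ^ 2) * x0)) ≤ M := by
    rcases hM with h | ⟨hx, h⟩
    · have h1 : ∫ v in (0 : ℝ)..1, (8 * (1 - v ^ 2)) ^ 2 * Real.exp (-(8 * (1 - v ^ 2) * x0)) ≤
          ∫ v in (0 : ℝ)..1, (64 * (1 - v ^ 2) ^ 2 : ℝ) := by
        apply intervalIntegral.integral_mono_on (by norm_num)
        · apply Continuous.intervalIntegrable
          fun_prop
        · apply Continuous.intervalIntegrable
          fun_prop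
        · intro v hv
          exact ki_bound x0 h0 v hv
      have h2 : ∫ v in (0 : ℝ)..1, (64 * (1 - v ^ 2) ^ 2 : ℝ) = 512 / 15 := by
        have : ∀ v : ℝ, (64 * (1 - v ^ 2) ^ 2 : ℝ) = 64 - 128 * v ^ 2 + 64 * v ^ 4 := by
          intro v; ring
        simp_rw [this]
        rw [intervalIntegral.integral_add (by apply Continuous.intervalIntegrable; fun_prop)
          (by apply Continuous.intervalIntegrable; fun_prop),
          intervalIntegral.integral_sub (by apply Continuous.intervalIntegrable; fun_prop)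
          (by apply Continuous.intervalIntegrable; fun_prop)]
        simp only [intervalIntegral.integral_const_mul, integral_pow, intervalIntegral.integral_const,
          smul_eq_mul]
        norm_num
      rw [h2] at h1
      linarith
    · have h1 : ∫ v in (0 : ℝ)..1, (8 * (1 - v ^ 2)) ^ 2 * Real.exp (-(8 * (1 - v ^ 2) * x0)) ≤
          ∫ v in (0 : ℝ)..1, (9 / 16 / x0 ^ 2 : ℝ) := by
        apply intervalIntegral.integral_mono_on (by norm_num)
        · apply Continuous.intervalIntegrable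
          fun_prop
        · apply Continuous.intervalIntegrable
          fun_prop
        · intro v hv
          have h1' : 0 ≤ 1 - v ^ 2 := by nlinarith [hv.1, hv.2]
          have := sq_exp_le (8 * (1 - v ^ 2) * x0) (by positivity)
          rw [le_div_iff₀ (by positivity)]
          calc (8 * (1 - v ^ 2)) ^ 2 * Real.exp (-(8 * (1 - v ^ 2) * x0)) * x0 ^ 2
              = (8 * (1 - v ^ 2) * x0) ^ 2 * Real.exp (-(8 * (1 - v ^ 2) * x0)) := by ring
            _ ≤ _ := this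
      rw [intervalIntegral.integral_const] at h1
      simp only [smul_eq_mul] at h1
      have : 16 * (9 / 16 / x0 ^ 2) = 9 / x0 ^ 2 := by ring
      linarith
  -- the convexity
  have hconv : ConvexOn ℝ (Icc x0 x1) (fun x => 16 * ∫ v in (0 : ℝ)..1,
      (-Real.exp (-(8 * (1 - v ^ 2) * x))
        + (8 * (1 - v ^ 2)) ^ 2 * Real.exp (-(8 * (1 - v ^ 2) * x0)) / 2 * x ^ 2)) := by
    refine ⟨convex_Icc _ _, ?_⟩
    intro x hx y hy a b ha hb hab
    simp only [smul_eq_mul]
    have hint : ∀ w : ℝ, IntervalIntegrable (fun v : ℝ => (-Real.exp (-(8 * (1 - v ^ 2) * w))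
        + (8 * (1 - v ^ 2)) ^ 2 * Real.exp (-(8 * (1 - v ^ 2) * x0)) / 2 * w ^ 2)) volume 0 1 := by
      intro w
      apply Continuous.intervalIntegrable
      fun_prop
    have : ∫ v in (0 : ℝ)..1, (-Real.exp (-(8 * (1 - v ^ 2) * (a * x + b * y)))
        + (8 * (1 - v ^ 2)) ^ 2 * Real.exp (-(8 * (1 - v ^ 2) * x0)) / 2 * (a * x + b * y) ^ 2) ≤
        ∫ v in (0 : ℝ)..1, (a * (-Real.exp (-(8 * (1 - v ^ 2) * x))
        + (8 * (1 - v ^ 2)) ^ 2 * Real.exp (-(8 * (1 - v ^ 2) * x0)) / 2 * x ^ 2)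
        + b * (-Real.exp (-(8 * (1 - v ^ 2) * y))
        + (8 * (1 - v ^ 2)) ^ 2 * Real.exp (-(8 * (1 - v ^ 2) * x0)) / 2 * y ^ 2)) := by
      apply intervalIntegral.integral_mono_on (by norm_num) (hint _)
        (((hint x).const_mul a).add ((hint y).const_mul b))
      intro v hv
      have h1' : 0 ≤ 8 * (1 - v ^ 2) := by nlinarith [hv.1, hv.2]
      have := (cv_neg_exp x0 x1 (8 * (1 - v ^ 2)) h1').2 hx hy ha hb hab
      simpa only [smul_eq_mul] using this
    rw [intervalIntegral.integral_add ((hint x).const_mul a) ((hint y).const_mul b),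
      intervalIntegral.integral_const_mul, intervalIntegral.integral_const_mul] at this
    linarith
  have hsq := cv_sq x0 x1 (M - 16 * ∫ v in (0 : ℝ)..1,
    (8 * (1 - v ^ 2)) ^ 2 * Real.exp (-(8 * (1 - v ^ 2) * x0))) (by linarith)
  have := hconv.add hsq
  refine this.congr ?_
  intro x _
  simp only [Pi.add_apply, kiF]
  rw [intervalIntegral.integral_add (by apply Continuous.intervalIntegrable; fun_prop)
    (by apply Continuous.intervalIntegrable; fun_prop), intervalIntegral.integral_neg,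
    intervalIntegral.integral_mul_const, intervalIntegral.integral_div]
  ring

end WEL
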