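import Pool.Agent.WEL.N0

/-!
# WEL N1: recursion for the averaged inverse square, one cell of the certificate (real form)
-/

set_option autoImplicit false

open MeasureTheory Set Filter Topology

noncomputable section

namespace WEL

/-- `t kiF(t²)` as an integral over `[0,t]` -/
theorem ki_scaled (t : ℝ) : t * kiF (t ^ 2) =
    16 * ∫ u in (0 : ℝ)..t, Real.exp (-(8 * (t ^ 2 - u ^ 2))) := by
  have h := intervalIntegral.smul_integral_comp_mul_left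
    (f := fun u : ℝ => Real.exp (-(8 * (t ^ 2 - u ^ 2)))) (a := 0) (b := 1) t
  rw [mul_zero, mul_one, smul_eq_mul] at h
  rw [← h, kiF]
  have : ∀ v : ℝ, Real.exp (-(8 * (1 - v ^ 2) * t ^ 2)) = Real.exp (-(8 * (t ^ 2 - (t * v) ^ 2))) := by
    intro v
    congr 1
    ring
  simp_rw [this]
  ring

theorem ki_step (t0 t1 m : ℝ) (h01 : t0 ≤ t1) (h0 : 0 ≤ t0) (hm : m = (t0 + t1) / 2) :
    (t0 * kiF (t0 ^ 2) * Real.exp (-(8 * (m ^ 2 - t0 ^ 2))) + 16 * (t1 - t0))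
        * Real.exp (-(8 * (t1 ^ 2 - m ^ 2))) ≤ t1 * kiF (t1 ^ 2) := by
  rw [ki_scaled t0, ki_scaled t1]
  have hc : ∀ t : ℝ, Continuous fun u : ℝ => Real.exp (-(8 * (t ^ 2 - u ^ 2))) := by
    intro t; fun_prop
  have hsplit := intervalIntegral.integral_add_adjacent_intervals
    ((hc t1).intervalIntegrable (μ := volume) 0 t0) ((hc t1).intervalIntegrable (μ := volume) t0 t1)
  rw [← hsplit]
  have h1 : ∫ u in (0 : ℝ)..t0, Real.exp (-(8 * (t1 ^ 2 - u ^ 2))) =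
      Real.exp (-(8 * (t1 ^ 2 - t0 ^ 2))) * ∫ u in (0 : ℝ)..t0, Real.exp (-(8 * (t0 ^ 2 - u ^ 2))) := by
    rw [← intervalIntegral.integral_const_mul]
    congr 1
    funext u
    rw [← Real.exp_add]
    congr 1
    ring
  have h2 : (t1 - t0) * Real.exp (-(8 * (t1 ^ 2 - m ^ 2))) ≤
      ∫ u in t0..t1, Real.exp (-(8 * (t1 ^ 2 - u ^ 2))) := by
    have h3 : ∫ u in t0..t1, Real.exp (-(8 * (t1 ^ 2 - m ^ 2))) * (1 + 16 * m * (u - m)) ≤
        ∫ u in t0..t1, Real.exp (-(8 * (t1 ^ 2 - u ^ 2))) := by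
      apply intervalIntegral.integral_mono_on h01
      · apply Continuous.intervalIntegrable; fun_prop
      · exact (hc t1).intervalIntegrable _ _
      · intro u _
        have e1 : Real.exp (-(8 * (t1 ^ 2 - u ^ 2))) =
            Real.exp (-(8 * (t1 ^ 2 - m ^ 2))) * Real.exp (8 * (u ^ 2 - m ^ 2)) := by
          rw [← Real.exp_add]; congr 1; ring
        rw [e1]
        apply mul_le_mul_of_nonneg_left _ (Real.exp_pos _).le
        have := Real.add_one_le_exp (8 * (u ^ 2 - m ^ 2))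
        nlinarith [sq_nonneg (u - m)]
    have h4 : ∫ u in t0..t1, Real.exp (-(8 * (t1 ^ 2 - m ^ 2))) * (1 + 16 * m * (u - m)) =
        (t1 - t0) * Real.exp (-(8 * (t1 ^ 2 - m ^ 2))) := by
      rw [intervalIntegral.integral_const_mul]
      have : ∫ u in t0..t1, (1 + 16 * m * (u - m)) = t1 - t0 := by
        have e : ∀ u : ℝ, (1 + 16 * m * (u - m)) = (1 - 16 * m ^ 2) + 16 * m * u := by
          intro u; ring
        simp_rw [e]
        rw [intervalIntegral.integral_add (by apply Continuous.intervalIntegrable; fun_prop)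
          (by apply Continuous.intervalIntegrable; fun_prop), intervalIntegral.integral_const_mul,
          integral_id, intervalIntegral.integral_const]
        simp only [smul_eq_mul]
        rw [hm]
        ring
      rw [this]
      ring
    rw [h4] at h3
    exact h3
  rw [h1]
  have e2 : Real.exp (-(8 * (t1 ^ 2 - t0 ^ 2))) =
      Real.exp (-(8 * (m ^ 2 - t0 ^ 2))) * Real.exp (-(8 * (t1 ^ 2 - m ^ 2))) := by
    rw [← Real.exp_add]; congr 1; ring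
  rw [e2]
  nlinarith

/-- one cell of the certificate: everything except the bound of `t² Fn` -/
theorem cell_basic (x0 x1 x : ℝ) (h01 : x0 < x1) (hx0 : x0 ≤ x) (hx1 : x ≤ x1)
    (rL0 rL1 rH0 rH1 kL0 kL1 kH0 kH1 zL0 zL1 wH0 wH1 Mr Mk Mz Mw H : ℝ)
    (r0 : rL0 ≤ rhoF x0 ∧ rhoF x0 ≤ rH0) (r1 : rL1 ≤ rhoF x1 ∧ rhoF x1 ≤ rH1)
    (k0 : kL0 ≤ krhoF x0 ∧ krhoF x0 ≤ kH0) (k1 : kL1 ≤ krhoF x1 ∧ krhoF x1 ≤ kH1)
    (z0 : zL0 ≤ zF x0) (z1 : zL1 ≤ zF x1) (w0 : kzF x0 ≤ wH0) (w1 : kzF x1 ≤ wH1)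
    (cr : Cv x0 x1 Mr rhoF ∧ Cv x0 x1 Mr (fun x => -rhoF x))
    (ck : Cv x0 x1 Mk krhoF ∧ Cv x0 x1 Mk (fun x => -krhoF x))
    (cz : Cv x0 x1 Mz (fun x => -zF x)) (cw : Cv x0 x1 Mw kzF)
    (hMr : 0 ≤ Mr) (hMk : 0 ≤ Mk) (hMz : 0 ≤ Mz) (hMw : 0 ≤ Mw) (hH : 0 ≤ 1 - H - 1 / 10 ^ 6)
    (hc0 : wH0 + ((1 - H) * Mz + Mw) * (x1 - x0) ^ 2 / 8 ≤ (1 - H - 1 / 10 ^ 6) * zL0)
    (hc1 : wH1 + ((1 - H) * Mz + Mw) * (x1 - x0) ^ 2 / 8 ≤ (1 - H - 1 / 10 ^ 6) * zL1) :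
    kzF x ≤ (1 - H - 1 / 10 ^ 6) * zF x ∧
    min zL0 zL1 - Mz * (x1 - x0) ^ 2 / 8 ≤ zF x ∧
    min rL0 rL1 - Mr * (x1 - x0) ^ 2 / 8 ≤ rhoF x ∧
    rhoF x ≤ max rH0 rH1 + Mr * (x1 - x0) ^ 2 / 8 ∧
    min ((1 - H) * rL0 - kH0) ((1 - H) * rL1 - kH1) - ((1 - H) * Mr + Mk) * (x1 - x0) ^ 2 / 8
      ≤ (1 - H) * rhoF x - krhoF x ∧
    (1 - H) * rhoF x - krhoF x ≤
      max ((1 - H) * rH0 - kL0) ((1 - H) * rH1 - kL1)
        + ((1 - H) * Mr + Mk) * (x1 - x0) ^ 2 / 8 := by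
  have hH1 : 0 ≤ 1 - H := by
    have : (0 : ℝ) ≤ 1 / 10 ^ 6 := by norm_num
    linarith
  have hsq : 0 ≤ (x1 - x0) ^ 2 := sq_nonneg _
  refine ⟨?_, ?_, ?_, ?_, ?_, ?_⟩
  · have c := (cw.add (cz.smul hH)).le (by positivity) h01 hx0 hx1
    have e0 : kzF x0 + (1 - H - 1 / 10 ^ 6) * -zF x0 ≤ wH0 - (1 - H - 1 / 10 ^ 6) * zL0 := by
      have := mul_le_mul_of_nonneg_left z0 hH
      linarith
    have e1 : kzF x1 + (1 - H - 1 / 10 ^ 6) * -zF x1 ≤ wH1 - (1 - H - 1 / 10 ^ 6) * zL1 := by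
      have := mul_le_mul_of_nonneg_left z1 hH
      linarith
    have em : (Mw + (1 - H - 1 / 10 ^ 6) * Mz) * (x1 - x0) ^ 2 / 8 ≤
        ((1 - H) * Mz + Mw) * (x1 - x0) ^ 2 / 8 := by
      apply div_le_div_of_nonneg_right _ (by norm_num)
      apply mul_le_mul_of_nonneg_right _ hsq
      have : 0 ≤ 1 / 10 ^ 6 * Mz := by positivity
      linarith
    have hmx : max (kzF x0 + (1 - H - 1 / 10 ^ 6) * -zF x0) (kzF x1 + (1 - H - 1 / 10 ^ 6) * -zF x1)
        ≤ -(((1 - H) * Mz + Mw) * (x1 - x0) ^ 2 / 8) := by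
      apply max_le <;> linarith
    linarith
  · have c := cz.le hMz h01 hx0 hx1
    have : max (-zF x0) (-zF x1) ≤ -(min zL0 zL1) := by
      apply max_le
      · have := min_le_left zL0 zL1; linarith
      · have := min_le_right zL0 zL1; linarith
    linarith
  · have c := cr.2.le hMr h01 hx0 hx1
    have : max (-rhoF x0) (-rhoF x1) ≤ -(min rL0 rL1) := by
      apply max_le
      · have := min_le_left rL0 rL1; linarith [r0.1]
      · have := min_le_right rL0 rL1; linarith [r1.1]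
    linarith
  · have c := cr.1.le hMr h01 hx0 hx1
    have : max (rhoF x0) (rhoF x1) ≤ max rH0 rH1 := max_le_max r0.2 r1.2
    linarith
  · have c := (ck.1.add (cr.2.smul hH1)).le (by positivity) h01 hx0 hx1
    have : max (krhoF x0 + (1 - H) * -rhoF x0) (krhoF x1 + (1 - H) * -rhoF x1) ≤
        -(min ((1 - H) * rL0 - kH0) ((1 - H) * rL1 - kH1)) := by
      apply max_le
      · have h1 := min_le_left ((1 - H) * rL0 - kH0) ((1 - H) * rL1 - kH1)
        have h2 := mul_le_mul_of_nonneg_left r0.1 hH1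
        linarith [k0.2]
      · have h1 := min_le_right ((1 - H) * rL0 - kH0) ((1 - H) * rL1 - kH1)
        have h2 := mul_le_mul_of_nonneg_left r1.1 hH1
        linarith [k1.2]
    have e : (Mk + (1 - H) * Mr) * (x1 - x0) ^ 2 / 8 = ((1 - H) * Mr + Mk) * (x1 - x0) ^ 2 / 8 := by
      ring
    linarith
  · have c := ((cr.1.smul hH1).add ck.2).le (by positivity) h01 hx0 hx1
    have : max ((1 - H) * rhoF x0 + -krhoF x0) ((1 - H) * rhoF x1 + -krhoF x1) ≤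
        max ((1 - H) * rH0 - kL0) ((1 - H) * rH1 - kL1) := by
      apply max_le_max
      · have h2 := mul_le_mul_of_nonneg_left r0.2 hH1
        linarith [k0.1]
      · have h2 := mul_le_mul_of_nonneg_left r1.2 hH1
        linarith [k1.1]
    linarith

/-- the regular part of the coefficient -/
def gt (H τ x : ℝ) : ℝ :=
  -(47 / 153) - 640 / 153 * kiF x - τ ^ 2 - 16 / 5 * H - 32 / 5 * (1 - H) * rhoF x
    + 32 / 5 * krhoF x

theorem Fn_eq (H τ x : ℝ) (hx : 0 < x) :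
    x * Fn H τ x = max 0 (280 / 51 + x * gt H τ x)
      + x * (τ ^ 2 + 16 / 5 * (rhoF x * ((1 - H) * rhoF x - krhoF x))) := by
  unfold Fn gt
  have e : (1 / x - 47 / 200) / (153 / 200) + 16 / 5 / (153 / 200) * (1 / x - kiF x) - τ ^ 2
      - 16 / 5 * H + 32 / 5 * H * rhoF x - 32 / 5 * (rhoF x - krhoF x) =
      (1 / x) * (280 / 51 + x * (-(47 / 153) - 640 / 153 * kiF x - τ ^ 2 - 16 / 5 * H
        - 32 / 5 * (1 - H) * rhoF x + 32 / 5 * krhoF x)) := by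
    field_simp
    ring
  rw [e]
  have hm : x * max 0 (1 / x * (280 / 51 + x * (-(47 / 153) - 640 / 153 * kiF x - τ ^ 2 - 16 / 5 * H
        - 32 / 5 * (1 - H) * rhoF x + 32 / 5 * krhoF x))) = max 0 (280 / 51 + x * (-(47 / 153)
          - 640 / 153 * kiF x - τ ^ 2 - 16 / 5 * H
        - 32 / 5 * (1 - H) * rhoF x + 32 / 5 * krhoF x)) := by
    rw [mul_max_of_nonneg _ _ hx.le, mul_zero, ← mul_assoc, mul_one_div_cancel hx.ne', one_mul]
  linear_combination hm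

/-- the bound of the regular part at the nodes and in the cell -/
theorem cell_g (x0 x1 x : ℝ) (h01 : x0 < x1) (hx0 : x0 ≤ x) (hx1 : x ≤ x1)
    (rL0 rL1 kH0 kH1 K0 K1 Mr Mk MK H τ : ℝ)
    (r0 : rL0 ≤ rhoF x0) (r1 : rL1 ≤ rhoF x1)
    (k0 : krhoF x0 ≤ kH0) (k1 : krhoF x1 ≤ kH1)
    (hK0 : K0 ≤ kiF x0) (hK1 : K1 ≤ kiF x1)
    (cr : Cv x0 x1 Mr (fun x => -rhoF x)) (ck : Cv x0 x1 Mk krhoF)
    (cK : Cv x0 x1 MK (fun x => -kiF x))
    (hMr : 0 ≤ Mr) (hMk : 0 ≤ Mk) (hMK : 0 ≤ MK) (hH : 0 ≤ 1 - H)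
    (c : ℝ) (hc : 0 ≤ c) (hc0 : 0 < c → 0 < x0) :
    c / x + gt H τ x ≤
      max (c / x0 + (-(47 / 153) - 640 / 153 * K0 - τ ^ 2 - 16 / 5 * H - 32 / 5 * (1 - H) * rL0
          + 32 / 5 * kH0))
        (c / x1 + (-(47 / 153) - 640 / 153 * K1 - τ ^ 2 - 16 / 5 * H - 32 / 5 * (1 - H) * rL1
          + 32 / 5 * kH1))
      + (640 / 153 * MK + 32 / 5 * ((1 - H) * Mr + Mk)) * (x1 - x0) ^ 2 / 8 := by
  have cc : Cv x0 x1 0 (fun x => c / x) := by
    rcases hc.lt_or_eq with h | h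
    · exact cv_inv x0 x1 c (hc0 h) hc
    · rw [← h]
      simpa using Cv.const x0 x1 0
  have cg : Cv x0 x1 (640 / 153 * MK + 32 / 5 * ((1 - H) * Mr + Mk)) (fun x => c / x + gt H τ x) := by
    have h1 := (((cK.smul (c := 640 / 153) (by norm_num)).add
      (((cr.smul hH).add ck).smul (c := 32 / 5) (by norm_num))).add
      (Cv.const x0 x1 (-(47 / 153) - τ ^ 2 - 16 / 5 * H))).add cc
    unfold Cv at h1 ⊢
    refine h1.congr ?_
    intro y _
    simp only [gt]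
    ring
  have h := cg.le (by positivity) h01 hx0 hx1
  have m0 : c / x0 + gt H τ x0 ≤ c / x0 + (-(47 / 153) - 640 / 153 * K0 - τ ^ 2 - 16 / 5 * H
      - 32 / 5 * (1 - H) * rL0 + 32 / 5 * kH0) := by
    unfold gt
    have := mul_le_mul_of_nonneg_left r0 hH
    nlinarith
  have m1 : c / x1 + gt H τ x1 ≤ c / x1 + (-(47 / 153) - 640 / 153 * K1 - τ ^ 2 - 16 / 5 * H
      - 32 / 5 * (1 - H) * rL1 + 32 / 5 * kH1) := by
    unfold gt
    have := mul_le_mul_of_nonneg_left r1 hH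
    nlinarith
  have := max_le_max m0 m1
  linarith

end WEL
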