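import Mathlib

/-!
# WEL N2: the integer program of the certificate

All numbers are scaled by `2 ^ 80`; `t = T / 4096`, step `D / 4096`.
-/

set_option autoImplicit false

namespace WEL

/-- enclosures of `exp(-e t²)`, `exp(-e((t+δ)²-t²))`, `exp(-2eδ²)` -/
structure Tr where
  lo : ℕ
  hi : ℕ
  ql : ℕ
  qh : ℕ
  cl : ℕ
  ch : ℕ
deriving DecidableEq

/-- lower bounds of `t kiF(t²)`, `exp(-8((t+δ/2)²-t²))`, `exp(-4δ²)` -/
structure Js where
  J : ℕ
  qa : ℕ
  cc : ℕ
deriving DecidableEq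

/-- eight enclosures -/
structure V8 where
  a0 : Tr
  a1 : Tr
  a2 : Tr
  a3 : Tr
  a4 : Tr
  a5 : Tr
  a6 : Tr
  a7 : Tr
deriving DecidableEq

/-- state at a node -/
structure St where
  A : V8
  B : V8
  j : Js
  T : ℕ
deriving DecidableEq

def stp (s : Tr) : Tr :=
  ⟨s.lo * s.ql / 1208925819614629174706176, s.hi * s.qh / 1208925819614629174706176 + 1,
    s.ql * s.cl / 1208925819614629174706176, s.qh * s.ch / 1208925819614629174706176 + 1, s.cl, s.ch⟩

def dbl (s : Tr) : Tr :=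
  ⟨s.lo, s.hi, s.ql * s.ql / 1208925819614629174706176 * s.cl / 1208925819614629174706176,
    (s.qh * s.qh / 1208925819614629174706176 + 1) * s.ch / 1208925819614629174706176 + 1,
    s.cl * s.cl / 1208925819614629174706176 * (s.cl * s.cl / 1208925819614629174706176) / 1208925819614629174706176,
    (s.ch * s.ch / 1208925819614629174706176 + 1) * (s.ch * s.ch / 1208925819614629174706176 + 1) / 1208925819614629174706176 + 1⟩

def Js.next (D : ℕ) (j : Js) : Js :=
  ⟨(j.J * j.qa / 1208925819614629174706176 + D * 4722366482869645213696) *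
      (j.qa * j.cc / 1208925819614629174706176) / 1208925819614629174706176,
    j.qa * j.cc / 1208925819614629174706176 * j.cc / 1208925819614629174706176, j.cc⟩

def Js.dbl (j : Js) : Js :=
  ⟨j.J, j.qa * (j.qa * j.cc / 1208925819614629174706176) / 1208925819614629174706176,
    j.cc * j.cc / 1208925819614629174706176 * (j.cc * j.cc / 1208925819614629174706176) / 1208925819614629174706176⟩

def V8.map (f : Tr → Tr) (v : V8) : V8 :=
  ⟨f v.a0, f v.a1, f v.a2, f v.a3, f v.a4, f v.a5, f v.a6, f v.a7⟩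

def St.next (D : ℕ) (s : St) : St := ⟨s.A.map stp, s.B.map stp, s.j.next D, s.T + D⟩

def St.dbl (s : St) : St := ⟨s.A.map WEL.dbl, s.B.map WEL.dbl, s.j.dbl, s.T⟩

def rLo (v : V8) : ℤ :=
  ((((3530 * v.a2.lo + 726 * v.a3.lo + 5350 * v.a5.lo + 1477 * v.a7.lo : ℕ)) : ℤ) -
    (((245 * v.a0.hi + 729 * v.a1.hi + 5966 * v.a4.hi + 3079 * v.a6.hi : ℕ)) : ℤ)) / 1000

def rHi (v : V8) : ℤ :=
  ((((3530 * v.a2.hi + 726 * v.a3.hi + 5350 * v.a5.hi + 1477 * v.a7.hi : ℕ)) : ℤ) -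
    (((245 * v.a0.lo + 729 * v.a1.lo + 5966 * v.a4.lo + 3079 * v.a6.lo : ℕ)) : ℤ)) / 1000 + 1

def kLo (v : V8) : ℤ :=
  ((((4632404158592325777510 * v.a2.lo + 871351097323880448000 * v.a3.lo + 4616278462495882800000 * v.a5.lo + 652512254957474107392 * v.a7.lo : ℕ)) : ℤ) -
    (((351935391862620160000 * v.a0.hi + 1009340934354468864000 * v.a1.hi + 6247519728099566026752 * v.a4.hi + 1936758334656466555128 * v.a6.hi : ℕ)) : ℤ)) / 1491014800596801024000

def kHi (v : V8) : ℤ :=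
  ((((4632404158592325777510 * v.a2.hi + 871351097323880448000 * v.a3.hi + 4616278462495882800000 * v.a5.hi + 652512254957474107392 * v.a7.hi : ℕ)) : ℤ) -
    (((351935391862620160000 * v.a0.lo + 1009340934354468864000 * v.a1.lo + 6247519728099566026752 * v.a4.lo + 1936758334656466555128 * v.a6.lo : ℕ)) : ℤ)) / 1491014800596801024000 + 1

def zLo (v : V8) : ℤ :=
  1208925819614629174706176 + ((((189 * v.a0.lo + 823 * v.a1.lo + 2022 * v.a4.lo + 135 * v.a5.lo : ℕ)) : ℤ) -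
    (((15 * v.a2.hi + 2564 * v.a3.hi + 517 * v.a6.hi + 73 * v.a7.hi : ℕ)) : ℤ))

def zHi (v : V8) : ℤ :=
  1208925819614629174706176 + ((((189 * v.a0.hi + 823 * v.a1.hi + 2022 * v.a4.hi + 135 * v.a5.hi : ℕ)) : ℤ) -
    (((15 * v.a2.lo + 2564 * v.a3.lo + 517 * v.a6.lo + 73 * v.a7.lo : ℕ)) : ℤ))

def wHi (v : V8) : ℤ :=
  1208925819614629174706176 + (((((271493016579735552000 * v.a0.hi + 1139489148112109568000 * v.a1.hi + 2117412821022011817984 * v.a4.hi + 116485531296625080000 * v.a5.hi : ℕ)) : ℤ) -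
    (((19684436934528296505 * v.a2.lo + 3077333627463401472000 * v.a3.lo + 325204306273917898344 * v.a6.lo + 32250097909204881408 * v.a7.lo : ℕ)) : ℤ)) / 1491014800596801024 + 1)

def mR (v : V8) : ℕ :=
  (11 * v.a0.hi + 123 * v.a1.hi + 1827 * v.a2.hi + 1153 * v.a3.hi + 27587 * v.a4.hi + 67880 * v.a5.hi + 122068 * v.a6.hi + 151245 * v.a7.hi) / 1024 + 1

def mK (v : V8) : ℕ :=
  (10 * v.a0.hi + 104 * v.a1.hi + 1356 * v.a2.hi + 695 * v.a3.hi + 12096 * v.a4.hi + 18944 * v.a5.hi + 16295 * v.a6.hi + 8853 * v.a7.hi) / 1024 + 1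

def mZ (v : V8) : ℕ :=
  (7839 * v.a0.hi + 138233 * v.a1.hi + 7760 * v.a2.hi + 4069647 * v.a3.hi + 9349728 * v.a4.hi + 1712849 * v.a5.hi + 20496587 * v.a6.hi + 7475200 * v.a7.hi) / 1024 + 1

def mW (v : V8) : ℕ :=
  (7186 * v.a0.hi + 116291 * v.a1.hi + 5761 * v.a2.hi + 2453000 * v.a3.hi + 4099505 * v.a4.hi + 478025 * v.a5.hi + 2735964 * v.a6.hi + 437506 * v.a7.hi) / 1024 + 1

/-- data at a node -/
structure Nd where
  rL : ℤ
  rH : ℤ
  kL : ℤ
  kH : ℤ
  zL : ℤ
  zH : ℤ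
  wH : ℤ
  Mr : ℕ
  Mk : ℕ
  Mz : ℕ
  Mw : ℕ
  K : ℕ
  MK : ℕ
  T : ℕ

def kiLo (s : St) : ℕ := bif Nat.beq s.T 0 then 19342813113834066795298816 else s.j.J * 4096 / s.T

def kiM (s : St) : ℕ := bif Nat.beq s.T 0 then 661282423329202158564278272 else
  min 661282423329202158564278272 (3062541302288446171170371466885913903104 / (s.T * s.T * (s.T * s.T)) + 1)

def node (s : St) : Nd :=
  ⟨rLo s.A, rHi s.A, kLo s.B, kHi s.B, zLo s.A, zHi s.A, wHi s.B, mR s.A, mK s.B, mZ s.A, mW s.B,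
    kiLo s, kiM s, s.T⟩

/-- `(x1-x0)^2 * 2^48` -/
def dsq (m n : Nd) : ℤ :=
  ((n.T : ℤ) * n.T - (m.T : ℤ) * m.T) * ((n.T : ℤ) * n.T - (m.T : ℤ) * m.T)

def quo (zL zH wH e : ℤ) : ℤ :=
  bif decide (0 ≤ zL - wH - e) then (zL - wH - e) * 1048576 / zH else (zL - wH - e) * 1048576 / zL

/-- choice of `H` (heuristic; nothing is proved about it) -/
def selH (m n : Nd) : ℤ :=
  let q := dsq m n
  let h0 := min (quo m.zL m.zH m.wH 0) (quo n.zL n.zH n.wH 0)
  let b0 := (1048576 - h0 + 32768) * m.Mz / 1048576 + m.Mw + 2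
  let e0 := b0 * q / 2251799813685248 + 1
  min (quo m.zL m.zH m.wH e0) (quo n.zL n.zH n.wH e0) - 2

/-- choice of `τ` (heuristic) -/
def selT (H : ℤ) : ℤ :=
  bif decide (H ≤ 0) then 0 else
    let U := (8 * H + 4) / 5
    U - U * U / 2097152 + U * U * U / 2199023255552 + 1

/-- `M (x1-x0)^2 / 8`, rounded up -/
def eUp (M q : ℤ) : ℤ := M * q / 2251799813685248 + 1

def mnI (a b : ℤ) : ℤ := bif decide (a ≤ b) then a else b

def mxI (a b : ℤ) : ℤ := bif decide (a ≤ b) then b else a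

def chk1 (m n : Nd) (H t : ℤ) : Bool :=
  let q := dsq m n
  let hm := 1048576 - H
  let e := eUp (hm * m.Mz / 1048576 + m.Mw + 2) q
  decide (1048576000000 * (m.wH + e) ≤ (hm * 1000000 - 1048576) * m.zL) &&
  decide (1048576000000 * (n.wH + e) ≤ (hm * 1000000 - 1048576) * n.zL) &&
  decide (1048576 ≤ hm * 1000000) && decide (0 ≤ t) && decide (t ≤ 4194304) &&
  decide (-1073741824 ≤ H) &&
  decide (16 * H * 1048576 ≤ 5 * (2 * t * 1048576 + t * t)) &&
  decide (1208925819614629174706176 ≤ 2 * (mnI m.zL n.zL - eUp m.Mz q))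

/-- the coefficient at a node -/
def gN (K kH rL H t : ℤ) : ℤ :=
  5497558138880 * (-56819513521887571211190272 - 640 * K) - 765 * t * t * 1208925819614629174706176
    - 3103208669358705574863929446760448 * H + 5133828096 * (1048576 * kH - (1048576 - H) * rL)

/-- bound of `765·2^40·2^80·(x Fn)^+` in the cell -/
def cG1 (m n : Nd) (H t : ℤ) : ℤ :=
  let q := dsq m n
  let G0 := gN m.K m.kH m.rL H t
  let G1 := gN n.K n.kH n.rL H t
  let E := eUp (3518437208883200 * m.MK + 5133828096 * ((1048576 - H) * m.Mr + 1048576 * m.Mk)) q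
  let s := mxI G0 G1 + E
  let g2 := 5582757582296646666195989653177447219200 + (bif decide (s ≤ 0) then s * (m.T * m.T : ℕ) else s * (n.T * n.T : ℕ)) / 16777216 + 1
  let g := mxI (((93663129833828617194450016745123118325117747200 / (m.T * m.T) + 1 : ℕ) : ℤ) + G0) (((93663129833828617194450016745123118325117747200 / (n.T * n.T) + 1 : ℕ) : ℤ) + G1) + E
  let g1 := bif decide (g ≤ 0) then 0 else g * (n.T * n.T : ℕ) / 16777216 + 1
  mxI 0 (bif Nat.beq m.T 0 then g2 else mnI g1 g2)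

def cRl (m n : Nd) (q : ℤ) : ℤ := mnI m.rL n.rL - eUp m.Mr q
def cRh (m n : Nd) (q : ℤ) : ℤ := mxI m.rH n.rH + eUp m.Mr q
def cWl (m n : Nd) (H q : ℤ) : ℤ :=
  mnI ((1048576 - H) * m.rL - 1048576 * m.kH) ((1048576 - H) * n.rL - 1048576 * n.kH)
    - eUp ((1048576 - H) * m.Mr + 1048576 * m.Mk) q
def cWh (m n : Nd) (H q : ℤ) : ℤ :=
  mxI ((1048576 - H) * m.rH - 1048576 * m.kL) ((1048576 - H) * n.rH - 1048576 * n.kL)
    + eUp ((1048576 - H) * m.Mr + 1048576 * m.Mk) q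

def chk2 (m n : Nd) : Bool :=
  let q := dsq m n
  decide (-13298184015760920921767936 ≤ 10 * cRl m n q) && decide (10 * cRh m n q ≤ 13298184015760920921767936)

def cG2 (m n : Nd) (H t : ℤ) : ℤ :=
  let q := dsq m n
  let rl := cRl m n q
  let rh := cRh m n q
  let wl := cWl m n H q
  let wh := cWh m n H q
  let p := mxI (mxI (rl * wl) (rl * wh)) (mxI (rh * wl) (rh * wh))
  let f := 765 * t * t * 1208925819614629174706176 + 2448 * (p * 1048576 / 1208925819614629174706176 + 1)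
  (bif decide (f ≤ 0) then f * (m.T * m.T : ℕ) else f * (n.T * n.T : ℕ)) / 16777216 + 1

/-- the loop -/
def run (D : ℕ) : ℕ → St → Nd → ℤ → Option (St × ℤ)
  | 0, s, _, S => some (s, S)
  | k + 1, s, m, S =>
    let s' := s.next D
    let n := node s'
    let H := selH m n
    let t := selT H
    bif chk1 m n H t && chk2 m n then
      run D k s' n (S + D * (cG1 m n H t + cG2 m n H t))
    else none

end WEL
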