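import Pool.Agent.WEL.NDefs

/-!
# WEL N3a
Soundness of the steps.
-/

set_option autoImplicit false

open MeasureTheory Set Filter Topology

noncomputable section

namespace WEL

theorem N3a_lo {a b : ℕ} {x y : ℝ} (ha : (a : ℝ) / 2 ^ 80 ≤ x) (hb : (b : ℝ) / 2 ^ 80 ≤ y)
    (hx : 0 ≤ x) : ((a * b / 1208925819614629174706176 : ℕ) : ℝ) / 2 ^ 80 ≤ x * y := by
  have e80 : (2 : ℝ) ^ 80 = 1208925819614629174706176 := by norm_num
  have h1 : ((a * b / 1208925819614629174706176 : ℕ) : ℝ) ≤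
      ((a * b : ℕ) : ℝ) / ((1208925819614629174706176 : ℕ) : ℝ) := Nat.cast_div_le
  push_cast at h1
  have h2 : (a : ℝ) / 2 ^ 80 * ((b : ℝ) / 2 ^ 80) ≤ x * y :=
    mul_le_mul ha hb (by positivity) hx
  refine le_trans ?_ h2
  have e : (a : ℝ) / 2 ^ 80 * ((b : ℝ) / 2 ^ 80) = ((a : ℝ) * b / 1208925819614629174706176) / 2 ^ 80 := by
    rw [e80]
    ring
  rw [e]
  exact div_le_div_of_nonneg_right h1 (by positivity)

theorem N3a_hi {a b : ℕ} {x y : ℝ} (ha : x ≤ (a : ℝ) / 2 ^ 80) (hb : y ≤ (b : ℝ) / 2 ^ 80)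
    (hy : 0 ≤ y) : x * y ≤ ((a * b / 1208925819614629174706176 + 1 : ℕ) : ℝ) / 2 ^ 80 := by
  have e80 : (2 : ℝ) ^ 80 = 1208925819614629174706176 := by norm_num
  have h1 : (a : ℝ) * b / 1208925819614629174706176 ≤
      ((a * b / 1208925819614629174706176 + 1 : ℕ) : ℝ) := by
    have h := Nat.lt_div_mul_add (a := a * b) (b := 1208925819614629174706176) (by norm_num)
    rw [div_le_iff₀ (by norm_num)]
    have h' : ((a * b : ℕ) : ℝ) < ((a * b / 1208925819614629174706176 * 1208925819614629174706176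
        + 1208925819614629174706176 : ℕ) : ℝ) := by exact_mod_cast h
    push_cast at h' ⊢
    linarith
  have h2 : x * y ≤ (a : ℝ) / 2 ^ 80 * ((b : ℝ) / 2 ^ 80) := by
    apply mul_le_mul ha hb hy (by positivity)
  refine h2.trans ?_
  have e : (a : ℝ) / 2 ^ 80 * ((b : ℝ) / 2 ^ 80) = ((a : ℝ) * b / 1208925819614629174706176) / 2 ^ 80 := by
    rw [e80]
    ring
  rw [e]
  exact div_le_div_of_nonneg_right h1 (by positivity)

theorem stp_ok {e : ℝ} {D T : ℕ} {s : Tr} (h : TrOK e D T s) : TrOK e D (T + D) (stp s) := by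
  have p := Real.exp_nonneg
  constructor
  · have := N3a_lo h.lo h.ql (p _)
    refine this.trans (le_of_eq ?_)
    rw [← Real.exp_add]
    congr 1
    push_cast
    ring
  · have := N3a_hi h.hi h.qh (p _)
    refine le_trans (le_of_eq ?_) this
    rw [← Real.exp_add]
    congr 1
    push_cast
    ring
  · have := N3a_lo h.ql h.cl (p _)
    refine this.trans (le_of_eq ?_)
    rw [← Real.exp_add]
    congr 1
    push_cast
    ring
  · have := N3a_hi h.qh h.ch (p _)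
    refine le_trans (le_of_eq ?_) this
    rw [← Real.exp_add]
    congr 1
    push_cast
    ring
  · exact h.cl
  · exact h.ch

theorem dbl_ok {e : ℝ} {D T : ℕ} {s : Tr} (h : TrOK e D T s) : TrOK e (2 * D) T (dbl s) := by
  have p := Real.exp_nonneg
  have mp : ∀ x y : ℝ, 0 ≤ Real.exp x * Real.exp y := fun x y => mul_nonneg (p _) (p _)
  constructor
  · exact h.lo
  · exact h.hi
  · have := N3a_lo (N3a_lo h.ql h.ql (p _)) h.cl (mp _ _)
    refine this.trans (le_of_eq ?_)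
    rw [← Real.exp_add, ← Real.exp_add]
    congr 1
    push_cast
    ring
  · have := N3a_hi (N3a_hi h.qh h.qh (p _)) h.ch (p _)
    refine le_trans (le_of_eq ?_) this
    rw [← Real.exp_add, ← Real.exp_add]
    congr 1
    push_cast
    ring
  · have := N3a_lo (N3a_lo h.cl h.cl (p _)) (N3a_lo h.cl h.cl (p _)) (mp _ _)
    refine this.trans (le_of_eq ?_)
    rw [← Real.exp_add, ← Real.exp_add]
    congr 1
    push_cast
    ring
  · have := N3a_hi (N3a_hi h.ch h.ch (p _)) (N3a_hi h.ch h.ch (p _)) (mp _ _)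
    refine le_trans (le_of_eq ?_) this
    rw [← Real.exp_add, ← Real.exp_add]
    congr 1
    push_cast
    ring

theorem N3a_eq (j : Js) (D : ℕ) : Js.next D j =
    ⟨(j.J * j.qa / 1208925819614629174706176 + D * 4722366482869645213696) *
      (j.qa * j.cc / 1208925819614629174706176) / 1208925819614629174706176,
      j.qa * j.cc / 1208925819614629174706176 * j.cc / 1208925819614629174706176, j.cc⟩ := rfl

theorem N3a_pJ (a b c : ℕ) : (⟨a, b, c⟩ : Js).J = a := rfl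
theorem N3a_pqa (a b c : ℕ) : (⟨a, b, c⟩ : Js).qa = b := rfl
theorem N3a_pcc (a b c : ℕ) : (⟨a, b, c⟩ : Js).cc = c := rfl

theorem N3a_cc (j : Js) (D : ℕ) : (j.next D).cc = j.cc := by
  rw [N3a_eq, N3a_pcc]

theorem N3a_qa (j : Js) (D : ℕ) : (j.next D).qa =
    j.qa * j.cc / 1208925819614629174706176 * j.cc / 1208925819614629174706176 := by
  rw [N3a_eq, N3a_pqa]

theorem N3a_J (j : Js) (D : ℕ) : (j.next D).J =
    (j.J * j.qa / 1208925819614629174706176 + D * 4722366482869645213696) *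
      (j.qa * j.cc / 1208925819614629174706176) / 1208925819614629174706176 := by
  rw [N3a_eq, N3a_pJ]
theorem N3a_add {a D : ℕ} {x : ℝ} (h1 : (a : ℝ) / 2 ^ 80 ≤ x) :
    ((a + D * 4722366482869645213696 : ℕ) : ℝ) / 2 ^ 80 ≤ x + (D : ℝ) / 256 := by
  have e80 : (2 : ℝ) ^ 80 = 1208925819614629174706176 := by norm_num
  rw [e80] at h1 ⊢
  push_cast
  rw [div_le_iff₀ (by norm_num)] at h1 ⊢
  linarith

theorem N3a_JJ {J qa cc D : ℕ} {x y z : ℝ} (hJ : (J : ℝ) / 2 ^ 80 ≤ x) (hqa : (qa : ℝ) / 2 ^ 80 ≤ y)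
    (hqb : ((qa * cc / 1208925819614629174706176 : ℕ) : ℝ) / 2 ^ 80 ≤ z) (hx : 0 ≤ x) (hy : 0 ≤ y) :
    (((J * qa / 1208925819614629174706176 + D * 4722366482869645213696) *
      (qa * cc / 1208925819614629174706176) / 1208925819614629174706176 : ℕ) : ℝ) / 2 ^ 80 ≤
      (x * y + (D : ℝ) / 256) * z := by
  have h1 := N3a_lo hJ hqa hx
  have h2 := N3a_add (D := D) h1
  generalize J * qa / 1208925819614629174706176 + D * 4722366482869645213696 = u at h2 ⊢
  exact N3a_lo h2 hqb (by positivity)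

theorem js_next_ok {D T : ℕ} {j : Js} (h : JsOK D T j) : JsOK D (T + D) (j.next D) := by
  have p := Real.exp_nonneg
  have hqb := N3a_lo h.qa h.cc (p _)
  have eqb : Real.exp (-(8 * ((((T : ℝ) + D / 2) / 4096) ^ 2 - ((T : ℝ) / 4096) ^ 2))) *
      Real.exp (-(4 * ((D : ℝ) / 4096) ^ 2)) =
      Real.exp (-(8 * ((((T : ℝ) + D) / 4096) ^ 2 - (((T : ℝ) + D / 2) / 4096) ^ 2))) := by
    rw [← Real.exp_add]
    congr 1
    ring
  rw [eqb] at hqb
  have hki0 : (0 : ℝ) ≤ (T : ℝ) / 4096 * kiF (((T : ℝ) / 4096) ^ 2) :=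
    le_trans (by positivity) h.J
  constructor
  · rw [N3a_J]
    have h3 := N3a_JJ (D := D) h.J h.qa hqb hki0 (p _)
    refine h3.trans ?_
    have hk := ki_step ((T : ℝ) / 4096) (((T : ℝ) + D) / 4096) (((T : ℝ) + D / 2) / 4096)
      (by apply div_le_div_of_nonneg_right _ (by norm_num); linarith [(Nat.cast_nonneg D : (0 : ℝ) ≤ D)])
      (by positivity) (by ring)
    have e16 : 16 * (((T : ℝ) + D) / 4096 - (T : ℝ) / 4096) = (D : ℝ) / 256 := by ring
    rw [e16] at hk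
    rw [Nat.cast_add]
    exact hk
  · rw [N3a_qa]
    have h4 := N3a_lo hqb h.cc (p _)
    refine h4.trans (le_of_eq ?_)
    rw [← Real.exp_add]
    congr 1
    push_cast
    ring
  · rw [N3a_cc]
    exact h.cc

theorem js_dbl_ok {D T : ℕ} {j : Js} (h : JsOK D T j) : JsOK (2 * D) T j.dbl := by
  have p := Real.exp_nonneg
  have mp : ∀ x y : ℝ, 0 ≤ Real.exp x * Real.exp y := fun x y => mul_nonneg (p _) (p _)
  constructor
  · exact h.J
  · have := N3a_lo h.qa (N3a_lo h.qa h.cc (p _)) (p _)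
    refine this.trans (le_of_eq ?_)
    rw [← Real.exp_add, ← Real.exp_add]
    congr 1
    push_cast
    ring
  · have := N3a_lo (N3a_lo h.cc h.cc (p _)) (N3a_lo h.cc h.cc (p _)) (mp _ _)
    refine this.trans (le_of_eq ?_)
    rw [← Real.exp_add, ← Real.exp_add]
    congr 1
    push_cast
    ring

theorem st_next_ok {D : ℕ} {s : St} (h : StOK D s) : StOK D (s.next D) :=
  ⟨⟨stp_ok h.A.h0, stp_ok h.A.h1, stp_ok h.A.h2, stp_ok h.A.h3, stp_ok h.A.h4, stp_ok h.A.h5,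
      stp_ok h.A.h6, stp_ok h.A.h7⟩,
    ⟨stp_ok h.B.h0, stp_ok h.B.h1, stp_ok h.B.h2, stp_ok h.B.h3, stp_ok h.B.h4, stp_ok h.B.h5,
      stp_ok h.B.h6, stp_ok h.B.h7⟩, js_next_ok h.j⟩

theorem st_dbl_ok {D : ℕ} {s : St} (h : StOK D s) : StOK (2 * D) s.dbl :=
  ⟨⟨dbl_ok h.A.h0, dbl_ok h.A.h1, dbl_ok h.A.h2, dbl_ok h.A.h3, dbl_ok h.A.h4, dbl_ok h.A.h5,
      dbl_ok h.A.h6, dbl_ok h.A.h7⟩,
    ⟨dbl_ok h.B.h0, dbl_ok h.B.h1, dbl_ok h.B.h2, dbl_ok h.B.h3, dbl_ok h.B.h4, dbl_ok h.B.h5,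
      dbl_ok h.B.h6, dbl_ok h.B.h7⟩, js_dbl_ok h.j⟩

end WEL
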