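import Pool.Agent.WEL.NDefs

/-!
# WEL N3b
Soundness of the node data.  `rhoF, krhoF, zF, kzF` are sums over `Fin 8`
(`Fin.sum_univ_succ`, simp with `cq`, `dq`, `tq`, norm_num for the coefficients; the exponents `bq j`, `bq' j` should be
kept opaque as in `StOK`: set `E j := Real.exp (-((bq j : ℝ) * x))` first), the integer combinations in `rLo` etc. are
`1000 P c_j`, `1000 LL P c_j / t_j^3` (LL = 1491014800596801024), `P d_j`, `LL P d_j/t_j^3`; `linarith` after casting;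
`/ 1000` is floor division (`Int.ediv`; `Int.cast` of a floor).  Convexity: `cv_exp`, `cv_neg_exp`, `Cv.add`, `Cv.smul`,
`Cv.mono` of N0, coefficient by coefficient (positive coefficients of `rhoF` in `Cv rhoF` cost 0, in `Cv (-rhoF)` cost
`c b^2 exp(-b x)`); the `ℕ` coefficients in `mR` etc. are `⌈|c_j| b_j^2 1024⌉`.  `kiLo`: `kiF 0 = 16`; `kiM`: `cv_neg_ki` (N0).
-/

set_option autoImplicit false

open MeasureTheory Set Filter Topology

noncomputable section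

namespace WEL

theorem N3b_floor (a b : ℤ) (hb : 0 < b) :
    ((a / b : ℤ) : ℝ) ≤ (a : ℝ) / b ∧ (a : ℝ) / b ≤ ((a / b : ℤ) : ℝ) + 1 := by
  have hbR : (0 : ℝ) < b := by exact_mod_cast hb
  constructor
  · rw [le_div_iff₀ hbR]
    exact_mod_cast Int.ediv_mul_le a hb.ne'
  · rw [div_le_iff₀ hbR]
    have := Int.lt_ediv_add_one_mul_self a hb
    exact_mod_cast this.le

theorem N3b_nat (a b : ℕ) (hb : 0 < b) :
    ((a / b : ℕ) : ℝ) ≤ (a : ℝ) / b ∧ (a : ℝ) / b ≤ ((a / b : ℕ) : ℝ) + 1 := by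
  have hbR : (0 : ℝ) < b := by exact_mod_cast hb
  constructor
  · exact Nat.cast_div_le
  · rw [div_le_iff₀ hbR]
    have h1 : a < (a / b + 1) * b := by
      have := Nat.lt_mul_div_succ a hb
      rw [Nat.mul_comm] at this
      exact this
    exact_mod_cast h1.le

theorem N3b_sc {e : ℝ} {D T : ℕ} {s : Tr} (h : TrOK e D T s) :
    (s.lo : ℝ) ≤ Real.exp (-(e * ((T : ℝ) / 4096) ^ 2)) * 1208925819614629174706176 ∧
      Real.exp (-(e * ((T : ℝ) / 4096) ^ 2)) * 1208925819614629174706176 ≤ s.hi := by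
  have hP : (2 : ℝ) ^ 80 = 1208925819614629174706176 := by norm_num
  constructor
  · have h1 := h.lo
    rw [hP, div_le_iff₀ (by norm_num)] at h1
    exact h1
  · have h1 := h.hi
    rw [hP, le_div_iff₀ (by norm_num)] at h1
    exact h1

theorem N3b_c : (((cq 0 : ℚ) : ℝ) = -(245 / 1000) ∧ ((cq 1 : ℚ) : ℝ) = -(729 / 1000) ∧
    ((cq 2 : ℚ) : ℝ) = 3530 / 1000 ∧ ((cq 3 : ℚ) : ℝ) = 726 / 1000 ∧
    ((cq 4 : ℚ) : ℝ) = -(5966 / 1000) ∧ ((cq 5 : ℚ) : ℝ) = 5350 / 1000 ∧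
    ((cq 6 : ℚ) : ℝ) = -(3079 / 1000) ∧ ((cq 7 : ℚ) : ℝ) = 1477 / 1000) := by
  refine ⟨?_, ?_, ?_, ?_, ?_, ?_, ?_, ?_⟩ <;> simp [cq] <;> norm_num

theorem N3b_ct : (((cq 0 / tq 0 ^ 3 : ℚ) : ℝ) = -(351935391862620160000 / 1491014800596801024000) ∧
    ((cq 1 / tq 1 ^ 3 : ℚ) : ℝ) = -(1009340934354468864000 / 1491014800596801024000) ∧
    ((cq 2 / tq 2 ^ 3 : ℚ) : ℝ) = 4632404158592325777510 / 1491014800596801024000 ∧
    ((cq 3 / tq 3 ^ 3 : ℚ) : ℝ) = 871351097323880448000 / 1491014800596801024000 ∧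
    ((cq 4 / tq 4 ^ 3 : ℚ) : ℝ) = -(6247519728099566026752 / 1491014800596801024000) ∧
    ((cq 5 / tq 5 ^ 3 : ℚ) : ℝ) = 4616278462495882800000 / 1491014800596801024000 ∧
    ((cq 6 / tq 6 ^ 3 : ℚ) : ℝ) = -(1936758334656466555128 / 1491014800596801024000) ∧
    ((cq 7 / tq 7 ^ 3 : ℚ) : ℝ) = 652512254957474107392 / 1491014800596801024000) := by
  refine ⟨?_, ?_, ?_, ?_, ?_, ?_, ?_, ?_⟩ <;> simp [cq, tq] <;> norm_num

theorem N3b_d : (((dq 0 : ℚ) : ℝ) = 189 ∧ ((dq 1 : ℚ) : ℝ) = 823 ∧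
    ((dq 2 : ℚ) : ℝ) = -15 ∧ ((dq 3 : ℚ) : ℝ) = -2564 ∧
    ((dq 4 : ℚ) : ℝ) = 2022 ∧ ((dq 5 : ℚ) : ℝ) = 135 ∧
    ((dq 6 : ℚ) : ℝ) = -517 ∧ ((dq 7 : ℚ) : ℝ) = -73) := by
  refine ⟨?_, ?_, ?_, ?_, ?_, ?_, ?_, ?_⟩ <;> simp [dq]

theorem N3b_dt : (((dq 0 / tq 0 ^ 3 : ℚ) : ℝ) = 271493016579735552000 / 1491014800596801024 ∧
    ((dq 1 / tq 1 ^ 3 : ℚ) : ℝ) = 1139489148112109568000 / 1491014800596801024 ∧
    ((dq 2 / tq 2 ^ 3 : ℚ) : ℝ) = -(19684436934528296505 / 1491014800596801024) ∧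
    ((dq 3 / tq 3 ^ 3 : ℚ) : ℝ) = -(3077333627463401472000 / 1491014800596801024) ∧
    ((dq 4 / tq 4 ^ 3 : ℚ) : ℝ) = 2117412821022011817984 / 1491014800596801024 ∧
    ((dq 5 / tq 5 ^ 3 : ℚ) : ℝ) = 116485531296625080000 / 1491014800596801024 ∧
    ((dq 6 / tq 6 ^ 3 : ℚ) : ℝ) = -(325204306273917898344 / 1491014800596801024) ∧
    ((dq 7 / tq 7 ^ 3 : ℚ) : ℝ) = -(32250097909204881408 / 1491014800596801024)) := by
  refine ⟨?_, ?_, ?_, ?_, ?_, ?_, ?_, ?_⟩ <;> simp [dq, tq] <;> norm_num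

theorem N3b_bq (j : Fin 8) : bq j =
    ![161 / 800, 81 / 200, 376 / 529, 249 / 200, 17 / 8, 88 / 25, 56 / 9, 10] j := by
  fin_cases j <;> simp [bq, tq] <;> norm_num

theorem N3b_bq' (j : Fin 8) : bq' j =
    ![1288 / 6561, 648 / 1681, 47 / 72, 1992 / 1849, 136 / 81, 22 / 9, 7 / 2, 40 / 9] j := by
  fin_cases j <;> simp [bq', tq] <;> norm_num

/-- semiconvexity of one exponential with a real coefficient -/
theorem N3b_cv1 (x0 x1 c b : ℝ) (hb : 0 ≤ b) :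
    Cv x0 x1 (|c| * (b ^ 2 * Real.exp (-(b * x0)))) (fun y => c * Real.exp (-(b * y))) := by
  have hp : 0 ≤ b ^ 2 * Real.exp (-(b * x0)) := by positivity
  rcases le_total 0 c with hc | hc
  · have h1 := (cv_exp x0 x1 b).smul hc
    exact h1.mono (by rw [mul_zero]; positivity)
  · have h1 := (cv_neg_exp x0 x1 b hb).smul (neg_nonneg.2 hc)
    rw [abs_of_nonpos hc]
    have e : (fun y => -c * -Real.exp (-(b * y))) = fun y => c * Real.exp (-(b * y)) := by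
      funext y
      ring
    rw [← e]
    exact h1

theorem N3b_cv (x0 x1 : ℝ) (c b : Fin 8 → ℝ) (hb : ∀ j, 0 ≤ b j) (s : Finset (Fin 8)) :
    Cv x0 x1 (∑ j ∈ s, |c j| * (b j ^ 2 * Real.exp (-(b j * x0))))
      (fun y => ∑ j ∈ s, c j * Real.exp (-(b j * y))) := by
  classical
  induction s using Finset.induction_on with
  | empty => simpa using Cv.const x0 x1 0
  | insert a s ha ih =>
    simp only [Finset.sum_insert ha]
    exact (N3b_cv1 x0 x1 (c a) (b a) (hb a)).add ih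

/-- upper bounds of the eight exponentials of a state -/
def N3b_hi (v : V8) : Fin 8 → ℕ := ![v.a0.hi, v.a1.hi, v.a2.hi, v.a3.hi, v.a4.hi, v.a5.hi, v.a6.hi, v.a7.hi]

theorem N3b_hi_ok {b : Fin 8 → ℚ} {D T : ℕ} {v : V8} (h : VOK b D T v) (j : Fin 8) :
    Real.exp (-(((b j : ℚ) : ℝ) * ((T : ℝ) / 4096) ^ 2)) ≤ (N3b_hi v j : ℝ) / 2 ^ 80 := by
  fin_cases j
  · exact h.h0.hi
  · exact h.h1.hi
  · exact h.h2.hi
  · exact h.h3.hi
  · exact h.h4.hi
  · exact h.h5.hi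
  · exact h.h6.hi
  · exact h.h7.hi

theorem N3b_M {b : Fin 8 → ℚ} {D T : ℕ} {v : V8} (h : VOK b D T v) (c : Fin 8 → ℚ) (κ : Fin 8 → ℕ)
    (hκ : ∀ j, |c j| * b j ^ 2 ≤ (κ j : ℚ) / 1024) :
    ∑ j, |((c j : ℚ) : ℝ)| * (((b j : ℚ) : ℝ) ^ 2 *
      Real.exp (-(((b j : ℚ) : ℝ) * ((T : ℝ) / 4096) ^ 2))) ≤
      (((∑ j, κ j * N3b_hi v j) / 1024 + 1 : ℕ) : ℝ) / 2 ^ 80 := by
  have h1 : ∀ j, |((c j : ℚ) : ℝ)| * (((b j : ℚ) : ℝ) ^ 2 *
      Real.exp (-(((b j : ℚ) : ℝ) * ((T : ℝ) / 4096) ^ 2))) ≤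
      ((κ j : ℝ) * (N3b_hi v j : ℝ)) / 1024 / 2 ^ 80 := by
    intro j
    have h2 := N3b_hi_ok h j
    have h3 : |((c j : ℚ) : ℝ)| * ((b j : ℚ) : ℝ) ^ 2 ≤ (κ j : ℝ) / 1024 := by
      have h3' : ((|c j| * b j ^ 2 : ℚ) : ℝ) ≤ (((κ j : ℚ) / 1024 : ℚ) : ℝ) := Rat.cast_le.2 (hκ j)
      push_cast at h3'
      exact h3'
    have h4 : (0 : ℝ) ≤ (κ j : ℝ) / 1024 := by positivity
    calc |((c j : ℚ) : ℝ)| * (((b j : ℚ) : ℝ) ^ 2 *
          Real.exp (-(((b j : ℚ) : ℝ) * ((T : ℝ) / 4096) ^ 2)))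
        = |((c j : ℚ) : ℝ)| * ((b j : ℚ) : ℝ) ^ 2 *
          Real.exp (-(((b j : ℚ) : ℝ) * ((T : ℝ) / 4096) ^ 2)) := by ring
      _ ≤ (κ j : ℝ) / 1024 * ((N3b_hi v j : ℝ) / 2 ^ 80) :=
          mul_le_mul h3 h2 (Real.exp_pos _).le h4
      _ = _ := by ring
  have h5 : ((∑ j, κ j * N3b_hi v j : ℕ) : ℝ) / (1024 : ℕ) ≤
      (((∑ j, κ j * N3b_hi v j) / 1024 : ℕ) : ℝ) + 1 := (N3b_nat _ 1024 (by norm_num)).2
  calc _ ≤ ∑ j, ((κ j : ℝ) * (N3b_hi v j : ℝ)) / 1024 / 2 ^ 80 :=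
        Finset.sum_le_sum fun j _ => h1 j
    _ = (((∑ j, κ j * N3b_hi v j : ℕ) : ℝ) / (1024 : ℕ)) / 2 ^ 80 := by
        rw [← Finset.sum_div, ← Finset.sum_div]
        push_cast
        rfl
    _ ≤ _ := by
        apply div_le_div_of_nonneg_right _ (by positivity)
        push_cast
        push_cast at h5
        exact h5

theorem N3b_pair {b : Fin 8 → ℚ} {D T : ℕ} {v : V8} (h : VOK b D T v) (hb : ∀ j, 0 ≤ b j)
    (c : Fin 8 → ℚ) (κ : Fin 8 → ℕ) (hκ : ∀ j, |c j| * b j ^ 2 ≤ (κ j : ℚ) / 1024) (a : ℝ) (x1 : ℝ) :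
    Cv (((T : ℝ) / 4096) ^ 2) x1 ((((∑ j, κ j * N3b_hi v j) / 1024 + 1 : ℕ) : ℝ) / 2 ^ 80)
        (fun y => a + ∑ j, ((c j : ℚ) : ℝ) * Real.exp (-(((b j : ℚ) : ℝ) * y))) ∧
      Cv (((T : ℝ) / 4096) ^ 2) x1 ((((∑ j, κ j * N3b_hi v j) / 1024 + 1 : ℕ) : ℝ) / 2 ^ 80)
        (fun y => -(a + ∑ j, ((c j : ℚ) : ℝ) * Real.exp (-(((b j : ℚ) : ℝ) * y)))) := by
  have hbR : ∀ j, (0 : ℝ) ≤ ((b j : ℚ) : ℝ) := fun j => by exact_mod_cast hb j
  have hM := N3b_M h c κ hκ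
  constructor
  · have h1 := (Cv.const (((T : ℝ) / 4096) ^ 2) x1 a).add
      (N3b_cv (((T : ℝ) / 4096) ^ 2) x1 (fun j => ((c j : ℚ) : ℝ)) (fun j => ((b j : ℚ) : ℝ)) hbR
        Finset.univ)
    exact h1.mono (by rw [zero_add]; exact hM)
  · have h1 := (Cv.const (((T : ℝ) / 4096) ^ 2) x1 (-a)).add
      (N3b_cv (((T : ℝ) / 4096) ^ 2) x1 (fun j => -((c j : ℚ) : ℝ)) (fun j => ((b j : ℚ) : ℝ)) hbR
        Finset.univ)
    simp only [abs_neg] at h1
    have e : (fun y => -(a + ∑ j, ((c j : ℚ) : ℝ) * Real.exp (-(((b j : ℚ) : ℝ) * y)))) =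
        fun y => -a + ∑ j, -((c j : ℚ) : ℝ) * Real.exp (-(((b j : ℚ) : ℝ) * y)) := by
      funext y
      simp only [neg_mul, Finset.sum_neg_distrib]
      ring
    rw [e]
    exact h1.mono (by rw [zero_add]; exact hM)

theorem N3b_bq0 (j : Fin 8) : 0 ≤ bq j := by
  rw [N3b_bq]
  fin_cases j <;> norm_num

theorem N3b_bq'0 (j : Fin 8) : 0 ≤ bq' j := by
  rw [N3b_bq']
  fin_cases j <;> norm_num

theorem N3b_kR (j : Fin 8) : |cq j| * bq j ^ 2 ≤
    ((![11, 123, 1827, 1153, 27587, 67880, 122068, 151245] : Fin 8 → ℕ) j : ℚ) / 1024 := by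
  rw [N3b_bq]
  fin_cases j <;> simp [cq, abs_div] <;> norm_num [abs_div]

theorem N3b_kK (j : Fin 8) : |cq j / tq j ^ 3| * bq' j ^ 2 ≤
    ((![10, 104, 1356, 695, 12096, 18944, 16295, 8853] : Fin 8 → ℕ) j : ℚ) / 1024 := by
  rw [N3b_bq']
  fin_cases j <;> simp [cq, tq, abs_div] <;> norm_num [abs_div]

theorem N3b_kZ (j : Fin 8) : |dq j| * bq j ^ 2 ≤
    ((![7839, 138233, 7760, 4069647, 9349728, 1712849, 20496587, 7475200] : Fin 8 → ℕ) j : ℚ) / 1024 := by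
  rw [N3b_bq]
  fin_cases j <;> simp [dq] <;> norm_num [abs_div]

theorem N3b_kW (j : Fin 8) : |dq j / tq j ^ 3| * bq' j ^ 2 ≤
    ((![7186, 116291, 5761, 2453000, 4099505, 478025, 2735964, 437506] : Fin 8 → ℕ) j : ℚ) / 1024 := by
  rw [N3b_bq']
  fin_cases j <;> simp [dq, tq, abs_div] <;> norm_num [abs_div]

theorem N3b_rho (x : ℝ) : rhoF x * 1208925819614629174706176 =
    (3530 * (Real.exp (-(((bq 2 : ℚ) : ℝ) * x)) * 1208925819614629174706176)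
      + 726 * (Real.exp (-(((bq 3 : ℚ) : ℝ) * x)) * 1208925819614629174706176)
      + 5350 * (Real.exp (-(((bq 5 : ℚ) : ℝ) * x)) * 1208925819614629174706176)
      + 1477 * (Real.exp (-(((bq 7 : ℚ) : ℝ) * x)) * 1208925819614629174706176)
      - (245 * (Real.exp (-(((bq 0 : ℚ) : ℝ) * x)) * 1208925819614629174706176)
      + 729 * (Real.exp (-(((bq 1 : ℚ) : ℝ) * x)) * 1208925819614629174706176)
      + 5966 * (Real.exp (-(((bq 4 : ℚ) : ℝ) * x)) * 1208925819614629174706176)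
      + 3079 * (Real.exp (-(((bq 6 : ℚ) : ℝ) * x)) * 1208925819614629174706176))) / 1000 := by
  obtain ⟨c0, c1, c2, c3, c4, c5, c6, c7⟩ := N3b_c
  rw [rhoF, Fin.sum_univ_eight, c0, c1, c2, c3, c4, c5, c6, c7]
  ring

theorem N3b_krho (x : ℝ) : krhoF x * 1208925819614629174706176 =
    (4632404158592325777510 * (Real.exp (-(((bq' 2 : ℚ) : ℝ) * x)) * 1208925819614629174706176)
      + 871351097323880448000 * (Real.exp (-(((bq' 3 : ℚ) : ℝ) * x)) * 1208925819614629174706176)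
      + 4616278462495882800000 * (Real.exp (-(((bq' 5 : ℚ) : ℝ) * x)) * 1208925819614629174706176)
      + 652512254957474107392 * (Real.exp (-(((bq' 7 : ℚ) : ℝ) * x)) * 1208925819614629174706176)
      - (351935391862620160000 * (Real.exp (-(((bq' 0 : ℚ) : ℝ) * x)) * 1208925819614629174706176)
      + 1009340934354468864000 * (Real.exp (-(((bq' 1 : ℚ) : ℝ) * x)) * 1208925819614629174706176)
      + 6247519728099566026752 * (Real.exp (-(((bq' 4 : ℚ) : ℝ) * x)) * 1208925819614629174706176)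
      + 1936758334656466555128 * (Real.exp (-(((bq' 6 : ℚ) : ℝ) * x)) * 1208925819614629174706176)))
      / 1491014800596801024000 := by
  obtain ⟨c0, c1, c2, c3, c4, c5, c6, c7⟩ := N3b_ct
  rw [krhoF, Fin.sum_univ_eight, c0, c1, c2, c3, c4, c5, c6, c7]
  ring

theorem N3b_z (x : ℝ) : zF x * 1208925819614629174706176 = 1208925819614629174706176 +
    (189 * (Real.exp (-(((bq 0 : ℚ) : ℝ) * x)) * 1208925819614629174706176)
      + 823 * (Real.exp (-(((bq 1 : ℚ) : ℝ) * x)) * 1208925819614629174706176)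
      + 2022 * (Real.exp (-(((bq 4 : ℚ) : ℝ) * x)) * 1208925819614629174706176)
      + 135 * (Real.exp (-(((bq 5 : ℚ) : ℝ) * x)) * 1208925819614629174706176)
      - (15 * (Real.exp (-(((bq 2 : ℚ) : ℝ) * x)) * 1208925819614629174706176)
      + 2564 * (Real.exp (-(((bq 3 : ℚ) : ℝ) * x)) * 1208925819614629174706176)
      + 517 * (Real.exp (-(((bq 6 : ℚ) : ℝ) * x)) * 1208925819614629174706176)
      + 73 * (Real.exp (-(((bq 7 : ℚ) : ℝ) * x)) * 1208925819614629174706176))) := by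
  obtain ⟨c0, c1, c2, c3, c4, c5, c6, c7⟩ := N3b_d
  rw [zF, Fin.sum_univ_eight, c0, c1, c2, c3, c4, c5, c6, c7]
  ring

theorem N3b_kz (x : ℝ) : kzF x * 1208925819614629174706176 = 1208925819614629174706176 +
    (271493016579735552000 * (Real.exp (-(((bq' 0 : ℚ) : ℝ) * x)) * 1208925819614629174706176)
      + 1139489148112109568000 * (Real.exp (-(((bq' 1 : ℚ) : ℝ) * x)) * 1208925819614629174706176)
      + 2117412821022011817984 * (Real.exp (-(((bq' 4 : ℚ) : ℝ) * x)) * 1208925819614629174706176)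
      + 116485531296625080000 * (Real.exp (-(((bq' 5 : ℚ) : ℝ) * x)) * 1208925819614629174706176)
      - (19684436934528296505 * (Real.exp (-(((bq' 2 : ℚ) : ℝ) * x)) * 1208925819614629174706176)
      + 3077333627463401472000 * (Real.exp (-(((bq' 3 : ℚ) : ℝ) * x)) * 1208925819614629174706176)
      + 325204306273917898344 * (Real.exp (-(((bq' 6 : ℚ) : ℝ) * x)) * 1208925819614629174706176)
      + 32250097909204881408 * (Real.exp (-(((bq' 7 : ℚ) : ℝ) * x)) * 1208925819614629174706176)))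
      / 1491014800596801024 := by
  obtain ⟨c0, c1, c2, c3, c4, c5, c6, c7⟩ := N3b_dt
  rw [kzF, Fin.sum_univ_eight, c0, c1, c2, c3, c4, c5, c6, c7]
  ring

theorem N3b_ki0 : kiF 0 = 16 := by
  simp [kiF]

theorem N3b_K {D : ℕ} {s : St} (h : JsOK D s.T s.j) :
    ((kiLo s : ℕ) : ℝ) / 2 ^ 80 ≤ kiF (((s.T : ℝ) / 4096) ^ 2) := by
  unfold kiLo
  rcases Nat.eq_zero_or_pos s.T with h0 | h0
  · have hb : Nat.beq 0 0 = true := rfl
    rw [h0, hb, cond_true]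
    simp only [Nat.cast_zero, zero_div, ne_eq, OfNat.ofNat_ne_zero,
      not_false_eq_true, zero_pow, N3b_ki0]
    norm_num
  · have hb : Nat.beq s.T 0 = false := by
      cases hT : s.T with
      | zero => omega
      | succ n => rfl
    rw [hb, cond_false]
    have hT : (0 : ℝ) < s.T := by exact_mod_cast h0
    have h1 := h.J
    have h2 := (N3b_nat (s.j.J * 4096) s.T h0).1
    have h3 : (0 : ℝ) < (s.T : ℝ) / 4096 := by positivity
    have h4 : (s.j.J : ℝ) / 2 ^ 80 / ((s.T : ℝ) / 4096) ≤ kiF (((s.T : ℝ) / 4096) ^ 2) := by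
      rw [div_le_iff₀ h3, mul_comm]
      exact h1
    refine le_trans ?_ h4
    calc ((s.j.J * 4096 / s.T : ℕ) : ℝ) / 2 ^ 80 ≤ (((s.j.J * 4096 : ℕ) : ℝ) / s.T) / 2 ^ 80 :=
          div_le_div_of_nonneg_right h2 (by positivity)
      _ = _ := by
          push_cast
          field_simp

theorem N3b_MK (s : St) (x1 : ℝ) :
    Cv (((s.T : ℝ) / 4096) ^ 2) x1 (((kiM s : ℕ) : ℝ) / 2 ^ 80) (fun y => -kiF y) := by
  apply cv_neg_ki _ _ _ (sq_nonneg _)
  unfold kiM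
  rcases Nat.eq_zero_or_pos s.T with h0 | h0
  · left
    have hb : Nat.beq 0 0 = true := rfl
    rw [h0, hb, cond_true]
    norm_num
  · have hb : Nat.beq s.T 0 = false := by
      cases hT : s.T with
      | zero => omega
      | succ n => rfl
    rw [hb, cond_false]
    rcases le_total 661282423329202158564278272
      (3062541302288446171170371466885913903104 / (s.T * s.T * (s.T * s.T)) + 1) with h1 | h1
    · left
      rw [min_eq_left h1]
      norm_num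
    · right
      rw [min_eq_right h1]
      have hT : (0 : ℝ) < s.T := by exact_mod_cast h0
      refine ⟨by positivity, ?_⟩
      have h2 := (N3b_nat 3062541302288446171170371466885913903104 (s.T * s.T * (s.T * s.T))
        (by positivity)).2
      rw [le_div_iff₀ (by positivity)]
      push_cast
      push_cast at h2
      refine le_trans (le_of_eq ?_) h2
      field_simp
      norm_num

theorem N3b_M_eq (v : V8) :
    mR v = (∑ j, (![11, 123, 1827, 1153, 27587, 67880, 122068, 151245] : Fin 8 → ℕ) j * N3b_hi v j)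
      / 1024 + 1 ∧
    mK v = (∑ j, (![10, 104, 1356, 695, 12096, 18944, 16295, 8853] : Fin 8 → ℕ) j * N3b_hi v j)
      / 1024 + 1 ∧
    mZ v = (∑ j, (![7839, 138233, 7760, 4069647, 9349728, 1712849, 20496587, 7475200] :
      Fin 8 → ℕ) j * N3b_hi v j) / 1024 + 1 ∧
    mW v = (∑ j, (![7186, 116291, 5761, 2453000, 4099505, 478025, 2735964, 437506] :
      Fin 8 → ℕ) j * N3b_hi v j) / 1024 + 1 := by
  refine ⟨?_, ?_, ?_, ?_⟩ <;> rw [Fin.sum_univ_eight] <;> rfl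

theorem node_ok {D : ℕ} {s : St} (h : StOK D s) : NdOK (node s) (((s.T : ℝ) / 4096) ^ 2) := by
  obtain ⟨hA, hB, hj⟩ := h
  obtain ⟨A0, A0'⟩ := N3b_sc hA.h0
  obtain ⟨A1, A1'⟩ := N3b_sc hA.h1
  obtain ⟨A2, A2'⟩ := N3b_sc hA.h2
  obtain ⟨A3, A3'⟩ := N3b_sc hA.h3
  obtain ⟨A4, A4'⟩ := N3b_sc hA.h4
  obtain ⟨A5, A5'⟩ := N3b_sc hA.h5
  obtain ⟨A6, A6'⟩ := N3b_sc hA.h6
  obtain ⟨A7, A7'⟩ := N3b_sc hA.h7
  obtain ⟨B0, B0'⟩ := N3b_sc hB.h0
  obtain ⟨B1, B1'⟩ := N3b_sc hB.h1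
  obtain ⟨B2, B2'⟩ := N3b_sc hB.h2
  obtain ⟨B3, B3'⟩ := N3b_sc hB.h3
  obtain ⟨B4, B4'⟩ := N3b_sc hB.h4
  obtain ⟨B5, B5'⟩ := N3b_sc hB.h5
  obtain ⟨B6, B6'⟩ := N3b_sc hB.h6
  obtain ⟨B7, B7'⟩ := N3b_sc hB.h7
  obtain ⟨mA, -, mZA, -⟩ := N3b_M_eq s.A
  obtain ⟨-, mKB, -, mWB⟩ := N3b_M_eq s.B
  have hr := N3b_rho (((s.T : ℝ) / 4096) ^ 2)
  have hk := N3b_krho (((s.T : ℝ) / 4096) ^ 2)
  have hz := N3b_z (((s.T : ℝ) / 4096) ^ 2)
  have hw := N3b_kz (((s.T : ℝ) / 4096) ^ 2)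
  have hP : (2 : ℝ) ^ 80 = 1208925819614629174706176 := by norm_num
  have hP0 : (0 : ℝ) < 1208925819614629174706176 := by norm_num
  have cR := fun x1 => N3b_pair hA N3b_bq0 cq _ N3b_kR 0 x1
  have cK := fun x1 => N3b_pair hB N3b_bq'0 (fun j => cq j / tq j ^ 3) _ N3b_kK 0 x1
  have cZ := fun x1 => N3b_pair hA N3b_bq0 dq _ N3b_kZ 1 x1
  have cW := fun x1 => N3b_pair hB N3b_bq'0 (fun j => dq j / tq j ^ 3) _ N3b_kW 1 x1
  simp only [zero_add] at cR cK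
  refine ⟨rfl, ?_, ?_, ?_, ?_, ?_, ?_, ?_, ?_, ?_, ?_, ?_, ?_⟩
  · rw [hP, div_le_iff₀ hP0, hr]
    refine le_trans (N3b_floor _ 1000 (by norm_num)).1 ?_
    push_cast
    apply div_le_div_of_nonneg_right _ (by norm_num)
    linarith
  · rw [hP, le_div_iff₀ hP0, hr]
    change _ ≤ ((rHi s.A : ℤ) : ℝ)
    rw [rHi, Int.cast_add, Int.cast_one]
    refine le_trans ?_ (N3b_floor _ 1000 (by norm_num)).2
    push_cast
    apply div_le_div_of_nonneg_right _ (by norm_num)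
    linarith
  · rw [hP, div_le_iff₀ hP0, hk]
    refine le_trans (N3b_floor _ 1491014800596801024000 (by norm_num)).1 ?_
    push_cast
    apply div_le_div_of_nonneg_right _ (by norm_num)
    linarith
  · rw [hP, le_div_iff₀ hP0, hk]
    change _ ≤ ((kHi s.B : ℤ) : ℝ)
    rw [kHi, Int.cast_add, Int.cast_one]
    refine le_trans ?_ (N3b_floor _ 1491014800596801024000 (by norm_num)).2
    push_cast
    apply div_le_div_of_nonneg_right _ (by norm_num)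
    linarith
  · rw [hP, div_le_iff₀ hP0, hz]
    change ((zLo s.A : ℤ) : ℝ) ≤ _
    rw [zLo]
    push_cast
    linarith
  · rw [hP, le_div_iff₀ hP0, hw]
    change _ ≤ ((wHi s.B : ℤ) : ℝ)
    rw [wHi, Int.cast_add, Int.cast_add, Int.cast_one]
    have h1 := (N3b_floor ((((271493016579735552000 * s.B.a0.hi + 1139489148112109568000 * s.B.a1.hi + 2117412821022011817984 * s.B.a4.hi + 116485531296625080000 * s.B.a5.hi : ℕ)) : ℤ) -
      (((19684436934528296505 * s.B.a2.lo + 3077333627463401472000 * s.B.a3.lo + 325204306273917898344 * s.B.a6.lo + 32250097909204881408 * s.B.a7.lo : ℕ)) : ℤ)) 1491014800596801024 (by norm_num)).2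
    have h2 : (271493016579735552000 * (Real.exp (-(((bq' 0 : ℚ) : ℝ) * ((s.T : ℝ) / 4096) ^ 2)) * 1208925819614629174706176)
      + 1139489148112109568000 * (Real.exp (-(((bq' 1 : ℚ) : ℝ) * ((s.T : ℝ) / 4096) ^ 2)) * 1208925819614629174706176)
      + 2117412821022011817984 * (Real.exp (-(((bq' 4 : ℚ) : ℝ) * ((s.T : ℝ) / 4096) ^ 2)) * 1208925819614629174706176)
      + 116485531296625080000 * (Real.exp (-(((bq' 5 : ℚ) : ℝ) * ((s.T : ℝ) / 4096) ^ 2)) * 1208925819614629174706176)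
      - (19684436934528296505 * (Real.exp (-(((bq' 2 : ℚ) : ℝ) * ((s.T : ℝ) / 4096) ^ 2)) * 1208925819614629174706176)
      + 3077333627463401472000 * (Real.exp (-(((bq' 3 : ℚ) : ℝ) * ((s.T : ℝ) / 4096) ^ 2)) * 1208925819614629174706176)
      + 325204306273917898344 * (Real.exp (-(((bq' 6 : ℚ) : ℝ) * ((s.T : ℝ) / 4096) ^ 2)) * 1208925819614629174706176)
      + 32250097909204881408 * (Real.exp (-(((bq' 7 : ℚ) : ℝ) * ((s.T : ℝ) / 4096) ^ 2)) * 1208925819614629174706176)))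
      / 1491014800596801024 ≤
      (((((271493016579735552000 * s.B.a0.hi + 1139489148112109568000 * s.B.a1.hi + 2117412821022011817984 * s.B.a4.hi + 116485531296625080000 * s.B.a5.hi : ℕ)) : ℤ) -
      (((19684436934528296505 * s.B.a2.lo + 3077333627463401472000 * s.B.a3.lo + 325204306273917898344 * s.B.a6.lo + 32250097909204881408 * s.B.a7.lo : ℕ)) : ℤ) : ℤ) : ℝ) / (1491014800596801024 : ℤ) := by
      push_cast
      apply div_le_div_of_nonneg_right _ (by norm_num)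
      linarith
    have h3 := le_trans h2 h1
    have h4 : (((1208925819614629174706176 : ℤ)) : ℝ) = 1208925819614629174706176 := by norm_num
    rw [h4]
    linarith
  · exact N3b_K hj
  · intro x1
    change Cv _ x1 (((mR s.A : ℕ) : ℝ) / 2 ^ 80) _ ∧ Cv _ x1 (((mR s.A : ℕ) : ℝ) / 2 ^ 80) _
    rw [mA]
    exact cR x1
  · intro x1
    change Cv _ x1 (((mK s.B : ℕ) : ℝ) / 2 ^ 80) _ ∧ Cv _ x1 (((mK s.B : ℕ) : ℝ) / 2 ^ 80) _
    rw [mKB]
    exact cK x1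
  · intro x1
    change Cv _ x1 (((mZ s.A : ℕ) : ℝ) / 2 ^ 80) _
    rw [mZA]
    exact (cZ x1).2
  · intro x1
    change Cv _ x1 (((mW s.B : ℕ) : ℝ) / 2 ^ 80) _
    rw [mWB]
    exact (cW x1).1
  · intro x1
    exact N3b_MK s x1

end WEL
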