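import Pool.Agent.WEL.NDefs

/-!
# WEL N3c1
Consequences of `chk1`, `chk2`.
-/

set_option autoImplicit false

open MeasureTheory Set Filter Topology

noncomputable section

namespace WEL

theorem N3c1_div (a b : ℤ) (hb : 0 < b) : (a : ℝ) / b ≤ ((a / b : ℤ) : ℝ) + 1 := by
  have hb' : (0 : ℝ) < b := by exact_mod_cast hb
  rw [div_le_iff₀ hb']
  have h := Int.lt_ediv_add_one_mul_self a hb
  have h2 : ((a : ℤ) : ℝ) < (((a / b + 1) * b : ℤ) : ℝ) := by exact_mod_cast h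
  push_cast at h2
  linarith

theorem eUp_le (M q : ℤ) : (M : ℝ) * q / 2 ^ 51 ≤ (eUp M q : ℝ) := by
  have h := N3c1_div (M * q) 2251799813685248 (by norm_num)
  unfold eUp
  push_cast at h ⊢
  have e : (2 : ℝ) ^ 51 = 2251799813685248 := by norm_num
  rw [e]
  exact h

theorem dsq_eq {m n : Nd} {x0 x1 : ℝ} (hm : NdOK m x0) (hn : NdOK n x1) :
    (x1 - x0) ^ 2 / 8 = (dsq m n : ℝ) / 2 ^ 51 := by
  rw [hm.hx, hn.hx]
  unfold dsq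
  push_cast
  ring

theorem N3c1_mxI (a b : ℤ) : ((mxI a b : ℤ) : ℝ) = max (a : ℝ) (b : ℝ) := by
  unfold mxI
  by_cases h : a ≤ b
  · have h' : (a : ℝ) ≤ b := by exact_mod_cast h
    simp [h, h']
  · have h' : (b : ℝ) ≤ a := by
      have : b ≤ a := by omega
      exact_mod_cast this
    simp [h, h']

theorem N3c1_mnI (a b : ℤ) : ((mnI a b : ℤ) : ℝ) = min (a : ℝ) (b : ℝ) := by
  unfold mnI
  by_cases h : a ≤ b
  · have h' : (a : ℝ) ≤ b := by exact_mod_cast h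
    simp [h, h']
  · have h' : (b : ℝ) ≤ a := by
      have : b ≤ a := by omega
      exact_mod_cast this
    simp [h, h']

theorem N3c1_lt {m n : Nd} {x0 x1 : ℝ} (hm : NdOK m x0) (hn : NdOK n x1) (hT : m.T < n.T) :
    x0 < x1 := by
  rw [hm.hx, hn.hx]
  have h1 : (m.T : ℝ) < n.T := by exact_mod_cast hT
  have h2 : (0 : ℝ) ≤ m.T := Nat.cast_nonneg _
  have h3 : (m.T : ℝ) / 4096 < (n.T : ℝ) / 4096 := div_lt_div_of_pos_right h1 (by norm_num)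
  exact pow_lt_pow_left₀ h3 (by positivity) (by norm_num)

/-- everything from `cell_basic` -/
theorem N3c1_main {m n : Nd} {x0 x1 : ℝ} {H t : ℤ} (hm : NdOK m x0) (hn : NdOK n x1)
    (hT : m.T < n.T) (h1 : chk1 m n H t = true) (x : ℝ)
    (hx0 : x0 ≤ x) (hx1 : x ≤ x1) :
    kzF x ≤ (1 - (H : ℝ) / 2 ^ 20 - 1 / 10 ^ 6) * zF x ∧
    min ((m.zL : ℝ) / 2 ^ 80) ((n.zL : ℝ) / 2 ^ 80) - (m.Mz : ℝ) / 2 ^ 80 * (x1 - x0) ^ 2 / 8 ≤ zF x ∧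
    min ((m.rL : ℝ) / 2 ^ 80) ((n.rL : ℝ) / 2 ^ 80) - (m.Mr : ℝ) / 2 ^ 80 * (x1 - x0) ^ 2 / 8 ≤ rhoF x ∧
    rhoF x ≤ max ((m.rH : ℝ) / 2 ^ 80) ((n.rH : ℝ) / 2 ^ 80) + (m.Mr : ℝ) / 2 ^ 80 * (x1 - x0) ^ 2 / 8 ∧
    min ((1 - (H : ℝ) / 2 ^ 20) * ((m.rL : ℝ) / 2 ^ 80) - (m.kH : ℝ) / 2 ^ 80)
        ((1 - (H : ℝ) / 2 ^ 20) * ((n.rL : ℝ) / 2 ^ 80) - (n.kH : ℝ) / 2 ^ 80)
        - ((1 - (H : ℝ) / 2 ^ 20) * ((m.Mr : ℝ) / 2 ^ 80) + (m.Mk : ℝ) / 2 ^ 80) * (x1 - x0) ^ 2 / 8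
      ≤ (1 - (H : ℝ) / 2 ^ 20) * rhoF x - krhoF x ∧
    (1 - (H : ℝ) / 2 ^ 20) * rhoF x - krhoF x ≤
      max ((1 - (H : ℝ) / 2 ^ 20) * ((m.rH : ℝ) / 2 ^ 80) - (m.kL : ℝ) / 2 ^ 80)
        ((1 - (H : ℝ) / 2 ^ 20) * ((n.rH : ℝ) / 2 ^ 80) - (n.kL : ℝ) / 2 ^ 80)
        + ((1 - (H : ℝ) / 2 ^ 20) * ((m.Mr : ℝ) / 2 ^ 80) + (m.Mk : ℝ) / 2 ^ 80) * (x1 - x0) ^ 2 / 8 := by
  simp only [chk1, Bool.and_eq_true, decide_eq_true_eq] at h1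
  obtain ⟨⟨⟨⟨⟨⟨⟨c1, c2⟩, c3⟩, c4⟩, c5⟩, c6⟩, c7⟩, c8⟩ := h1
  have hd := dsq_eq hm hn
  have hq0 : (0 : ℝ) ≤ (dsq m n : ℝ) / 2 ^ 51 := by rw [← hd]; positivity
  have f3 : (1048576 : ℝ) ≤ (1048576 - (H : ℝ)) * 1000000 := by exact_mod_cast c3
  have hH : 0 ≤ 1 - (H : ℝ) / 2 ^ 20 - 1 / 10 ^ 6 := by
    have : (0 : ℝ) ≤ ((1048576 - (H : ℝ)) * 1000000 - 1048576) / (2 ^ 20 * 10 ^ 6) := by
      apply div_nonneg <;> linarith
    have e : ((1048576 - (H : ℝ)) * 1000000 - 1048576) / (2 ^ 20 * 10 ^ 6) =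
        1 - (H : ℝ) / 2 ^ 20 - 1 / 10 ^ 6 := by
      field_simp
      norm_num
      ring
    rw [e] at this
    exact this
  have he : ((1 - (H : ℝ) / 2 ^ 20) * ((m.Mz : ℝ) / 2 ^ 80) + (m.Mw : ℝ) / 2 ^ 80) * (x1 - x0) ^ 2 / 8 ≤
      ((eUp ((1048576 - H) * m.Mz / 1048576 + m.Mw + 2) (dsq m n) : ℤ) : ℝ) / 2 ^ 80 := by
    have g1 := N3c1_div ((1048576 - H) * m.Mz) 1048576 (by norm_num)
    have g2 := eUp_le ((1048576 - H) * m.Mz / 1048576 + m.Mw + 2) (dsq m n)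
    push_cast at g1 g2
    have g3 : ((1048576 - (H : ℝ)) * m.Mz / 1048576 + m.Mw) * ((dsq m n : ℝ) / 2 ^ 51) ≤
        ((((1048576 - H) * (m.Mz : ℤ) / 1048576 : ℤ) : ℝ) + m.Mw + 2) * ((dsq m n : ℝ) / 2 ^ 51) := by
      apply mul_le_mul_of_nonneg_right _ hq0
      linarith
    have g4 : ((1 - (H : ℝ) / 2 ^ 20) * ((m.Mz : ℝ) / 2 ^ 80) + (m.Mw : ℝ) / 2 ^ 80) * (x1 - x0) ^ 2 / 8 =
        (((1048576 - (H : ℝ)) * m.Mz / 1048576 + m.Mw) * ((dsq m n : ℝ) / 2 ^ 51)) / 2 ^ 80 := by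
      rw [mul_div_assoc, hd]
      ring
    rw [g4]
    apply div_le_div_of_nonneg_right _ (by positivity)
    refine g3.trans ?_
    rw [← mul_div_assoc]
    exact g2
  have f1 : (1048576000000 : ℝ) * (m.wH + (eUp ((1048576 - H) * m.Mz / 1048576 + m.Mw + 2) (dsq m n) : ℤ))
      ≤ ((1048576 - (H : ℝ)) * 1000000 - 1048576) * m.zL := by exact_mod_cast c1
  have f2 : (1048576000000 : ℝ) * (n.wH + (eUp ((1048576 - H) * m.Mz / 1048576 + m.Mw + 2) (dsq m n) : ℤ))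
      ≤ ((1048576 - (H : ℝ)) * 1000000 - 1048576) * n.zL := by exact_mod_cast c2
  refine cell_basic x0 x1 x (N3c1_lt hm hn hT) hx0 hx1 _ _ _ _ _ _ _ _ _ _ _ _ _ _ _ _ _
    ⟨hm.rL, hm.rH⟩ ⟨hn.rL, hn.rH⟩ ⟨hm.kL, hm.kH⟩ ⟨hn.kL, hn.kH⟩ hm.zL hn.zL hm.wH hn.wH
    (hm.Mr x1) (hm.Mk x1) (hm.Mz x1) (hm.Mw x1) (by positivity) (by positivity) (by positivity)
    (by positivity) hH ?_ ?_
  · have : (m.wH : ℝ) / 2 ^ 80 + ((eUp ((1048576 - H) * m.Mz / 1048576 + m.Mw + 2) (dsq m n) : ℤ) : ℝ) / 2 ^ 80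
        ≤ (1 - (H : ℝ) / 2 ^ 20 - 1 / 10 ^ 6) * ((m.zL : ℝ) / 2 ^ 80) := by
      have e : (1 - (H : ℝ) / 2 ^ 20 - 1 / 10 ^ 6) * ((m.zL : ℝ) / 2 ^ 80) =
          (((1048576 - (H : ℝ)) * 1000000 - 1048576) * m.zL) / (1048576000000 * 2 ^ 80) := by
        field_simp
        norm_num
        ring
      rw [e, le_div_iff₀ (by positivity)]
      have e2 : ((m.wH : ℝ) / 2 ^ 80 + ((eUp ((1048576 - H) * m.Mz / 1048576 + m.Mw + 2) (dsq m n) : ℤ) : ℝ) / 2 ^ 80)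
          * (1048576000000 * 2 ^ 80) = 1048576000000 *
            (m.wH + (eUp ((1048576 - H) * m.Mz / 1048576 + m.Mw + 2) (dsq m n) : ℤ)) := by
        field_simp
      rw [e2]
      exact f1
    linarith
  · have : (n.wH : ℝ) / 2 ^ 80 + ((eUp ((1048576 - H) * m.Mz / 1048576 + m.Mw + 2) (dsq m n) : ℤ) : ℝ) / 2 ^ 80
        ≤ (1 - (H : ℝ) / 2 ^ 20 - 1 / 10 ^ 6) * ((n.zL : ℝ) / 2 ^ 80) := by
      have e : (1 - (H : ℝ) / 2 ^ 20 - 1 / 10 ^ 6) * ((n.zL : ℝ) / 2 ^ 80) =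
          (((1048576 - (H : ℝ)) * 1000000 - 1048576) * n.zL) / (1048576000000 * 2 ^ 80) := by
        field_simp
        norm_num
        ring
      rw [e, le_div_iff₀ (by positivity)]
      have e2 : ((n.wH : ℝ) / 2 ^ 80 + ((eUp ((1048576 - H) * m.Mz / 1048576 + m.Mw + 2) (dsq m n) : ℤ) : ℝ) / 2 ^ 80)
          * (1048576000000 * 2 ^ 80) = 1048576000000 *
            (n.wH + (eUp ((1048576 - H) * m.Mz / 1048576 + m.Mw + 2) (dsq m n) : ℤ)) := by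
        field_simp
      rw [e2]
      exact f2
    linarith

theorem cell1b {m n : Nd} {x0 x1 : ℝ} {H t : ℤ} (hm : NdOK m x0) (hn : NdOK n x1)
    (hT : m.T < n.T) (h1 : chk1 m n H t = true) (x : ℝ)
    (hx0 : x0 ≤ x) (hx1 : x ≤ x1) :
    (cRl m n (dsq m n) : ℝ) / 2 ^ 80 ≤ rhoF x ∧ rhoF x ≤ (cRh m n (dsq m n) : ℝ) / 2 ^ 80 ∧
    (cWl m n H (dsq m n) : ℝ) / 2 ^ 100 ≤ (1 - (H : ℝ) / 2 ^ 20) * rhoF x - krhoF x ∧
    (1 - (H : ℝ) / 2 ^ 20) * rhoF x - krhoF x ≤ (cWh m n H (dsq m n) : ℝ) / 2 ^ 100 := by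
  obtain ⟨-, -, b3, b4, b5, b6⟩ := N3c1_main hm hn hT h1 x hx0 hx1
  have hd := dsq_eq hm hn
  have er := eUp_le m.Mr (dsq m n)
  have ew := eUp_le ((1048576 - H) * m.Mr + 1048576 * m.Mk) (dsq m n)
  push_cast at er ew
  have er' : (m.Mr : ℝ) / 2 ^ 80 * (x1 - x0) ^ 2 / 8 ≤ (eUp m.Mr (dsq m n) : ℝ) / 2 ^ 80 := by
    rw [mul_div_assoc, hd]
    have e : (m.Mr : ℝ) / 2 ^ 80 * ((dsq m n : ℝ) / 2 ^ 51) = ((m.Mr : ℝ) * (dsq m n : ℝ) / 2 ^ 51) / 2 ^ 80 := by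
      ring
    rw [e]
    exact div_le_div_of_nonneg_right er (by positivity)
  have ew' : ((1 - (H : ℝ) / 2 ^ 20) * ((m.Mr : ℝ) / 2 ^ 80) + (m.Mk : ℝ) / 2 ^ 80) * (x1 - x0) ^ 2 / 8 ≤
      (eUp ((1048576 - H) * m.Mr + 1048576 * m.Mk) (dsq m n) : ℝ) / 2 ^ 100 := by
    rw [mul_div_assoc, hd]
    have e : ((1 - (H : ℝ) / 2 ^ 20) * ((m.Mr : ℝ) / 2 ^ 80) + (m.Mk : ℝ) / 2 ^ 80) * ((dsq m n : ℝ) / 2 ^ 51) =
        (((1048576 - (H : ℝ)) * m.Mr + 1048576 * m.Mk) * (dsq m n : ℝ) / 2 ^ 51) / 2 ^ 100 := by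
      ring
    rw [e]
    exact div_le_div_of_nonneg_right ew (by positivity)
  have mn80 : ∀ a b : ℝ, min (a / 2 ^ 80) (b / 2 ^ 80) = min a b / 2 ^ 80 := fun a b =>
    (min_div_div_right (by positivity) a b)
  have mx80 : ∀ a b : ℝ, max (a / 2 ^ 80) (b / 2 ^ 80) = max a b / 2 ^ 80 := fun a b =>
    (max_div_div_right (by positivity) a b)
  have w100 : ∀ a b : ℝ, (1 - (H : ℝ) / 2 ^ 20) * (a / 2 ^ 80) - b / 2 ^ 80 =
      ((1048576 - (H : ℝ)) * a - 1048576 * b) / 2 ^ 100 := by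
    intro a b
    ring
  refine ⟨?_, ?_, ?_, ?_⟩
  · unfold cRl
    rw [mn80] at b3
    push_cast
    rw [N3c1_mnI, sub_div]
    linarith
  · unfold cRh
    rw [mx80] at b4
    push_cast
    rw [N3c1_mxI, add_div]
    linarith
  · unfold cWl
    rw [w100, w100, min_div_div_right (by positivity)] at b5
    push_cast
    rw [N3c1_mnI, sub_div]
    push_cast
    linarith
  · unfold cWh
    rw [w100, w100, max_div_div_right (by positivity)] at b6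
    push_cast
    rw [N3c1_mxI, add_div]
    push_cast
    linarith

theorem cell1 {m n : Nd} {x0 x1 : ℝ} {H t : ℤ} (hm : NdOK m x0) (hn : NdOK n x1)
    (hT : m.T < n.T) (h1 : chk1 m n H t = true) (h2 : chk2 m n = true) (x : ℝ)
    (hx0 : x0 ≤ x) (hx1 : x ≤ x1) :
    (H : ℝ) / 2 ^ 20 ≤ 1 ∧ |(H : ℝ) / 2 ^ 20| ≤ 1024 ∧ (t : ℝ) / 2 ^ 20 ≤ 4 ∧
    1 / 2 ≤ zF x ∧ |rhoF x| ≤ 11 / 10 ∧ 0 ≤ (t : ℝ) / 2 ^ 20 ∧
    16 / 5 * ((H : ℝ) / 2 ^ 20) ≤ 2 * ((t : ℝ) / 2 ^ 20) + ((t : ℝ) / 2 ^ 20) ^ 2 ∧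
    kzF x ≤ (1 - (H : ℝ) / 2 ^ 20 - 1 / 10 ^ 6) * zF x := by
  obtain ⟨b1, b2, -, -, -, -⟩ := N3c1_main hm hn hT h1 x hx0 hx1
  obtain ⟨r1, r2, -, -⟩ := cell1b hm hn hT h1 x hx0 hx1
  have hd := dsq_eq hm hn
  simp only [chk1, Bool.and_eq_true, decide_eq_true_eq] at h1
  obtain ⟨⟨⟨⟨⟨⟨⟨c1, c2⟩, c3⟩, c4⟩, c5⟩, c6⟩, c7⟩, c8⟩ := h1
  simp only [chk2, Bool.and_eq_true, decide_eq_true_eq] at h2
  obtain ⟨k1, k2⟩ := h2
  have f3 : (1048576 : ℝ) ≤ (1048576 - (H : ℝ)) * 1000000 := by exact_mod_cast c3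
  have f4 : (0 : ℝ) ≤ t := by exact_mod_cast c4
  have f5 : (t : ℝ) ≤ 4194304 := by exact_mod_cast c5
  have f6 : (-1073741824 : ℝ) ≤ H := by exact_mod_cast c6
  have f7 : 16 * (H : ℝ) * 1048576 ≤ 5 * (2 * t * 1048576 + t * t) := by exact_mod_cast c7
  have e20 : (2 : ℝ) ^ 20 = 1048576 := by norm_num
  have hH1 : (H : ℝ) / 2 ^ 20 ≤ 1 := by
    rw [div_le_one (by positivity), e20]
    linarith
  refine ⟨hH1, ?_, ?_, ?_, ?_, ?_, ?_, b1⟩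
  · rw [abs_le]
    constructor
    · rw [le_div_iff₀ (by positivity), e20]
      linarith
    · linarith
  · rw [div_le_iff₀ (by positivity), e20]
    linarith
  · have er := eUp_le m.Mz (dsq m n)
    push_cast at er
    have er' : (m.Mz : ℝ) / 2 ^ 80 * (x1 - x0) ^ 2 / 8 ≤ (eUp m.Mz (dsq m n) : ℝ) / 2 ^ 80 := by
      rw [mul_div_assoc, hd]
      have e : (m.Mz : ℝ) / 2 ^ 80 * ((dsq m n : ℝ) / 2 ^ 51) = ((m.Mz : ℝ) * (dsq m n : ℝ) / 2 ^ 51) / 2 ^ 80 := by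
        ring
      rw [e]
      exact div_le_div_of_nonneg_right er (by positivity)
    have c8' : ((1208925819614629174706176 : ℤ) : ℝ) ≤
        ((2 * (mnI m.zL n.zL - eUp m.Mz (dsq m n)) : ℤ) : ℝ) := by exact_mod_cast c8
    push_cast at c8'
    rw [N3c1_mnI] at c8'
    rw [min_div_div_right (by positivity)] at b2
    have e80 : (2 : ℝ) ^ 80 = 1208925819614629174706176 := by norm_num
    have : (1 : ℝ) / 2 ≤ (min (m.zL : ℝ) (n.zL : ℝ) - (eUp m.Mz (dsq m n) : ℝ)) / 2 ^ 80 := by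
      rw [le_div_iff₀ (by positivity), e80]
      linarith
    rw [sub_div] at this
    linarith
  · have e80 : (2 : ℝ) ^ 80 = 1208925819614629174706176 := by norm_num
    have k1' : ((-13298184015760920921767936 : ℤ) : ℝ) ≤ ((10 * cRl m n (dsq m n) : ℤ) : ℝ) := by
      exact_mod_cast k1
    have k2' : ((10 * cRh m n (dsq m n) : ℤ) : ℝ) ≤ ((13298184015760920921767936 : ℤ) : ℝ) := by
      exact_mod_cast k2
    push_cast at k1' k2'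
    rw [abs_le]
    constructor
    · refine le_trans ?_ r1
      rw [le_div_iff₀ (by positivity), e80]
      linarith
    · refine r2.trans ?_
      rw [div_le_iff₀ (by positivity), e80]
      linarith
  · positivity
  · have e : 16 / 5 * ((H : ℝ) / 2 ^ 20) = (16 * (H : ℝ) * 1048576) / (5 * 2 ^ 40) := by
      rw [show (2 : ℝ) ^ 40 = 1048576 * 1048576 by norm_num, e20]
      field_simp
    have e' : 2 * ((t : ℝ) / 2 ^ 20) + ((t : ℝ) / 2 ^ 20) ^ 2 =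
        (5 * (2 * t * 1048576 + t * t)) / (5 * 2 ^ 40) := by
      rw [show (2 : ℝ) ^ 40 = 1048576 * 1048576 by norm_num, e20]
      field_simp
    rw [e, e']
    exact div_le_div_of_nonneg_right f7 (by positivity)

end WEL
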