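import Pool.Agent.WEL.NDefs

/-!
# WEL N3c2
The main term.  `cell_g` (N1) with `c = 0` gives an upper bound `s'` of `gt` in the cell, hence
`280/51 + x gt ≤ 280/51 + x s' ≤ 280/51 + (x0 s' or x1 s')` (g2; `4200/765 = 280/51`, all scaled by `765 2^40 2^80`);
for `m.T ≠ 0` also `cell_g` with `c = 280/51` gives an upper bound `g'` of `(280/51)/x + gt`, hence
`280/51 + x gt ≤ x g' ≤ max 0 (x1 g')` (g1).  `gN` is `765 2^40 2^80` times the regular part at a node;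
`x = T^2/2^24`; floor divisions + 1 are upper bounds; `(x1-x0)^2/8 = dsq/2^51`.
-/

set_option autoImplicit false

open MeasureTheory Set Filter Topology

noncomputable section

namespace WEL

theorem N3c2_mxI (a b : ℤ) : ((mxI a b : ℤ) : ℝ) = max (a : ℝ) (b : ℝ) := by
  unfold mxI
  by_cases h : a ≤ b
  · have h' : (a : ℝ) ≤ b := by exact_mod_cast h
    simp [h, h']
  · have h' : (b : ℝ) ≤ a := by
      have : b ≤ a := by omega
      exact_mod_cast this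
    simp [h, h']

theorem N3c2_mnI (a b : ℤ) : ((mnI a b : ℤ) : ℝ) = min (a : ℝ) (b : ℝ) := by
  unfold mnI
  by_cases h : a ≤ b
  · have h' : (a : ℝ) ≤ b := by exact_mod_cast h
    simp [h, h']
  · have h' : (b : ℝ) ≤ a := by
      have : b ≤ a := by omega
      exact_mod_cast this
    simp [h, h']

theorem N3c2_div (a b : ℤ) (hb : 0 < b) : (a : ℝ) / b ≤ ((a / b : ℤ) : ℝ) + 1 := by
  have hb' : (0 : ℝ) < b := by exact_mod_cast hb
  rw [div_le_iff₀ hb']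
  have h := Int.lt_ediv_add_one_mul_self a hb
  have h2 : ((a : ℤ) : ℝ) < (((a / b + 1) * b : ℤ) : ℝ) := by exact_mod_cast h
  push_cast at h2
  linarith

theorem N3c2_eUp (M q : ℤ) : (M : ℝ) * q / 2 ^ 51 ≤ ((eUp M q : ℤ) : ℝ) := by
  have h := N3c2_div (M * q) 2251799813685248 (by norm_num)
  unfold eUp
  push_cast at h ⊢
  have e : (2 : ℝ) ^ 51 = 2251799813685248 := by norm_num
  rw [e]
  exact h

theorem N3c2_gN (K : ℕ) (kH rL H t : ℤ) : ((gN K kH rL H t : ℤ) : ℝ) =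
    765 * 2 ^ 120 * (-(47 / 153) - 640 / 153 * ((K : ℝ) / 2 ^ 80) - ((t : ℝ) / 2 ^ 20) ^ 2
      - 16 / 5 * ((H : ℝ) / 2 ^ 20) - 32 / 5 * (1 - (H : ℝ) / 2 ^ 20) * ((rL : ℝ) / 2 ^ 80)
      + 32 / 5 * ((kH : ℝ) / 2 ^ 80)) := by
  unfold gN
  push_cast
  ring

theorem N3c2_dsq (m n : Nd) : ((dsq m n : ℤ) : ℝ) / 2 ^ 51 =
    (((n.T : ℝ) / 4096) ^ 2 - ((m.T : ℝ) / 4096) ^ 2) ^ 2 / 8 := by
  unfold dsq
  push_cast
  ring

theorem N3c2_E (m n : Nd) (H : ℤ) :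
    765 * 2 ^ 120 * ((640 / 153 * ((m.MK : ℝ) / 2 ^ 80) + 32 / 5 * ((1 - (H : ℝ) / 2 ^ 20) * ((m.Mr : ℝ) / 2 ^ 80)
      + (m.Mk : ℝ) / 2 ^ 80)) * (((n.T : ℝ) / 4096) ^ 2 - ((m.T : ℝ) / 4096) ^ 2) ^ 2 / 8) ≤
    ((eUp (3518437208883200 * m.MK + 5133828096 * ((1048576 - H) * m.Mr + 1048576 * m.Mk))
      (dsq m n) : ℤ) : ℝ) := by
  refine le_trans (le_of_eq ?_) (N3c2_eUp _ _)
  have h := N3c2_dsq m n
  have h2 : (640 / 153 * ((m.MK : ℝ) / 2 ^ 80) + 32 / 5 * ((1 - (H : ℝ) / 2 ^ 20) * ((m.Mr : ℝ) / 2 ^ 80)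
      + (m.Mk : ℝ) / 2 ^ 80)) * (((n.T : ℝ) / 4096) ^ 2 - ((m.T : ℝ) / 4096) ^ 2) ^ 2 / 8 =
      (640 / 153 * ((m.MK : ℝ) / 2 ^ 80) + 32 / 5 * ((1 - (H : ℝ) / 2 ^ 20) * ((m.Mr : ℝ) / 2 ^ 80)
      + (m.Mk : ℝ) / 2 ^ 80)) * (((dsq m n : ℤ) : ℝ) / 2 ^ 51) := by
    rw [h]; ring
  rw [h2]
  push_cast
  ring

/-- the two bounds of the regular part -/
theorem N3c2_bd {m n : Nd} {x0 x1 : ℝ} {H t : ℤ} (hm : NdOK m x0) (hn : NdOK n x1)
    (h01 : x0 < x1) (hH : (H : ℝ) / 2 ^ 20 ≤ 1) (x : ℝ) (hx0 : x0 ≤ x) (hx1 : x ≤ x1)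
    (c : ℝ) (hc : 0 ≤ c) (hc0 : 0 < c → 0 < x0) (a0 a1 : ℤ)
    (ha0 : 765 * 2 ^ 120 * (c / x0) ≤ a0) (ha1 : 765 * 2 ^ 120 * (c / x1) ≤ a1) :
    765 * 2 ^ 120 * (c / x + gt ((H : ℝ) / 2 ^ 20) ((t : ℝ) / 2 ^ 20) x) ≤
      ((mxI (a0 + gN m.K m.kH m.rL H t) (a1 + gN n.K n.kH n.rL H t)
        + eUp (3518437208883200 * m.MK + 5133828096 * ((1048576 - H) * m.Mr + 1048576 * m.Mk))
      (dsq m n) : ℤ) : ℝ) := by
  have hg := cell_g x0 x1 x h01 hx0 hx1 ((m.rL : ℝ) / 2 ^ 80) ((n.rL : ℝ) / 2 ^ 80)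
    ((m.kH : ℝ) / 2 ^ 80) ((n.kH : ℝ) / 2 ^ 80) ((m.K : ℝ) / 2 ^ 80) ((n.K : ℝ) / 2 ^ 80)
    ((m.Mr : ℝ) / 2 ^ 80) ((m.Mk : ℝ) / 2 ^ 80) ((m.MK : ℝ) / 2 ^ 80) ((H : ℝ) / 2 ^ 20)
    ((t : ℝ) / 2 ^ 20) hm.rL hn.rL hm.kH hn.kH hm.K hn.K (hm.Mr x1).2 (hm.Mk x1).1 (hm.MK x1)
    (by positivity) (by positivity) (by positivity) (by linarith) c hc hc0
  have hP : (0 : ℝ) < 765 * 2 ^ 120 := by norm_num
  have h1 := mul_le_mul_of_nonneg_left hg hP.le
  refine h1.trans ?_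
  rw [mul_add, mul_max_of_nonneg _ _ hP.le]
  have hE := N3c2_E m n H
  rw [← hm.hx, ← hn.hx] at hE
  have g0 := N3c2_gN m.K m.kH m.rL H t
  have g1 := N3c2_gN n.K n.kH n.rL H t
  rw [Int.cast_add, N3c2_mxI]
  push_cast [Int.cast_add] at *
  refine add_le_add (max_le_max ?_ ?_) hE
  · rw [mul_add, ← g0]
    linarith
  · rw [mul_add, ← g1]
    linarith

theorem cell2 {m n : Nd} {x0 x1 : ℝ} {H t : ℤ} (hm : NdOK m x0) (hn : NdOK n x1)
    (hT : m.T < n.T) (hH : (H : ℝ) / 2 ^ 20 ≤ 1) (x : ℝ) (hx0 : x0 ≤ x) (hx1 : x ≤ x1) :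
    max 0 (280 / 51 + x * gt ((H : ℝ) / 2 ^ 20) ((t : ℝ) / 2 ^ 20) x) ≤
      (cG1 m n H t : ℝ) / (765 * 2 ^ 120) := by
  have hP : (0 : ℝ) < 765 * 2 ^ 120 := by norm_num
  have hTr : (m.T : ℝ) < n.T := by exact_mod_cast hT
  have hm0 : (0 : ℝ) ≤ m.T := Nat.cast_nonneg _
  have h01 : x0 < x1 := by
    rw [hm.hx, hn.hx]
    have : (m.T : ℝ) / 4096 < (n.T : ℝ) / 4096 := by linarith
    exact pow_lt_pow_left₀ this (by positivity) (by norm_num)
  have hx0n : 0 ≤ x0 := by rw [hm.hx]; positivity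
  have hxn : 0 ≤ x := hx0n.trans hx0
  have hx1p : 0 < x1 := hx0n.trans_lt h01
  have e0 : x0 = (m.T : ℝ) * m.T / 16777216 := by rw [hm.hx]; ring
  have e1 : x1 = (n.T : ℝ) * n.T / 16777216 := by rw [hn.hx]; ring
  rw [le_div_iff₀ hP]
  set G0 := gN m.K m.kH m.rL H t with hG0
  set G1 := gN n.K n.kH n.rL H t with hG1
  set E := eUp (3518437208883200 * m.MK + 5133828096 * ((1048576 - H) * m.Mr + 1048576 * m.Mk))
      (dsq m n) with hE
  -- the bound g2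
  have hs := N3c2_bd (t := t) hm hn h01 hH x hx0 hx1 0 le_rfl (fun h => absurd h (lt_irrefl _)) 0 0
    (by simp) (by simp)
  rw [zero_div, zero_add, zero_add, zero_add] at hs
  have hg2 : (280 / 51 + x * gt ((H : ℝ) / 2 ^ 20) ((t : ℝ) / 2 ^ 20) x) * (765 * 2 ^ 120) ≤
      ((5582757582296646666195989653177447219200 + (bif decide (mxI G0 G1 + E ≤ 0) then
        (mxI G0 G1 + E) * (m.T * m.T : ℕ) else (mxI G0 G1 + E) * (n.T * n.T : ℕ)) / 16777216 + 1 : ℤ) : ℝ) := by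
    set s := mxI G0 G1 + E with hsd
    have h1 : x * (765 * 2 ^ 120 * gt ((H : ℝ) / 2 ^ 20) ((t : ℝ) / 2 ^ 20) x) ≤ x * s :=
      mul_le_mul_of_nonneg_left hs hxn
    have h2 : x * (s : ℝ) ≤ (((bif decide (s ≤ 0) then
        s * (m.T * m.T : ℕ) else s * (n.T * n.T : ℕ)) / 16777216 : ℤ) : ℝ) + 1 := by
      have hd := N3c2_div (bif decide (s ≤ 0) then
        s * (m.T * m.T : ℕ) else s * (n.T * n.T : ℕ)) 16777216 (by norm_num)
      refine le_trans ?_ hd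
      by_cases h : s ≤ 0
      · have h' : (s : ℝ) ≤ 0 := by exact_mod_cast h
        simp only [h, decide_true, cond_true]
        push_cast
        have : (s : ℝ) * ((m.T : ℝ) * m.T) / 16777216 = x0 * s := by rw [e0]; ring
        rw [this]
        exact mul_le_mul_of_nonpos_right hx0 h'
      · have h' : (0 : ℝ) ≤ s := by
          have : 0 ≤ s := by omega
          exact_mod_cast this
        simp only [h, decide_false, cond_false]
        push_cast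
        have : (s : ℝ) * ((n.T : ℝ) * n.T) / 16777216 = x1 * s := by rw [e1]; ring
        rw [this]
        exact mul_le_mul_of_nonneg_right hx1 h'
    push_cast at h2 ⊢
    have e3 : (280 / 51 + x * gt ((H : ℝ) / 2 ^ 20) ((t : ℝ) / 2 ^ 20) x) * (765 * 2 ^ 120) =
      5582757582296646666195989653177447219200 +
        x * (765 * 2 ^ 120 * gt ((H : ℝ) / 2 ^ 20) ((t : ℝ) / 2 ^ 20) x) := by ring
    rw [e3]
    linarith
  rw [max_mul_of_nonneg _ _ hP.le, zero_mul]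
  have hcG : cG1 m n H t = mxI 0 (bif Nat.beq m.T 0 then
      (5582757582296646666195989653177447219200 + (bif decide (mxI G0 G1 + E ≤ 0) then
        (mxI G0 G1 + E) * (m.T * m.T : ℕ) else (mxI G0 G1 + E) * (n.T * n.T : ℕ)) / 16777216 + 1)
      else mnI (bif decide (mxI (((93663129833828617194450016745123118325117747200 / (m.T * m.T) + 1 : ℕ) : ℤ) + G0) (((93663129833828617194450016745123118325117747200 / (n.T * n.T) + 1 : ℕ) : ℤ) + G1) + E ≤ 0) then 0 else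
        (mxI (((93663129833828617194450016745123118325117747200 / (m.T * m.T) + 1 : ℕ) : ℤ) + G0) (((93663129833828617194450016745123118325117747200 / (n.T * n.T) + 1 : ℕ) : ℤ) + G1) + E) * (n.T * n.T : ℕ) / 16777216 + 1)
      (5582757582296646666195989653177447219200 + (bif decide (mxI G0 G1 + E ≤ 0) then
        (mxI G0 G1 + E) * (m.T * m.T : ℕ) else (mxI G0 G1 + E) * (n.T * n.T : ℕ)) / 16777216 + 1)) := rfl
  rw [hcG, N3c2_mxI]
  refine max_le_max (by simp) ?_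
  by_cases hz : m.T = 0
  · have : Nat.beq m.T 0 = true := by rw [hz]; rfl
    rw [this, cond_true]
    exact hg2
  · have hb : Nat.beq m.T 0 = false := by
      cases h : Nat.beq m.T 0
      · rfl
      · exact absurd (Nat.eq_of_beq_eq_true h) hz
    rw [hb, cond_false, N3c2_mnI]
    refine le_min ?_ hg2
    have hmp : (0 : ℝ) < m.T := by
      have : 0 < m.T := Nat.pos_of_ne_zero hz
      exact_mod_cast this
    have hx0p : 0 < x0 := by rw [e0]; positivity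
    have hxp : 0 < x := hx0p.trans_le hx0
    have hnp : (0 : ℝ) < n.T := hmp.trans hTr
    have key : ∀ (T : ℕ), (0 : ℝ) < T → 765 * 2 ^ 120 * (280 / 51 / ((T : ℝ) * T / 16777216)) ≤
        ((((93663129833828617194450016745123118325117747200 / (T * T) + 1 : ℕ) : ℤ)) : ℝ) := by
      intro T hTp
      have hTp' : 0 < T := by exact_mod_cast hTp
      have h := N3c2_div 93663129833828617194450016745123118325117747200 ((T : ℤ) * T) (by positivity)
      push_cast at h ⊢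
      refine le_trans (le_of_eq ?_) h
      field_simp
      norm_num
    have hg := N3c2_bd (t := t) hm hn h01 hH x hx0 hx1 (280 / 51) (by norm_num) (fun _ => hx0p)
      _ _ (by rw [e0]; exact key m.T hmp) (by rw [e1]; exact key n.T hnp)
    set g := mxI (((93663129833828617194450016745123118325117747200 / (m.T * m.T) + 1 : ℕ) : ℤ) + G0) (((93663129833828617194450016745123118325117747200 / (n.T * n.T) + 1 : ℕ) : ℤ) + G1) + E with hgd
    have h1 : (280 / 51 + x * gt ((H : ℝ) / 2 ^ 20) ((t : ℝ) / 2 ^ 20) x) * (765 * 2 ^ 120) =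
        x * (765 * 2 ^ 120 * (280 / 51 / x + gt ((H : ℝ) / 2 ^ 20) ((t : ℝ) / 2 ^ 20) x)) := by
      field_simp
    rw [h1]
    have h2 : x * (765 * 2 ^ 120 * (280 / 51 / x + gt ((H : ℝ) / 2 ^ 20) ((t : ℝ) / 2 ^ 20) x)) ≤ x * g :=
      mul_le_mul_of_nonneg_left hg hxn
    refine h2.trans ?_
    by_cases h : g ≤ 0
    · have h' : (g : ℝ) ≤ 0 := by exact_mod_cast h
      simp only [h, decide_true, cond_true]
      have := mul_nonpos_of_nonneg_of_nonpos hxn h'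
      simpa using this
    · have h' : (0 : ℝ) ≤ g := by
        have : 0 ≤ g := by omega
        exact_mod_cast this
      simp only [h, decide_false, cond_false]
      have hd := N3c2_div (g * (n.T * n.T : ℕ)) 16777216 (by norm_num)
      push_cast at hd ⊢
      refine le_trans ?_ hd
      have : (g : ℝ) * ((n.T : ℝ) * n.T) / 16777216 = x1 * g := by rw [e1]; ring
      rw [this]
      exact mul_le_mul_of_nonneg_right hx1 h'

end WEL
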