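import Pool.Agent.WEL.NDefs
import Pool.Agent.WEL.N3c1
import Pool.Agent.WEL.N3c2

/-!
# WEL N3c3
The rest term and the cell.  `cell3`: a product of two quantities in intervals is at most the
maximum of the four products of endpoints (`p`), `f` is `765 2^40 2^80` times an upper bound of
`τ^2 + 16/5 ρ w`; then multiply by `x ∈ [x0,x1]`, `x = T^2/2^24 ≥ 0`.  `cell_ok`: from `cell1`, `cell1b` (N3c1), `cell2` (N3c2),
`cell3` and `Fn_eq` (N1), with constant functions; `x = t^2`.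
-/

set_option autoImplicit false

open MeasureTheory Set Filter Topology

noncomputable section

namespace WEL

theorem n3c3_fdiv (a b : ℤ) (hb : 0 < b) : (a : ℝ) / (b : ℝ) ≤ ((a / b + 1 : ℤ) : ℝ) := by
  have h := Int.lt_ediv_add_one_mul_self a hb
  have h' : (a : ℝ) < (((a / b + 1) * b : ℤ) : ℝ) := by exact_mod_cast h
  have hb' : (0 : ℝ) < (b : ℝ) := by exact_mod_cast hb
  rw [div_le_iff₀ hb']
  rw [Int.cast_mul] at h'
  exact h'.le

theorem n3c3_mxl (a b : ℤ) : a ≤ mxI a b := by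
  unfold mxI
  by_cases h : a ≤ b
  · simp [h]
  · simp [h]

theorem n3c3_mxr (a b : ℤ) : b ≤ mxI a b := by
  unfold mxI
  by_cases h : a ≤ b
  · simp [h]
  · simp only [h, decide_false, cond_false]
    omega

theorem n3c3_prod {rl rh wl wh r w P : ℝ} (h1 : rl ≤ r) (h2 : r ≤ rh) (h3 : wl ≤ w)
    (h4 : w ≤ wh) (a : rl * wl ≤ P) (b : rl * wh ≤ P) (c : rh * wl ≤ P) (d : rh * wh ≤ P) :
    r * w ≤ P := by
  have key : ∀ c, rl * c ≤ P → rh * c ≤ P → r * c ≤ P := by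
    intro c e1 e2
    rcases le_total 0 c with h | h
    · exact (mul_le_mul_of_nonneg_right h2 h).trans e2
    · exact (mul_le_mul_of_nonpos_right h1 h).trans e1
  have k1 := key wl a c
  have k2 := key wh b d
  rcases le_total 0 r with h | h
  · exact (mul_le_mul_of_nonneg_left h4 h).trans k2
  · exact (mul_le_mul_of_nonpos_left h3 h).trans k1

theorem n3c3_scale (a b p : ℤ) (h : a * b ≤ p) :
    (a : ℝ) / 2 ^ 80 * ((b : ℝ) / 2 ^ 100) ≤ (p : ℝ) / 2 ^ 180 := by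
  have h' : (a : ℝ) * (b : ℝ) ≤ (p : ℝ) := by exact_mod_cast h
  have e : (a : ℝ) / 2 ^ 80 * ((b : ℝ) / 2 ^ 100) = (a : ℝ) * (b : ℝ) / 2 ^ 180 := by
    field_simp
  rw [e]
  exact div_le_div_of_nonneg_right h' (by positivity)

/-- the last step: multiplication by `x` and the rounded division -/
theorem n3c3_last {x0 x1 x y : ℝ} {a b : ℕ} (f : ℤ) (hx0' : x0 = ((a : ℝ) / 4096) ^ 2)
    (hx1' : x1 = ((b : ℝ) / 4096) ^ 2) (hx0 : x0 ≤ x) (hx1 : x ≤ x1)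
    (hy : y ≤ (f : ℝ) / (765 * 2 ^ 120)) :
    x * y ≤ (((bif decide (f ≤ 0) then f * (a * a : ℕ) else f * (b * b : ℕ)) / 16777216 + 1 : ℤ) : ℝ)
      / (765 * 2 ^ 120) := by
  have hx : 0 ≤ x := by
    have : 0 ≤ x0 := by rw [hx0']; positivity
    linarith
  have h1 : x * y ≤ x * ((f : ℝ) / (765 * 2 ^ 120)) := mul_le_mul_of_nonneg_left hy hx
  refine h1.trans ?_
  rw [← mul_div_assoc]
  apply div_le_div_of_nonneg_right _ (by positivity)
  by_cases hf : f ≤ 0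
  · have hf' : (f : ℝ) ≤ 0 := by exact_mod_cast hf
    have h2 : x * (f : ℝ) ≤ x0 * (f : ℝ) := mul_le_mul_of_nonpos_right hx0 hf'
    refine h2.trans ?_
    have h3 := n3c3_fdiv (f * (a * a : ℕ)) 16777216 (by norm_num)
    simp only [hf, decide_true, cond_true]
    refine le_trans (le_of_eq ?_) h3
    rw [hx0']
    push_cast
    ring
  · have hf' : 0 ≤ (f : ℝ) := by
      have : 0 ≤ f := by omega
      exact_mod_cast this
    have h2 : x * (f : ℝ) ≤ x1 * (f : ℝ) := mul_le_mul_of_nonneg_right hx1 hf'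
    refine h2.trans ?_
    have h3 := n3c3_fdiv (f * (b * b : ℕ)) 16777216 (by norm_num)
    simp only [hf, decide_false, cond_false]
    refine le_trans (le_of_eq ?_) h3
    rw [hx1']
    push_cast
    ring

theorem n3c3_f (t p : ℤ) (y : ℝ) (hy : y ≤ (p : ℝ) / 2 ^ 180) :
    ((t : ℝ) / 2 ^ 20) ^ 2 + 16 / 5 * y ≤
      ((765 * t * t * 1208925819614629174706176 +
        2448 * (p * 1048576 / 1208925819614629174706176 + 1) : ℤ) : ℝ) / (765 * 2 ^ 120) := by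
  have h := n3c3_fdiv (p * 1048576) 1208925819614629174706176 (by norm_num)
  rw [Int.cast_mul] at h
  rw [Int.cast_add, Int.cast_mul 2448, le_div_iff₀ (by positivity)]
  push_cast at h ⊢
  have e : (p : ℝ) / 2 ^ 180 * 2 ^ 120 = (p : ℝ) * 1048576 / 1208925819614629174706176 := by
    rw [div_mul_eq_mul_div, div_eq_div_iff (by positivity) (by norm_num)]
    norm_num
    ring
  have h5 : y * 2 ^ 120 ≤ (p : ℝ) * 1048576 / 1208925819614629174706176 := by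
    rw [← e]
    exact mul_le_mul_of_nonneg_right hy (by positivity)
  have h6 : y * 2 ^ 120 ≤ ((p * 1048576 / 1208925819614629174706176 : ℤ) : ℝ) + 1 :=
    h5.trans h
  have e2 : (((t : ℝ) / 2 ^ 20) ^ 2 + 16 / 5 * y) * (765 * 2 ^ 120) =
      765 * (t : ℝ) * (t : ℝ) * 1208925819614629174706176 + 2448 * (y * 2 ^ 120) := by
    norm_num
    ring
  rw [e2]
  linarith

theorem cell3 {m n : Nd} {x0 x1 : ℝ} {H t : ℤ} (hm : NdOK m x0) (hn : NdOK n x1)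
    (x r w : ℝ) (hx0 : x0 ≤ x) (hx1 : x ≤ x1)
    (hr0 : (cRl m n (dsq m n) : ℝ) / 2 ^ 80 ≤ r) (hr1 : r ≤ (cRh m n (dsq m n) : ℝ) / 2 ^ 80)
    (hw0 : (cWl m n H (dsq m n) : ℝ) / 2 ^ 100 ≤ w) (hw1 : w ≤ (cWh m n H (dsq m n) : ℝ) / 2 ^ 100) :
    x * (((t : ℝ) / 2 ^ 20) ^ 2 + 16 / 5 * (r * w)) ≤ (cG2 m n H t : ℝ) / (765 * 2 ^ 120) := by
  unfold cG2
  simp only
  generalize cRl m n (dsq m n) = rl at *
  generalize cRh m n (dsq m n) = rh at *
  generalize cWl m n H (dsq m n) = wl at *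
  generalize cWh m n H (dsq m n) = wh at *
  set p : ℤ := mxI (mxI (rl * wl) (rl * wh)) (mxI (rh * wl) (rh * wh)) with hp
  have p1 : rl * wl ≤ p := (n3c3_mxl _ _).trans (n3c3_mxl _ _)
  have p2 : rl * wh ≤ p := (n3c3_mxr _ _).trans (n3c3_mxl _ _)
  have p3 : rh * wl ≤ p := (n3c3_mxl _ _).trans (n3c3_mxr _ _)
  have p4 : rh * wh ≤ p := (n3c3_mxr _ _).trans (n3c3_mxr _ _)
  have hrw : r * w ≤ (p : ℝ) / 2 ^ 180 :=
    n3c3_prod hr0 hr1 hw0 hw1 (n3c3_scale _ _ _ p1) (n3c3_scale _ _ _ p2)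
      (n3c3_scale _ _ _ p3) (n3c3_scale _ _ _ p4)
  exact n3c3_last _ hm.hx hn.hx hx0 hx1 (n3c3_f t p (r * w) hrw)

theorem cell_ok {m n : Nd} {x0 x1 : ℝ} {H t : ℤ} (hm : NdOK m x0) (hn : NdOK n x1)
    (hT : m.T < n.T) (h1 : chk1 m n H t = true) (h2 : chk2 m n = true) :
    Good ((m.T : ℝ) / 4096) ((n.T : ℝ) / 4096)
      (((n.T : ℝ) - m.T) * ((cG1 m n H t : ℝ) + cG2 m n H t) / (4096 * 765 * 2 ^ 120)) := by
  have hsq : ∀ s ∈ Icc ((m.T : ℝ) / 4096) ((n.T : ℝ) / 4096), x0 ≤ s ^ 2 ∧ s ^ 2 ≤ x1 := by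
    intro s hs
    have h0 : 0 ≤ (m.T : ℝ) / 4096 := by positivity
    rw [hm.hx, hn.hx]
    exact ⟨pow_le_pow_left₀ h0 hs.1 2, pow_le_pow_left₀ (h0.trans hs.1) hs.2 2⟩
  refine ⟨fun _ => (H : ℝ) / 2 ^ 20, fun _ => (t : ℝ) / 2 ^ 20,
    fun _ => ((cG1 m n H t : ℝ) + cG2 m n H t) / (765 * 2 ^ 120),
    max (max |(H : ℝ) / 2 ^ 20| |(t : ℝ) / 2 ^ 20|)
      |((cG1 m n H t : ℝ) + cG2 m n H t) / (765 * 2 ^ 120)|,
    measurable_const, measurable_const, measurable_const, ?_, ?_, ?_, ?_⟩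
  · intro _
    exact ⟨(le_max_left _ _).trans (le_max_left _ _), (le_max_right _ _).trans (le_max_left _ _),
      le_max_right _ _⟩
  · intro s hs
    obtain ⟨a, b⟩ := hsq s hs
    obtain ⟨_, _, _, c4, c5, c6, c7, c8⟩ := cell1 hm hn hT h1 h2 (s ^ 2) a b
    exact ⟨c4, c5, c6, c7, c8⟩
  · intro s hs hs0
    obtain ⟨a, b⟩ := hsq s hs
    obtain ⟨c1, _, _, _, _, _, _, _⟩ := cell1 hm hn hT h1 h2 (s ^ 2) a b
    obtain ⟨d1, d2, d3, d4⟩ := cell1b hm hn hT h1 (s ^ 2) a b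
    have e1 := cell2 (H := H) (t := t) hm hn hT c1 (s ^ 2) a b
    have e2 := cell3 (H := H) (t := t) hm hn (s ^ 2) (rhoF (s ^ 2))
      ((1 - (H : ℝ) / 2 ^ 20) * rhoF (s ^ 2) - krhoF (s ^ 2)) a b d1 d2 d3 d4
    show s ^ 2 * Fn ((H : ℝ) / 2 ^ 20) ((t : ℝ) / 2 ^ 20) (s ^ 2) ≤
      ((cG1 m n H t : ℝ) + cG2 m n H t) / (765 * 2 ^ 120)
    rw [Fn_eq _ _ _ (by positivity), add_div]
    exact add_le_add e1 e2
  · rw [intervalIntegral.integral_const, smul_eq_mul]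
    apply le_of_eq
    ring

end WEL
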