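import Pool.Agent.WEL.N3a
import Pool.Agent.WEL.N3b
import Pool.Agent.WEL.N3c3

/-!
# WEL N3d
Concatenation and the loop.
-/

set_option autoImplicit false

open MeasureTheory Set Filter Topology

noncomputable section

namespace WEL

theorem N3d_ii {G : ℝ → ℝ} {C : ℝ} (hm : Measurable G) (hb : ∀ t, |G t| ≤ C) (a b : ℝ) :
    IntervalIntegrable G volume a b := by
  have h : IntervalIntegrable (fun _ : ℝ => C) volume a b := intervalIntegrable_const
  refine h.mono_fun hm.aestronglyMeasurable (ae_of_all _ fun t => ?_)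
  show ‖G t‖ ≤ ‖C‖
  rw [Real.norm_eq_abs, Real.norm_eq_abs]
  exact (hb t).trans (le_abs_self C)

theorem N3d_int {G G' : ℝ → ℝ} {C C' t0 t1 t2 : ℝ} (h01 : t0 ≤ t1) (h12 : t1 ≤ t2)
    (hm : Measurable G) (hm' : Measurable G') (hb : ∀ t, |G t| ≤ C) (hb' : ∀ t, |G' t| ≤ C') :
    ∫ t in t0..t2, (if t ≤ t1 then G t else G' t) =
      (∫ t in t0..t1, G t) + ∫ t in t1..t2, G' t := by
  have hmm : Measurable fun t => if t ≤ t1 then G t else G' t :=
    Measurable.ite measurableSet_Iic hm hm'
  have hbb : ∀ t, |if t ≤ t1 then G t else G' t| ≤ max C C' := by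
    intro t
    split_ifs
    · exact (hb t).trans (le_max_left _ _)
    · exact (hb' t).trans (le_max_right _ _)
  rw [← intervalIntegral.integral_add_adjacent_intervals (N3d_ii hmm hbb t0 t1)
    (N3d_ii hmm hbb t1 t2)]
  congr 1
  · rw [intervalIntegral.integral_of_le h01, intervalIntegral.integral_of_le h01]
    refine setIntegral_congr_fun measurableSet_Ioc fun t ht => ?_
    exact if_pos ht.2
  · rw [intervalIntegral.integral_of_le h12, intervalIntegral.integral_of_le h12]
    refine setIntegral_congr_fun measurableSet_Ioc fun t ht => ?_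
    exact if_neg (not_le.2 ht.1)

theorem good_append {t0 t1 t2 I J : ℝ} (h01 : t0 ≤ t1) (h12 : t1 ≤ t2) (h : Good t0 t1 I)
    (h' : Good t1 t2 J) : Good t0 t2 (I + J) := by
  obtain ⟨Hb, τ, G, C, mH, mT, mG, bd, hc, hf, hi⟩ := h
  obtain ⟨Hb', τ', G', C', mH', mT', mG', bd', hc', hf', hi'⟩ := h'
  refine ⟨fun t => if t ≤ t1 then Hb t else Hb' t, fun t => if t ≤ t1 then τ t else τ' t,
    fun t => if t ≤ t1 then G t else G' t, max C C',
    Measurable.ite measurableSet_Iic mH mH', Measurable.ite measurableSet_Iic mT mT',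
    Measurable.ite measurableSet_Iic mG mG', ?_, ?_, ?_, ?_⟩
  · intro t
    by_cases ht : t ≤ t1
    · simp only [if_pos ht]
      exact ⟨(bd t).1.trans (le_max_left _ _), (bd t).2.1.trans (le_max_left _ _),
        (bd t).2.2.trans (le_max_left _ _)⟩
    · simp only [if_neg ht]
      exact ⟨(bd' t).1.trans (le_max_right _ _), (bd' t).2.1.trans (le_max_right _ _),
        (bd' t).2.2.trans (le_max_right _ _)⟩
  · intro t ht
    by_cases h1 : t ≤ t1
    · simp only [if_pos h1]
      exact hc t ⟨ht.1, h1⟩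
    · simp only [if_neg h1]
      exact hc' t ⟨(not_le.1 h1).le, ht.2⟩
  · intro t ht h0
    by_cases h1 : t ≤ t1
    · simp only [if_pos h1]
      exact hf t ⟨ht.1, h1⟩ h0
    · simp only [if_neg h1]
      exact hf' t ⟨(not_le.1 h1).le, ht.2⟩ h0
  · rw [N3d_int h01 h12 mG mG' (fun t => (bd t).2.2) (fun t => (bd' t).2.2)]
    exact add_le_add hi hi'

theorem good_mono {t0 t1 I J : ℝ} (h : Good t0 t1 I) (hIJ : I ≤ J) : Good t0 t1 J := by
  obtain ⟨Hb, τ, G, C, mH, mT, mG, bd, hc, hf, hi⟩ := h
  exact ⟨Hb, τ, G, C, mH, mT, mG, bd, hc, hf, hi.trans hIJ⟩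

theorem N3d_run_succ (D k : ℕ) (s : St) (m : Nd) (S : ℤ) :
    run D (k + 1) s m S =
      (bif chk1 m (node (s.next D)) (selH m (node (s.next D)))
            (selT (selH m (node (s.next D)))) && chk2 m (node (s.next D)) then
        run D k (s.next D) (node (s.next D))
          (S + D * (cG1 m (node (s.next D)) (selH m (node (s.next D)))
              (selT (selH m (node (s.next D)))) +
            cG2 m (node (s.next D)) (selH m (node (s.next D)))
              (selT (selH m (node (s.next D))))))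
      else none) := rfl

theorem run_ok {D : ℕ} (hD : 0 < D) (k : ℕ) (hk : 0 < k) (s s' : St) (S S' : ℤ) (hs : StOK D s)
    (h : run D k s (node s) S = some (s', S')) :
    StOK D s' ∧ s'.T = s.T + k * D ∧
      Good ((s.T : ℝ) / 4096) ((s'.T : ℝ) / 4096) (((S' : ℝ) - S) / (4096 * 765 * 2 ^ 120)) := by
  induction k generalizing s S with
  | zero => exact absurd hk (lt_irrefl 0)
  | succ k ih =>
    rw [N3d_run_succ] at h
    have s1ok : StOK D (s.next D) := st_next_ok hs
    have hm := node_ok hs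
    have hn := node_ok s1ok
    have hT : (node s).T < (node (s.next D)).T := by
      show s.T < s.T + D
      omega
    have e1 : ((node s).T : ℝ) = s.T := rfl
    have e0 : ((node (s.next D)).T : ℝ) = (s.T : ℝ) + D := by
      show ((s.T + D : ℕ) : ℝ) = _
      push_cast
      ring
    have e2 : ((s.next D).T : ℝ) = (s.T : ℝ) + D := by
      show ((s.T + D : ℕ) : ℝ) = _
      push_cast
      ring
    generalize hH : selH (node s) (node (s.next D)) = H at h
    generalize ht : selT H = t at h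
    cases hb : (chk1 (node s) (node (s.next D)) H t && chk2 (node s) (node (s.next D))) with
    | false =>
      rw [hb, cond_false] at h
      exact absurd h (by simp)
    | true =>
      rw [hb, cond_true] at h
      obtain ⟨h1, h2⟩ := (Bool.and_eq_true_iff).1 hb
      have gd := cell_ok hm hn hT h1 h2
      rw [e0, e1] at gd
      rcases Nat.eq_zero_or_pos k with hk0 | hk'
      · subst hk0
        have h3 := Option.some.inj h
        obtain ⟨h4, h5⟩ := Prod.mk.inj h3
        subst h4
        subst h5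
        refine ⟨s1ok, ?_, ?_⟩
        · show s.T + D = s.T + (0 + 1) * D
          ring
        · rw [e2]
          refine good_mono gd (le_of_eq ?_)
          push_cast
          ring
      · obtain ⟨a, b, c⟩ := ih hk' (s.next D) _ s1ok h
        have b' : s'.T = s.T + D + k * D := b
        have hle : ((s.T : ℝ) + D) / 4096 ≤ (s'.T : ℝ) / 4096 := by
          rw [b']
          push_cast
          have : (0 : ℝ) ≤ (k : ℝ) * D := by positivity
          linarith
        have hle0 : (s.T : ℝ) / 4096 ≤ ((s.T : ℝ) + D) / 4096 := by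
          have : (0 : ℝ) ≤ (D : ℝ) := by positivity
          linarith
        refine ⟨a, ?_, ?_⟩
        · rw [b']
          ring
        · rw [e2] at c
          refine good_mono (good_append hle0 hle gd c) (le_of_eq ?_)
          push_cast
          ring

/-- the form used in `partC` -/
theorem good_num (h : Good 0 8 (15312 / 10000)) :
    ∃ (Hb τ G : ℝ → ℝ) (C : ℝ), Measurable Hb ∧ Measurable τ ∧ Measurable G ∧
      (∀ t, |Hb t| ≤ C ∧ |τ t| ≤ C ∧ |G t| ≤ C) ∧
      (∀ t, 0 ≤ t → t ≤ 8 → 1 / 2 ≤ zF (t ^ 2) ∧ |rhoF (t ^ 2)| ≤ 11 / 10 ∧ 0 ≤ τ t ∧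
        16 / 5 * Hb t ≤ 2 * τ t + τ t ^ 2 ∧
        kzF (t ^ 2) ≤ (1 - Hb t - 1 / 10 ^ 6) * zF (t ^ 2)) ∧
      (∀ t, 0 < t → t ≤ 8 → t ^ 2 * Fn (Hb t) (τ t) (t ^ 2) ≤ G t) ∧
      ∫ t in (0 : ℝ)..8, G t ≤ 15312 / 10000 := by
  obtain ⟨Hb, τ, G, C, mH, mT, mG, bd, hc, hf, hi⟩ := h
  exact ⟨Hb, τ, G, C, mH, mT, mG, bd, fun t h0 h8 => hc t ⟨h0, h8⟩,
    fun t h0 h8 => hf t ⟨h0.le, h8⟩ h0, hi⟩

end WEL
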