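import Pool.Agent.WEL.N1
import Pool.Agent.WEL.N2

/-!
# WEL NDefs: soundness predicates of the integer program N2
-/

set_option autoImplicit false

open MeasureTheory Set Filter Topology

noncomputable section

namespace WEL

/-- soundness of an enclosure with exponent `e`, `t = T/4096`, step `D/4096` -/
structure TrOK (e : ℝ) (D T : ℕ) (s : Tr) : Prop where
  lo : (s.lo : ℝ) / 2 ^ 80 ≤ Real.exp (-(e * ((T : ℝ) / 4096) ^ 2))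
  hi : Real.exp (-(e * ((T : ℝ) / 4096) ^ 2)) ≤ (s.hi : ℝ) / 2 ^ 80
  ql : (s.ql : ℝ) / 2 ^ 80 ≤ Real.exp (-(e * ((((T : ℝ) + D) / 4096) ^ 2 - ((T : ℝ) / 4096) ^ 2)))
  qh : Real.exp (-(e * ((((T : ℝ) + D) / 4096) ^ 2 - ((T : ℝ) / 4096) ^ 2))) ≤ (s.qh : ℝ) / 2 ^ 80
  cl : (s.cl : ℝ) / 2 ^ 80 ≤ Real.exp (-(e * (2 * ((D : ℝ) / 4096) ^ 2)))
  ch : Real.exp (-(e * (2 * ((D : ℝ) / 4096) ^ 2))) ≤ (s.ch : ℝ) / 2 ^ 80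

/-- soundness of the lower bound of `t kiF(t²)` -/
structure JsOK (D T : ℕ) (j : Js) : Prop where
  J : (j.J : ℝ) / 2 ^ 80 ≤ (T : ℝ) / 4096 * kiF (((T : ℝ) / 4096) ^ 2)
  qa : (j.qa : ℝ) / 2 ^ 80 ≤
    Real.exp (-(8 * ((((T : ℝ) + D / 2) / 4096) ^ 2 - ((T : ℝ) / 4096) ^ 2)))
  cc : (j.cc : ℝ) / 2 ^ 80 ≤ Real.exp (-(4 * ((D : ℝ) / 4096) ^ 2))

/-- eight enclosures with exponents `b 0, …, b 7` -/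
structure VOK (b : Fin 8 → ℚ) (D T : ℕ) (v : V8) : Prop where
  h0 : TrOK ((b 0 : ℚ) : ℝ) D T v.a0
  h1 : TrOK ((b 1 : ℚ) : ℝ) D T v.a1
  h2 : TrOK ((b 2 : ℚ) : ℝ) D T v.a2
  h3 : TrOK ((b 3 : ℚ) : ℝ) D T v.a3
  h4 : TrOK ((b 4 : ℚ) : ℝ) D T v.a4
  h5 : TrOK ((b 5 : ℚ) : ℝ) D T v.a5
  h6 : TrOK ((b 6 : ℚ) : ℝ) D T v.a6
  h7 : TrOK ((b 7 : ℚ) : ℝ) D T v.a7

/-- soundness of a state for the step `D/4096` -/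
structure StOK (D : ℕ) (s : St) : Prop where
  A : VOK bq D s.T s.A
  B : VOK bq' D s.T s.B
  j : JsOK D s.T s.j

/-- soundness of the data at a node -/
structure NdOK (n : Nd) (x : ℝ) : Prop where
  hx : x = ((n.T : ℝ) / 4096) ^ 2
  rL : (n.rL : ℝ) / 2 ^ 80 ≤ rhoF x
  rH : rhoF x ≤ (n.rH : ℝ) / 2 ^ 80
  kL : (n.kL : ℝ) / 2 ^ 80 ≤ krhoF x
  kH : krhoF x ≤ (n.kH : ℝ) / 2 ^ 80
  zL : (n.zL : ℝ) / 2 ^ 80 ≤ zF x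
  wH : kzF x ≤ (n.wH : ℝ) / 2 ^ 80
  K : (n.K : ℝ) / 2 ^ 80 ≤ kiF x
  Mr : ∀ x1, Cv x x1 ((n.Mr : ℝ) / 2 ^ 80) rhoF ∧ Cv x x1 ((n.Mr : ℝ) / 2 ^ 80) (fun y => -rhoF y)
  Mk : ∀ x1, Cv x x1 ((n.Mk : ℝ) / 2 ^ 80) krhoF ∧
    Cv x x1 ((n.Mk : ℝ) / 2 ^ 80) (fun y => -krhoF y)
  Mz : ∀ x1, Cv x x1 ((n.Mz : ℝ) / 2 ^ 80) (fun y => -zF y)
  Mw : ∀ x1, Cv x x1 ((n.Mw : ℝ) / 2 ^ 80) kzF
  MK : ∀ x1, Cv x x1 ((n.MK : ℝ) / 2 ^ 80) (fun y => -kiF y)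

/-- what the certificate says about the interval `[t0,t1]` -/
def Good (t0 t1 I : ℝ) : Prop :=
  ∃ (Hb τ G : ℝ → ℝ) (C : ℝ), Measurable Hb ∧ Measurable τ ∧ Measurable G ∧
    (∀ t, |Hb t| ≤ C ∧ |τ t| ≤ C ∧ |G t| ≤ C) ∧
    (∀ t ∈ Icc t0 t1, 1 / 2 ≤ zF (t ^ 2) ∧ |rhoF (t ^ 2)| ≤ 11 / 10 ∧ 0 ≤ τ t ∧
      16 / 5 * Hb t ≤ 2 * τ t + τ t ^ 2 ∧
      kzF (t ^ 2) ≤ (1 - Hb t - 1 / 10 ^ 6) * zF (t ^ 2)) ∧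
    (∀ t ∈ Icc t0 t1, 0 < t → t ^ 2 * Fn (Hb t) (τ t) (t ^ 2) ≤ G t) ∧
    ∫ t in t0..t1, G t ≤ I

end WEL
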